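import Pool.Agent.CWB.Defs

/-!
# BG: symmetries of bipartite graphs with sides

`co` and `swap` preserve everything.  `S_{1,2,3}` and `P₇` are self-complementary:
if `c a b1 b2 d1 d2 d3` is an `S_{1,2,3}` of `B.co`, then the `S_{1,2,3}` of `B` has the
centre `b2`, leaf `d1`, path `d3, c`, path `a, d2, b1`;
if `p0 … p6` is a `P₇` of `B.co` then `p2 p5 p0 p3 p6 p1 p4` is a `P₇` of `B`.
-/

namespace Pool.Agent.CWB

variable {V : Type*}

namespace BG

private theorem bgbasic_ne_of_ne_ne {a b c : Bool} (h1 : a ≠ b) (h2 : b ≠ c) : a = c := by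
  revert h1 h2; cases a <;> cases b <;> cases c <;> simp

private theorem bgbasic_not_adj {B : BG V} {u v : V} (h : B.side u = B.side v) : ¬ B.adj u v :=
  fun h' => B.cross h' h

private theorem bgbasic_co {B : BG V} {u v : V} (h1 : B.side u ≠ B.side v) (h2 : ¬ B.adj u v) :
    B.co.adj u v := ⟨h1, h2⟩

private theorem bgbasic_not_co {B : BG V} {u v : V} (h1 : B.side u ≠ B.side v)
    (h : ¬ B.co.adj u v) : B.adj u v := by
  by_contra h2
  exact h ⟨h1, h2⟩

private theorem bgbasic_co_iff {B : BG V} {u u' w : V} (h : B.side u = B.side u') :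
    (B.co.adj u w ↔ B.co.adj u' w) ↔ (B.adj u w ↔ B.adj u' w) := by
  have e1 : B.co.adj u w ↔ (B.side u ≠ B.side w ∧ ¬ B.adj u w) := Iff.rfl
  have e2 : B.co.adj u' w ↔ (B.side u' ≠ B.side w ∧ ¬ B.adj u' w) := Iff.rfl
  rw [e1, e2, ← h]
  by_cases hs : B.side u = B.side w
  · have n1 : ¬ B.adj u w := bgbasic_not_adj hs
    have n2 : ¬ B.adj u' w := bgbasic_not_adj (h ▸ hs)
    simp [hs, n1, n2]
  · simp only [ne_eq, hs, not_false_eq_true, true_and]
    exact not_iff_not

private theorem bgbasic_co_iff' {B : BG V} {u u' w : V} (h : B.side u = B.side u') :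
    (B.co.adj w u ↔ B.co.adj w u') ↔ (B.adj w u ↔ B.adj w u') := by
  have e : ∀ (A : BG V) (x y : V), A.adj x y ↔ A.adj y x := fun A x y => ⟨A.symm, A.symm⟩
  rw [e B.co w u, e B.co w u', e B w u, e B w u']
  exact bgbasic_co_iff h

theorem co_co_adj (B : BG V) (u v : V) : B.co.co.adj u v ↔ B.adj u v := by
  constructor
  · rintro ⟨h1, h2⟩
    exact bgbasic_not_co h1 h2
  · intro h
    exact ⟨B.cross h, fun h' => h'.2 h⟩

theorem co_sfree {B : BG V} (h : B.SFree) : B.co.SFree := by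
  intro c a b1 b2 d1 d2 d3 hca hcb hbb hcd hdd hde n1 n2 n3 n4 n5 n6
  have sca := hca.1
  have scb := hcb.1
  have sbb := hbb.1
  have scd := hcd.1
  have sdd := hdd.1
  have sde := hde.1
  have ecb : B.side c = B.side b2 := bgbasic_ne_of_ne_ne scb sbb
  have ecd : B.side c = B.side d2 := bgbasic_ne_of_ne_ne scd sdd
  have m1 : B.adj b2 a := bgbasic_not_co (fun e => sca (ecb.trans e)) n1
  have m2 : B.adj b2 d1 := bgbasic_not_co (fun e => scd (ecb.trans e)) n2
  have m3 : B.adj b2 d3 := bgbasic_not_co (fun e => sde (ecd.symm.trans (ecb.trans e))) n3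
  have m4 : B.adj d2 a := bgbasic_not_co (fun e => sca (ecd.trans e)) n4
  have m5 : B.adj d2 b1 := bgbasic_not_co (fun e => scb (ecd.trans e)) n5
  have m6 : B.adj c d3 := bgbasic_not_co (fun e => sde (ecd.symm.trans e)) n6
  refine h b2 d1 d3 c a d2 b1 m2 m3 (B.symm m6) m1 (B.symm m4) m5 hcd.2 hca.2 hcb.2 ?_ hde.2 ?_
  · exact fun e => hdd.2 (B.symm e)
  · exact fun e => hbb.2 (B.symm e)

theorem swap_sfree {B : BG V} (h : B.SFree) : B.swap.SFree := h

theorem co_p7 {B : BG V} {p0 p1 p2 p3 p4 p5 p6 : V} (h : B.P7 p0 p1 p2 p3 p4 p5 p6) :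
    B.co.P7 p2 p5 p0 p3 p6 p1 p4 := by
  obtain ⟨a01, a12, a23, a34, a45, a56, n03, n05, n14, n16, n25, n36⟩ := h
  have s01 := B.cross a01
  have s12 := B.cross a12
  have s23 := B.cross a23
  have s34 := B.cross a34
  have s45 := B.cross a45
  have s56 := B.cross a56
  have e02 : B.side p0 = B.side p2 := bgbasic_ne_of_ne_ne s01 s12
  have e24 : B.side p2 = B.side p4 := bgbasic_ne_of_ne_ne s23 s34
  have e46 : B.side p4 = B.side p6 := bgbasic_ne_of_ne_ne s45 s56
  have e13 : B.side p1 = B.side p3 := bgbasic_ne_of_ne_ne s12 s23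
  have e35 : B.side p3 = B.side p5 := bgbasic_ne_of_ne_ne s34 s45
  refine ⟨⟨?_, n25⟩, ⟨?_, ?_⟩, ⟨?_, n03⟩, ⟨?_, n36⟩, ⟨?_, ?_⟩, ⟨?_, n14⟩, ?_, ?_, ?_, ?_, ?_, ?_⟩
  · exact fun e => s45 (e24.symm.trans e).symm.symm
  · exact fun e => s45 ((e.trans (e02.trans e24)).symm)
  · exact fun e => n05 (B.symm e)
  · exact fun e => s23 (e02.symm.trans e)
  · exact fun e => s34 ((e.trans e46.symm))
  · exact fun e => s01 (e02.trans (e24.trans (e46.trans e)))
  · exact fun e => n16 (B.symm e)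
  · exact fun e => s34 (e13.symm.trans e)
  · exact fun e => e.2 a23
  · exact fun e => e.2 (B.symm a12)
  · exact fun e => e.2 a56
  · exact fun e => e.2 (B.symm a45)
  · exact fun e => e.2 a01
  · exact fun e => e.2 a34

theorem co_p7free {B : BG V} {U : Set V} (h : B.P7Free U) : B.co.P7Free U := by
  intro p0 h0 p1 h1 p2 h2 p3 h3 p4 h4 p5 h5 p6 h6 hp
  have hq := co_p7 hp
  refine h p2 h2 p5 h5 p0 h0 p3 h3 p6 h6 p1 h1 p4 h4 ?_
  simpa only [P7, co_co_adj] using hq

theorem co_split_iff (B : BG V) (U : Set V) :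
    Split B.co.adj B.co.side U ↔ Split B.adj B.side U := by
  constructor
  · rintro ⟨S, T, h1, h2, h3, h4, h5, h6⟩
    refine ⟨S, T, h1, h2, h3, h4, ?_, ?_⟩
    · intro u hu u' hu' hc w hw
      exact (bgbasic_co_iff (B := B) hc).1 (h5 u hu u' hu' hc w hw)
    · intro w hw w' hw' hc u hu
      exact (bgbasic_co_iff (B := B) hc).1 (h6 w hw w' hw' hc u hu)
  · rintro ⟨S, T, h1, h2, h3, h4, h5, h6⟩
    refine ⟨S, T, h1, h2, h3, h4, ?_, ?_⟩
    · intro u hu u' hu' hc w hw
      exact (bgbasic_co_iff (B := B) hc).2 (h5 u hu u' hu' hc w hw)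
    · intro w hw w' hw' hc u hu
      exact (bgbasic_co_iff (B := B) hc).2 (h6 w hw w' hw' hc u hu)

private theorem bgbasic_swap_side {B : BG V} {u v : V} :
    B.swap.side u = B.swap.side v ↔ B.side u = B.side v := by
  show (!B.side u) = (!B.side v) ↔ _
  exact Bool.not_inj_iff

theorem swap_split_iff (B : BG V) (U : Set V) :
    Split B.swap.adj B.swap.side U ↔ Split B.adj B.side U := by
  constructor
  · rintro ⟨S, T, h1, h2, h3, h4, h5, h6⟩
    refine ⟨S, T, h1, h2, h3, h4, ?_, ?_⟩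
    · intro u hu u' hu' hc w hw
      exact h5 u hu u' hu' (bgbasic_swap_side.2 hc) w hw
    · intro w hw w' hw' hc u hu
      exact h6 w hw w' hw' (bgbasic_swap_side.2 hc) u hu
  · rintro ⟨S, T, h1, h2, h3, h4, h5, h6⟩
    refine ⟨S, T, h1, h2, h3, h4, ?_, ?_⟩
    · intro u hu u' hu' hc w hw
      exact h5 u hu u' hu' (bgbasic_swap_side.1 hc) w hw
    · intro w hw w' hw' hc u hu
      exact h6 w hw w' hw' (bgbasic_swap_side.1 hc) u hu

theorem co_twinFree_iff (B : BG V) (U : Set V) : B.co.TwinFree U ↔ B.TwinFree U := by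
  constructor
  · intro h u hu v hv hne hs
    obtain ⟨w, hw, hn⟩ := h u hu v hv hne hs
    exact ⟨w, hw, fun e => hn ((bgbasic_co_iff (B := B) hs).2 e)⟩
  · intro h u hu v hv hne hs
    obtain ⟨w, hw, hn⟩ := h u hu v hv hne hs
    exact ⟨w, hw, fun e => hn ((bgbasic_co_iff (B := B) hs).1 e)⟩

theorem swap_twinFree_iff (B : BG V) (U : Set V) : B.swap.TwinFree U ↔ B.TwinFree U := by
  constructor
  · intro h u hu v hv hne hs
    exact h u hu v hv hne (bgbasic_swap_side.2 hs)
  · intro h u hu v hv hne hs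
    exact h u hu v hv hne (bgbasic_swap_side.1 hs)

private theorem bgbasic_cls {B : BG V} {k : ℕ} {U S : Set V} :
    Cls B.co.adj B.co.side k U S ↔ Cls B.adj B.side k U S := by
  constructor
  · rintro ⟨f, hf⟩
    refine ⟨f, fun u hu v hv e => ?_⟩
    obtain ⟨h1, h2⟩ := hf u hu v hv e
    have h1' : B.side u = B.side v := h1
    exact ⟨h1', fun w hw hn => (bgbasic_co_iff h1').1 (h2 w hw hn)⟩
  · rintro ⟨f, hf⟩
    refine ⟨f, fun u hu v hv e => ?_⟩
    obtain ⟨h1, h2⟩ := hf u hu v hv e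
    exact ⟨h1, fun w hw hn => (bgbasic_co_iff h1).2 (h2 w hw hn)⟩

theorem co_dec_iff (B : BG V) (k : ℕ) (U S : Set V) :
    Dec B.co.adj B.co.side k U S ↔ Dec B.adj B.side k U S := by
  constructor
  · intro h
    induction h with
    | single v => exact Dec.single v
    | union S T hd _ _ hc ih1 ih2 => exact Dec.union S T hd ih1 ih2 (bgbasic_cls.1 hc)
  · intro h
    induction h with
    | single v => exact Dec.single v
    | union S T hd _ _ hc ih1 ih2 => exact Dec.union S T hd ih1 ih2 (bgbasic_cls.2 hc)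

/-- `S_{1,2,3}`-freeness from the general relational form -/
theorem sfree_of_SF {B : BG V} (h : SF B.adj) : B.SFree := by
  intro c a b1 b2 d1 d2 d3 hca hcb hbb hcd hdd hde n1 n2 n3 n4 n5 n6
  have sca := B.cross hca
  have scb := B.cross hcb
  have sbb := B.cross hbb
  have scd := B.cross hcd
  have sdd := B.cross hdd
  have sde := B.cross hde
  have ecb : B.side c = B.side b2 := bgbasic_ne_of_ne_ne scb sbb
  have ecd : B.side c = B.side d2 := bgbasic_ne_of_ne_ne scd sdd
  have eab : B.side a = B.side b1 := bgbasic_ne_of_ne_ne (fun e => sca e.symm) scb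
  have ead : B.side a = B.side d1 := bgbasic_ne_of_ne_ne (fun e => sca e.symm) scd
  have edd : B.side d1 = B.side d3 := bgbasic_ne_of_ne_ne sdd sde
  refine h c a b1 b2 d1 d2 d3 hca hcb hbb hcd hdd hde (bgbasic_not_adj eab)
    (fun e => n1 (B.symm e)) (bgbasic_not_adj ead) (fun e => n4 (B.symm e))
    (bgbasic_not_adj (ead.trans edd)) (bgbasic_not_adj ecb) (bgbasic_not_adj ecd) n6
    (bgbasic_not_adj (eab.symm.trans ead)) (fun e => n5 (B.symm e))
    (bgbasic_not_adj (eab.symm.trans (ead.trans edd))) n2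
    (bgbasic_not_adj (ecb.symm.trans ecd)) n3 (bgbasic_not_adj edd)

/-- four vertices or more: the vertices of an induced path are distinct -/
theorem IsPath.inj {B : BG V} {n : ℕ} {p : ℕ → V} (hn : 4 ≤ n) (h : B.IsPath n p) :
    ∀ i < n, ∀ j < n, p i = p j → i = j := by
  have key : ∀ i < n, ∀ j < n, i < j → p i ≠ p j := by
    intro i hi j hj hij he
    have hl : ∀ l < n, ((l = i + 1 ∨ i = l + 1) ↔ (l = j + 1 ∨ j = l + 1)) := by
      intro l hl
      rw [← h i hi l hl, ← h j hj l hl, he]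
    have h1 := hl j hj
    have h2 := hl i hi
    rcases Nat.eq_zero_or_pos i with h0 | h0
    · have h3 := hl 1 (by omega)
      have h4 := hl 3 (by omega)
      omega
    · have h3 := hl (i - 1) (by omega)
      omega
  intro i hi j hj he
  rcases Nat.lt_trichotomy i j with hlt | heq | hgt
  · exact absurd he (key i hi j hj hlt)
  · exact heq
  · exact absurd he.symm (key j hj i hi hgt)

/-- sides alternate along a path -/
theorem IsPath.side {B : BG V} {n : ℕ} {p : ℕ → V} (h : B.IsPath n p) :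
    ∀ i < n, ∀ j < n, (B.side (p i) = B.side (p j) ↔ i % 2 = j % 2) := by
  have key : ∀ i < n, (B.side (p i) = B.side (p 0) ↔ i % 2 = 0) := by
    intro i
    induction i with
    | zero => intro _; simp
    | succ i ih =>
      intro hi
      have hi' : i < n := by omega
      have ih' := ih hi'
      have ha : B.adj (p i) (p (i + 1)) := (h i hi' (i + 1) hi).2 (Or.inl rfl)
      have hs := B.cross ha
      have hp : (i + 1) % 2 = 0 ↔ ¬ (i % 2 = 0) := by omega
      rw [hp, ← ih']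
      revert hs
      cases B.side (p i) <;> cases B.side (p (i + 1)) <;> cases B.side (p 0) <;> simp
  intro i hi j hj
  have h1 := key i hi
  have h2 := key j hj
  have hp : i % 2 = j % 2 ↔ (i % 2 = 0 ↔ j % 2 = 0) := by omega
  rw [hp, ← h1, ← h2]
  cases B.side (p i) <;> cases B.side (p j) <;> cases B.side (p 0) <;> simp

private theorem bgbasic_split_symm {B : BG V} {S T : Set V}
    (h1 : ∀ u ∈ S, ∀ u' ∈ S, B.side u = B.side u' → ∀ w ∈ T, (B.adj u w ↔ B.adj u' w))
    (h2 : ∀ w ∈ T, ∀ w' ∈ T, B.side w = B.side w' → ∀ u ∈ S, (B.adj w u ↔ B.adj w' u))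
    {U : Set V} {u v : V} (hu : u ∈ S) (hS : S ∪ T = U \ {v}) (hv : v ∈ U)
    (hd : Disjoint S T) (hT : T.Nonempty)
    (hs : B.side u = B.side v) (htw : ∀ w ∈ U, (B.adj u w ↔ B.adj v w)) :
    Split B.adj B.side U := by
  have hTU : ∀ w ∈ T, w ∈ U ∧ w ≠ v := by
    intro w hw
    have : w ∈ U \ {v} := hS ▸ Or.inr hw
    exact ⟨this.1, fun e => this.2 (by simp [e])⟩
  refine ⟨insert v S, T, ?_, ?_, ⟨v, Or.inl rfl⟩, hT, ?_, ?_⟩
  · rw [Set.insert_union, hS]
    simp [Set.insert_eq_of_mem hv]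
  · rw [Set.disjoint_insert_left]
    exact ⟨fun hvT => (hTU v hvT).2 rfl, hd⟩
  · intro a ha a' ha' hc w hw
    have hwU := (hTU w hw).1
    rcases ha with rfl | ha <;> rcases ha' with rfl | ha'
    · exact Iff.rfl
    · rw [← htw w hwU]
      exact h1 u hu a' ha' (hs.trans hc) w hw
    · rw [← htw w hwU]
      exact h1 a ha u hu (hc.trans hs.symm) w hw
    · exact h1 a ha a' ha' hc w hw
  · intro w hw w' hw' hc a ha
    rcases ha with rfl | ha
    · have e : ∀ x y : V, B.adj x y ↔ B.adj y x := fun x y => ⟨B.symm, B.symm⟩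
      rw [e w a, e w' a, ← htw w (hTU w hw).1, ← htw w' (hTU w' hw').1, e u w, e u w']
      exact h2 w hw w' hw' hc u hu
    · exact h2 w hw w' hw' hc a ha

/-- If `U` is twin-free and has a split-free structure then every proper part ... :
a split of `U \ {v}` extends to a split of `U` when `v` has a twin in `U`. -/
theorem split_of_twin {B : BG V} {U : Set V} {u v : V} (hu : u ∈ U) (hv : v ∈ U) (hne : u ≠ v)
    (hs : B.side u = B.side v) (htw : ∀ w ∈ U, (B.adj u w ↔ B.adj v w))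
    (h : Split B.adj B.side (U \ {v})) : Split B.adj B.side U := by
  obtain ⟨S, T, h1, h2, h3, h4, h5, h6⟩ := h
  have huST : u ∈ S ∪ T := by
    rw [h1]
    exact ⟨hu, hne⟩
  rcases huST with huS | huT
  · exact bgbasic_split_symm h5 h6 huS h1 hv h2 h4 hs htw
  · exact bgbasic_split_symm h6 h5 huT (by rw [Set.union_comm]; exact h1) hv h2.symm h3 hs htw

end BG

end Pool.Agent.CWB
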