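import Pool.Agent.CWB.Defs

/-!
# DEC: basic operations on decomposition trees

All proofs are short inductions on `Dec`.
-/

namespace Pool.Agent.CWB

variable {V K K' : Type*} {adj adj' : V → V → Prop} {col : V → K} {k : ℕ} {U S : Set V}

private theorem decBasic_cls_mono_k {k' : ℕ} (hk : k ≤ k') {T : Set V} (h : Cls adj col k U T) :
    Cls adj col k' U T := by
  obtain ⟨f, hf⟩ := h
  refine ⟨fun v => Fin.castLE hk (f v), fun u hu v hv huv => hf u hu v hv ?_⟩
  exact Fin.castLE_injective hk huv

/-- bigger `k` -/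
theorem Dec.mono_k {k' : ℕ} (hk : k ≤ k') (h : Dec adj col k U S) : Dec adj col k' U S := by
  induction h with
  | single v => exact Dec.single v
  | union S T hd _ _ hc ihS ihT => exact Dec.union S T hd ihS ihT (decBasic_cls_mono_k hk hc)

/-- coarser colours -/
theorem Dec.coarse (g : K → K') (h : Dec adj col k U S) : Dec adj (fun v => g (col v)) k U S := by
  induction h with
  | single v => exact Dec.single v
  | union S T hd _ _ hc ihS ihT =>
    refine Dec.union S T hd ihS ihT ?_
    obtain ⟨f, hf⟩ := hc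
    refine ⟨f, fun u hu v hv huv => ⟨?_, (hf u hu v hv huv).2⟩⟩
    exact congrArg g (hf u hu v hv huv).1

private theorem decBasic_nonempty {T : Set V} (h : Dec adj col k U T) : T.Nonempty := by
  induction h with
  | single v => exact ⟨v, rfl⟩
  | union S T _ _ _ _ ihS _ => exact ihS.mono Set.subset_union_left

private theorem decBasic_lift
    (hhom : ∀ u ∈ S, ∀ u' ∈ S, col u = col u' → ∀ w ∈ U, w ∉ S → (adj u w ↔ adj u' w))
    {T : Set V} (h : Dec adj col k S T) : T ⊆ S → Dec adj col k U T := by
  induction h with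
  | single v => exact fun _ => Dec.single v
  | union A B hd _ _ hc ihA ihB =>
    intro hAB
    refine Dec.union A B hd (ihA (Set.subset_union_left.trans hAB))
      (ihB (Set.subset_union_right.trans hAB)) ?_
    obtain ⟨f, hf⟩ := hc
    refine ⟨f, fun u hu v hv huv => ?_⟩
    obtain ⟨h1, h2⟩ := hf u hu v hv huv
    refine ⟨h1, fun w hw hwT => ?_⟩
    by_cases hwS : w ∈ S
    · exact h2 w hwS hwT
    · exact hhom u (hAB hu) v (hAB hv) h1 w hw hwS

/-- From the decomposition tree of `S` as a graph of its own (`U := S`) to the tree of `S` inside `U`,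
when vertices of `S` with the same colour have the same neighbours in `U \ S`. -/
theorem Dec.lift (hSU : S ⊆ U)
    (hhom : ∀ u ∈ S, ∀ u' ∈ S, col u = col u' → ∀ w ∈ U, w ∉ S → (adj u w ↔ adj u' w))
    (h : Dec adj col k S S) : Dec adj col k U S := by
  have _ := hSU
  exact decBasic_lift hhom h subset_rfl

/-- If `U` has a split into `S` and `T` (see `Split`) and both parts have trees, `U` has one. -/
theorem dec_of_split [Fintype K] (hk : Fintype.card K ≤ k) {T : Set V}
    (hST : S ∪ T = U) (hdis : Disjoint S T)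
    (h1 : ∀ u ∈ S, ∀ u' ∈ S, col u = col u' → ∀ w ∈ T, (adj u w ↔ adj u' w))
    (h2 : ∀ w ∈ T, ∀ w' ∈ T, col w = col w' → ∀ u ∈ S, (adj w u ↔ adj w' u))
    (hS : Dec adj col k S S) (hT : Dec adj col k T T) : Dec adj col k U U := by
  have hS' : Dec adj col k U S := by
    refine Dec.lift (hST ▸ Set.subset_union_left) (fun u hu u' hu' hc w hw hwS => ?_) hS
    refine h1 u hu u' hu' hc w ?_
    rw [← hST] at hw
    exact hw.resolve_left hwS
  have hT' : Dec adj col k U T := by
    refine Dec.lift (hST ▸ Set.subset_union_right) (fun u hu u' hu' hc w hw hwT => ?_) hT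
    refine h2 u hu u' hu' hc w ?_
    rw [← hST] at hw
    exact hw.resolve_right hwT
  have hcls : Cls adj col k U (S ∪ T) := by
    refine ⟨fun v => Fin.castLE hk (Fintype.equivFin K (col v)), fun u _ v _ huv => ⟨?_, ?_⟩⟩
    · exact (Fintype.equivFin K).injective (Fin.castLE_injective hk huv)
    · intro w hw hwS
      rw [hST] at hwS
      exact absurd hw hwS
  have := Dec.union S T hdis hS' hT' hcls
  rwa [hST] at this

private theorem decBasic_twin (hsymm : ∀ a b, adj a b → adj b a) (hk : 1 ≤ k) {u u' : V}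
    (hu : u ∈ U) (hne : u ≠ u') (hcol : col u = col u')
    (htw : ∀ w ∈ U, w ≠ u → w ≠ u' → (adj u w ↔ adj u' w)) {T : Set V}
    (h : Dec adj col k (U \ {u'}) T) : T ⊆ U \ {u'} →
      ((u ∉ T → Dec adj col k U T) ∧ (u ∈ T → Dec adj col k U (T ∪ {u'}))) := by
  -- classes of a node without `u`
  have key1 : ∀ T : Set V, T ⊆ U \ {u'} → u ∉ T → Cls adj col k (U \ {u'}) T →
      Cls adj col k U T := by
    intro T hTU huT hc
    obtain ⟨f, hf⟩ := hc
    refine ⟨f, fun a ha b hb hab => ?_⟩
    obtain ⟨g1, g2⟩ := hf a ha b hb hab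
    refine ⟨g1, fun w hw hwT => ?_⟩
    by_cases hwu : w = u'
    · subst hwu
      have e : ∀ x ∈ T, (adj x w ↔ adj x u) := by
        intro x hx
        have hx1 : x ∈ U := (hTU hx).1
        have hx2 : x ≠ w := fun h => (hTU hx).2 h
        have hx3 : x ≠ u := fun h => huT (h ▸ hx)
        have := htw x hx1 hx3 hx2
        constructor
        · intro hh
          exact hsymm _ _ (this.mpr (hsymm _ _ hh))
        · intro hh
          exact hsymm _ _ (this.mp (hsymm _ _ hh))
      rw [e a ha, e b hb]
      exact g2 u ⟨hu, hne⟩ huT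
    · exact g2 w ⟨hw, hwu⟩ hwT
  -- classes of a node with `u`
  have key2 : ∀ T : Set V, T ⊆ U \ {u'} → u ∈ T → Cls adj col k (U \ {u'}) T →
      Cls adj col k U (T ∪ {u'}) := by
    intro T hTU huT hc
    classical
    obtain ⟨f, hf⟩ := hc
    obtain ⟨ρ, hρ⟩ : ∃ ρ : V → V, ρ = fun x => if x = u' then u else x := ⟨_, rfl⟩
    have hρT : ∀ x ∈ T ∪ {u'}, ρ x ∈ T := by
      intro x hx
      rw [hρ]
      by_cases hxu : x = u'
      · simpa [hxu] using huT
      · simp only [hxu, if_false]
        exact hx.resolve_right hxu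
    have hρc : ∀ x, col (ρ x) = col x := by
      intro x
      rw [hρ]
      by_cases hxu : x = u'
      · simp [hxu, hcol]
      · simp [hxu]
    have hρa : ∀ x, ∀ w ∈ U, w ∉ T ∪ {u'} → (adj (ρ x) w ↔ adj x w) := by
      intro x w hw hwT
      rw [hρ]
      by_cases hxu : x = u'
      · simp only [hxu, if_true]
        refine htw w hw ?_ ?_
        · rintro rfl; exact hwT (Or.inl huT)
        · rintro rfl; exact hwT (Or.inr rfl)
      · simp [hxu]
    refine ⟨fun x => f (ρ x), fun a ha b hb hab => ?_⟩
    obtain ⟨g1, g2⟩ := hf (ρ a) (hρT a ha) (ρ b) (hρT b hb) hab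
    refine ⟨by rw [← hρc a, ← hρc b]; exact g1, fun w hw hwT => ?_⟩
    rw [← hρa a w hw hwT, ← hρa b w hw hwT]
    refine g2 w ⟨hw, fun h => hwT (Or.inr h)⟩ fun h => hwT (Or.inl h)
  induction h with
  | single v =>
    intro hv
    refine ⟨fun _ => Dec.single v, fun huv => ?_⟩
    have huv' : u = v := huv
    subst huv'
    refine Dec.union {u} {u'} (by simpa using hne) (Dec.single u) (Dec.single u') ?_
    refine ⟨fun _ => ⟨0, hk⟩, fun a ha b hb _ => ?_⟩
    have e1 : ∀ x ∈ ({u} ∪ {u'} : Set V), col x = col u := by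
      rintro x (hx | hx)
      · rw [Set.mem_singleton_iff.mp hx]
      · rw [Set.mem_singleton_iff.mp hx, hcol]
    refine ⟨by rw [e1 a ha, e1 b hb], fun w hw hwT => ?_⟩
    have e2 : ∀ x ∈ ({u} ∪ {u'} : Set V), (adj x w ↔ adj u w) := by
      rintro x (hx | hx)
      · rw [Set.mem_singleton_iff.mp hx]
      · rw [Set.mem_singleton_iff.mp hx]
        refine (htw w hw ?_ ?_).symm
        · rintro rfl; exact hwT (Or.inl rfl)
        · rintro rfl; exact hwT (Or.inr rfl)
    rw [e2 a ha, e2 b hb]
  | union A B hd _ _ hc ihA ihB =>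
    intro hAB
    have hA := ihA (Set.subset_union_left.trans hAB)
    have hB := ihB (Set.subset_union_right.trans hAB)
    refine ⟨fun hnu => ?_, fun hyu => ?_⟩
    · exact Dec.union A B hd (hA.1 fun h => hnu (Or.inl h)) (hB.1 fun h => hnu (Or.inr h))
        (key1 _ hAB hnu hc)
    · have hcl := key2 _ hAB hyu hc
      have hu'A : u' ∉ A := fun h => (hAB (Or.inl h)).2 rfl
      have hu'B : u' ∉ B := fun h => (hAB (Or.inr h)).2 rfl
      rcases hyu with huA | huB
      · have huB : u ∉ B := fun h => (Set.disjoint_left.mp hd huA) h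
        have e : A ∪ B ∪ {u'} = (A ∪ {u'}) ∪ B := by
          ext x; simp only [Set.mem_union]; tauto
        rw [e] at hcl ⊢
        refine Dec.union _ _ ?_ (hA.2 huA) (hB.1 huB) hcl
        rw [Set.disjoint_left]
        rintro x (hx | hx) hxB
        · exact Set.disjoint_left.mp hd hx hxB
        · rw [Set.mem_singleton_iff.mp hx] at hxB
          exact hu'B hxB
      · have huA : u ∉ A := fun h => (Set.disjoint_left.mp hd h) huB
        have e : A ∪ B ∪ {u'} = A ∪ (B ∪ {u'}) := by
          ext x; simp only [Set.mem_union]; tauto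
        rw [e] at hcl ⊢
        refine Dec.union _ _ ?_ (hA.1 huA) (hB.2 huB) hcl
        rw [Set.disjoint_left]
        rintro x hx (hxB | hxB)
        · exact Set.disjoint_left.mp hd hx hxB
        · rw [Set.mem_singleton_iff.mp hxB] at hx
          exact hu'A hx

/-- Twins.  In the tree of `U \ {u'}` replace the leaf `{u}` by `{u} ∪ {u'}`
(prove by induction on the tree: a node `S` without `u` stays, a node `S ∋ u` becomes `S ∪ {u'}`). -/
theorem dec_twin (hsymm : ∀ a b, adj a b → adj b a) (hk : 1 ≤ k) {u u' : V} (hu : u ∈ U) (hu' : u' ∈ U)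
    (hne : u ≠ u') (hcol : col u = col u')
    (htw : ∀ w ∈ U, w ≠ u → w ≠ u' → (adj u w ↔ adj u' w))
    (h : Dec adj col k (U \ {u'}) (U \ {u'})) : Dec adj col k U U := by
  have h1 := (decBasic_twin hsymm hk hu hne hcol htw h subset_rfl).2 ⟨hu, hne⟩
  have e : U \ {u'} ∪ {u'} = U := Set.sdiff_union_of_subset (by simpa using hu')
  rwa [e] at h1

/-- Linear decomposition: order the vertices by the injective rank `r`; all prefixes are nodes. -/
theorem dec_linear (hfin : U.Finite) (hne : U.Nonempty) (r : V → ℕ) (hr : Set.InjOn r U)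
    (h : ∀ j : ℕ, Cls adj col k U {u ∈ U | r u ≤ j}) : Dec adj col k U U := by
  have key : ∀ j : ℕ, {u ∈ U | r u ≤ j} = ∅ ∨ Dec adj col k U {u ∈ U | r u ≤ j} := by
    -- a level is empty or a singleton
    have hlev : ∀ j : ℕ, {u ∈ U | r u = j} = ∅ ∨ ∃ v, {u ∈ U | r u = j} = {v} := by
      intro j
      rcases Set.eq_empty_or_nonempty {u ∈ U | r u = j} with h0 | ⟨v, hv⟩
      · exact Or.inl h0
      · refine Or.inr ⟨v, ?_⟩
        ext x
        constructor
        · intro hx
          exact hr hx.1 hv.1 (hx.2.trans hv.2.symm)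
        · intro hx
          rw [Set.mem_singleton_iff.mp hx]
          exact hv
    intro j
    induction j with
    | zero =>
      have e : {u ∈ U | r u ≤ 0} = {u ∈ U | r u = 0} := by
        ext x; simp
      rw [e]
      rcases hlev 0 with h0 | ⟨v, hv⟩
      · exact Or.inl h0
      · rw [hv]; exact Or.inr (Dec.single v)
    | succ j ih =>
      have e : {u ∈ U | r u ≤ j + 1} = {u ∈ U | r u ≤ j} ∪ {u ∈ U | r u = j + 1} := by
        ext x
        simp only [Set.mem_union, Set.mem_ofPred_eq]
        constructor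
        · rintro ⟨h1, h2⟩
          rcases Nat.lt_or_ge j (r x) with h3 | h3
          · exact Or.inr ⟨h1, by omega⟩
          · exact Or.inl ⟨h1, h3⟩
        · rintro (⟨h1, h2⟩ | ⟨h1, h2⟩)
          · exact ⟨h1, by omega⟩
          · exact ⟨h1, by omega⟩
      have hc := h (j + 1)
      rw [e] at hc ⊢
      rcases ih with h0 | hD
      · rw [h0, Set.empty_union]
        rcases hlev (j + 1) with h1 | ⟨v, hv⟩
        · exact Or.inl h1
        · rw [hv]; exact Or.inr (Dec.single v)
      · rcases hlev (j + 1) with h1 | ⟨v, hv⟩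
        · rw [h1, Set.union_empty]; exact Or.inr hD
        · right
          have hv' : v ∈ {u ∈ U | r u = j + 1} := by rw [hv]; rfl
          rw [hv] at hc ⊢
          refine Dec.union _ _ ?_ hD (Dec.single v) hc
          rw [Set.disjoint_left]
          rintro x hx hxv
          rw [Set.mem_singleton_iff.mp hxv] at hx
          have h1 : r v ≤ j := hx.2
          have h2 : r v = j + 1 := hv'.2
          omega
  obtain ⟨M, hM⟩ : ∃ M : ℕ, ∀ u ∈ U, r u ≤ M := by
    obtain ⟨M, hM⟩ := (hfin.image r).bddAbove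
    exact ⟨M, fun u hu => hM ⟨u, hu, rfl⟩⟩
  have e : {u ∈ U | r u ≤ M} = U := by
    ext x
    exact ⟨fun hx => hx.1, fun hx => ⟨hx, hM x hx⟩⟩
  rcases key M with h0 | hD
  · rw [e] at h0
    exact absurd h0 hne.ne_empty
  · rwa [e] at hD

/-- Flips: `adj' u v` is determined by `adj u v` and by the new colours of `u` and `v`.
(The new classes are the pairs (old class, new colour).) -/
theorem dec_flip [Fintype K'] {κ : V → K'} (F : Prop → K' → K' → Prop)
    (hF : ∀ u ∈ U, ∀ v ∈ U, u ≠ v → (adj' u v ↔ F (adj u v) (κ u) (κ v)))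
    (hSU : S ⊆ U) (h : Dec adj col k U S) : Dec adj' κ (k * Fintype.card K') U S := by
  revert hSU
  induction h with
  | single v => exact fun _ => Dec.single v
  | union A B hd _ _ hc ihA ihB =>
    intro hAB
    refine Dec.union A B hd (ihA (Set.subset_union_left.trans hAB))
      (ihB (Set.subset_union_right.trans hAB)) ?_
    obtain ⟨f, hf⟩ := hc
    refine ⟨fun v => finProdFinEquiv (f v, Fintype.equivFin K' (κ v)), fun u hu v hv huv => ?_⟩
    have h1 := finProdFinEquiv.injective huv
    have h2 : f u = f v := congrArg Prod.fst h1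
    have h3 : κ u = κ v := (Fintype.equivFin K').injective (congrArg Prod.snd h1)
    refine ⟨h3, fun w hw hwT => ?_⟩
    have hua : u ≠ w := fun h => hwT (h ▸ hu)
    have hva : v ≠ w := fun h => hwT (h ▸ hv)
    have h4 : adj u w = adj v w := propext ((hf u hu v hv h2).2 w hw hwT)
    rw [hF u (hAB hu) w hw hua, hF v (hAB hv) w hw hva, h4, h3]

private theorem decBasic_subtype (U : Set V) {T : Set U}
    (h : Dec (fun a b : U => adj a.1 b.1) (fun a : U => col a.1) k Set.univ T) :
    Dec adj col k U (Subtype.val '' T) := by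
  induction h with
  | single v => rw [Set.image_singleton]; exact Dec.single _
  | union A B hd hA _ hc ihA ihB =>
    rw [Set.image_union]
    refine Dec.union _ _ ((Set.disjoint_image_iff Subtype.val_injective).mpr hd) ihA ihB ?_
    rw [← Set.image_union]
    classical
    obtain ⟨f, hf⟩ := hc
    obtain ⟨x0, _⟩ := decBasic_nonempty hA
    refine ⟨fun x => if hx : x ∈ U then f ⟨x, hx⟩ else f x0, ?_⟩
    rintro _ ⟨u, hu, rfl⟩ _ ⟨v, hv, rfl⟩ huv
    have h1 : f u = f v := by
      simpa only [Subtype.coe_prop, dif_pos] using huv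
    obtain ⟨g1, g2⟩ := hf u hu v hv h1
    refine ⟨g1, fun w hw hwT => ?_⟩
    exact g2 ⟨w, hw⟩ trivial fun hh => hwT ⟨_, hh, rfl⟩

/-- transfer from a subtype -/
theorem dec_subtype (U : Set V)
    (h : Dec (fun a b : U => adj a.1 b.1) (fun a : U => col a.1) k Set.univ Set.univ) :
    Dec adj col k U U := by
  have h1 := decBasic_subtype U h
  rwa [Set.image_univ, Subtype.range_coe] at h1

end Pool.Agent.CWB
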