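import Pool.Agent.CWB.LM2a

/-! LM2: the end of the proof of Lemma M ((MAX), (SER), conclusion), see the text in LM2a.lean -/

namespace Pool.Agent.CWB

variable {V : Type*}

/-- the sides of two vertices different from a third one coincide -/
theorem LM2_bool {a b c : Bool} (h : a ≠ c) (h' : b ≠ c) : a = b := by
  revert h h'; revert a b c; decide

/-- `L`-edges of the bipartite complement are the `K`-nonedges -/
theorem LM2_le_co {B : BG V} {U P : Set V} {k l : V} :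
    LM2.LE B.co U P k l ↔ B.V1 U P k ∧ B.V1 U P l ∧ B.side k ≠ B.side l ∧ ¬ B.adj k l := by
  unfold LM2.LE
  rw [LM1.v0_co, LM1.v0_co]
  rfl

/-- membership in `N` for the bipartite complement -/
theorem LM2_mem_N_co {B : BG V} {U P : Set V} {k l u : V} :
    u ∈ LM2.N B.co U P k l ↔ B.V0 U P u ∧
      ((B.side u ≠ B.side k ∧ ¬ B.adj u k) ∨ (B.side u ≠ B.side l ∧ ¬ B.adj u l)) := by
  unfold LM2.N
  change B.co.V1 U P u ∧ _ ↔ _
  rw [LM1.v1_co]
  rfl

/-- existence of a minimal `L`-edge -/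
theorem LM2_exists_min {B : BG V} {U P : Set V} {x y : V} (h : LM2.LE B U P x y) :
    ∃ x y, LM2.LMin B U P x y := by
  classical
  let S : Set ℕ := {n | ∃ x y, LM2.LE B U P x y ∧ n = (LM2.N B U P x y).ncard}
  have hS : S.Nonempty := ⟨_, x, y, h, rfl⟩
  obtain ⟨a, b, hab, hn⟩ := Nat.sInf_mem hS
  refine ⟨a, b, hab, fun z w hzw => ?_⟩
  rw [← hn]
  exact Nat.sInf_le ⟨z, w, hzw, rfl⟩

/-- (SER): the contradiction, in the case that `b` is not adjacent to `k1` -/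
theorem LM2_ser {B : BG V} {U P : Set V} (M : B.MCtx U P) (hns : ¬ Split B.adj B.side U)
    {k1 l1 b : V} (hk1 : B.V1 U P k1)
    (hmax : ∀ k l, LM2.LE B.co U P k l → b ∈ LM2.N B.co U P k l)
    (hstar : ∀ z w, LM2.LE B U P z w → B.side w ≠ B.side k1 → B.adj k1 w)
    (hb : B.V0 U P b) (hs : B.side b ≠ B.side k1) (hna : ¬ B.adj b k1) : False := by
  have hnoL : ∀ x, B.V0 U P x → B.adj x b → False := by
    intro x hx hxb
    exact hna (B.symm (hstar x b ⟨hx, hb, hxb⟩ hs))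
  rcases (LM1.ks M hns).2 b hb with h | h | h
  · obtain ⟨-, x, hx, hxb⟩ := h
    exact hnoL x hx hxb
  · obtain ⟨k, ⟨hk, l, hl, hlk, hkl⟩, hbk⟩ := h
    have hLE : LM2.LE B.co U P k l := LM2_le_co.2 ⟨hk, hl, hlk.symm, hkl⟩
    rcases (LM2_mem_N_co.1 (hmax k l hLE)).2 with h1 | h1
    · exact h1.2 hbk
    · exact h1.1 (LM2_bool (B.cross hbk) hlk)
  · obtain ⟨a, y', ha, hba, ⟨hy', x', hx', hxy'⟩, hsy, hay⟩ := h
    have hky : B.adj k1 y' := by
      refine hstar x' y' ⟨hx', hy', hxy'⟩ ?_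
      rw [hsy]; exact hs
    have hsa : B.side k1 = B.side a := LM2_bool hs.symm (B.cross (B.symm hba))
    exact LM1.fC1 M hk1 ha hsa hy' hb hx' hky (B.symm hba) (fun h => hna (B.symm h)) hay hxy'
      (fun h => hnoL x' hx' h)

/-- an `L`-edge implies a split -/
theorem LM2_noL {B : BG V} {U P : Set V} (M : B.MCtx U P) (hns : ¬ Split B.adj B.side U)
    (z w : V) (hzw : LM2.LE B U P z w) : False := by
  have Mc : B.co.MCtx U P := LM1.mctx_co M
  have hnsc : ¬ Split B.co.adj B.co.side U := fun h => hns ((BG.co_split_iff B U).1 h)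
  obtain ⟨x, y, hmin⟩ := LM2_exists_min hzw
  obtain ⟨k, l, hk, hl, hkx, hly, hkl, hky, hlx⟩ := LM2.key M hns hmin
  have hsxy : B.side x ≠ B.side y := B.cross hmin.1.2.2
  have hκ : LM2.LE B.co U P k l := LM2_le_co.2 ⟨hk, hl, by rw [hkx, hly]; exact hsxy, hkl⟩
  obtain ⟨k1, l1, hmin1⟩ := LM2_exists_min hκ
  have hk1l1 := LM2_le_co.1 hmin1.1
  have hnest : ∀ k l, LM2.LE B.co U P k l → LM2.N B.co U P k1 l1 ⊆ LM2.N B.co U P k l :=
    fun k l h => LM2.nest Mc hmin1 h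
  -- `x, y` are not in `N_co (k1, l1)`
  have hx1 : x ∉ LM2.N B.co U P k1 l1 := by
    intro h
    rcases (LM2_mem_N_co.1 (hnest k l hκ h)).2 with h1 | h1
    · exact h1.1 hkx.symm
    · exact h1.2 (B.symm hlx)
  have hy1 : y ∉ LM2.N B.co U P k1 l1 := by
    intro h
    rcases (LM2_mem_N_co.1 (hnest k l hκ h)).2 with h1 | h1
    · exact h1.2 (B.symm hky)
    · exact h1.1 hly.symm
  have hadj : ∀ u, B.V0 U P u → u ∉ LM2.N B.co U P k1 l1 →
      (B.side u ≠ B.side k1 → B.adj u k1) ∧ (B.side u ≠ B.side l1 → B.adj u l1) := by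
    intro u hu hun
    constructor
    · intro hs
      by_contra hc
      exact hun (LM2_mem_N_co.2 ⟨hu, Or.inl ⟨hs, hc⟩⟩)
    · intro hs
      by_contra hc
      exact hun (LM2_mem_N_co.2 ⟨hu, Or.inr ⟨hs, hc⟩⟩)
  have hX := hadj x hmin.1.1 hx1
  have hY := hadj y hmin.1.2.1 hy1
  have hk1N : k1 ∈ LM2.N B U P x y := by
    refine ⟨hk1l1.1, ?_⟩
    by_cases hs : B.side x = B.side k1
    · exact Or.inr (B.symm (hY.1 (by rw [← hs]; exact hsxy.symm)))
    · exact Or.inl (B.symm (hX.1 hs))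
  have hl1N : l1 ∈ LM2.N B U P x y := by
    refine ⟨hk1l1.2.1, ?_⟩
    by_cases hs : B.side x = B.side l1
    · exact Or.inr (B.symm (hY.2 (by rw [← hs]; exact hsxy.symm)))
    · exact Or.inl (B.symm (hX.2 hs))
  -- (*)
  have hstar : ∀ c, c ∈ LM2.N B U P x y → ∀ z w, LM2.LE B U P z w → B.side w ≠ B.side c →
      B.adj c w := by
    intro c hc z w hzw hs
    rcases (LM2.nest M hmin hzw hc).2 with h | h
    · exact absurd (LM2_bool (B.cross (B.symm h)) hs) (B.cross hzw.2.2)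
    · exact h
  -- (SER)
  obtain ⟨b, hb⟩ := LM2.par Mc hnsc hmin1.1
  have hb' := LM2_mem_N_co.1 hb
  rcases hb'.2 with h | h
  · exact LM2_ser M hns (l1 := l1) hk1l1.1 (fun k l hkl => hnest k l hkl hb) (hstar k1 hk1N)
      hb'.1 h.1 h.2
  · exact LM2_ser M hns (l1 := k1) hk1l1.2.1 (fun k l hkl => hnest k l hkl hb) (hstar l1 hl1N)
      hb'.1 h.1 h.2

theorem lemmaM {B : BG V} {U P : Set V} (M : B.MCtx U P) : Split B.adj B.side U := by
  by_contra hns
  have Mc : B.co.MCtx U P := LM1.mctx_co M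
  have hnsc : ¬ Split B.co.adj B.co.side U := fun h => hns ((BG.co_split_iff B U).1 h)
  have hL : ∀ y, ¬ B.Lbig U P y := by
    rintro y ⟨hy, x, hx, hxy⟩
    exact LM2_noL M hns x y ⟨hx, hy, hxy⟩
  have hK : ∀ x, ¬ B.Kbig U P x := by
    rintro x ⟨hx, y, hy, hs, hxy⟩
    exact LM2_noL Mc hnsc x y (LM2_le_co.2 ⟨hx, hy, hs.symm, hxy⟩)
  have h1 : ∀ x, ¬ B.V1 U P x := by
    intro x hx
    rcases (LM1.ks M hns).1 x hx with h | ⟨y', h, -⟩ | ⟨y, x', -, -, -, h, -⟩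
    · exact hK x h
    · exact hL y' h
    · exact hK x' h
  have h0 : ∀ y, ¬ B.V0 U P y := by
    intro y hy
    rcases (LM1.ks M hns).2 y hy with h | ⟨x, h, -⟩ | ⟨x, y', -, -, h, -⟩
    · exact hL y h
    · exact hK x h
    · exact hL y' h
  apply M.ne
  apply Set.Subset.antisymm M.sub
  intro w hw
  by_contra hwP
  rcases LM1.v0_or_v1 M w hw hwP with h | h
  · exact h0 w h
  · exact h1 w h

end Pool.Agent.CWB
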