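import Pool.Agent.CWB.TwinMod
import Pool.Agent.CWB.LM2

/-! TWINS: see the text in TwinMod.lean -/

namespace Pool.Agent.CWB

variable {V : Type*}

/-- the path `p 1, …, p (n-1), c` -/
private def twinsQ (n : ℕ) (p : ℕ → V) (c : V) (i : ℕ) : V := if i + 1 < n then p (i + 1) else c

private theorem twinsQ_lt {n : ℕ} {p : ℕ → V} {c : V} {i : ℕ} (h : i + 1 < n) :
    twinsQ n p c i = p (i + 1) := if_pos h

private theorem twinsQ_last {n : ℕ} {p : ℕ → V} {c : V} {i : ℕ} (h : ¬ i + 1 < n) :
    twinsQ n p c i = c := if_neg h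

private theorem twins_adj_comm (B : BG V) (u v : V) : B.adj u v ↔ B.adj v u := ⟨B.symm, B.symm⟩

private theorem twins_irrefl (B : BG V) (u : V) : ¬ B.adj u u := fun h => B.cross h rfl

private theorem twinsQ_path {B : BG V} {U : Set V} {n : ℕ} {p : ℕ → V}
    (hp : B.PathIn U n p) {c : V} (hc : c ∈ U) (hcl : B.Closing n p c) :
    B.PathIn U n (twinsQ n p c) := by
  constructor
  · intro i hi j hj
    by_cases h1 : i + 1 < n
    · by_cases h2 : j + 1 < n
      · rw [twinsQ_lt h1, twinsQ_lt h2, hp.1 _ h1 _ h2]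
        omega
      · rw [twinsQ_lt h1, twinsQ_last h2, twins_adj_comm, hcl _ h1]
        omega
    · by_cases h2 : j + 1 < n
      · rw [twinsQ_last h1, twinsQ_lt h2, hcl _ h2]
        omega
      · rw [twinsQ_last h1, twinsQ_last h2]
        have : ¬ B.adj c c := twins_irrefl B c
        constructor
        · intro h
          exact absurd h this
        · intro h
          omega
  · intro i hi
    by_cases h1 : i + 1 < n
    · rw [twinsQ_lt h1]
      exact hp.2 _ h1
    · rw [twinsQ_last h1]
      exact hc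

private theorem twins_side_closing {B : BG V} {n : ℕ} (hn : 7 ≤ n) {p : ℕ → V} {c : V}
    (hcl : B.Closing n p c) : B.side c ≠ B.side (p 0) :=
  B.cross ((hcl 0 (by omega)).2 (Or.inl rfl))

private theorem twins_same_closing {B : BG V} {n : ℕ} (hn : 7 ≤ n) {p : ℕ → V} {c c' : V}
    (hcl : B.Closing n p c) (hcl' : B.Closing n p c') : B.side c = B.side c' := by
  have h1 := twins_side_closing hn hcl
  have h2 := twins_side_closing hn hcl'
  revert h1 h2
  cases B.side c <;> cases B.side c' <;> cases B.side (p 0) <;> simp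

theorem closing_module (B : BG V) (hS : B.SFree) (U : Set V) (n : ℕ) (hn : 7 ≤ n)
    (hmax : B.NoLonger U n) (p : ℕ → V) (hp : B.PathIn U n p) (w w' : V)
    (hw : w ∈ U) (hw' : w' ∈ U) (htw : B.Closing n p w) (htw' : B.Closing n p w')
    (u : V) (hu : u ∈ U) : B.adj u w ↔ B.adj u w' := by
  have hq := twinsQ_path hp hw htw
  refine twin_module B hS U n hn hmax (twinsQ n p w) hq (n - 1) (by omega) w w' hw hw' ?_ ?_ u hu
  · intro i hi
    by_cases h1 : i + 1 < n
    · rw [twinsQ_lt h1, htw _ h1]
      omega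
    · rw [twinsQ_last h1]
      constructor
      · intro h
        exact absurd h (twins_irrefl B w)
      · intro h
        omega
  · intro i hi
    by_cases h1 : i + 1 < n
    · rw [twinsQ_lt h1, htw' _ h1]
      omega
    · rw [twinsQ_last h1]
      constructor
      · intro h
        exact absurd (twins_same_closing hn htw' htw) (B.cross h)
      · intro h
        omega

theorem closing_hom (B : BG V) (hS : B.SFree) (U : Set V) (n : ℕ) (hn : 7 ≤ n)
    (hmax : B.NoLonger U n) (p : ℕ → V) (hp : B.PathIn U n p) (c w : V)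
    (hc : c ∈ U) (hw : w ∈ U) (hcl : B.Closing n p c) (hside : B.side w ≠ B.side c) :
    ((∀ i < n, ¬ B.adj w (p i)) → ¬ B.adj w c) ∧
    ((∀ i < n, B.side (p i) ≠ B.side w → B.adj w (p i)) → B.adj w c) := by
  have hq := twinsQ_path hp hc hcl
  have h0 : B.side w = B.side (p 0) := by
    have h1 := twins_side_closing hn hcl
    revert h1 hside
    cases B.side c <;> cases B.side w <;> cases B.side (p 0) <;> simp
  have hodd : ∀ i < n, i % 2 = 1 → B.side (p i) ≠ B.side w := by
    intro i hi h2 he
    have := (BG.IsPath.side hp.1 i hi 0 (by omega)).1 (he.trans h0)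
    omega
  have hlast : twinsQ n p c (n - 1) = c := twinsQ_last (by omega)
  have q0 : twinsQ n p c 0 = p 1 := twinsQ_lt (by omega)
  have q2 : twinsQ n p c 2 = p 3 := twinsQ_lt (by omega)
  have q4 : twinsQ n p c 4 = p 5 := twinsQ_lt (by omega)
  have q3 : twinsQ n p c (n - 3) = p (n - 2) := by
    rw [twinsQ_lt (by omega)]
    congr 1
    omega
  have s1 : B.side (p 1) ≠ B.side w := hodd 1 (by omega) rfl
  have s3 : B.side (p 3) ≠ B.side w := hodd 3 (by omega) rfl
  have s5 : B.side (p 5) ≠ B.side w := hodd 5 (by omega) rfl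
  rcases ext_max B hS U n hn hmax (twinsQ n p c) hq w hw with h | h | ⟨j, hj, h⟩ | h
  · constructor
    · intro _
      have := h (n - 1) (by omega)
      rwa [hlast] at this
    · intro hf
      have h1 := h 0 (by omega)
      rw [q0] at h1
      exact absurd (hf 1 (by omega) s1) h1
  · constructor
    · intro hf
      have h1 := h 0 (by omega)
      rw [q0] at h1
      exact absurd (h1 s1) (hf 1 (by omega))
    · intro _
      have := h (n - 1) (by omega)
      rw [hlast] at this
      exact this (fun e => hside e.symm)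
  · constructor
    · intro hf hwc
      have h1 := h (n - 1) (by omega)
      rw [hlast] at h1
      have h2 := h1.1 hwc
      have h3 := h (n - 3) (by omega)
      rw [q3] at h3
      exact hf (n - 2) (by omega) (h3.2 (by omega))
    · intro hf
      have e0 := (h 0 (by omega)).1 (by rw [q0]; exact hf 1 (by omega) s1)
      have e4 := (h 4 (by omega)).1 (by rw [q4]; exact hf 5 (by omega) s5)
      omega
  · constructor
    · intro hf
      have h1 := (h 0 (by omega)).2 (Or.inl rfl)
      rw [q0] at h1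
      exact absurd h1 (hf 1 (by omega))
    · intro hf
      have e2 := (h 2 (by omega)).1 (by rw [q2]; exact hf 3 (by omega) s3)
      omega

private theorem twins_twin_side {B : BG V} {n : ℕ} (hn : 7 ≤ n) {p : ℕ → V} {j : ℕ}
    (hj : j < n) {w w' : V} (h : B.TwinAt n p j w) (h' : B.TwinAt n p j w') :
    B.side w = B.side w' := by
  have key : ∀ i < n, (i = j + 1 ∨ j = i + 1) → B.side w = B.side w' := by
    intro i hi hij
    have h1 := B.cross ((h i hi).2 hij)
    have h2 := B.cross ((h' i hi).2 hij)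
    revert h1 h2
    cases B.side w <;> cases B.side w' <;> cases B.side (p i) <;> simp
  by_cases h0 : j = 0
  · exact key 1 (by omega) (by omega)
  · exact key (j - 1) (by omega) (by omega)

private theorem twins_aux (B : BG V) (hS : B.SFree) (U : Set V) (hfin : U.Finite)
    (hns : ¬ Split B.adj B.side U) (htf : B.TwinFree U) (n : ℕ) (hn : 7 ≤ n)
    (hmax : B.NoLonger U n) (p : ℕ → V) (hp : B.PathIn U n p) : B.PathLike U := by
  -- twins of `p j` are `p j`
  have htw : ∀ w ∈ U, ∀ j < n, B.TwinAt n p j w → w = p j := by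
    intro w hw j hj h
    have hself : B.TwinAt n p j (p j) := fun i hi => hp.1 j hj i hi
    by_contra hne
    obtain ⟨u, hu, hd⟩ := htf w hw (p j) (hp.2 j hj) hne (twins_twin_side hn hj h hself)
    have := twin_module B hS U n hn hmax p hp j hj w (p j) hw (hp.2 j hj) h hself u hu
    apply hd
    rw [twins_adj_comm B w u, twins_adj_comm B (p j) u]
    exact this
  -- at most one closing vertex
  have hcl : ∀ c ∈ U, ∀ c' ∈ U, B.Closing n p c → B.Closing n p c' → c = c' := by
    intro c hc c' hc' h h'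
    by_contra hne
    obtain ⟨u, hu, hd⟩ := htf c hc c' hc' hne (twins_same_closing hn h h')
    have := closing_module B hS U n hn hmax p hp c c' hc hc' h h' u hu
    apply hd
    rw [twins_adj_comm B c u, twins_adj_comm B c' u]
    exact this
  let P : Set V := {x | (∃ i < n, x = p i) ∨ (x ∈ U ∧ B.Closing n p x)}
  have hPU : P ⊆ U := by
    rintro x (⟨i, hi, rfl⟩ | ⟨hx, _⟩)
    · exact hp.2 i hi
    · exact hx
  -- vertices outside `P` are homogeneous
  have hout : ∀ w ∈ U, w ∉ P → (∀ a ∈ P, B.side a ≠ B.side w → ¬ B.adj w a) ∨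
      (∀ a ∈ P, B.side a ≠ B.side w → B.adj w a) := by
    intro w hw hwP
    rcases ext_max B hS U n hn hmax p hp w hw with h | h | ⟨j, hj, h⟩ | h
    · left
      rintro a (⟨i, hi, rfl⟩ | ⟨ha, hac⟩) hs
      · exact h i hi
      · exact (closing_hom B hS U n hn hmax p hp a w ha hw hac (fun e => hs e.symm)).1 h
    · right
      rintro a (⟨i, hi, rfl⟩ | ⟨ha, hac⟩) hs
      · exact h i hi hs
      · exact (closing_hom B hS U n hn hmax p hp a w ha hw hac (fun e => hs e.symm)).2 h
    · exact absurd (Or.inl ⟨j, hj, htw w hw j hj h⟩) hwP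
    · exact absurd (Or.inr ⟨hw, h⟩) hwP
  have hPeq : P = U := by
    by_contra hne
    apply hns
    refine lemmaM (P := P) ⟨hS, hfin, hPU, hne, ?_, ?_⟩
    · intro w hw hwP a ha b hb sa sb
      rcases hout w hw hwP with h | h
      · exact iff_of_false (h a ha sa) (h b hb sb)
      · exact iff_of_true (h a ha sa) (h b hb sb)
    · intro s
      have m : ∀ i < n, p i ∈ P := fun i hi => Or.inl ⟨i, hi, rfl⟩
      have a01 : B.adj (p 0) (p 1) := (hp.1 0 (by omega) 1 (by omega)).2 (by omega)
      have n03 : ¬ B.adj (p 0) (p 3) := fun h => by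
        have := (hp.1 0 (by omega) 3 (by omega)).1 h
        omega
      have n14 : ¬ B.adj (p 1) (p 4) := fun h => by
        have := (hp.1 1 (by omega) 4 (by omega)).1 h
        omega
      have s01 := B.cross a01
      have s13 : B.side (p 1) = B.side (p 3) :=
        (BG.IsPath.side hp.1 1 (by omega) 3 (by omega)).2 rfl
      have s04 : B.side (p 0) = B.side (p 4) :=
        (BG.IsPath.side hp.1 0 (by omega) 4 (by omega)).2 rfl
      by_cases hs : B.side (p 0) = s
      · refine ⟨p 0, m 0 (by omega), p 1, m 1 (by omega), p 3, m 3 (by omega), hs, ?_, ?_,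
          a01, n03⟩
        · exact fun e => s01 (hs.trans e.symm)
        · exact fun e => s01 (hs.trans (s13.trans e).symm)
      · have hs1 : B.side (p 1) = s := by
          revert hs s01
          cases B.side (p 0) <;> cases B.side (p 1) <;> cases s <;> simp
        refine ⟨p 1, m 1 (by omega), p 0, m 0 (by omega), p 4, m 4 (by omega), hs1, hs, ?_,
          B.symm a01, n14⟩
        exact fun e => hs (s04.trans e)
  by_cases hex : ∃ c ∈ U, B.Closing n p c
  · obtain ⟨c, hc, hcc⟩ := hex
    refine ⟨n, p, hn, hp.1, Or.inr ⟨c, hcc, ?_⟩⟩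
    ext x
    constructor
    · intro hx
      rw [← hPeq] at hx
      rcases hx with h | ⟨hx, hxc⟩
      · exact Or.inr h
      · exact Or.inl (hcl x hx c hc hxc hcc)
    · rintro (rfl | ⟨i, hi, rfl⟩)
      · exact hc
      · exact hp.2 i hi
  · refine ⟨n, p, hn, hp.1, Or.inl ?_⟩
    ext x
    constructor
    · intro hx
      rw [← hPeq] at hx
      rcases hx with h | ⟨hx, hxc⟩
      · exact h
      · exact absurd ⟨x, hx, hxc⟩ hex
    · rintro ⟨i, hi, rfl⟩
      exact hp.2 i hi

private theorem twins_isPath_congr {B B' : BG V} (h : ∀ u v, B.adj u v ↔ B'.adj u v) {U : Set V}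
    {n : ℕ} {p : ℕ → V} (hp : B.PathIn U n p) : B'.PathIn U n p :=
  ⟨fun i hi j hj => by rw [← h]; exact hp.1 i hi j hj, hp.2⟩

private theorem twins_bound (B : BG V) {U : Set V} (hfin : U.Finite) {n : ℕ} {p : ℕ → V}
    (hp : B.PathIn U n p) : n ≤ U.ncard + 4 := by
  by_cases h4 : n < 4
  · omega
  · have hinj := BG.IsPath.inj (by omega) hp.1
    have h1 : ((Finset.range n : Finset ℕ) : Set ℕ).ncard ≤ U.ncard := by
      refine Set.ncard_le_ncard_of_injOn p ?_ ?_ hfin
      · intro i hi
        exact hp.2 i (by simpa using hi)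
      · intro i hi j hj he
        exact hinj i (by simpa using hi) j (by simpa using hj) he
    rw [Set.ncard_coe_finset, Finset.card_range] at h1
    omega

private theorem twins_p7 {B : BG V} {U : Set V} {p0 p1 p2 p3 p4 p5 p6 : V}
    (h0 : p0 ∈ U) (h1 : p1 ∈ U) (h2 : p2 ∈ U) (h3 : p3 ∈ U) (h4 : p4 ∈ U) (h5 : p5 ∈ U)
    (h6 : p6 ∈ U) (hp : B.P7 p0 p1 p2 p3 p4 p5 p6) : ∃ p, B.PathIn U 7 p := by
  obtain ⟨a01, a12, a23, a34, a45, a56, n03, n05, n14, n16, n25, n36⟩ := hp
  have s01 := B.cross a01
  have s12 := B.cross a12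
  have s23 := B.cross a23
  have s34 := B.cross a34
  have s45 := B.cross a45
  have s56 := B.cross a56
  have tr : ∀ a b c : Bool, a ≠ b → b ≠ c → a = c := by decide
  have e02 := tr _ _ _ s01 s12
  have e13 := tr _ _ _ s12 s23
  have e24 := tr _ _ _ s23 s34
  have e35 := tr _ _ _ s34 s45
  have e46 := tr _ _ _ s45 s56
  have na : ∀ u v, B.side u = B.side v → ¬ B.adj u v := fun u v h h' => B.cross h' h
  have sy : ∀ u v, ¬ B.adj u v → ¬ B.adj v u := fun u v h h' => h (B.symm h')
  have m00 := na p0 p0 rfl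
  have m11 := na p1 p1 rfl
  have m22 := na p2 p2 rfl
  have m33 := na p3 p3 rfl
  have m44 := na p4 p4 rfl
  have m55 := na p5 p5 rfl
  have m66 := na p6 p6 rfl
  have m02 := na p0 p2 e02
  have m04 := na p0 p4 (e02.trans e24)
  have m06 := na p0 p6 (e02.trans (e24.trans e46))
  have m24 := na p2 p4 e24
  have m26 := na p2 p6 (e24.trans e46)
  have m46 := na p4 p6 e46
  have m13 := na p1 p3 e13
  have m15 := na p1 p5 (e13.trans e35)
  have m35 := na p3 p5 e35
  have m20 := sy _ _ m02
  have m40 := sy _ _ m04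
  have m60 := sy _ _ m06
  have m42 := sy _ _ m24
  have m62 := sy _ _ m26
  have m64 := sy _ _ m46
  have m31 := sy _ _ m13
  have m51 := sy _ _ m15
  have m53 := sy _ _ m35
  have n30 := sy _ _ n03
  have n50 := sy _ _ n05
  have n41 := sy _ _ n14
  have n61 := sy _ _ n16
  have n52 := sy _ _ n25
  have n63 := sy _ _ n36
  have a10 := B.symm a01
  have a21 := B.symm a12
  have a32 := B.symm a23
  have a43 := B.symm a34
  have a54 := B.symm a45
  have a65 := B.symm a56
  refine ⟨fun i => match i with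
    | 0 => p0
    | 1 => p1
    | 2 => p2
    | 3 => p3
    | 4 => p4
    | 5 => p5
    | _ => p6, ?_, ?_⟩
  · intro i hi j hj
    interval_cases i <;> interval_cases j <;> simp [*]
  · intro i hi
    interval_cases i <;> assumption

theorem pathLike (B : BG V) (hS : B.SFree) (U : Set V) (hfin : U.Finite)
    (hns : ¬ Split B.adj B.side U) (htf : B.TwinFree U) (hP7 : ¬ B.P7Free U) :
    B.PathLike U ∨ B.co.PathLike U := by
  classical
  -- a path with seven vertices
  have h7 : ∃ p, B.PathIn U 7 p := by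
    by_contra hno
    apply hP7
    intro p0 h0 p1 h1 p2 h2 p3 h3 p4 h4 p5 h5 p6 h6 hp
    apply hno
    exact twins_p7 h0 h1 h2 h3 h4 h5 h6 hp
  let Q : ℕ → Prop := fun n => (∃ p, B.PathIn U n p) ∨ (∃ p, B.co.PathIn U n p)
  have hQb : ∀ n, Q n → n ≤ U.ncard + 4 := by
    rintro n (⟨p, hp⟩ | ⟨p, hp⟩)
    · exact twins_bound B hfin hp
    · exact twins_bound B.co hfin hp
  have hQ7 : Q 7 := Or.inl h7
  let n := Nat.findGreatest Q (U.ncard + 4)
  have hQn : Q n := Nat.findGreatest_spec (hQb 7 hQ7) hQ7
  have hn : 7 ≤ n := Nat.le_findGreatest (hQb 7 hQ7) hQ7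
  have hQn1 : ¬ Q (n + 1) := by
    intro h
    have := Nat.le_findGreatest (hQb _ h) h
    have h2 : n + 1 ≤ n := this
    omega
  have hmax : B.NoLonger U n :=
    ⟨fun q hq => hQn1 (Or.inl ⟨q, hq⟩), fun q hq => hQn1 (Or.inr ⟨q, hq⟩)⟩
  rcases hQn with ⟨p, hp⟩ | ⟨p, hp⟩
  · left
    exact twins_aux B hS U hfin hns htf n hn hmax p hp
  · right
    refine twins_aux B.co (BG.co_sfree hS) U hfin ?_ ?_ n hn ⟨hmax.2, ?_⟩ p hp
    · rw [BG.co_split_iff]
      exact hns
    · rw [BG.co_twinFree_iff]
      exact htf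
    · intro q hq
      exact hmax.1 q (twins_isPath_congr (BG.co_co_adj B) hq)

end Pool.Agent.CWB
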