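import Pool.Agent.CWB.F2c
import Pool.Agent.CWB.Twins
import Pool.Agent.CWB.DecBasic

/-!
# BIP: the bipartite theorem

`dec_pathLike`: use `dec_linear` with the rank `p i ↦ i` (for a cycle: `c ↦ 0`, `p i ↦ i + 1`).  The classes of a prefix:
the last vertex `p j`; the vertex `c`; the other vertices of each side (they have no neighbours outside).
`bip`: strong induction on `|U|` (`Set.ncard`): singleton; `Split` (then induction for both parts and
`dec_of_split`); twins (`dec_twin`); otherwise `split_of_p7free` shows that there is a `P₇`, so `pathLike` and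
`dec_pathLike` (with `co_dec_iff`).
-/

namespace Pool.Agent.CWB

variable {V : Type*}

private theorem bipmain_rank (B : BG V) (U : Set V) (hfin : U.Finite) (hne : U.Nonempty)
    (r : V → ℕ) (hr : Set.InjOn r U)
    (h : ∀ u ∈ U, ∀ w ∈ U, r u ≠ 0 → r u + 1 < r w → ¬ B.adj u w) :
    Dec B.adj B.side 4 U U := by
  refine dec_linear hfin hne r hr fun j => ?_
  refine ⟨fun u => if r u = j then 0 else if r u = 0 then 3 else if B.side u = true then 1 else 2, ?_⟩
  rintro u ⟨huU, huj⟩ v ⟨hvU, hvj⟩ huv
  simp only [] at huv
  by_cases h1 : r u = j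
  · by_cases h2 : r v = j
    · have : u = v := hr huU hvU (h1.trans h2.symm)
      subst this
      exact ⟨rfl, fun w _ _ => Iff.rfl⟩
    · exfalso
      rw [if_pos h1, if_neg h2] at huv
      split_ifs at huv <;> simp_all
  · by_cases h2 : r v = j
    · exfalso
      rw [if_neg h1, if_pos h2] at huv
      split_ifs at huv <;> simp_all
    · rw [if_neg h1, if_neg h2] at huv
      by_cases h3 : r u = 0
      · by_cases h4 : r v = 0
        · have : u = v := hr huU hvU (h3.trans h4.symm)
          subst this
          exact ⟨rfl, fun w _ _ => Iff.rfl⟩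
        · exfalso
          rw [if_pos h3, if_neg h4] at huv
          split_ifs at huv <;> simp_all
      · by_cases h4 : r v = 0
        · exfalso
          rw [if_neg h3, if_pos h4] at huv
          split_ifs at huv <;> simp_all
        · rw [if_neg h3, if_neg h4] at huv
          have hside : B.side u = B.side v := by
            cases hu : B.side u <;> cases hv : B.side v <;> simp_all
          refine ⟨hside, fun w hwU hw => ?_⟩
          have hwj : j < r w := by
            by_contra hcon
            exact hw ⟨hwU, not_lt.1 hcon⟩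
          have e1 : ¬ B.adj u w := h u huU w hwU h3 (by omega)
          have e2 : ¬ B.adj v w := h v hvU w hwU h4 (by omega)
          exact ⟨fun e => (e1 e).elim, fun e => (e2 e).elim⟩

theorem dec_pathLike (B : BG V) (U : Set V) (h : B.PathLike U) : Dec B.adj B.side 4 U U := by
  obtain ⟨n, p, hn, hp, hU | ⟨c, hc, hU⟩⟩ := h
  · have hinj : Set.InjOn p (Set.Iio n) := fun i hi j hj hij =>
      BG.IsPath.inj (by omega) hp i hi j hj hij
    have hleft := hinj.leftInvOn_invFunOn
    have hr : ∀ i, i < n → Function.invFunOn p (Set.Iio n) (p i) = i := fun i hi => hleft hi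
    have hfin : U.Finite := by
      have : U = p '' Set.Iio n := by
        rw [hU]; ext x; constructor
        · rintro ⟨i, hi, rfl⟩; exact ⟨i, hi, rfl⟩
        · rintro ⟨i, hi, rfl⟩; exact ⟨i, hi, rfl⟩
      rw [this]; exact (Set.finite_Iio n).image p
    have hne : U.Nonempty := ⟨p 0, by rw [hU]; exact ⟨0, by omega, rfl⟩⟩
    refine bipmain_rank B U hfin hne (Function.invFunOn p (Set.Iio n)) ?_ ?_
    · intro x hx y hy hxy
      rw [hU] at hx hy
      obtain ⟨i, hi, rfl⟩ := hx
      obtain ⟨j, hj, rfl⟩ := hy
      rw [hr i hi, hr j hj] at hxy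
      rw [hxy]
    · intro x hx y hy _ hlt hadj
      rw [hU] at hx hy
      obtain ⟨i, hi, rfl⟩ := hx
      obtain ⟨j, hj, rfl⟩ := hy
      rw [hr i hi, hr j hj] at hlt
      rw [hp i hi j hj] at hadj
      omega
  · -- the cycle
    have hcp : ∀ i < n, c ≠ p i := by
      intro i hi e
      have h0 := (hc 0 (by omega)).2 (Or.inl rfl)
      have h1 := (hc (n - 1) (by omega)).2 (Or.inr (by omega))
      rw [e, hp i hi 0 (by omega)] at h0
      rw [e, hp i hi (n - 1) (by omega)] at h1
      omega
    let q : ℕ → V := fun i => if i = 0 then c else p (i - 1)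
    have hq0 : q 0 = c := rfl
    have hqs : ∀ i, q (i + 1) = p i := fun i => by simp [q]
    have hinj : Set.InjOn q (Set.Iio (n + 1)) := by
      intro i hi j hj hij
      simp only [Set.mem_Iio] at hi hj
      rcases Nat.eq_zero_or_pos i with hi0 | hi0
      · rcases Nat.eq_zero_or_pos j with hj0 | hj0
        · rw [hi0, hj0]
        · exfalso
          obtain ⟨j', rfl⟩ : ∃ j', j = j' + 1 := ⟨j - 1, by omega⟩
          rw [hi0, hq0, hqs] at hij
          exact hcp j' (by omega) hij
      · rcases Nat.eq_zero_or_pos j with hj0 | hj0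
        · exfalso
          obtain ⟨i', rfl⟩ : ∃ i', i = i' + 1 := ⟨i - 1, by omega⟩
          rw [hj0, hq0, hqs] at hij
          exact hcp i' (by omega) hij.symm
        · obtain ⟨i', rfl⟩ : ∃ i', i = i' + 1 := ⟨i - 1, by omega⟩
          obtain ⟨j', rfl⟩ : ∃ j', j = j' + 1 := ⟨j - 1, by omega⟩
          rw [hqs, hqs] at hij
          rw [BG.IsPath.inj (by omega) hp i' (by omega) j' (by omega) hij]
    have hleft := hinj.leftInvOn_invFunOn
    have hr : ∀ i, i < n + 1 → Function.invFunOn q (Set.Iio (n + 1)) (q i) = i :=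
      fun i hi => hleft hi
    have hUq : U = q '' Set.Iio (n + 1) := by
      rw [hU]; ext x; constructor
      · rintro (rfl | ⟨i, hi, rfl⟩)
        · exact ⟨0, by simp, rfl⟩
        · exact ⟨i + 1, by simpa using hi, hqs i⟩
      · rintro ⟨i, hi, rfl⟩
        simp only [Set.mem_Iio] at hi
        rcases Nat.eq_zero_or_pos i with hi0 | hi0
        · left; rw [hi0, hq0]
        · right
          obtain ⟨i', rfl⟩ : ∃ i', i = i' + 1 := ⟨i - 1, by omega⟩
          exact ⟨i', by omega, hqs i'⟩
    have hfin : U.Finite := by rw [hUq]; exact (Set.finite_Iio _).image q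
    have hne : U.Nonempty := ⟨c, by rw [hU]; exact Or.inl rfl⟩
    refine bipmain_rank B U hfin hne (Function.invFunOn q (Set.Iio (n + 1))) ?_ ?_
    · intro x hx y hy hxy
      rw [hUq] at hx hy
      obtain ⟨i, hi, rfl⟩ := hx
      obtain ⟨j, hj, rfl⟩ := hy
      rw [hr i hi, hr j hj] at hxy
      rw [hxy]
    · intro x hx y hy h0 hlt hadj
      rw [hUq] at hx hy
      obtain ⟨i, hi, rfl⟩ := hx
      obtain ⟨j, hj, rfl⟩ := hy
      rw [hr i hi] at h0
      rw [hr i hi, hr j hj] at hlt
      simp only [Set.mem_Iio] at hi hj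
      obtain ⟨i', rfl⟩ : ∃ i', i = i' + 1 := ⟨i - 1, by omega⟩
      obtain ⟨j', rfl⟩ : ∃ j', j = j' + 1 := ⟨j - 1, by omega⟩
      rw [hqs, hqs, hp i' (by omega) j' (by omega)] at hadj
      omega

private theorem bipmain_aux (B : BG V) (hS : B.SFree) : ∀ (N : ℕ) (U : Set V), U.Finite →
    U.Nonempty → U.ncard = N → Dec B.adj B.side 4 U U := by
  intro N
  induction N using Nat.strong_induction_on with
  | _ N ih =>
    intro U hfin hne hN
    rcases Set.subsingleton_or_nontrivial U with hsub | hnt
    · obtain ⟨v, hv⟩ := hne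
      have : U = {v} := hsub.eq_singleton_of_mem hv
      rw [this]
      exact Dec.single v
    · by_cases hs : Split B.adj B.side U
      · obtain ⟨S, T, hST, hdis, hSne, hTne, h1, h2⟩ := hs
        have hSU : S ⊆ U := hST ▸ Set.subset_union_left
        have hTU : T ⊆ U := hST ▸ Set.subset_union_right
        have hSlt : S.ncard < N := by
          rw [← hN]
          refine Set.ncard_lt_ncard ?_ hfin
          refine ⟨hSU, fun hcon => ?_⟩
          obtain ⟨t, ht⟩ := hTne
          exact Set.disjoint_left.1 hdis (hcon (hTU ht)) ht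
        have hTlt : T.ncard < N := by
          rw [← hN]
          refine Set.ncard_lt_ncard ?_ hfin
          refine ⟨hTU, fun hcon => ?_⟩
          obtain ⟨s, hs⟩ := hSne
          exact Set.disjoint_left.1 hdis hs (hcon (hSU hs))
        exact dec_of_split (by simp) hST hdis h1 h2
          (ih _ hSlt S (hfin.subset hSU) hSne rfl) (ih _ hTlt T (hfin.subset hTU) hTne rfl)
      · by_cases htf : B.TwinFree U
        · have hP7 : ¬ B.P7Free U := fun hP => hs (split_of_p7free B hS U hfin hnt hP)
          rcases pathLike B hS U hfin hs htf hP7 with h | h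
          · exact dec_pathLike B U h
          · exact (BG.co_dec_iff B 4 U U).1 (dec_pathLike B.co U h)
        · unfold BG.TwinFree at htf
          push Not at htf
          obtain ⟨u, hu, v, hv, huv, hside, htw⟩ := htf
          have hlt : (U \ {v}).ncard < N := by
            rw [← hN]
            exact Set.ncard_sdiff_singleton_lt_of_mem hv hfin
          refine dec_twin (fun a b h => B.symm h) (by norm_num) hu hv huv hside
            (fun w hw _ _ => htw w hw) ?_
          exact ih _ hlt (U \ {v}) (hfin.subset Set.sdiff_subset) ⟨u, hu, huv⟩ rfl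

theorem bip (B : BG V) (hS : B.SFree) (U : Set V) (hfin : U.Finite) (hne : U.Nonempty) :
    Dec B.adj B.side 4 U U :=
  bipmain_aux B hS _ U hfin hne rfl

end Pool.Agent.CWB
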