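import Pool.Agent.CWB.TyDefs
import Pool.Agent.CWB.BipMain

/-!
# BLOCK: decomposition trees for sets inside a block

`B : BG V` with `side x := inL β (ty x)` and
`adj x y := G.Adj x y ∧ opp β (ty x) (ty y)` is `S_{1,2,3}`-free (`block_sfree`):
for `β = (false, i)` vertices on the same side are never adjacent (triangles), so an `S_{1,2,3}` of `B` is one of
`G`.  For `β = (true, i)` (rotate: `i = 0`; sides `A 0` and `B 0 ∪ Z`): let `c a b1 b2 d1 d2 d3` be an `S_{1,2,3}` of `B`.
If no two vertices on the side `B 0 ∪ Z` are adjacent it is one of `G`.  Otherwise some `z : Z` and `b : B 0` among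
them are adjacent; by `Local.wc1, wc2` (and triangle-freeness) as soon as `z` or `b` has a neighbour of type `A 0`,
every vertex of type `A 0` is adjacent to exactly one of `z, b`.  In `S_{1,2,3}` the only pair of vertices on the same
side with complementary neighbourhoods on the other side is `b1, d3` (with centre in `A 0`).
So `{b1, d3} = {z, b}`, the other two vertices `a, d1` of that side are of type `Z` (if one of them were of
type `B 0` it would be adjacent to `z` by `Local.zb`), and not adjacent to `b`: `Local.wsf_zb`, `Local.wsf_bz`.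

`dec_block`: `bip` for `B`, then `dec_flip`: for `x, y ∈ U`: `G.Adj x y ↔ B.adj x y ∨ (x, y` have the types `B i, Z` or `Z, B i`
and are adjacent`)`, and the second alternative is determined by `κ x`, `κ y` (hypothesis `hbz`).
-/

namespace Pool.Agent.CWB

variable {V K : Type*} {G : SimpleGraph V} {v : ZMod 5 → V}

/-- if `z b` is an edge between `Z` and `B 0` and one of them has a neighbour of type `A 0`, then every
vertex of type `A 0` is adjacent to one of them -/
private theorem block_wc (M : Ctx G v) {x y a c : V}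
    (hx : IsB G v 0 x ∨ IsZ G v x) (hy : IsB G v 0 y ∨ IsZ G v y)
    (ha : IsA G v 0 a) (hc : IsA G v 0 c) (hxy : G.Adj x y) (hax : G.Adj a x)
    (hcx : ¬ G.Adj c x) (hcy : ¬ G.Adj c y) : False := by
  rcases hx with hx | hx <;> rcases hy with hy | hy
  · exact M.sameB hx hy hxy
  · exact Local.wc2 M hy hx ha hc hxy.symm hax hcy hcx
  · exact Local.wc1 M hx hy ha hc hxy hax hcx hcy
  · exact M.sameZ hx hy hxy

/-- the case of a centre of type `A 0` -/
private theorem block_left (M : Ctx G v) {c a b1 b2 d1 d2 d3 : V}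
    (tc : IsA G v 0 c) (tb2 : IsA G v 0 b2) (td2 : IsA G v 0 d2)
    (ta : IsB G v 0 a ∨ IsZ G v a) (tb1 : IsB G v 0 b1 ∨ IsZ G v b1)
    (td1 : IsB G v 0 d1 ∨ IsZ G v d1) (td3 : IsB G v 0 d3 ∨ IsZ G v d3)
    (h1 : G.Adj c a) (h2 : G.Adj c b1) (h3 : G.Adj b1 b2) (h4 : G.Adj c d1) (h5 : G.Adj d1 d2)
    (h6 : G.Adj d2 d3) (n1 : ¬ G.Adj b2 a) (n2 : ¬ G.Adj b2 d1) (n3 : ¬ G.Adj b2 d3)
    (n4 : ¬ G.Adj d2 a) (n5 : ¬ G.Adj d2 b1) (n6 : ¬ G.Adj c d3) : False := by
  have nab1 : ¬ G.Adj a b1 := fun h => M.kf c a b1 h1 h h2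
  have nad1 : ¬ G.Adj a d1 := fun h => M.kf c a d1 h1 h h4
  have nb1d1 : ¬ G.Adj b1 d1 := fun h => M.kf c b1 d1 h2 h h4
  have nd1d3 : ¬ G.Adj d1 d3 := fun h => M.kf d1 d2 d3 h5 h6 h
  have nad3 : ¬ G.Adj a d3 := fun h => block_wc M ta td3 tc tb2 h h1 n1 n3
  by_cases hbd : G.Adj b1 d3
  · -- `{b1, d3} = {z, b}`
    have key : ∀ z b : V, IsZ G v z → IsB G v 0 b → G.Adj z b →
        ∀ w, IsB G v 0 w ∨ IsZ G v w → ¬ G.Adj z w → IsZ G v w := by
      intro z b hz hb hzb w hw hzw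
      rcases hw with hw | hw
      · exact (Local.zb M hz hb hw hzb hzw).elim
      · exact hw
    rcases tb1 with tb1 | tb1 <;> rcases td3 with td3 | td3
    · exact M.sameB tb1 td3 hbd
    · have ta' : IsZ G v a := key d3 b1 td3 tb1 hbd.symm a ta (fun h => nad3 h.symm)
      have td1' : IsZ G v d1 := key d3 b1 td3 tb1 hbd.symm d1 td1 (fun h => nd1d3 h.symm)
      exact Local.wsf_bz M tc tb2 td2 ta' tb1 td1' td3 h1 h2 h3 h4 h5 h6 n1 n2 n3 n4 n5 n6 hbd
    · have ta' : IsZ G v a := key b1 d3 tb1 td3 hbd a ta (fun h => nab1 h.symm)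
      have td1' : IsZ G v d1 := key b1 d3 tb1 td3 hbd d1 td1 (fun h => nb1d1 h)
      exact Local.wsf_zb M tc tb2 td2 ta' tb1 td1' td3 h1 h2 h3 h4 h5 h6 n1 n2 n3 n4 n5 n6 hbd
    · exact M.sameZ tb1 td3 hbd
  · exact M.sf c a b1 b2 d1 d2 d3 h1 h2 h3 h4 h5 h6 nab1 (fun h => n1 h.symm) nad1
      (fun h => n4 h.symm) nad3 (M.sameA tc tb2) (M.sameA tc td2) n6 nb1d1 (fun h => n5 h.symm) hbd
      n2 (M.sameA tb2 td2) n3 nd1d3

/-- the case of a centre of type `B 0` or `Z` -/
private theorem block_right (M : Ctx G v) {c a b1 b2 d1 d2 d3 : V}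
    (tb2 : IsB G v 0 b2 ∨ IsZ G v b2)
    (td2 : IsB G v 0 d2 ∨ IsZ G v d2)
    (ta : IsA G v 0 a) (tb1 : IsA G v 0 b1) (td1 : IsA G v 0 d1) (td3 : IsA G v 0 d3)
    (h1 : G.Adj c a) (h2 : G.Adj c b1) (h3 : G.Adj b1 b2) (h4 : G.Adj c d1) (h5 : G.Adj d1 d2)
    (h6 : G.Adj d2 d3) (n1 : ¬ G.Adj b2 a) (n2 : ¬ G.Adj b2 d1) (n3 : ¬ G.Adj b2 d3)
    (n4 : ¬ G.Adj d2 a) (n5 : ¬ G.Adj d2 b1) (n6 : ¬ G.Adj c d3) : False := by
  have nbd : ¬ G.Adj b2 d2 := fun h =>
    block_wc M tb2 td2 tb1 ta h h3 (fun h => n1 h.symm) (fun h => n4 h.symm)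
  exact M.sf c a b1 b2 d1 d2 d3 h1 h2 h3 h4 h5 h6 (M.sameA ta tb1) (fun h => n1 h.symm)
    (M.sameA ta td1) (fun h => n4 h.symm) (M.sameA ta td3) (fun h => M.kf c b1 b2 h2 h3 h)
    (fun h => M.kf c d1 d2 h4 h5 h) n6 (M.sameA tb1 td1) (fun h => n5 h.symm) (M.sameA tb1 td3)
    n2 nbd n3 (M.sameA td1 td3)

/-- types of `G.Adj`-comparable vertices on the same side of a block -/
private theorem block_same (M : Ctx G v) {β : Bool × ZMod 5} {x y : V}
    (h : (Ty.inL β (ty G v x) = true ∧ Ty.inL β (ty G v y) = true) ∨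
      (Ty.inR β (ty G v x) = true ∧ Ty.inR β (ty G v y) = true)) (hxy : G.Adj x y) :
    β.1 = true ∧ ((IsB G v β.2 x ∧ IsZ G v y) ∨ (IsZ G v x ∧ IsB G v β.2 y)) := by
  obtain ⟨s, i⟩ := β
  have tx := ty_spec M x
  have ty' := ty_spec M y
  have aux : ∀ (j k : ZMod 5) (p q : V), (k = j + 1 ∨ j = k + 1) → IsA G v j p → IsB G v k q →
      G.Adj p q → False := by
    intro j k p q hk hp hq hpq
    refine M.kf p q (v k) hpq ((hq k).2 rfl) ((hp k).2 hk)
  cases s
  · exfalso
    rcases h with ⟨h1, h2⟩ | ⟨h1, h2⟩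
    · simp only [Ty.inL, decide_eq_true_eq] at h1 h2
      rcases h1 with h1 | h1 <;> rcases h2 with h2 | h2 <;> rw [h1] at tx <;> rw [h2] at ty'
      · exact M.sameA tx ty' hxy
      · exact aux i (i + 4) x y (Or.inr (by
          rw [add_assoc, show (4 : ZMod 5) + 1 = 0 by decide, add_zero])) tx ty' hxy
      · exact aux i (i + 4) y x (Or.inr (by
          rw [add_assoc, show (4 : ZMod 5) + 1 = 0 by decide, add_zero])) ty' tx hxy.symm
      · exact M.sameB tx ty' hxy
    · simp only [Ty.inR, decide_eq_true_eq] at h1 h2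
      rcases h1 with h1 | h1 <;> rcases h2 with h2 | h2 <;> rw [h1] at tx <;> rw [h2] at ty'
      · exact M.sameA tx ty' hxy
      · exact aux (i + 1) (i + 2) x y (Or.inl (by
          rw [add_assoc, show (1 : ZMod 5) + 1 = 2 by decide])) tx ty' hxy
      · exact aux (i + 1) (i + 2) y x (Or.inl (by
          rw [add_assoc, show (1 : ZMod 5) + 1 = 2 by decide])) ty' tx hxy.symm
      · exact M.sameB tx ty' hxy
  · refine ⟨rfl, ?_⟩
    rcases h with ⟨h1, h2⟩ | ⟨h1, h2⟩
    · simp only [Ty.inL, decide_eq_true_eq] at h1 h2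
      rw [h1] at tx
      rw [h2] at ty'
      exact (M.sameA tx ty' hxy).elim
    · simp only [Ty.inR, decide_eq_true_eq] at h1 h2
      rcases h1 with h1 | h1 <;> rcases h2 with h2 | h2 <;> rw [h1] at tx <;> rw [h2] at ty'
      · exact (M.sameB tx ty' hxy).elim
      · exact Or.inl ⟨tx, ty'⟩
      · exact Or.inr ⟨tx, ty'⟩
      · exact (M.sameZ tx ty' hxy).elim

private theorem block_opp_comm : ∀ β : Bool × ZMod 5, ∀ s t : Ty, Ty.opp β s t = Ty.opp β t s := by
  intro β s t
  unfold Ty.opp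
  rw [Bool.or_comm, Bool.and_comm (Ty.inR β s), Bool.and_comm (Ty.inL β s)]

private theorem block_disj : ∀ β : Bool × ZMod 5, ∀ t : Ty,
    Ty.inL β t = true → Ty.inR β t = true → False := by
  decide

private theorem block_opp_cases {β : Bool × ZMod 5} {s t : Ty} (h : Ty.opp β s t = true) :
    (Ty.inL β s = true ∧ Ty.inR β t = true) ∨ (Ty.inR β s = true ∧ Ty.inL β t = true) := by
  unfold Ty.opp at h
  simpa using h

/-- the bipartite graph of a block -/
noncomputable def blockBG (G : SimpleGraph V) (v : ZMod 5 → V) (β : Bool × ZMod 5) : BG V where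
  side x := Ty.inL β (ty G v x)
  adj x y := G.Adj x y ∧ Ty.opp β (ty G v x) (ty G v y) = true
  symm := by
    intro x y h
    exact ⟨h.1.symm, by rw [block_opp_comm]; exact h.2⟩
  cross := by
    intro x y h he
    have he' : Ty.inL β (ty G v x) = Ty.inL β (ty G v y) := he
    rcases block_opp_cases h.2 with ⟨h1, h2⟩ | ⟨h1, h2⟩
    · rw [h1] at he'
      exact block_disj β _ he'.symm h2
    · rw [h2] at he'
      exact block_disj β _ he' h1

private theorem block_sfree (M : Ctx G v) (β : Bool × ZMod 5) : (blockBG G v β).SFree := by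
  intro c a b1 b2 d1 d2 d3 h1 h2 h3 h4 h5 h6 n1 n2 n3 n4 n5 n6
  obtain ⟨g1, o1⟩ := h1
  obtain ⟨g2, o2⟩ := h2
  obtain ⟨g3, o3⟩ := h3
  obtain ⟨g4, o4⟩ := h4
  obtain ⟨g5, o5⟩ := h5
  obtain ⟨g6, o6⟩ := h6
  have o1' := block_opp_cases o1
  have o2' := block_opp_cases o2
  have o3' := block_opp_cases o3
  have o4' := block_opp_cases o4
  have o5' := block_opp_cases o5
  have o6' := block_opp_cases o6
  have dj := block_disj β
  -- the sides
  have hside : (Ty.inL β (ty G v c) = true ∧ Ty.inL β (ty G v b2) = true ∧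
        Ty.inL β (ty G v d2) = true ∧ Ty.inR β (ty G v a) = true ∧ Ty.inR β (ty G v b1) = true ∧
        Ty.inR β (ty G v d1) = true ∧ Ty.inR β (ty G v d3) = true) ∨
      (Ty.inR β (ty G v c) = true ∧ Ty.inR β (ty G v b2) = true ∧
        Ty.inR β (ty G v d2) = true ∧ Ty.inL β (ty G v a) = true ∧ Ty.inL β (ty G v b1) = true ∧
        Ty.inL β (ty G v d1) = true ∧ Ty.inL β (ty G v d3) = true) := by
    rcases o1' with ⟨p, q⟩ | ⟨p, q⟩
    · left
      have e2 : Ty.inR β (ty G v b1) = true := by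
        rcases o2' with ⟨_, r⟩ | ⟨r, _⟩
        · exact r
        · exact (dj _ p r).elim
      have e3 : Ty.inL β (ty G v b2) = true := by
        rcases o3' with ⟨r, _⟩ | ⟨_, r⟩
        · exact (dj _ r e2).elim
        · exact r
      have e4 : Ty.inR β (ty G v d1) = true := by
        rcases o4' with ⟨_, r⟩ | ⟨r, _⟩
        · exact r
        · exact (dj _ p r).elim
      have e5 : Ty.inL β (ty G v d2) = true := by
        rcases o5' with ⟨r, _⟩ | ⟨_, r⟩
        · exact (dj _ r e4).elim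
        · exact r
      have e6 : Ty.inR β (ty G v d3) = true := by
        rcases o6' with ⟨_, r⟩ | ⟨r, _⟩
        · exact r
        · exact (dj _ e5 r).elim
      exact ⟨p, e3, e5, q, e2, e4, e6⟩
    · right
      have e2 : Ty.inL β (ty G v b1) = true := by
        rcases o2' with ⟨r, _⟩ | ⟨_, r⟩
        · exact (dj _ r p).elim
        · exact r
      have e3 : Ty.inR β (ty G v b2) = true := by
        rcases o3' with ⟨_, r⟩ | ⟨r, _⟩
        · exact r
        · exact (dj _ e2 r).elim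
      have e4 : Ty.inL β (ty G v d1) = true := by
        rcases o4' with ⟨r, _⟩ | ⟨_, r⟩
        · exact (dj _ r p).elim
        · exact r
      have e5 : Ty.inR β (ty G v d2) = true := by
        rcases o5' with ⟨_, r⟩ | ⟨r, _⟩
        · exact r
        · exact (dj _ e4 r).elim
      have e6 : Ty.inL β (ty G v d3) = true := by
        rcases o6' with ⟨r, _⟩ | ⟨_, r⟩
        · exact (dj _ r e5).elim
        · exact r
      exact ⟨p, e3, e5, q, e2, e4, e6⟩
  have oppLR : ∀ x y : V, Ty.inL β (ty G v x) = true → Ty.inR β (ty G v y) = true →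
      Ty.opp β (ty G v x) (ty G v y) = true := by
    intro x y hx hy
    unfold Ty.opp
    simp [hx, hy]
  have oppRL : ∀ x y : V, Ty.inR β (ty G v x) = true → Ty.inL β (ty G v y) = true →
      Ty.opp β (ty G v x) (ty G v y) = true := by
    intro x y hx hy
    unfold Ty.opp
    simp [hx, hy]
  -- the six non-edges of `G`
  have m : ¬ G.Adj b2 a ∧ ¬ G.Adj b2 d1 ∧ ¬ G.Adj b2 d3 ∧ ¬ G.Adj d2 a ∧ ¬ G.Adj d2 b1 ∧
      ¬ G.Adj c d3 := by
    rcases hside with ⟨s1, s2, s3, s4, s5, s6, s7⟩ | ⟨s1, s2, s3, s4, s5, s6, s7⟩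
    · exact ⟨fun h => n1 ⟨h, oppLR _ _ s2 s4⟩, fun h => n2 ⟨h, oppLR _ _ s2 s6⟩,
        fun h => n3 ⟨h, oppLR _ _ s2 s7⟩, fun h => n4 ⟨h, oppLR _ _ s3 s4⟩,
        fun h => n5 ⟨h, oppLR _ _ s3 s5⟩, fun h => n6 ⟨h, oppLR _ _ s1 s7⟩⟩
    · exact ⟨fun h => n1 ⟨h, oppRL _ _ s2 s4⟩, fun h => n2 ⟨h, oppRL _ _ s2 s6⟩,
        fun h => n3 ⟨h, oppRL _ _ s2 s7⟩, fun h => n4 ⟨h, oppRL _ _ s3 s4⟩,
        fun h => n5 ⟨h, oppRL _ _ s3 s5⟩, fun h => n6 ⟨h, oppRL _ _ s1 s7⟩⟩
  obtain ⟨m1, m2, m3, m4, m5, m6⟩ := m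
  obtain ⟨s, i⟩ := β
  cases s
  · -- vertices on the same side are never adjacent
    have ns : ∀ x y : V, ((Ty.inL (false, i) (ty G v x) = true ∧ Ty.inL (false, i) (ty G v y) = true) ∨
        (Ty.inR (false, i) (ty G v x) = true ∧ Ty.inR (false, i) (ty G v y) = true)) →
        ¬ G.Adj x y := by
      intro x y h hxy
      have := (block_same M h hxy).1
      exact Bool.false_ne_true this
    have all : ∀ x y : V, (x = c ∨ x = b2 ∨ x = d2) → (y = c ∨ y = b2 ∨ y = d2) → ¬ G.Adj x y := by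
      intro x y hx hy
      apply ns
      rcases hside with ⟨s1, s2, s3, s4, s5, s6, s7⟩ | ⟨s1, s2, s3, s4, s5, s6, s7⟩
      · left
        constructor
        · rcases hx with rfl | rfl | rfl <;> assumption
        · rcases hy with rfl | rfl | rfl <;> assumption
      · right
        constructor
        · rcases hx with rfl | rfl | rfl <;> assumption
        · rcases hy with rfl | rfl | rfl <;> assumption
    have all' : ∀ x y : V, (x = a ∨ x = b1 ∨ x = d1 ∨ x = d3) → (y = a ∨ y = b1 ∨ y = d1 ∨ y = d3) →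
        ¬ G.Adj x y := by
      intro x y hx hy
      apply ns
      rcases hside with ⟨s1, s2, s3, s4, s5, s6, s7⟩ | ⟨s1, s2, s3, s4, s5, s6, s7⟩
      · right
        constructor
        · rcases hx with rfl | rfl | rfl | rfl <;> assumption
        · rcases hy with rfl | rfl | rfl | rfl <;> assumption
      · left
        constructor
        · rcases hx with rfl | rfl | rfl | rfl <;> assumption
        · rcases hy with rfl | rfl | rfl | rfl <;> assumption
    exact M.sf c a b1 b2 d1 d2 d3 g1 g2 g3 g4 g5 g6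
      (all' a b1 (by simp) (by simp)) (fun h => m1 h.symm) (all' a d1 (by simp) (by simp))
      (fun h => m4 h.symm) (all' a d3 (by simp) (by simp)) (all c b2 (by simp) (by simp))
      (all c d2 (by simp) (by simp)) m6 (all' b1 d1 (by simp) (by simp)) (fun h => m5 h.symm)
      (all' b1 d3 (by simp) (by simp)) m2 (all b2 d2 (by simp) (by simp)) m3
      (all' d1 d3 (by simp) (by simp))
  · -- rotate
    have M' := M.rot i
    have hL : ∀ x : V, Ty.inL (true, i) (ty G v x) = true → IsA G (fun j => v (j + i)) 0 x := by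
      intro x hx
      simp only [Ty.inL, decide_eq_true_eq] at hx
      have tx := ty_spec M x
      rw [hx] at tx
      rw [isA_rot, zero_add]
      exact tx
    have hR : ∀ x : V, Ty.inR (true, i) (ty G v x) = true →
        IsB G (fun j => v (j + i)) 0 x ∨ IsZ G (fun j => v (j + i)) x := by
      intro x hx
      simp only [Ty.inR, decide_eq_true_eq] at hx
      have tx := ty_spec M x
      rcases hx with hx | hx <;> rw [hx] at tx
      · left
        rw [isB_rot, zero_add]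
        exact tx
      · right
        rw [isZ_rot]
        exact tx
    rcases hside with ⟨s1, s2, s3, s4, s5, s6, s7⟩ | ⟨s1, s2, s3, s4, s5, s6, s7⟩
    · exact block_left M' (hL _ s1) (hL _ s2) (hL _ s3) (hR _ s4) (hR _ s5) (hR _ s6) (hR _ s7)
        g1 g2 g3 g4 g5 g6 m1 m2 m3 m4 m5 m6
    · exact block_right M' (hR _ s2) (hR _ s3) (hL _ s4) (hL _ s5) (hL _ s6) (hL _ s7)
        g1 g2 g3 g4 g5 g6 m1 m2 m3 m4 m5 m6

theorem dec_block [Finite V] [Fintype K] (M : Ctx G v) (κ : V → K)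
    (hκ : ∀ x y, κ x = κ y → ty G v x = ty G v y)
    (hbz : ∀ i x x' y y', IsB G v i x → IsZ G v y → κ x = κ x' → κ y = κ y' →
      (G.Adj x y ↔ G.Adj x' y'))
    (U : Set V) (hne : U.Nonempty) (β : Bool × ZMod 5)
    (hU : ∀ x ∈ U, Ty.inL β (ty G v x) = true ∨ Ty.inR β (ty G v x) = true) :
    Dec G.Adj κ (4 * Fintype.card K) U U := by
  have hB := bip (blockBG G v β) (block_sfree M β) U (Set.toFinite U) hne
  refine dec_flip (κ := κ) (fun P k l => P ∨ ∃ x y, κ x = k ∧ κ y = l ∧ G.Adj x y ∧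
    ((IsB G v β.2 x ∧ IsZ G v y) ∨ (IsZ G v x ∧ IsB G v β.2 y))) ?_ (le_refl U) hB
  intro u hu w hw _
  constructor
  · intro h
    by_cases ho : Ty.opp β (ty G v u) (ty G v w) = true
    · exact Or.inl ⟨h, ho⟩
    · right
      have hs : (Ty.inL β (ty G v u) = true ∧ Ty.inL β (ty G v w) = true) ∨
          (Ty.inR β (ty G v u) = true ∧ Ty.inR β (ty G v w) = true) := by
        rcases hU u hu with hu' | hu' <;> rcases hU w hw with hw' | hw'
        · exact Or.inl ⟨hu', hw'⟩
        · exact (ho (by unfold Ty.opp; simp [hu', hw'])).elim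
        · exact (ho (by unfold Ty.opp; simp [hu', hw'])).elim
        · exact Or.inr ⟨hu', hw'⟩
      exact ⟨u, w, rfl, rfl, h, (block_same M hs h).2⟩
  · rintro (h | ⟨x, y, hx, hy, hxy, ⟨h1, h2⟩ | ⟨h1, h2⟩⟩)
    · exact h.1
    · exact (hbz β.2 x u y w h1 h2 hx hy).1 hxy
    · exact ((hbz β.2 y w x u h2 h1 hy hx).1 hxy.symm).symm

end Pool.Agent.CWB
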