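import Pool.Agent.CWB.Defs

/-! TRANS: `trans_split`, see the text in Tripart.lean -/

namespace Pool.Agent.CWB

variable {V : Type*}


private lemma fin3_third : ∀ s t : Fin 3, ∃ c : Fin 3, c ≠ s ∧ c ≠ t := by
  decide

theorem trans_split (H : V → V → Prop) (cl : V → Fin 3) (U : Set V)
    (hsymm : ∀ u w, H u w → H w u) (hcross : ∀ u w, H u w → cl u ≠ cl w)
    (htrans : ∀ x ∈ U, ∀ y ∈ U, ∀ z ∈ U, cl x ≠ cl y → cl y ≠ cl z → cl x ≠ cl z →
      H x y → H y z → H x z)
    (hall : ∀ c, ∃ x ∈ U, cl x = c) : Split H cl U := by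
  classical
  by_cases hconn : ∃ D : Set V, D ⊆ U ∧ D.Nonempty ∧ (U \ D).Nonempty ∧
      ∀ a ∈ D, ∀ b ∈ U \ D, ¬ H a b
  · obtain ⟨D, hDU, hD, hUD, hno⟩ := hconn
    refine ⟨D, U \ D, Set.union_sdiff_cancel hDU, Set.disjoint_sdiff_right, hD, hUD, ?_, ?_⟩
    · intro u hu u' hu' _ w hw
      exact iff_of_false (hno u hu w hw) (hno u' hu' w hw)
    · intro w hw w' hw' _ u hu
      exact iff_of_false (fun h => hno u hu w hw (hsymm _ _ h))
        (fun h => hno u hu w' hw' (hsymm _ _ h))
  · have hclosed : ∀ D : Set V, D ⊆ U → D.Nonempty →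
        (∀ a ∈ D, ∀ b ∈ U, H a b → b ∈ D) → ∀ b ∈ U, b ∈ D := by
      intro D hDU hD hcl b hb
      by_contra hbD
      refine hconn ⟨D, hDU, hD, ⟨b, hb, hbD⟩, ?_⟩
      intro a ha c hc hac
      exact hc.2 (hcl a ha c hc.1 hac)
    -- (1) a vertex with neighbours in two classes
    have h1 : ∃ x ∈ U, ∃ y ∈ U, ∃ z ∈ U, H x y ∧ H x z ∧ cl y ≠ cl z := by
      by_contra hcon
      have N1 : ∀ x ∈ U, ∀ y ∈ U, ∀ z ∈ U, H x y → H x z → cl y = cl z := by
        intro x hx y hy z hz hxy hxz
        by_contra hne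
        exact hcon ⟨x, hx, y, hy, z, hz, hxy, hxz, hne⟩
      obtain ⟨x, hx, hx0⟩ := hall 0
      obtain ⟨x1, hx1, hx10⟩ := hall 1
      -- some edge at x
      have hedge : ∃ y ∈ U, H x y := by
        by_contra hne
        have : x1 ∈ ({x} : Set V) := by
          refine hclosed {x} (by simpa using hx) ⟨x, rfl⟩ ?_ x1 hx1
          intro a ha b hb hab
          rw [Set.mem_singleton_iff] at ha
          subst ha
          exact absurd ⟨b, hb, hab⟩ hne
        rw [Set.mem_singleton_iff] at this
        rw [this, hx0] at hx10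
        exact absurd hx10 (by decide)
      obtain ⟨y, hy, hxy⟩ := hedge
      obtain ⟨c, hcs, hct⟩ := fin3_third (cl x) (cl y)
      obtain ⟨x0, hx0U, hx0c⟩ := hall c
      have hmem := hclosed
        {u | u ∈ U ∧ ((cl u = cl x ∧ ∀ w ∈ U, H u w → cl w = cl y) ∨
          (cl u = cl y ∧ ∀ w ∈ U, H u w → cl w = cl x))}
        (fun u hu => hu.1)
        ⟨x, hx, Or.inl ⟨rfl, fun w hw hxw => N1 x hx w hw y hy hxw hxy⟩⟩
        (by
          rintro a ⟨haU, ha⟩ b hb hab
          refine ⟨hb, ?_⟩
          rcases ha with ⟨ha1, ha2⟩ | ⟨ha1, ha2⟩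
          · right
            refine ⟨ha2 b hb hab, fun w hw hbw => ?_⟩
            rw [← ha1]
            exact N1 b hb w hw a haU hbw (hsymm _ _ hab)
          · left
            refine ⟨ha2 b hb hab, fun w hw hbw => ?_⟩
            rw [← ha1]
            exact N1 b hb w hw a haU hbw (hsymm _ _ hab))
        x0 hx0U
      rcases hmem.2 with ⟨h, _⟩ | ⟨h, _⟩
      · exact hcs (hx0c ▸ h)
      · exact hct (hx0c ▸ h)
    obtain ⟨x, hx, y, hy, z, hz, hxy, hxz, hyz⟩ := h1
    have hsx : cl x ≠ cl y := hcross _ _ hxy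
    have hsz : cl x ≠ cl z := hcross _ _ hxz
    -- neighbours of x in the two classes are complete to each other
    have hNN : ∀ y' ∈ U, ∀ z' ∈ U, cl y' ≠ cl z' → H x y' → H x z' → H y' z' := by
      intro y' hy' z' hz' hne h1 h2
      exact htrans y' hy' x hx z' hz' (hcross _ _ h1).symm (hcross _ _ h2) hne (hsymm _ _ h1) h2
    -- a neighbour, in the third class, of a neighbour of x is a neighbour of x
    have hN2 : ∀ y' ∈ U, ∀ w ∈ U, H x y' → H y' w → cl x ≠ cl w → H x w := by
      intro y' hy' w hw h1 h2 hne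
      exact htrans x hx y' hy' w hw (hcross _ _ h1) (hcross _ _ h2) hne h1 h2
    -- vertices of the class of x adjacent to a neighbour of x are adjacent to all neighbours of x
    have hA : ∀ x' ∈ U, cl x' = cl x → ∀ y' ∈ U, H x y' → H x' y' → ∀ w ∈ U, H x w → H x' w := by
      intro x' hx' hcx y' hy' hxy' hx'y' w hw hxw
      by_cases hc : cl y' = cl w
      · -- go through the third class
        obtain ⟨v, hv, hxv, hvc⟩ : ∃ v ∈ U, H x v ∧ cl v ≠ cl y' := by
          by_cases h : cl y = cl y'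
          · exact ⟨z, hz, hxz, fun h' => hyz (h.trans h'.symm)⟩
          · exact ⟨y, hy, hxy, h⟩
        have h3 : H x' v := by
          refine htrans x' hx' y' hy' v hv (hcross _ _ hx'y') (Ne.symm hvc) ?_ hx'y'
            (hNN y' hy' v hv (Ne.symm hvc) hxy' hxv)
          rw [hcx]; exact hcross _ _ hxv
        refine htrans x' hx' v hv w hw (hcross _ _ h3) (by rw [← hc]; exact hvc) ?_ h3
          (hNN v hv w hw (by rw [← hc]; exact hvc) hxv hxw)
        rw [hcx]; exact hcross _ _ hxw
      · refine htrans x' hx' y' hy' w hw (hcross _ _ hx'y') hc ?_ hx'y' (hNN y' hy' w hw hc hxy' hxw)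
        rw [hcx]; exact hcross _ _ hxw
    -- the closed set
    have hD : ∀ b ∈ U, H x b ∨ (cl b = cl x ∧ H b y) := by
      intro b hb
      have := hclosed {b | b ∈ U ∧ (H x b ∨ (cl b = cl x ∧ H b y))} (fun u hu => hu.1)
        ⟨y, hy, Or.inl hxy⟩
        (by
          rintro a ⟨haU, ha⟩ c hc hac
          refine ⟨hc, ?_⟩
          rcases ha with ha | ⟨ha1, ha2⟩
          · by_cases hcx : cl c = cl x
            · right
              exact ⟨hcx, hA c hc hcx a haU ha (hsymm _ _ hac) y hy hxy⟩
            · left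
              exact hN2 a haU c hc ha hac (Ne.symm hcx)
          · left
            -- a in the class of x, adjacent to all neighbours of x; c a neighbour of a
            have hac' : cl a ≠ cl c := hcross _ _ hac
            obtain ⟨v, hv, hxv, hvc⟩ : ∃ v ∈ U, H x v ∧ cl v ≠ cl c := by
              by_cases h : cl y = cl c
              · exact ⟨z, hz, hxz, fun h' => hyz (h.trans h'.symm)⟩
              · exact ⟨y, hy, hxy, h⟩
            have hav : H a v := hA a haU ha1 y hy hxy ha2 v hv hxv
            have hvc' : H v c := by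
              refine htrans v hv a haU c hc (hcross _ _ hav).symm hac' hvc (hsymm _ _ hav) hac
            exact hN2 v hv c hc hxv hvc' (by rw [← ha1]; exact hac'))
        b hb
      exact this.2
    have hcomp : ∀ w ∈ U, cl w ≠ cl x → H w x := by
      intro w hw hwx
      rcases hD w hw with h | ⟨h, _⟩
      · exact hsymm _ _ h
      · exact absurd h hwx
    refine ⟨{x}, U \ {x}, ?_, Set.disjoint_sdiff_right, ⟨x, rfl⟩, ⟨y, hy, ?_⟩, ?_, ?_⟩
    · exact Set.union_sdiff_cancel (by simpa using hx)
    · intro h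
      rw [Set.mem_singleton_iff] at h
      exact hsx (by rw [h])
    · intro u hu u' hu' _ w _
      rw [Set.mem_singleton_iff] at hu hu'
      rw [hu, hu']
    · intro w hw w' hw' hcl u hu
      rw [Set.mem_singleton_iff] at hu
      subst hu
      by_cases h : cl w = cl u
      · exact iff_of_false (fun h' => hcross _ _ h' h) (fun h' => hcross _ _ h' (hcl ▸ h))
      · exact iff_of_true (hcomp w hw.1 h) (hcomp w' hw'.1 (fun h' => h (hcl.trans h')))

end Pool.Agent.CWB
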