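import Pool.Agent.CWB.Defs

/-!
# TRI: two lemmas on 3-partite structures

`tripartite_split` (3-partite tournament without 3-cycles; Bondy).
  For `x ∈ U` let `S_x` be the set of vertices of `U` that are reachable from `x` by arcs between different
  classes.  If some `T = S_x ≠ U` then `(U \ T, T)`… take `S := U \ T`, `T`: no arc goes from `T` to `S`, so all
  arcs go from `S` to `T`.  Otherwise everything reaches everything; we derive a contradiction.
  Notation: `u ↝_{ab} w`: reachable inside the classes `a, b` only.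
  (T) if `x` is in the third class `c`, `x → u` and `u ↝_{ab} w` then `x → w`; if `w ↝_{ab} u` and `u → x`
      then `w → x` (induction on the walk; transitivity of transversal triples).
  (A) if `u ∈ a` reaches `w` then: `w ∈ b ⇒ u ↝_{ab} w`; `w ∈ c ⇒ u ↝_{ac} w`; `w ∈ a ⇒ u ↝_{ab} w ∨ u ↝_{ac} w`.
      (induction on the walk, last arc `w → w'`: e.g. `w ∈ b`, `w' ∈ c`: `u ↝_{ab} w → w'` so `u → w'` by (T).)
  Take `p, q, r` in the three classes.  Say `p → q` (otherwise reverse all arcs / exchange names).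
  By (T) for `q` (third class for p's and r's classes): `r ↝ p` inside their classes (A), `p → q` so `r → q`.
  By (T) for `r`: `r → q`, `q ↝ p` inside the classes of `p,q`, so `r → p`.
  By (T) for `p`: `q ↝ r` inside the classes of `q,r`, `r → p`, so `q → p`: contradiction with `p → q`.

`trans_split`: a symmetric relation `H` between the classes which is transitive on transversal triples.
  If some proper nonempty subset of `U` has no `H`-edge to its complement: it gives a split.
  Otherwise `H` is connected on `U`.  (1) some `x ∈ U` has `H`-neighbours in two different classes: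
  otherwise take an `H`-edge `x y` (classes `s, t`) and
  `S := {u of class s with all H-neighbours in class t} ∪ {u of class t with all H-neighbours in class s}`
  (neighbours are taken in `U`; `x, y ∈ S` because each vertex has neighbours in one class only);
  `S` is closed under `H`-neighbours and misses the third class, contradiction.
  (2) Let `x` be such a vertex, of class `s`, with the neighbourhoods `N_t ≠ ∅`, `N_r ≠ ∅`.
  Every `y ∈ N_t` is adjacent to all of `N_r` and to nothing else in class `r`; the same with `t, r` exchanged;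
  `x' ∈ s` adjacent to one vertex of `N_t ∪ N_r` is adjacent to all of `N_t ∪ N_r` and to nothing else.
  So `{x' ∈ s adjacent to N_t ∪ N_r} ∪ N_t ∪ N_r` is closed, so it is `U`, and `U` is complete
  tripartite; then `{x}, U \ {x}` is a split.
-/

namespace Pool.Agent.CWB

variable {V : Type*}

/-- arcs of `U` between different classes -/
private def Tripart_R (arc : V → V → Prop) (cl : V → Fin 3) (U : Set V) (u w : V) : Prop :=
  u ∈ U ∧ w ∈ U ∧ cl u ≠ cl w ∧ arc u w

/-- arcs of `U` between the two classes different from `c` -/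
private def Tripart_R2 (arc : V → V → Prop) (cl : V → Fin 3) (U : Set V) (c : Fin 3) (u w : V) :
    Prop :=
  u ∈ U ∧ w ∈ U ∧ cl u ≠ cl w ∧ arc u w ∧ cl u ≠ c ∧ cl w ≠ c

open Relation in
private theorem Tripart_T1 {arc : V → V → Prop} {cl : V → Fin 3} {U : Set V}
    (htrans : ∀ x ∈ U, ∀ y ∈ U, ∀ z ∈ U, cl x ≠ cl y → cl y ≠ cl z → cl x ≠ cl z →
      arc x y → arc y z → arc x z) {c : Fin 3} {x u w : V} (hx : x ∈ U) (hxc : cl x = c)
    (hxu : arc x u) (h : ReflTransGen (Tripart_R2 arc cl U c) u w) : arc x w := by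
  induction h with
  | refl => exact hxu
  | tail _ hbc ih =>
    obtain ⟨h1, h2, h3, h4, h5, h6⟩ := hbc
    exact htrans x hx _ h1 _ h2 (by rw [hxc]; exact h5.symm) h3 (by rw [hxc]; exact h6.symm) ih h4

open Relation in
private theorem Tripart_T2 {arc : V → V → Prop} {cl : V → Fin 3} {U : Set V}
    (htrans : ∀ x ∈ U, ∀ y ∈ U, ∀ z ∈ U, cl x ≠ cl y → cl y ≠ cl z → cl x ≠ cl z →
      arc x y → arc y z → arc x z) {c : Fin 3} {x u w : V} (hx : x ∈ U) (hxc : cl x = c)
    (hux : arc u x) (h : ReflTransGen (Tripart_R2 arc cl U c) w u) : arc w x := by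
  induction h using ReflTransGen.head_induction_on with
  | refl => exact hux
  | head hac _ ih =>
    obtain ⟨h1, h2, h3, h4, h5, h6⟩ := hac
    exact htrans _ h1 _ h2 x hx h3 (by rw [hxc]; exact h6) (by rw [hxc]; exact h5) h4 ih

private theorem Tripart_third {a b c d : Fin 3} (hab : a ≠ b) (hc1 : c ≠ a) (hc2 : c ≠ b)
    (hd1 : d ≠ a) (hd2 : d ≠ b) : d = c := by
  omega

open Relation in
private theorem Tripart_A {arc : V → V → Prop} {cl : V → Fin 3} {U : Set V}
    (htrans : ∀ x ∈ U, ∀ y ∈ U, ∀ z ∈ U, cl x ≠ cl y → cl y ≠ cl z → cl x ≠ cl z →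
      arc x y → arc y z → arc x z) {u w : V} (hu : u ∈ U)
    (h : ReflTransGen (Tripart_R arc cl U) u w) :
    (cl w ≠ cl u → ∀ c, c ≠ cl u → c ≠ cl w → ReflTransGen (Tripart_R2 arc cl U c) u w) ∧
    (cl w = cl u → ∃ c, c ≠ cl u ∧ ReflTransGen (Tripart_R2 arc cl U c) u w) := by
  induction h with
  | refl =>
    refine ⟨fun h => absurd rfl h, fun _ => ?_⟩
    obtain ⟨c, hc⟩ : ∃ c : Fin 3, c ≠ cl u := ⟨cl u + 1, by omega⟩
    exact ⟨c, hc, ReflTransGen.refl⟩
  | @tail w w' _ hbc ih =>
    obtain ⟨h1, h2, h3, h4⟩ := hbc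
    by_cases hwu : cl w = cl u
    · obtain ⟨c, hc, hcw⟩ := ih.2 hwu
      have hne : cl w' ≠ cl u := fun h => h3 (hwu.trans h.symm)
      refine ⟨fun _ d hd1 hd2 => ?_, fun h => absurd h hne⟩
      by_cases hw'c : cl w' = c
      · have : arc u w' := Tripart_T2 htrans h2 hw'c h4 hcw
        exact ReflTransGen.single ⟨hu, h2, hne.symm, this, hd1.symm, hd2.symm⟩
      · have hdc : d = c := Tripart_third (a := cl u) (b := cl w') hne.symm hc
          (fun h => hw'c h.symm) hd1 hd2
        subst hdc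
        exact hcw.tail ⟨h1, h2, h3, h4, by rw [hwu]; exact hc.symm, hw'c⟩
    · obtain ⟨c, hc1, hc2⟩ : ∃ c : Fin 3, c ≠ cl u ∧ c ≠ cl w := by
        have h0 : ∀ a b : Fin 3, ∃ c : Fin 3, c ≠ a ∧ c ≠ b := by decide
        exact h0 _ _
      have hcw := ih.1 hwu c hc1 hc2
      by_cases hw'u : cl w' = cl u
      · refine ⟨fun h => absurd hw'u h, fun _ => ⟨c, hc1, ?_⟩⟩
        exact hcw.tail ⟨h1, h2, h3, h4, hc2.symm, by rw [hw'u]; exact hc1.symm⟩
      · refine ⟨fun _ d hd1 hd2 => ?_, fun h => absurd h hw'u⟩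
        have hw'c : cl w' = c := Tripart_third (a := cl u) (b := cl w) (fun h => hwu h.symm) hc1 hc2
          hw'u h3.symm
        have : arc u w' := Tripart_T2 htrans h2 hw'c h4 hcw
        exact ReflTransGen.single ⟨hu, h2, fun h => hw'u h.symm, this, hd1.symm, hd2.symm⟩

open Relation in
private theorem Tripart_contra {arc : V → V → Prop} {cl : V → Fin 3} {U : Set V}
    (htour : ∀ u ∈ U, ∀ w ∈ U, cl u ≠ cl w → (arc u w ↔ ¬ arc w u))
    (htrans : ∀ x ∈ U, ∀ y ∈ U, ∀ z ∈ U, cl x ≠ cl y → cl y ≠ cl z → cl x ≠ cl z →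
      arc x y → arc y z → arc x z)
    (hreach : ∀ x ∈ U, ∀ w ∈ U, ReflTransGen (Tripart_R arc cl U) x w)
    {p q r : V} (hp : p ∈ U) (hq : q ∈ U) (hr : r ∈ U) (hpq : cl p ≠ cl q) (hqr : cl q ≠ cl r)
    (hpr : cl p ≠ cl r) (h : arc p q) : False := by
  have e1 := (Tripart_A htrans hr (hreach r hr p hp)).1 hpr (cl q) hqr hpq.symm
  have hrq : arc r q := Tripart_T2 htrans hq rfl h e1
  have e2 := (Tripart_A htrans hq (hreach q hq p hp)).1 hpq (cl r) hqr.symm hpr.symm
  have hrp : arc r p := Tripart_T1 htrans hr rfl hrq e2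
  have e3 := (Tripart_A htrans hq (hreach q hq r hr)).1 hqr.symm (cl p) hpq hpr
  have hqp : arc q p := Tripart_T2 htrans hp rfl hrp e3
  exact (htour p hp q hq hpq).1 h hqp

theorem tripartite_split (arc : V → V → Prop) (cl : V → Fin 3) (U : Set V)
    (htour : ∀ u ∈ U, ∀ w ∈ U, cl u ≠ cl w → (arc u w ↔ ¬ arc w u))
    (htrans : ∀ x ∈ U, ∀ y ∈ U, ∀ z ∈ U, cl x ≠ cl y → cl y ≠ cl z → cl x ≠ cl z →
      arc x y → arc y z → arc x z)
    (hall : ∀ c, ∃ x ∈ U, cl x = c) :
    ∃ S T : Set V, S ∪ T = U ∧ Disjoint S T ∧ S.Nonempty ∧ T.Nonempty ∧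
      ∀ u ∈ S, ∀ w ∈ T, cl u ≠ cl w → arc u w := by
  by_cases hreach : ∀ x ∈ U, ∀ w ∈ U, Relation.ReflTransGen (Tripart_R arc cl U) x w
  · exfalso
    obtain ⟨p, hp, hp0⟩ := hall 0
    obtain ⟨q, hq, hq1⟩ := hall 1
    obtain ⟨r, hr, hr2⟩ := hall 2
    have hpq : cl p ≠ cl q := by rw [hp0, hq1]; decide
    have hqr : cl q ≠ cl r := by rw [hq1, hr2]; decide
    have hpr : cl p ≠ cl r := by rw [hp0, hr2]; decide
    by_cases h : arc p q
    · exact Tripart_contra htour htrans hreach hp hq hr hpq hqr hpr h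
    · have h' : arc q p := (htour q hq p hp hpq.symm).2 h
      exact Tripart_contra htour htrans hreach hq hp hr hpq.symm hpr hqr h'
  · push Not at hreach
    obtain ⟨x, hx, w, hw, hxw⟩ := hreach
    refine ⟨{v | v ∈ U ∧ ¬ Relation.ReflTransGen (Tripart_R arc cl U) x v},
      {v | v ∈ U ∧ Relation.ReflTransGen (Tripart_R arc cl U) x v}, ?_, ?_, ⟨w, hw, hxw⟩,
      ⟨x, hx, Relation.ReflTransGen.refl⟩, ?_⟩
    · ext v
      simp only [Set.mem_union, Set.mem_ofPred_eq]
      tauto
    · rw [Set.disjoint_left]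
      rintro v ⟨_, h1⟩ ⟨_, h2⟩
      exact h1 h2
    · rintro u ⟨hu, hxu⟩ v ⟨hv, hxv⟩ huv
      by_contra hn
      have hvu : arc v u := (htour v hv u hu huv.symm).2 hn
      exact hxu (hxv.tail ⟨hv, hu, huv.symm, hvu⟩)

end Pool.Agent.CWB
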