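import Pool.Agent.CWB.Struct
import Pool.Agent.CWB.Block
import Pool.Agent.CWB.Tripart
import Pool.Agent.CWB.TransSplit

/-!
# C5CASE: connected (K₃, S₁,₂,₃)-free graphs with an induced 5-cycle

`K0 := Ty × (ZMod 5 → Bool × Bool)`; `κ0 x := (ty x, fun i => (x ∈ P1 i, x ∈ P2 i))`, where `P1 i, P2 i` are given by
`dichotomy` when its second alternative holds (arbitrary otherwise).
`κ1 = ref κ0`, `κ2 = ref κ1`, `κ3 = ref κ2`, `k = 4 * card K3`.
Claim: `Dec G.Adj κ3 k U U` for all nonempty `U`, by strong induction on `|U|`: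
singleton; a split w.r.t. `κ3` (`dec_of_split`); otherwise `cutConn_hrel` and `struct`.  In the first case `dec_block`
(`hbz`: a vertex of type `Z` is homogeneous to the vertices of type `B i` by `Local.zb`, so the adjacency is
determined by its status w.r.t. the `κ0`-class).
In the second case (`inT (false, i)`, `NoIndep`): if all three types occur in `U`, `tripartite_split` with
`arc u w := G.Adj u w` for the type pairs (A i, A (i+1)), (A (i+1), B (i+3)), (B (i+3), A i) and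
`arc u w := ¬ G.Adj u w` for the reversed pairs gives a split w.r.t. the types, so w.r.t. `κ3`: contradiction
(transitivity: triangle-free for one orientation, `NoIndep` for the other one).
If only two types occur, `U` is in a block.
In the third case: if all three types occur, `trans_split` with `H u w := ¬ G.Adj u w` between `A i` and `A (i+1)`,
`H u w := G.Adj u w` between `Z` and the others.  Transitivity on `p : A i`, `q : A (i+1)`, `z : Z`:
(zp, zq ⇒ p ≁ q) triangle-free; (z ~ p, p ≁ q ⇒ z ~ q) `Local.ft2a` (`q` has a neighbour in `Z`); (z ~ q, p ≁ q ⇒ z ~ p)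
`Local.ft2b`.  If only two types occur, `U` is in a block.
-/

namespace Pool.Agent.CWB

/-- the colour type of `κ0` -/
abbrev K0 : Type := Ty × (ZMod 5 → Bool × Bool)
/-- one refinement step -/
abbrev KRef (K : Type) : Type := K × (K → Bool × Bool)

noncomputable instance instFintypeKRef (K : Type) [Fintype K] : Fintype (KRef K) := by
  classical
  exact inferInstanceAs (Fintype (K × (K → Bool × Bool)))

/-- the number of classes in the `C₅` case -/
noncomputable def bound5 : ℕ := 4 * Nat.card (KRef (KRef (KRef K0)))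

namespace C5

variable {V : Type*} {G : SimpleGraph V} {v : ZMod 5 → V}

theorem notadj_same (M : Ctx G v) {x y : V} (h : ty G v x = ty G v y) : ¬ G.Adj x y := by
  have hx := ty_spec M x
  have hy := ty_spec M y
  rw [← h] at hy
  cases ht : ty G v x with
  | A i => rw [ht] at hx hy; exact M.sameA hx hy
  | B i => rw [ht] at hx hy; exact M.sameB hx hy
  | Z => rw [ht] at hx hy; exact M.sameZ hx hy

theorem zb_rot (M : Ctx G v) {i : ZMod 5} {z c d : V} (hz : IsZ G v z) (hc : IsB G v i c)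
    (hd : IsB G v i d) (h : G.Adj z c) : G.Adj z d := by
  by_contra h'
  exact Local.zb (M.rot i) (isZ_rot.2 hz) (isB_rot.2 (by rwa [zero_add])) (isB_rot.2 (by rwa [zero_add]))
    h h'

theorem ft2a_rot (M : Ctx G v) {i : ZMod 5} {p q z a : V}
    (t_p : IsA G v i p) (t_q : IsA G v (i + 1) q) (t_z : IsZ G v z) (t_a : IsZ G v a)
    (h1 : G.Adj p z) (h2 : ¬ G.Adj p q) (h3 : G.Adj q a) : G.Adj q z := by
  by_contra h'
  exact Local.ft2a (M.rot i) (isA_rot.2 (by rwa [zero_add])) (isA_rot.2 (by rwa [add_comm]))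
    (isZ_rot.2 t_z) (isZ_rot.2 t_a) h1 h' h2 h3

theorem ft2b_rot (M : Ctx G v) {i : ZMod 5} {p q z a : V}
    (t_p : IsA G v i p) (t_q : IsA G v (i + 1) q) (t_z : IsZ G v z) (t_a : IsZ G v a)
    (h1 : G.Adj q z) (h2 : ¬ G.Adj p q) (h3 : G.Adj p a) : G.Adj p z := by
  by_contra h'
  exact Local.ft2b (M.rot i) (isA_rot.2 (by rwa [zero_add])) (isA_rot.2 (by rwa [add_comm]))
    (isZ_rot.2 t_z) (isZ_rot.2 t_a) h1 h' h2 h3

theorem hbz_of_ref {K : Type*} (M : Ctx G v) (κ : V → K)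
    (hκ : ∀ x y, κ x = κ y → ty G v x = ty G v y) (i : ZMod 5) (x x' y y' : V)
    (hx : IsB G v i x) (hy : IsZ G v y) (h1 : κ x = κ x')
    (h2 : ref G.Adj κ y = ref G.Adj κ y') : G.Adj x y ↔ G.Adj x' y' := by
  have isB_of : ∀ w, ty G v w = .B i → IsB G v i w := fun w hw => by
    have := ty_spec M w
    rw [hw] at this
    exact this
  have htx : ty G v x = .B i := ty_eq M (t := .B i) hx
  have hx' : IsB G v i x' := isB_of x' (by rw [← hκ _ _ h1, htx])
  have hty : ty G v y = .Z := ty_eq M (t := .Z) hy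
  have hy' : IsZ G v y' := by
    have := ty_spec M y'
    rw [← hκ _ _ (ref_fst h2), hty] at this
    exact this
  have key : ∀ u w, IsZ G v u → IsB G v i w → κ w = κ x →
      (G.Adj u w ↔ ∃ w', κ w' = κ x ∧ G.Adj u w') := by
    intro u w hu hw hwx
    constructor
    · intro h
      exact ⟨w, hwx, h⟩
    · rintro ⟨w', hw', h⟩
      exact zb_rot M hu (isB_of w' (by rw [hκ _ _ hw', htx])) hw h
  rw [G.adj_comm, G.adj_comm x', key y x hy hx rfl, key y' x' hy' hx' h1.symm]
  exact (ref_status h2 (κ x)).1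

/-- the number of a type in a triple -/
def clT (τ : Bool × ZMod 5) (t : Ty) : Fin 3 :=
  if t = .A τ.2 then 0 else if t = .A (τ.2 + 1) then 1 else 2

theorem clT_inj : ∀ τ, ∀ s t : Ty, Ty.inT τ s = true → Ty.inT τ t = true → clT τ s = clT τ t →
    s = t := by decide

theorem clT_block : ∀ τ, ∀ c : Fin 3, ∃ β, ∀ t : Ty, Ty.inT τ t = true → clT τ t ≠ c →
    Ty.inL β t = true ∨ Ty.inR β t = true := by decide

theorem clT_cases : ∀ τ, ∀ t : Ty, Ty.inT τ t = true → (clT τ t = 0 ∧ t = .A τ.2) ∨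
    (clT τ t = 1 ∧ t = .A (τ.2 + 1)) ∨ (clT τ t = 2 ∧ t = Ty.third τ) := by decide

theorem fin3 : ∀ a b c : Fin 3, a ≠ b → b ≠ c → a ≠ c → (b = a + 1 ∧ c = b + 1 ∧ ¬ c = a + 1) ∨
    (¬ b = a + 1 ∧ ¬ c = b + 1 ∧ c = a + 1) := by decide

theorem fin3' : ∀ a b : Fin 3, a ≠ b → (b = a + 1 ∧ ¬ a = b + 1) ∨ (¬ b = a + 1 ∧ a = b + 1) := by
  decide

theorem case2 (M : Ctx G v) (i : ZMod 5) (hno : NoIndep G v i) (U : Set V)
    (hU : ∀ x ∈ U, Ty.inT (false, i) (ty G v x) = true) :
    Split G.Adj (ty G v) U ∨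
      ∃ β, ∀ x ∈ U, Ty.inL β (ty G v x) = true ∨ Ty.inR β (ty G v x) = true := by
  classical
  set cl : V → Fin 3 := fun x => clT (false, i) (ty G v x) with hcl
  by_cases hall : ∀ c, ∃ x ∈ U, cl x = c
  swap
  · right
    push Not at hall
    obtain ⟨c, hc⟩ := hall
    obtain ⟨β, hβ⟩ := clT_block (false, i) c
    exact ⟨β, fun x hx => hβ _ (hU x hx) (hc x hx)⟩
  left
  have same : ∀ x ∈ U, ∀ y ∈ U, cl x = cl y → ¬ G.Adj x y := fun x hx y hy h =>
    notadj_same M (clT_inj _ _ _ (hU x hx) (hU y hy) h)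
  have hc : ∀ x ∈ U, (cl x = 0 ∧ IsA G v i x) ∨ (cl x = 1 ∧ IsA G v (i + 1) x) ∨
      (cl x = 2 ∧ IsB G v (i + 3) x) := by
    intro x hx
    have hs := ty_spec M x
    rcases clT_cases _ _ (hU x hx) with ⟨h, h'⟩ | ⟨h, h'⟩ | ⟨h, h'⟩
    · rw [h'] at hs; exact Or.inl ⟨h, hs⟩
    · rw [h'] at hs; exact Or.inr (Or.inl ⟨h, hs⟩)
    · rw [h'] at hs; exact Or.inr (Or.inr ⟨h, hs⟩)
  have noind : ∀ x ∈ U, ∀ y ∈ U, ∀ z ∈ U, cl x ≠ cl y → cl y ≠ cl z → cl x ≠ cl z →
      ¬ G.Adj x y → ¬ G.Adj y z → ¬ G.Adj x z → False := by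
    intro x hx y hy z hz h1 h2 h3 n1 n2 n3
    have n1' : ¬ G.Adj y x := fun h => n1 h.symm
    have n2' : ¬ G.Adj z y := fun h => n2 h.symm
    have n3' : ¬ G.Adj z x := fun h => n3 h.symm
    rcases hc x hx with ⟨cx, tx⟩ | ⟨cx, tx⟩ | ⟨cx, tx⟩ <;>
    rcases hc y hy with ⟨cy, ty'⟩ | ⟨cy, ty'⟩ | ⟨cy, ty'⟩ <;>
    first
      | exact absurd (cx.trans cy.symm) h1
      | (rcases hc z hz with ⟨cz, tz⟩ | ⟨cz, tz⟩ | ⟨cz, tz⟩ <;>
          first
            | exact absurd (cx.trans cz.symm) h3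
            | exact absurd (cy.trans cz.symm) h2
            | exact hno x y z tx ty' tz n1 n2 n3
            | exact hno x z y tx tz ty' n3 n2' n1
            | exact hno y x z ty' tx tz n1' n3 n2
            | exact hno y z x ty' tz tx n2 n3' n1'
            | exact hno z x y tz tx ty' n3' n1 n2'
            | exact hno z y x tz ty' tx n2' n1' n3')
  obtain ⟨S, T, hST, hdis, hSne, hTne, harc⟩ := tripartite_split
    (fun u w => if cl w = cl u + 1 then G.Adj u w else ¬ G.Adj u w) cl U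
    (by
      intro u hu w hw huw
      rcases fin3' _ _ huw with ⟨h1, h2⟩ | ⟨h1, h2⟩
      · rw [if_pos h1, if_neg h2, not_not, G.adj_comm]
      · rw [if_neg h1, if_pos h2, G.adj_comm])
    (by
      intro x hx y hy z hz h1 h2 h3 a1 a2
      rcases fin3 _ _ _ h1 h2 h3 with ⟨e1, e2, e3⟩ | ⟨e1, e2, e3⟩
      · rw [if_pos e1] at a1
        rw [if_pos e2] at a2
        rw [if_neg e3]
        exact fun h => M.kf x y z a1 a2 h
      · rw [if_neg e1] at a1
        rw [if_neg e2] at a2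
        rw [if_pos e3]
        by_contra h
        exact noind x hx y hy z hz h1 h2 h3 a1 a2 h)
    hall
  have hSU : S ⊆ U := fun x hx => hST ▸ Or.inl hx
  have hTU : T ⊆ U := fun x hx => hST ▸ Or.inr hx
  refine ⟨S, T, hST, hdis, hSne, hTne, ?_, ?_⟩
  · intro u hu u' hu' huu' w hw
    have huu : cl u = cl u' := by simp only [hcl, huu']
    by_cases h : cl u = cl w
    · exact iff_of_false (same u (hSU hu) w (hTU hw) h) (same u' (hSU hu') w (hTU hw) (huu ▸ h))
    · have a1 := harc u hu w hw h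
      have a2 := harc u' hu' w hw (huu ▸ h)
      by_cases h' : cl w = cl u + 1
      · rw [if_pos h'] at a1
        rw [if_pos (huu ▸ h')] at a2
        exact iff_of_true a1 a2
      · rw [if_neg h'] at a1
        rw [if_neg (huu ▸ h')] at a2
        exact iff_of_false a1 a2
  · intro w hw w' hw' hww' u hu
    have hww : cl w = cl w' := by simp only [hcl, hww']
    rw [G.adj_comm w, G.adj_comm w']
    by_cases h : cl u = cl w
    · exact iff_of_false (same u (hSU hu) w (hTU hw) h) (same u (hSU hu) w' (hTU hw') (hww ▸ h))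
    · have a1 := harc u hu w hw h
      have a2 := harc u hu w' hw' (hww ▸ h)
      by_cases h' : cl w = cl u + 1
      · rw [if_pos h'] at a1
        rw [if_pos (hww ▸ h')] at a2
        exact iff_of_true a1 a2
      · rw [if_neg h'] at a1
        rw [if_neg (hww ▸ h')] at a2
        exact iff_of_false a1 a2

theorem case3 (M : Ctx G v) (i : ZMod 5) (U : Set V)
    (hU' : ∀ x ∈ U, Ty.inT (true, i) (ty G v x) = true ∧
      (ty G v x ≠ .Z → ∃ z, IsZ G v z ∧ G.Adj x z)) :
    Split G.Adj (ty G v) U ∨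
      ∃ β, ∀ x ∈ U, Ty.inL β (ty G v x) = true ∨ Ty.inR β (ty G v x) = true := by
  classical
  have hU : ∀ x ∈ U, Ty.inT (true, i) (ty G v x) = true := fun x hx => (hU' x hx).1
  set cl : V → Fin 3 := fun x => clT (true, i) (ty G v x) with hcl
  by_cases hall : ∀ c, ∃ x ∈ U, cl x = c
  swap
  · right
    push Not at hall
    obtain ⟨c, hc⟩ := hall
    obtain ⟨β, hβ⟩ := clT_block (true, i) c
    exact ⟨β, fun x hx => hβ _ (hU x hx) (hc x hx)⟩
  left
  have same : ∀ x ∈ U, ∀ y ∈ U, cl x = cl y → ¬ G.Adj x y := fun x hx y hy h =>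
    notadj_same M (clT_inj _ _ _ (hU x hx) (hU y hy) h)
  have hc : ∀ x ∈ U, (cl x = 0 ∧ IsA G v i x ∧ ∃ a, IsZ G v a ∧ G.Adj x a) ∨
      (cl x = 1 ∧ IsA G v (i + 1) x ∧ ∃ a, IsZ G v a ∧ G.Adj x a) ∨ (cl x = 2 ∧ IsZ G v x) := by
    intro x hx
    have hs := ty_spec M x
    rcases clT_cases _ _ (hU x hx) with ⟨h, h'⟩ | ⟨h, h'⟩ | ⟨h, h'⟩
    · rw [h'] at hs; exact Or.inl ⟨h, hs, (hU' x hx).2 (by rw [h']; simp)⟩
    · rw [h'] at hs; exact Or.inr (Or.inl ⟨h, hs, (hU' x hx).2 (by rw [h']; simp)⟩)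
    · rw [h'] at hs; exact Or.inr (Or.inr ⟨h, hs⟩)
  set H : V → V → Prop := fun u w =>
    cl u ≠ cl w ∧ (if cl u = 2 ∨ cl w = 2 then G.Adj u w else ¬ G.Adj u w) with hH
  have hsymm : ∀ u w, H u w → H w u := by
    rintro u w ⟨h1, h2⟩
    refine ⟨h1.symm, ?_⟩
    by_cases h : cl u = 2 ∨ cl w = 2
    · rw [if_pos h] at h2
      rw [if_pos h.symm]
      exact h2.symm
    · rw [if_neg h] at h2
      rw [if_neg (fun h' => h h'.symm)]
      exact fun h' => h2 h'.symm
  -- `z : Z`, `y, x` in the two other classes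
  have tr : ∀ z ∈ U, ∀ y ∈ U, ∀ x ∈ U, cl z = 2 → cl y ≠ 2 → cl x ≠ 2 → cl y ≠ cl x →
      G.Adj z y → ¬ G.Adj y x → G.Adj z x := by
    intro z hz y hy x hx cz cy cx hyx h1 h2
    have tz : IsZ G v z := by
      rcases hc z hz with ⟨h, -⟩ | ⟨h, -⟩ | ⟨-, h⟩
      · rw [cz] at h; exact absurd h (by decide)
      · rw [cz] at h; exact absurd h (by decide)
      · exact h
    rcases hc y hy with ⟨cy', ty', a, ha, hya⟩ | ⟨cy', ty', a, ha, hya⟩ | ⟨cy', -⟩
    · rcases hc x hx with ⟨cx', -⟩ | ⟨cx', tx', b, hb, hxb⟩ | ⟨cx', -⟩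
      · exact absurd (cy'.trans cx'.symm) hyx
      · exact (ft2a_rot M ty' tx' tz hb h1.symm h2 hxb).symm
      · exact absurd cx' cx
    · rcases hc x hx with ⟨cx', tx', b, hb, hxb⟩ | ⟨cx', -⟩ | ⟨cx', -⟩
      · exact (ft2b_rot M tx' ty' tz hb h1.symm (fun h => h2 h.symm) hxb).symm
      · exact absurd (cy'.trans cx'.symm) hyx
      · exact absurd cx' cx
    · exact absurd cy' cy
  have htrans : ∀ x ∈ U, ∀ y ∈ U, ∀ z ∈ U, cl x ≠ cl y → cl y ≠ cl z → cl x ≠ cl z →
      H x y → H y z → H x z := by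
    rintro x hx y hy z hz h1 h2 h3 ⟨-, a1⟩ ⟨-, a2⟩
    refine ⟨h3, ?_⟩
    by_cases cy : cl y = 2
    · rw [if_pos (Or.inr cy)] at a1
      rw [if_pos (Or.inl cy)] at a2
      rw [if_neg (by rintro (h | h) <;> [exact h1 (h.trans cy.symm); exact h2 (cy.trans h.symm)])]
      exact fun h => M.kf x y z a1 a2 h
    by_cases cx : cl x = 2
    · have cz : cl z ≠ 2 := fun h => h3 (cx.trans h.symm)
      rw [if_pos (Or.inl cx)] at a1
      rw [if_neg (by rintro (h | h) <;> [exact cy h; exact cz h])] at a2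
      rw [if_pos (Or.inl cx)]
      exact tr x hx y hy z hz cx cy cz h2 a1 a2
    by_cases cz : cl z = 2
    · rw [if_neg (by rintro (h | h) <;> [exact cx h; exact cy h])] at a1
      rw [if_pos (Or.inr cz)] at a2
      rw [if_pos (Or.inr cz)]
      exact (tr z hz y hy x hx cz cy cx h1.symm a2.symm (fun h => a1 h.symm)).symm
    · exfalso
      have : ∀ a b c : Fin 3, a ≠ b → b ≠ c → a ≠ c → ¬ b = 2 → ¬ a = 2 → ¬ c = 2 → False := by
        decide
      exact this _ _ _ h1 h2 h3 cy cx cz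
  obtain ⟨S, T, hST, hdis, hSne, hTne, hs1, hs2⟩ := trans_split H cl U hsymm (fun u w h => h.1)
    htrans hall
  have hSU : S ⊆ U := fun x hx => hST ▸ Or.inl hx
  have hTU : T ⊆ U := fun x hx => hST ▸ Or.inr hx
  -- from `H` to `G`
  have conv : ∀ u ∈ U, ∀ u' ∈ U, ∀ w ∈ U, cl u = cl u' → (H u w ↔ H u' w) →
      (G.Adj u w ↔ G.Adj u' w) := by
    intro u hu u' hu' w hw huu h
    by_cases h1 : cl u = cl w
    · exact iff_of_false (same u hu w hw h1) (same u' hu' w hw (huu ▸ h1))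
    · simp only [hH, ← huu] at h
      by_cases h2 : cl u = 2 ∨ cl w = 2
      · simpa [h1, h2] using h
      · simp only [ne_eq, h1, not_false_eq_true, if_neg h2, true_and] at h
        exact not_iff_not.1 h
  refine ⟨S, T, hST, hdis, hSne, hTne, ?_, ?_⟩
  · intro u hu u' hu' huu' w hw
    have huu : cl u = cl u' := by simp only [hcl, huu']
    exact conv u (hSU hu) u' (hSU hu') w (hTU hw) huu (hs1 u hu u' hu' huu w hw)
  · intro w hw w' hw' hww' u hu
    have hww : cl w = cl w' := by simp only [hcl, hww']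
    exact conv w (hTU hw) w' (hTU hw') u (hSU hu) hww (hs2 w hw w' hw' hww u hu)

theorem split_fine {V K K' : Type*} {adj : V → V → Prop} {col : V → K} {κ : V → K'} {U : Set V}
    (hκ : ∀ x y, κ x = κ y → col x = col y) (h : Split adj col U) : Split adj κ U := by
  obtain ⟨S, T, h1, h2, h3, h4, h5, h6⟩ := h
  exact ⟨S, T, h1, h2, h3, h4, fun u hu u' hu' h => h5 u hu u' hu' (hκ _ _ h),
    fun w hw w' hw' h => h6 w hw w' hw' (hκ _ _ h)⟩

/-- the induction -/
theorem frame [Finite V] {K : Type*} [Fintype K] (κ : V → K)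
    (hstep : ∀ U : Set V, U.Nontrivial → ¬ Split G.Adj κ U → Dec G.Adj κ (4 * Fintype.card K) U U)
    (n : ℕ) (U : Set V) (hn : U.ncard = n) (hne : U.Nonempty) :
    Dec G.Adj κ (4 * Fintype.card K) U U := by
  induction n using Nat.strong_induction_on generalizing U with
  | _ n ih =>
    by_cases hnt : U.Nontrivial
    swap
    · obtain ⟨x, hx⟩ := (Set.not_nontrivial_iff.1 hnt).eq_empty_or_singleton.resolve_left
        hne.ne_empty
      rw [hx]
      exact Dec.single x
    by_cases hsp : Split G.Adj κ U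
    · obtain ⟨S, T, hST, hdis, hSne, hTne, a1, a2⟩ := hsp
      have hcard : S.ncard + T.ncard = n := by
        rw [← hn, ← hST, Set.ncard_union_eq hdis (Set.toFinite _) (Set.toFinite _)]
      have hS1 : 0 < S.ncard := (Set.ncard_pos (Set.toFinite _)).2 hSne
      have hT1 : 0 < T.ncard := (Set.ncard_pos (Set.toFinite _)).2 hTne
      exact dec_of_split (by omega) hST hdis a1 a2
        (ih _ (by omega) S rfl hSne) (ih _ (by omega) T rfl hTne)
    · exact hstep U hnt hsp

/-- the final assembly for an abstract colouring `κ3` -/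
theorem gen [Finite V] [Nonempty V] (M : Ctx G v) {K : Type} (inst : Fintype K) (κ : V → K)
    (hκ : ∀ x y, κ x = κ y → ty G v x = ty G v y)
    (hbz : ∀ i x x' y y', IsB G v i x → IsZ G v y → κ x = κ x' → κ y = κ y' →
      (G.Adj x y ↔ G.Adj x' y'))
    (hstr : ∀ U : Set V, U.Nontrivial → ¬ Split G.Adj κ U →
      (∃ β : Bool × ZMod 5, ∀ x ∈ U, Ty.inL β (ty G v x) = true ∨ Ty.inR β (ty G v x) = true) ∨
      (∃ i : ZMod 5, NoIndep G v i ∧ ∀ x ∈ U, Ty.inT (false, i) (ty G v x) = true) ∨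
      (∃ i : ZMod 5, ∀ x ∈ U, Ty.inT (true, i) (ty G v x) = true ∧
        (ty G v x ≠ .Z → ∃ z, IsZ G v z ∧ G.Adj x z))) :
    Dec G.Adj (fun _ => ()) (4 * Nat.card K) Set.univ Set.univ := by
  rw [Nat.card_eq_fintype_card]
  have hblock : ∀ U : Set V, U.Nonempty →
      (∃ β, ∀ x ∈ U, Ty.inL β (ty G v x) = true ∨ Ty.inR β (ty G v x) = true) →
      Dec G.Adj κ (4 * Fintype.card K) U U := by
    rintro U hne ⟨β, hβ⟩
    exact dec_block M κ hκ hbz U hne β hβ
  have main : Dec G.Adj κ (4 * Fintype.card K) Set.univ Set.univ := by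
    refine frame κ (fun U hnt hsp => ?_) _ Set.univ rfl Set.univ_nonempty
    rcases hstr U hnt hsp with h | ⟨i, hno, hU⟩ | ⟨i, hU⟩
    · exact hblock U hnt.nonempty h
    · rcases case2 M i hno U hU with h | h
      · exact absurd (split_fine hκ h) hsp
      · exact hblock U hnt.nonempty h
    · rcases case3 M i U hU with h | h
      · exact absurd (split_fine hκ h) hsp
      · exact hblock U hnt.nonempty h
  exact main.coarse (fun _ => ())

end C5

open C5 in
theorem dec_c5 {V : Type*} [Finite V] [Nonempty V] {G : SimpleGraph V} {v : ZMod 5 → V}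
    (M : Ctx G v) : Dec G.Adj (fun _ => ()) bound5 Set.univ Set.univ := by
  classical
  have hdich : ∀ i, ∃ P : Set V × Set V, NoIndep G v i ∨ ∀ r, IsB G v (i + 3) r →
      (∀ p, IsA G v i p → (G.Adj r p ↔ p ∈ P.1)) ∨ (∀ p, IsA G v i p → (G.Adj r p ↔ p ∈ P.2)) := by
    intro i
    rcases dichotomy M i with h | ⟨P1, P2, h⟩
    · exact ⟨(∅, ∅), Or.inl h⟩
    · exact ⟨(P1, P2), Or.inr h⟩
  choose P hP using hdich
  let κ0 : V → K0 := fun x => (ty G v x, fun i => (decide (x ∈ (P i).1), decide (x ∈ (P i).2)))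
  have h0 : ∀ x y, κ0 x = κ0 y → ty G v x = ty G v y := fun x y h => congrArg Prod.fst h
  have h0P : ∀ x y, κ0 x = κ0 y → ∀ i, (x ∈ (P i).1 ↔ y ∈ (P i).1) ∧ (x ∈ (P i).2 ↔ y ∈ (P i).2) := by
    intro x y h i
    have h1 := congrFun (congrArg Prod.snd h) i
    simp only [κ0, Prod.mk.injEq, decide_eq_decide] at h1
    exact h1
  let κ1 := ref G.Adj κ0
  let κ2 := ref G.Adj κ1
  let κ3 : V → KRef (KRef (KRef K0)) := ref G.Adj κ2
  have h1 : ∀ x y, κ1 x = κ1 y → ty G v x = ty G v y := fun x y h => h0 _ _ (ref_fst h)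
  have h2 : ∀ x y, κ2 x = κ2 y → ty G v x = ty G v y := fun x y h => h1 _ _ (ref_fst h)
  have h3 : ∀ x y, κ3 x = κ3 y → ty G v x = ty G v y := fun x y h => h2 _ _ (ref_fst h)
  have hsymm : ∀ a b, G.Adj a b → G.Adj b a := fun a b h => h.symm
  have hN : ∀ i : ZMod 5, NoIndep G v i ∨
      ∀ r p p', IsB G v (i + 3) r → IsA G v i p → κ0 p = κ0 p' → (G.Adj r p ↔ G.Adj r p') := by
    intro i
    rcases hP i with h | h
    · exact Or.inl h
    · right
      intro r p p' hr hp hpp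
      have hp' : IsA G v i p' := by
        have := ty_spec M p'
        rw [← h0 _ _ hpp, ty_eq M (t := .A i) hp] at this
        exact this
      rcases h r hr with h | h
      · rw [h p hp, h p' hp', (h0P _ _ hpp i).1]
      · rw [h p hp, h p' hp', (h0P _ _ hpp i).2]
  exact gen M inferInstance κ3 h3 (fun i x x' y y' hx hy e1 e2 =>
    hbz_of_ref M κ2 h2 i x x' y y' hx hy (ref_fst e1) e2) fun U hnt hsp =>
      struct M κ0 h0 hN U hnt (cutConn_hrel hsymm U hsp)

end Pool.Agent.CWB
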