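import Pool.Agent.CWB.Defs

/-!
# CW: from a decomposition tree to a clique-width expression

Proof.  By induction on `Dec` one shows: for every `S` with `Dec G.Adj col k univ S` there are an
expression `e : Expr (3 * k)`, a bijection `φ : e.V ≃ S` which is an isomorphism onto `G[S]`, and
`f : V → Fin k` with the property of `Cls` for `S` such that the label of `v` is `f (φ v)`,
read in the first zone `[0,k)` of `Fin (3k)`.
Single vertex: clear (`1 ≤ k`).
Union `S ∪ T`: take `e₁` for `S` (labels in the zone `[0,k)`), `e₂` for `T`, all labels of `e₂`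
shifted to the zone `[k,2k)` (k relabel steps).  Take the union, and join the labels `i` and `k+j`
for all pairs `(i,j)` for which some `u ∈ S` with `f_S u = i` and some `w ∈ T` with `f_T w = j` are
adjacent; by `Cls` for `S` and for `T` then ALL such pairs are adjacent
(`Cls` of `S` says that the adjacency of `u` to `w ∉ S` depends only on `f_S u`; the same for `T`;
a singleton node also has such a function).
Now relabel: let `g` be the function given by `Cls` for `S ∪ T`; for every label `l < 2k` that is used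
choose a vertex `r_l` with that label and relabel `l` to `2k + g(r_l)`; finally shift the zone
`[2k,3k)` to `[0,k)`.  The new label of `v` is `f'(v) := g (r_{label v})`, and `f'` has the property of
`Cls` for `S ∪ T`, because `v` and `r_{label v}` have the same neighbours outside `S ∪ T`
(both are in `S` with the same `f_S`, or both in `T` with the same `f_T`).

A useful general lemma: for every `σ : Fin n → Fin n` that moves a zone `A` (a finset of labels)
outside `A` (`∀ a ∈ A, σ a ∉ A`) and every `e : Expr n` there is `e' : Expr n` with the same vertices and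
edges and the labels `if lab v ∈ A then σ (lab v) else lab v` (induction on the finset `A`).
-/

namespace Pool.Agent.CWB

namespace CW

/-- the relation `H` on the set `S` with the labels `f` is built by an expression -/
def RealH {V : Type*} (m : ℕ) (H : V → V → Prop) (S : Set V) (f : V → Fin m) : Prop :=
  ∃ (e : Expr m) (φ : e.V → V), Function.Injective φ ∧ Set.range φ = S ∧
    (∀ u v, e.graph.Adj u v ↔ H (φ u) (φ v)) ∧ ∀ v, e.lab v = f (φ v)

variable {V : Type*} {m : ℕ} {H H' : V → V → Prop} {S T : Set V} {f f' g : V → Fin m}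

theorem RealH.congr (h : RealH m H S f) (hH : ∀ u ∈ S, ∀ v ∈ S, (H u v ↔ H' u v))
    (hf : ∀ u ∈ S, f u = f' u) : RealH m H' S f' := by
  obtain ⟨e, φ, h1, h2, h3, h4⟩ := h
  have hm : ∀ v, φ v ∈ S := fun v => h2 ▸ ⟨v, rfl⟩
  exact ⟨e, φ, h1, h2, fun u v => (h3 u v).trans (hH _ (hm u) _ (hm v)),
    fun v => (h4 v).trans (hf _ (hm v))⟩

theorem RealH.vert (x : V) (f : V → Fin m) : RealH m (fun _ _ => False) {x} f := by
  refine ⟨Expr.vert (f x), fun _ => x, ?_, ?_, ?_, ?_⟩
  · intro a b _
    exact Subsingleton.elim (α := Unit) a b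
  · ext y
    constructor
    · rintro ⟨_, rfl⟩
      exact Set.mem_singleton _
    · intro hy
      exact ⟨(), (Set.mem_singleton_iff.mp hy).symm⟩
  · intro u v
    exact Iff.rfl
  · intro v
    rfl

theorem RealH.relabel (h : RealH m H S f) (i j : Fin m) :
    RealH m H S (fun v => if f v = i then j else f v) := by
  obtain ⟨e, φ, h1, h2, h3, h4⟩ := h
  refine ⟨Expr.relabel i j e, φ, h1, h2, h3, fun v => ?_⟩
  have : (Expr.relabel i j e).lab v = if e.lab v = i then j else e.lab v := rfl
  rw [this, h4 v]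

theorem RealH.relabelSet (h : RealH m H S f) (A : Finset (Fin m)) (σ : Fin m → Fin m)
    (hσ : ∀ a ∈ A, σ a ∉ A) :
    RealH m H S (fun v => if f v ∈ A then σ (f v) else f v) := by
  classical
  induction A using Finset.induction_on with
  | empty =>
    refine h.congr (fun u _ v _ => Iff.rfl) fun u _ => ?_
    simp
  | insert a A ha ih =>
    have ih' := ih fun b hb hb' => hσ b (Finset.mem_insert_of_mem hb)
      (Finset.mem_insert_of_mem hb')
    refine (ih'.relabel a (σ a)).congr (fun u _ v _ => Iff.rfl) fun u _ => ?_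
    by_cases hu : f u ∈ A
    · have h1 : σ (f u) ≠ a := fun h => hσ _ (Finset.mem_insert_of_mem hu)
        (h ▸ Finset.mem_insert_self _ _)
      simp [hu, h1]
    · by_cases hua : f u = a
      · simp [hua, ha]
      · simp [hu, hua]

theorem RealH.union (h1 : RealH m H S f) (h2 : RealH m H' T g) (hd : Disjoint S T)
    (K : V → V → Prop) (l : V → Fin m)
    (hK1 : ∀ u ∈ S, ∀ v ∈ S, (H u v ↔ K u v)) (hK2 : ∀ u ∈ T, ∀ v ∈ T, (H' u v ↔ K u v))
    (hK3 : ∀ u ∈ S, ∀ v ∈ T, ¬ K u v) (hK4 : ∀ u ∈ T, ∀ v ∈ S, ¬ K u v)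
    (hl1 : ∀ u ∈ S, f u = l u) (hl2 : ∀ u ∈ T, g u = l u) :
    RealH m K (S ∪ T) l := by
  obtain ⟨e, φ, a1, a2, a3, a4⟩ := h1
  obtain ⟨e', φ', b1, b2, b3, b4⟩ := h2
  have hm : ∀ v, φ v ∈ S := fun v => a2 ▸ ⟨v, rfl⟩
  have hm' : ∀ v, φ' v ∈ T := fun v => b2 ▸ ⟨v, rfl⟩
  have hne : ∀ u v, φ u ≠ φ' v := fun u v h =>
    Set.disjoint_left.mp hd (hm u) (h ▸ hm' v)
  refine ⟨Expr.union e e', (Sum.elim φ φ' : e.V ⊕ e'.V → V), ?_, ?_, ?_, ?_⟩
  · exact Function.Injective.sumElim a1 b1 hne
  · exact (Set.Sum.elim_range φ φ').trans (by rw [a2, b2])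
  · intro u v
    have key : ∀ u v : e.V ⊕ e'.V, (SimpleGraph.sum e.graph e'.graph).Adj u v ↔
        K (Sum.elim φ φ' u) (Sum.elim φ φ' v) := by
      rintro (u | u) (v | v)
      · exact (a3 u v).trans (hK1 _ (hm u) _ (hm v))
      · constructor
        · intro h; exact absurd h (by simp [SimpleGraph.sum])
        · intro h; exact absurd h (hK3 _ (hm u) _ (hm' v))
      · constructor
        · intro h; exact absurd h (by simp [SimpleGraph.sum])
        · intro h; exact absurd h (hK4 _ (hm' u) _ (hm v))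
      · exact (b3 u v).trans (hK2 _ (hm' u) _ (hm' v))
    exact key u v
  · intro v
    have key : ∀ v : e.V ⊕ e'.V, Sum.elim e.lab e'.lab v = l (Sum.elim φ φ' v) := by
      rintro (v | v)
      · exact (a4 v).trans (hl1 _ (hm v))
      · exact (b4 v).trans (hl2 _ (hm' v))
    exact key v

theorem RealH.join (h : RealH m H S f) (i j : Fin m) (hij : i ≠ j) :
    RealH m (fun u v => H u v ∨ (f u = i ∧ f v = j) ∨ (f v = i ∧ f u = j)) S f := by
  obtain ⟨e, φ, h1, h2, h3, h4⟩ := h
  refine ⟨Expr.join i j hij e, φ, h1, h2, fun u v => ?_, h4⟩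
  have key : (Expr.join i j hij e).graph.Adj u v ↔ e.graph.Adj u v ∨
      (u ≠ v ∧ ((e.lab u = i ∧ e.lab v = j) ∨ (e.lab v = i ∧ e.lab u = j))) := Iff.rfl
  rw [key, h3 u v, h4 u, h4 v]
  constructor
  · rintro (h | ⟨_, h⟩)
    · exact Or.inl h
    · exact Or.inr h
  · rintro (h | h)
    · exact Or.inl h
    · refine Or.inr ⟨?_, h⟩
      rintro rfl
      rcases h with ⟨h, h'⟩ | ⟨h, h'⟩
      · exact hij (h.symm.trans h')
      · exact hij (h.symm.trans h')

theorem RealH.joinSet (h : RealH m H S f) (J : Finset (Fin m × Fin m))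
    (hJ : ∀ p ∈ J, p.1 ≠ p.2) :
    RealH m (fun u v => H u v ∨ ∃ p ∈ J, (f u = p.1 ∧ f v = p.2) ∨ (f v = p.1 ∧ f u = p.2))
      S f := by
  classical
  induction J using Finset.induction_on with
  | empty =>
    refine h.congr (fun u _ v _ => ?_) fun u _ => rfl
    simp
  | insert a J ha ih =>
    have ih' := ih fun p hp => hJ p (Finset.mem_insert_of_mem hp)
    refine (ih'.join a.1 a.2 (hJ a (Finset.mem_insert_self _ _))).congr (fun u _ v _ => ?_)
      fun u _ => rfl
    constructor
    · rintro ((h | ⟨p, hp, h⟩) | h)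
      · exact Or.inl h
      · exact Or.inr ⟨p, Finset.mem_insert_of_mem hp, h⟩
      · exact Or.inr ⟨a, Finset.mem_insert_self _ _, h⟩
    · rintro (h | ⟨p, hp, h⟩)
      · exact Or.inl (Or.inl h)
      · rcases Finset.mem_insert.mp hp with rfl | hp
        · exact Or.inr h
        · exact Or.inl (Or.inr ⟨p, hp, h⟩)

/-- the class property with a given function -/
def ClsF {V K : Type*} (adj : V → V → Prop) (col : V → K) (k : ℕ) (S : Set V)
    (f : V → Fin k) : Prop :=
  ∀ u ∈ S, ∀ v ∈ S, f u = f v → col u = col v ∧ ∀ w, w ∉ S → (adj u w ↔ adj v w)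

theorem dec_nonempty {V K : Type*} {adj : V → V → Prop} {col : V → K} {k : ℕ} {U S : Set V}
    (h : Dec adj col k U S) : S.Nonempty := by
  induction h with
  | single x => exact ⟨x, rfl⟩
  | union S T _ _ _ _ ihS _ => exact ihS.mono Set.subset_union_left

/-- the label `l` in the zone `a` -/
def zn (k a : ℕ) (ha : a < 3) (l : Fin k) : Fin (3 * k) :=
  ⟨a * k + l, by
    have := l.2
    interval_cases a <;> omega⟩

theorem real_of_dec {V K : Type*} (G : SimpleGraph V) (col : V → K) (k : ℕ) (hk : 1 ≤ k)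
    (S : Set V) (h : Dec G.Adj col k Set.univ S) :
    ∃ f : V → Fin k, ClsF G.Adj col k S f ∧
      RealH (3 * k) G.Adj S (fun v => zn k 0 (by norm_num) (f v)) := by
  classical
  induction h with
  | single x =>
    refine ⟨fun _ => ⟨0, hk⟩, ?_, ?_⟩
    · intro u hu v hv _
      rw [Set.mem_singleton_iff] at hu hv
      subst hu; subst hv
      exact ⟨rfl, fun w _ => Iff.rfl⟩
    · refine (RealH.vert x _).congr (fun u hu v hv => ?_) fun u _ => rfl
      rw [Set.mem_singleton_iff] at hu hv
      subst hu; subst hv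
      simp
  | union S T hd hdS _ hcls ihS ihT =>
    obtain ⟨f1, c1, r1⟩ := ihS
    obtain ⟨f2, c2, r2⟩ := ihT
    obtain ⟨g, hg⟩ := hcls
    -- shift the labels of `T` to zone 1
    set σ1 : Fin (3 * k) → Fin (3 * k) := fun l =>
      if h : (l : ℕ) < k then zn k 1 (by norm_num) ⟨l, h⟩ else l with hσ1
    have r2' : RealH (3 * k) G.Adj T (fun v => zn k 1 (by norm_num) (f2 v)) := by
      refine (r2.relabelSet (Finset.univ.filter fun l : Fin (3 * k) => (l : ℕ) < k) σ1
        ?_).congr (fun u _ v _ => Iff.rfl) fun u _ => ?_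
      · intro a ha ha'
        rw [Finset.mem_filter] at ha ha'
        have h2 := ha'.2
        simp only [hσ1, dif_pos ha.2, zn] at h2
        omega
      · have h1 : ((zn k 0 (by norm_num) (f2 u) : Fin (3 * k)) : ℕ) < k := by
          simp only [zn]
          have := (f2 u).2
          omega
        have h2 : (zn k 0 (by norm_num) (f2 u) : Fin (3 * k)) ∈
            (Finset.univ.filter fun l : Fin (3 * k) => (l : ℕ) < k) := by
          rw [Finset.mem_filter]
          exact ⟨Finset.mem_univ _, h1⟩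
        simp only [if_pos h2, hσ1, dif_pos h1]
        congr 1
        ext
        simp [zn]
    -- the labels of the union
    set l : V → Fin (3 * k) := fun v =>
      if v ∈ S then zn k 0 (by norm_num) (f1 v) else zn k 1 (by norm_num) (f2 v) with hl
    have hTS : ∀ u ∈ T, u ∉ S := fun u hu hu' => Set.disjoint_left.mp hd hu' hu
    have hlS : ∀ u ∈ S, l u = zn k 0 (by norm_num) (f1 u) := fun u hu => if_pos hu
    have hlT : ∀ u ∈ T, l u = zn k 1 (by norm_num) (f2 u) := fun u hu => if_neg (hTS u hu)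
    have r3 : RealH (3 * k) (fun u v => G.Adj u v ∧ ((u ∈ S ∧ v ∈ S) ∨ (u ∈ T ∧ v ∈ T)))
        (S ∪ T) l := by
      refine r1.union r2' hd _ l ?_ ?_ ?_ ?_ ?_ ?_
      · intro u hu v hv
        exact ⟨fun h => ⟨h, Or.inl ⟨hu, hv⟩⟩, fun h => h.1⟩
      · intro u hu v hv
        exact ⟨fun h => ⟨h, Or.inr ⟨hu, hv⟩⟩, fun h => h.1⟩
      · rintro u hu v hv ⟨_, ⟨_, h⟩ | ⟨h, _⟩⟩
        · exact hTS v hv h
        · exact hTS u h hu
      · rintro u hu v hv ⟨_, ⟨h, _⟩ | ⟨_, h⟩⟩
        · exact hTS u hu h
        · exact hTS v h hv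
      · intro u hu; exact (hlS u hu).symm
      · intro u hu; exact (hlT u hu).symm
    -- equal labels: same side, same class
    have hleq : ∀ u ∈ S ∪ T, ∀ v ∈ S ∪ T, l u = l v →
        (u ∈ S ∧ v ∈ S ∧ f1 u = f1 v) ∨ (u ∈ T ∧ v ∈ T ∧ f2 u = f2 v) := by
      intro u hu v hv huv
      have q1 := (f1 u).2
      have q2 := (f1 v).2
      have q3 := (f2 u).2
      have q4 := (f2 v).2
      rcases hu with hu | hu <;> rcases hv with hv | hv
      · rw [hlS u hu, hlS v hv] at huv
        have := congrArg Fin.val huv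
        simp only [zn] at this
        exact Or.inl ⟨hu, hv, Fin.ext (by omega)⟩
      · rw [hlS u hu, hlT v hv] at huv
        have := congrArg Fin.val huv
        simp only [zn] at this
        omega
      · rw [hlT u hu, hlS v hv] at huv
        have := congrArg Fin.val huv
        simp only [zn] at this
        omega
      · rw [hlT u hu, hlT v hv] at huv
        have := congrArg Fin.val huv
        simp only [zn] at this
        exact Or.inr ⟨hu, hv, Fin.ext (by omega)⟩
    -- joins
    have r4 : RealH (3 * k) G.Adj (S ∪ T) l := by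
      set J : Finset (Fin (3 * k) × Fin (3 * k)) := Finset.univ.filter fun p =>
        ∃ u ∈ S, ∃ w ∈ T, l u = p.1 ∧ l w = p.2 ∧ G.Adj u w with hJ
      have hJ' : ∀ p ∈ J, p.1 ≠ p.2 := by
        intro p hp hpp
        rw [hJ, Finset.mem_filter] at hp
        obtain ⟨_, u, hu, w, hw, e1, e2, _⟩ := hp
        rcases hleq u (Or.inl hu) w (Or.inr hw) (by rw [e1, e2, hpp]) with ⟨_, h, _⟩ | ⟨h, _, _⟩
        · exact hTS w hw h
        · exact hTS u h hu
      have hcross : ∀ u ∈ S, ∀ w ∈ T, (∃ p ∈ J, (l u = p.1 ∧ l w = p.2) ∨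
          (l w = p.1 ∧ l u = p.2)) ↔ G.Adj u w := by
        intro u hu w hw
        constructor
        · rintro ⟨p, hp, h⟩
          rw [hJ, Finset.mem_filter] at hp
          obtain ⟨_, u', hu', w', hw', e1, e2, hadj⟩ := hp
          rcases h with ⟨h, h'⟩ | ⟨h, h'⟩
          · rcases hleq u (Or.inl hu) u' (Or.inl hu') (h.trans e1.symm) with ⟨_, _, h1⟩ | ⟨h1, _, _⟩
            · rcases hleq w (Or.inr hw) w' (Or.inr hw') (h'.trans e2.symm) with
                ⟨h2, _, _⟩ | ⟨_, _, h2⟩
              · exact absurd h2 (hTS w hw)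
              · have a1 := (c1 u hu u' hu' h1).2 w' (hTS w' hw')
                have a2 := (c2 w hw w' hw' h2).2 u (fun h => hTS u h hu)
                exact ((a2.trans ((G.adj_comm _ _).trans (a1.trans Iff.rfl))).mpr hadj).symm
            · exact absurd hu (hTS u h1)
          · rcases hleq w (Or.inr hw) u' (Or.inl hu') (h.trans e1.symm) with
              ⟨h2, _, _⟩ | ⟨_, h2, _⟩
            · exact absurd h2 (hTS w hw)
            · exact absurd hu' (hTS u' h2)
        · intro h
          refine ⟨(l u, l w), ?_, Or.inl ⟨rfl, rfl⟩⟩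
          rw [hJ, Finset.mem_filter]
          exact ⟨Finset.mem_univ _, u, hu, w, hw, rfl, rfl, h⟩
      refine (r3.joinSet J hJ').congr (fun u hu v hv => ?_) fun u _ => rfl
      -- same side: no pair of `J` applies
      have hsame : ∀ u ∈ S ∪ T, ∀ v ∈ S ∪ T, ((u ∈ S ∧ v ∈ S) ∨ (u ∈ T ∧ v ∈ T)) →
          ¬ ∃ p ∈ J, (l u = p.1 ∧ l v = p.2) ∨ (l v = p.1 ∧ l u = p.2) := by
        rintro u hu v hv huv ⟨p, hp, h⟩
        rw [hJ, Finset.mem_filter] at hp
        obtain ⟨_, u', hu', w', hw', e1, e2, _⟩ := hp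
        have main : ∀ x ∈ S ∪ T, ∀ y ∈ S ∪ T, l x = p.1 → l y = p.2 → x ∈ S ∧ y ∈ T := by
          intro x hx y hy ex ey
          refine ⟨?_, ?_⟩
          · rcases hleq x hx u' (Or.inl hu') (ex.trans e1.symm) with ⟨h, _, _⟩ | ⟨_, h, _⟩
            · exact h
            · exact absurd hu' (hTS u' h)
          · rcases hleq y hy w' (Or.inr hw') (ey.trans e2.symm) with ⟨_, h, _⟩ | ⟨h, _, _⟩
            · exact absurd h (hTS w' hw')
            · exact h
        rcases h with ⟨h, h'⟩ | ⟨h, h'⟩
        · obtain ⟨x1, x2⟩ := main u hu v hv h h'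
          rcases huv with ⟨_, h⟩ | ⟨h, _⟩
          · exact hTS v x2 h
          · exact hTS u h x1
        · obtain ⟨x1, x2⟩ := main v hv u hu h h'
          rcases huv with ⟨h, _⟩ | ⟨_, h⟩
          · exact hTS u x2 h
          · exact hTS v h x1
      rcases hu with hu | hu <;> rcases hv with hv | hv
      · have h0 := hsame u (Or.inl hu) v (Or.inl hv) (Or.inl ⟨hu, hv⟩)
        constructor
        · rintro (h | h)
          · exact h.1
          · exact absurd h h0
        · intro h; exact Or.inl ⟨h, Or.inl ⟨hu, hv⟩⟩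
      · constructor
        · rintro (⟨_, ⟨_, h⟩ | ⟨h, _⟩⟩ | h)
          · exact absurd h (hTS v hv)
          · exact absurd hu (hTS u h)
          · exact (hcross u hu v hv).mp h
        · intro h; exact Or.inr ((hcross u hu v hv).mpr h)
      · constructor
        · rintro (⟨_, ⟨h, _⟩ | ⟨_, h⟩⟩ | ⟨p, hp, h⟩)
          · exact absurd h (hTS u hu)
          · exact absurd hv (hTS v h)
          · exact ((hcross v hv u hu).mp ⟨p, hp, h.symm⟩).symm
        · intro h
          obtain ⟨p, hp, h'⟩ := (hcross v hv u hu).mpr h.symm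
          exact Or.inr ⟨p, hp, h'.symm⟩
      · have h0 := hsame u (Or.inr hu) v (Or.inr hv) (Or.inr ⟨hu, hv⟩)
        constructor
        · rintro (h | h)
          · exact h.1
          · exact absurd h h0
        · intro h; exact Or.inl ⟨h, Or.inr ⟨hu, hv⟩⟩
    -- representatives
    have hrep : ∀ c : Fin (3 * k), ∃ r : V, (∃ v ∈ S ∪ T, l v = c) → (r ∈ S ∪ T ∧ l r = c) := by
      intro c
      by_cases h : ∃ v ∈ S ∪ T, l v = c
      · obtain ⟨v, hv, hv'⟩ := h
        exact ⟨v, fun _ => ⟨hv, hv'⟩⟩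
      · exact ⟨(dec_nonempty hdS).some, fun h' => absurd h' h⟩
    choose r hr using hrep
    have hrl : ∀ v ∈ S ∪ T, r (l v) ∈ S ∪ T ∧ l (r (l v)) = l v :=
      fun v hv => hr (l v) ⟨v, hv, rfl⟩
    refine ⟨fun v => g (r (l v)), ?_, ?_⟩
    · -- the class property
      have hbase : ∀ u ∈ S ∪ T, col u = col (r (l u)) ∧
          ∀ w, w ∉ S ∪ T → (G.Adj u w ↔ G.Adj (r (l u)) w) := by
        intro u hu
        obtain ⟨h1, h2⟩ := hrl u hu
        rcases hleq u hu _ h1 h2.symm with ⟨a, b, c⟩ | ⟨a, b, c⟩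
        · have := c1 u a _ b c
          exact ⟨this.1, fun w hw => this.2 w fun h => hw (Or.inl h)⟩
        · have := c2 u a _ b c
          exact ⟨this.1, fun w hw => this.2 w fun h => hw (Or.inr h)⟩
      intro u hu v hv huv
      have h1 := hbase u hu
      have h2 := hbase v hv
      have h3 := hg _ (hrl u hu).1 _ (hrl v hv).1 huv
      refine ⟨h1.1.trans (h3.1.trans h2.1.symm), fun w hw => ?_⟩
      exact (h1.2 w hw).trans ((h3.2 w (Set.mem_univ _) hw).trans (h2.2 w hw).symm)
    · -- relabel zones 0, 1 to zone 2, and zone 2 to zone 0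
      have hl2 : ∀ v, ((l v : Fin (3 * k)) : ℕ) < 2 * k := by
        intro v
        have q1 := (f1 v).2
        have q2 := (f2 v).2
        simp only [hl]
        split_ifs <;> simp only [zn] <;> omega
      have r5 : RealH (3 * k) G.Adj (S ∪ T) (fun v => zn k 2 (by norm_num) (g (r (l v)))) := by
        refine (r4.relabelSet (Finset.univ.filter fun c : Fin (3 * k) => (c : ℕ) < 2 * k)
          (fun c => zn k 2 (by norm_num) (g (r c))) ?_).congr (fun u _ v _ => Iff.rfl)
          fun u _ => ?_
        · intro a _ ha'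
          rw [Finset.mem_filter] at ha'
          have h2 := ha'.2
          simp only [zn] at h2
          omega
        · have h2 : l u ∈ (Finset.univ.filter fun c : Fin (3 * k) => (c : ℕ) < 2 * k) := by
            rw [Finset.mem_filter]
            exact ⟨Finset.mem_univ _, hl2 u⟩
          simp only [if_pos h2]
      refine (r5.relabelSet (Finset.univ.filter fun c : Fin (3 * k) => 2 * k ≤ (c : ℕ))
        (fun c => if h : 2 * k ≤ (c : ℕ) then zn k 0 (by norm_num) ⟨(c : ℕ) - 2 * k, by
          have := c.2; omega⟩ else c) ?_).congr (fun u _ v _ => Iff.rfl) fun u _ => ?_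
      · intro a ha ha'
        rw [Finset.mem_filter] at ha ha'
        have h2 := ha'.2
        simp only [dif_pos ha.2, zn] at h2
        have := a.2
        omega
      · have h1 : 2 * k ≤ ((zn k 2 (by norm_num) (g (r (l u))) : Fin (3 * k)) : ℕ) := by
          simp only [zn]
          omega
        have h2 : (zn k 2 (by norm_num) (g (r (l u))) : Fin (3 * k)) ∈
            (Finset.univ.filter fun c : Fin (3 * k) => 2 * k ≤ (c : ℕ)) := by
          rw [Finset.mem_filter]
          exact ⟨Finset.mem_univ _, h1⟩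
        simp only [if_pos h2, dif_pos h1]
        congr 1
        ext
        simp [zn]

end CW

theorem cw_of_dec {V K : Type*} [Finite V] (G : SimpleGraph V) (col : V → K) (k : ℕ) (hk : 1 ≤ k)
    (h : Dec G.Adj col k Set.univ Set.univ) : CliqueWidthLE G (3 * k) := by
  obtain ⟨f, _, e, φ, h1, h2, h3, _⟩ := CW.real_of_dec G col k hk Set.univ h
  have hb : Function.Bijective φ := ⟨h1, Set.range_eq_univ.mp h2⟩
  refine ⟨e, ⟨(⟨(Equiv.ofBijective φ hb), ?_⟩ : e.graph ≃g G).symm⟩⟩
  intro u v
  exact (h3 u v).symm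

end Pool.Agent.CWB
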