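import Pool.Agent.CWB.DecBasic

/-! DEC-BLOWUP: see the text in OddCycle.lean -/

namespace Pool.Agent.CWB

theorem dec_blowup {V : Type*} [Finite V] [Nonempty V] {G : SimpleGraph V} (k : ℕ) (hk : 7 ≤ k)
    (t : V → ZMod k) (ht : ∀ x y, G.Adj x y ↔ (t y = t x + 1 ∨ t x = t y + 1)) :
    Dec G.Adj (fun _ => ()) 4 Set.univ Set.univ := by
  classical
  have : NeZero k := ⟨by omega⟩
  obtain ⟨N, ⟨e⟩⟩ := Finite.exists_equiv_fin V
  set r : V → ℕ := fun x => (t x).val * N + (e x).val with hr
  have hrinj : Function.Injective r := by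
    intro x y hxy
    simp only [hr] at hxy
    have hx := (e x).isLt
    have hy := (e y).isLt
    have h1 : (N * (t x).val + (e x).val) % N = (N * (t y).val + (e y).val) % N := by
      rw [mul_comm N, mul_comm N, hxy]
    rw [Nat.mul_add_mod, Nat.mul_add_mod, Nat.mod_eq_of_lt hx, Nat.mod_eq_of_lt hy] at h1
    exact e.injective (Fin.ext h1)
  refine dec_linear Set.finite_univ Set.univ_nonempty r hrinj.injOn fun j => ?_
  have hN : 0 < N := by
    obtain ⟨x⟩ := ‹Nonempty V›
    exact (Nat.zero_le _).trans_lt (e x).isLt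
  -- vertices with `t < j / N` are in the prefix, those with `t > j / N` are not
  set T := j / N with hT
  have hin : ∀ x, (t x).val < T → r x ≤ j := by
    intro x hx
    have h1 : ((t x).val + 1) * N ≤ T * N := Nat.mul_le_mul_right _ hx
    have h2 : T * N ≤ j := Nat.div_mul_le_self j N
    have h3 := (e x).isLt
    simp only [hr]
    rw [add_mul] at h1
    omega
  have hout : ∀ x, r x ≤ j → (t x).val ≤ T := by
    intro x hx
    rw [hT, Nat.le_div_iff_mul_le hN]
    simp only [hr] at hx
    omega
  refine ⟨fun u => if (t u).val = 0 then 0 else if (t u).val + 1 = T then 1 else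
    if (t u).val = T then 2 else 3, ?_⟩
  have hcast : ∀ a : ZMod k, ((a.val : ℕ) : ZMod k) = a := fun a => ZMod.natCast_zmod_val a
  -- a vertex of the last class has no neighbour outside the prefix
  have hlast : ∀ u w, r u ≤ j → ¬ r w ≤ j → (t u).val ≠ 0 → (t u).val + 1 ≠ T → (t u).val ≠ T →
      ¬ G.Adj u w := by
    intro u w hu hw h0 h1 h2 hadj
    have hT' : (t u).val + 1 < T := by
      have := hout u hu
      omega
    have hlt := ZMod.val_lt (t u)
    apply hw
    apply hin
    rcases (ht u w).1 hadj with h | h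
    · by_cases hk' : (t u).val + 1 < k
      · have : (t w).val = (t u).val + 1 := by
          have h3 : t w = (((t u).val + 1 : ℕ) : ZMod k) := by
            push_cast; rw [hcast, h]
          rw [h3, ZMod.val_natCast_of_lt hk']
        omega
      · have : (t w).val = 0 := by
          have h3 : t w = (((t u).val + 1 : ℕ) : ZMod k) := by
            push_cast; rw [hcast, h]
          rw [h3, show (t u).val + 1 = k by omega]
          simp
        omega
    · have : (t w).val = (t u).val - 1 := by
        have h3 : t w = (((t u).val - 1 : ℕ) : ZMod k) := by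
          rw [Nat.cast_sub (by omega), hcast, h]
          simp
        rw [h3, ZMod.val_natCast_of_lt (by omega)]
      omega
  rintro u ⟨-, hu⟩ v ⟨-, hv⟩ hf
  refine ⟨rfl, fun w _ hw => ?_⟩
  have hw' : ¬ r w ≤ j := fun h => hw ⟨trivial, h⟩
  have hsame : (t u).val = (t v).val → (G.Adj u w ↔ G.Adj v w) := by
    intro h
    have h' : t u = t v := ZMod.val_injective k h
    rw [ht, ht, h']
  dsimp only at hf
  split_ifs at hf <;>
  first
    | exact hsame (by omega)
    | exact absurd hf (by decide)
    | exact iff_of_false (hlast u w hu hw' ‹_› ‹_› ‹_›) (hlast v w hv hw' ‹_› ‹_› ‹_›)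

end Pool.Agent.CWB
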