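import Pool.Agent.CWB.Statement

/-!
# (K₃, S₁,₂,₃)-free graphs have bounded clique-width: definitions

Project CWB (MP_6cb99c_lc, Q2).  This file contains definitions only.
-/

namespace Pool.Agent.CWB

/-! ## relational forms of the hypotheses -/

/-- no triangle -/
def KF {V : Type*} (adj : V → V → Prop) : Prop :=
  ∀ x y z, adj x y → adj y z → adj x z → False

/-- no induced `S_{1,2,3}` (centre `c`, legs `c a`, `c b1 b2`, `c d1 d2 d3`), for arbitrary
(symmetric, irreflexive) relations.  Distinctness of the seven vertices is automatic. -/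
def SF {V : Type*} (adj : V → V → Prop) : Prop :=
  ∀ c a b1 b2 d1 d2 d3 : V,
    adj c a → adj c b1 → adj b1 b2 → adj c d1 → adj d1 d2 → adj d2 d3 →
    ¬ adj a b1 → ¬ adj a b2 → ¬ adj a d1 → ¬ adj a d2 → ¬ adj a d3 →
    ¬ adj c b2 → ¬ adj c d2 → ¬ adj c d3 →
    ¬ adj b1 d1 → ¬ adj b1 d2 → ¬ adj b1 d3 →
    ¬ adj b2 d1 → ¬ adj b2 d2 → ¬ adj b2 d3 →
    ¬ adj d1 d3 → False

/-! ## decomposition trees -/

/-- `S` splits into at most `k` classes; the class of `u ∈ S` determines its colour and its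
adjacencies to `U \ S`. -/
def Cls {V K : Type*} (adj : V → V → Prop) (col : V → K) (k : ℕ) (U S : Set V) : Prop :=
  ∃ f : V → Fin k, ∀ u ∈ S, ∀ v ∈ S, f u = f v →
    col u = col v ∧ ∀ w ∈ U, w ∉ S → (adj u w ↔ adj v w)

/-- `Dec adj col k U S`: the set `S` has a (binary) decomposition tree all of whose nodes
`T ⊆ S` satisfy `Cls adj col k U T` (singletons are free). -/
inductive Dec {V K : Type*} (adj : V → V → Prop) (col : V → K) (k : ℕ) (U : Set V) :
    Set V → Prop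
  | single (v : V) : Dec adj col k U {v}
  | union (S T : Set V) : Disjoint S T → Dec adj col k U S → Dec adj col k U T →
      Cls adj col k U (S ∪ T) → Dec adj col k U (S ∪ T)

/-- `U` is the disjoint union of two nonempty sets such that the adjacency between them is
determined, on each side, by the colour: vertices of `S` with the same colour have the same
neighbours in `T` and conversely. -/
def Split {V K : Type*} (adj : V → V → Prop) (col : V → K) (U : Set V) : Prop :=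
  ∃ S T : Set V, S ∪ T = U ∧ Disjoint S T ∧ S.Nonempty ∧ T.Nonempty ∧
    (∀ u ∈ S, ∀ u' ∈ S, col u = col u' → ∀ w ∈ T, (adj u w ↔ adj u' w)) ∧
    (∀ w ∈ T, ∀ w' ∈ T, col w = col w' → ∀ u ∈ S, (adj w u ↔ adj w' u))

/-- Connectedness of a symmetric relation on a set, in the form every cut is crossed. -/
def CutConn {V : Type*} (R : V → V → Prop) (X : Set V) : Prop :=
  ∀ D : Set V, D ⊆ X → D.Nonempty → (X \ D).Nonempty → ∃ a ∈ D, ∃ b ∈ X \ D, R a b

/-! ## bipartite graphs with given sides -/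

/-- A bipartite graph with given sides. -/
structure BG (V : Type*) where
  side : V → Bool
  adj : V → V → Prop
  symm : ∀ {u v}, adj u v → adj v u
  cross : ∀ {u v}, adj u v → side u ≠ side v

namespace BG
variable {V : Type*}

/-- bipartite complement -/
def co (B : BG V) : BG V where
  side := B.side
  adj u v := B.side u ≠ B.side v ∧ ¬ B.adj u v
  symm := fun h => ⟨h.1.symm, fun h' => h.2 (B.symm h')⟩
  cross := fun h => h.1

/-- exchange the two sides -/
def swap (B : BG V) : BG V where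
  side u := !B.side u
  adj := B.adj
  symm := B.symm
  cross := by
    intro u v h h'
    exact B.cross h (by simpa using h')

/-- `S_{1,2,3}`-free (only the six cross non-edges are listed: the others are automatic) -/
def SFree (B : BG V) : Prop :=
  ∀ c a b1 b2 d1 d2 d3 : V,
    B.adj c a → B.adj c b1 → B.adj b1 b2 → B.adj c d1 → B.adj d1 d2 → B.adj d2 d3 →
    ¬ B.adj b2 a → ¬ B.adj b2 d1 → ¬ B.adj b2 d3 → ¬ B.adj d2 a → ¬ B.adj d2 b1 →
    ¬ B.adj c d3 → False

/-- `p₀ … p₆` is an induced path on seven vertices -/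
def P7 (B : BG V) (p0 p1 p2 p3 p4 p5 p6 : V) : Prop :=
  B.adj p0 p1 ∧ B.adj p1 p2 ∧ B.adj p2 p3 ∧ B.adj p3 p4 ∧ B.adj p4 p5 ∧ B.adj p5 p6 ∧
  ¬ B.adj p0 p3 ∧ ¬ B.adj p0 p5 ∧ ¬ B.adj p1 p4 ∧ ¬ B.adj p1 p6 ∧ ¬ B.adj p2 p5 ∧ ¬ B.adj p3 p6

/-- no induced `P₇` with all vertices in `U` -/
def P7Free (B : BG V) (U : Set V) : Prop :=
  ∀ p0 ∈ U, ∀ p1 ∈ U, ∀ p2 ∈ U, ∀ p3 ∈ U, ∀ p4 ∈ U, ∀ p5 ∈ U, ∀ p6 ∈ U,
    ¬ B.P7 p0 p1 p2 p3 p4 p5 p6

/-- no two vertices of `U` on the same side have the same neighbours in `U` -/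
def TwinFree (B : BG V) (U : Set V) : Prop :=
  ∀ u ∈ U, ∀ v ∈ U, u ≠ v → B.side u = B.side v → ∃ w ∈ U, ¬ (B.adj u w ↔ B.adj v w)

/-- the vertices of `U` on the side `s` -/
def sd (B : BG V) (U : Set V) (s : Bool) : Set V := {x | x ∈ U ∧ B.side x = s}

/-- `x` and `y` have incomparable neighbourhoods in `U` -/
def inc (B : BG V) (U : Set V) (x y : V) : Prop :=
  (∃ w ∈ U, B.adj x w ∧ ¬ B.adj y w) ∧ (∃ w ∈ U, B.adj y w ∧ ¬ B.adj x w)

/-- `y ∈ U` is a leaf at `v`: its only neighbour in `U` is `v` -/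
def Leaf (B : BG V) (U : Set V) (v y : V) : Prop :=
  y ∈ U ∧ B.adj y v ∧ ∀ w ∈ U, B.adj y w → w = v

/-- `y ∈ U` is a co-leaf at `v`: it is on the other side and its only non-neighbour in `U` on the
side of `v` is `v` -/
def CoLeaf (B : BG V) (U : Set V) (v y : V) : Prop :=
  y ∈ U ∧ B.side y ≠ B.side v ∧ ¬ B.adj y v ∧ ∀ w ∈ U, B.side w = B.side v → w ≠ v → B.adj y w

/-- `p 0, …, p (n-1)` is an induced path -/
def IsPath (B : BG V) (n : ℕ) (p : ℕ → V) : Prop :=
  ∀ i < n, ∀ j < n, (B.adj (p i) (p j) ↔ (j = i + 1 ∨ i = j + 1))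

/-- an induced path inside `U` -/
def PathIn (B : BG V) (U : Set V) (n : ℕ) (p : ℕ → V) : Prop :=
  B.IsPath n p ∧ ∀ i < n, p i ∈ U

/-- neither `B` nor `B.co` has an induced path with `n + 1` vertices in `U` -/
def NoLonger (B : BG V) (U : Set V) (n : ℕ) : Prop :=
  (∀ q, ¬ B.PathIn U (n + 1) q) ∧ (∀ q, ¬ B.co.PathIn U (n + 1) q)

/-- `w` is a twin of `p j` with respect to the path -/
def TwinAt (B : BG V) (n : ℕ) (p : ℕ → V) (j : ℕ) (w : V) : Prop :=
  ∀ i < n, (B.adj w (p i) ↔ (i = j + 1 ∨ j = i + 1))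

/-- `w` closes the path to a cycle -/
def Closing (B : BG V) (n : ℕ) (p : ℕ → V) (w : V) : Prop :=
  ∀ i < n, (B.adj w (p i) ↔ (i = 0 ∨ i + 1 = n))

/-- The hypotheses of Lemma M: `P` is a proper bimodule of `U` (every vertex outside is complete
or anticomplete to the part of `P` on the other side) and on each side of `P` there is a vertex
with a neighbour and a non-neighbour in `P`. -/
structure MCtx (B : BG V) (U P : Set V) : Prop where
  sfree : B.SFree
  fin : U.Finite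
  sub : P ⊆ U
  ne : P ≠ U
  hom : ∀ w ∈ U, w ∉ P → ∀ a ∈ P, ∀ b ∈ P, B.side a ≠ B.side w → B.side b ≠ B.side w →
    (B.adj w a ↔ B.adj w b)
  nontriv : ∀ s : Bool, ∃ q ∈ P, ∃ a ∈ P, ∃ b ∈ P, B.side q = s ∧ B.side a ≠ s ∧ B.side b ≠ s ∧
    B.adj q a ∧ ¬ B.adj q b

/-- outside vertices that are anticomplete to `P` -/
def V0 (B : BG V) (U P : Set V) (w : V) : Prop := w ∈ U ∧ w ∉ P ∧ ∀ a ∈ P, ¬ B.adj w a

/-- outside vertices that are complete to `P` (to its part on the other side) -/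
def V1 (B : BG V) (U P : Set V) (w : V) : Prop :=
  w ∈ U ∧ w ∉ P ∧ ∀ a ∈ P, B.side a ≠ B.side w → B.adj w a

/-- a `V0` vertex with a `V0` neighbour -/
def Lbig (B : BG V) (U P : Set V) (y : V) : Prop := B.V0 U P y ∧ ∃ x, B.V0 U P x ∧ B.adj x y

/-- a `V1` vertex with a `V1` non-neighbour on the other side -/
def Kbig (B : BG V) (U P : Set V) (x : V) : Prop :=
  B.V1 U P x ∧ ∃ y, B.V1 U P y ∧ B.side y ≠ B.side x ∧ ¬ B.adj x y

/-- see `LM1.ks` -/
def Ra (B : BG V) (U P : Set V) (x : V) : Prop :=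
  B.Kbig U P x ∨ (∃ y', B.Lbig U P y' ∧ B.side y' ≠ B.side x ∧ ¬ B.adj x y') ∨
    ∃ y x', B.V0 U P y ∧ B.side y ≠ B.side x ∧ ¬ B.adj x y ∧ B.Kbig U P x' ∧ B.adj y x'

/-- see `LM1.ks` -/
def Rb (B : BG V) (U P : Set V) (y : V) : Prop :=
  B.Lbig U P y ∨ (∃ x, B.Kbig U P x ∧ B.adj y x) ∨
    ∃ x y', B.V1 U P x ∧ B.adj y x ∧ B.Lbig U P y' ∧ B.side y' = B.side y ∧ ¬ B.adj x y'

/-- `U` is (the vertex set of) an induced path or of an induced (even) cycle,
`c` being the last vertex of the cycle -/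
def PathLike (B : BG V) (U : Set V) : Prop :=
  ∃ (n : ℕ) (p : ℕ → V), 7 ≤ n ∧ B.IsPath n p ∧
    (U = {x | ∃ i < n, x = p i} ∨
      ∃ c, (∀ i < n, (B.adj c (p i) ↔ (i = 0 ∨ i + 1 = n))) ∧
        U = {x | x = c ∨ ∃ i < n, x = p i})

end BG

end Pool.Agent.CWB
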