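import Pool.Agent.CWB.Local

/-!
# DICH: the two cases for the triple (A i, A (i+1), B (i+3))

Either there is no independent transversal triple (`NoIndep`), or all vertices `r` of type `B (i+3)` have one
of at most two neighbourhoods in `A i`.
Proof (i = 0 first, then rotate).  Let `(p,q,r)` be independent, `p : A 0`, `q : A 1`, `r : B 3`.
`P1 := N(r)`, `P2 := {x : x ≁ q}`.  Let `R : B 3`.
* `q ≁ R`: `R ≁ p` (`l2_P5a`); `N(R) ∩ A 0 = N(r) ∩ A 0` (`l2_P5b` for `(r,R)` and for `(R,r)`).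
* `q ~ R`: for `s : A 0`: `s ~ R → s ≁ q` (triangle), and `s ≁ q → s ~ R` (`l2_P6`).
-/

namespace Pool.Agent.CWB

variable {V : Type*}

/-- no independent transversal triple for the index `i` -/
def NoIndep (G : SimpleGraph V) (v : ZMod 5 → V) (i : ZMod 5) : Prop :=
  ∀ p q r, IsA G v i p → IsA G v (i + 1) q → IsB G v (i + 3) r →
    ¬ G.Adj p q → ¬ G.Adj q r → ¬ G.Adj p r → False

/-- the dichotomy for `i = 0` -/
private theorem dichotomy_zero {G : SimpleGraph V} {v : ZMod 5 → V} (M : Ctx G v)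
    {p q r : V} (hp : IsA G v 0 p) (hq : IsA G v 1 q) (hr : IsB G v 3 r)
    (hpq : ¬ G.Adj p q) (hqr : ¬ G.Adj q r) (hpr : ¬ G.Adj p r)
    {R : V} (hR : IsB G v 3 R) :
    (∀ s, IsA G v 0 s → (G.Adj R s ↔ G.Adj r s)) ∨
      (∀ s, IsA G v 0 s → (G.Adj R s ↔ ¬ G.Adj s q)) := by
  by_cases hqR : G.Adj q R
  · right
    intro s hs
    constructor
    · intro h h'
      exact M.kf s q R h' hqR h.symm
    · intro h
      by_contra h'
      exact Local.l2_P6 M hq hr hR hp hs hqr hqR hpq hpr h (fun k => h' k.symm)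
  · left
    have hpR : ¬ G.Adj p R := fun h => Local.l2_P5a M hq hr hR hp hqr hqR hpq hpr h
    intro s hs
    constructor
    · intro h
      by_contra h'
      exact Local.l2_P5b M hq hR hr hp hs hqR hqr hpq hpR hpr h.symm (fun k => h' k.symm)
    · intro h
      by_contra h'
      exact Local.l2_P5b M hq hr hR hp hs hqr hqR hpq hpr hpR h.symm (fun k => h' k.symm)

theorem dichotomy {G : SimpleGraph V} {v : ZMod 5 → V} (M : Ctx G v) (i : ZMod 5) :
    NoIndep G v i ∨ ∃ P1 P2 : Set V, ∀ r, IsB G v (i + 3) r →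
      (∀ p, IsA G v i p → (G.Adj r p ↔ p ∈ P1)) ∨ (∀ p, IsA G v i p → (G.Adj r p ↔ p ∈ P2)) := by
  by_cases hN : NoIndep G v i
  · exact Or.inl hN
  right
  unfold NoIndep at hN
  push Not at hN
  obtain ⟨p, q, r, hp, hq, hr, hpq, hqr, hpr, -⟩ := hN
  have hA0 : ∀ x, IsA G v i x → IsA G (fun j => v (j + i)) 0 x := by
    intro x hx
    rw [isA_rot, zero_add]
    exact hx
  have hA1 : ∀ x, IsA G v (i + 1) x → IsA G (fun j => v (j + i)) 1 x := by
    intro x hx
    rw [isA_rot, add_comm]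
    exact hx
  have hB3 : ∀ x, IsB G v (i + 3) x → IsB G (fun j => v (j + i)) 3 x := by
    intro x hx
    rw [isB_rot, add_comm]
    exact hx
  refine ⟨{x | G.Adj r x}, {x | ¬ G.Adj x q}, fun R hR => ?_⟩
  rcases dichotomy_zero (M.rot i) (hA0 p hp) (hA1 q hq) (hB3 r hr) hpq hqr hpr (hB3 R hR) with h | h
  · left
    intro s hs
    exact h s (hA0 s hs)
  · right
    intro s hs
    exact h s (hA0 s hs)

end Pool.Agent.CWB
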