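import Pool.Agent.CWB.Ext8

/-! EXT: `ext_max`, see the text in Ext7.lean -/

namespace Pool.Agent.CWB

variable {V : Type*}

/-- a vertex adjacent exactly to the first vertex of a path extends it -/
theorem Ext_cons (B : BG V) (n : ℕ) (p : ℕ → V) (hp : B.IsPath n p) (w : V)
    (h : ∀ i < n, (B.adj w (p i) ↔ i = 0)) :
    B.IsPath (n + 1) (fun i => if i = 0 then w else p (i - 1)) := by
  intro i hi j hj
  have hirr : ¬ B.adj w w := fun hx => B.cross hx rfl
  by_cases hi0 : i = 0
  · by_cases hj0 : j = 0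
    · simp only [if_pos hi0, if_pos hj0]
      constructor
      · intro hx; exact absurd hx hirr
      · intro hx; omega
    · simp only [if_pos hi0, if_neg hj0]
      rw [h (j - 1) (by omega)]
      omega
  · by_cases hj0 : j = 0
    · simp only [if_neg hi0, if_pos hj0]
      have e : B.adj (p (i - 1)) w ↔ B.adj w (p (i - 1)) := ⟨B.symm, B.symm⟩
      rw [e, h (i - 1) (by omega)]
      omega
    · simp only [if_neg hi0, if_neg hj0]
      rw [hp (i - 1) (by omega) (j - 1) (by omega)]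
      omega

/-- a vertex adjacent exactly to the last vertex of a path extends it -/
theorem Ext_snoc (B : BG V) (n : ℕ) (p : ℕ → V) (hp : B.IsPath n p) (w : V)
    (h : ∀ i < n, (B.adj w (p i) ↔ i + 1 = n)) :
    B.IsPath (n + 1) (fun i => if i < n then p i else w) := by
  intro i hi j hj
  have hirr : ¬ B.adj w w := fun hx => B.cross hx rfl
  by_cases hi0 : i < n
  · by_cases hj0 : j < n
    · simp only [if_pos hi0, if_pos hj0]
      exact hp i hi0 j hj0
    · simp only [if_pos hi0, if_neg hj0]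
      have e : B.adj (p i) w ↔ B.adj w (p i) := ⟨B.symm, B.symm⟩
      rw [e, h i hi0]
      omega
  · by_cases hj0 : j < n
    · simp only [if_neg hi0, if_pos hj0]
      rw [h j hj0]
      omega
    · simp only [if_neg hi0, if_neg hj0]
      constructor
      · intro hx; exact absurd hx hirr
      · intro hx; omega

/-- positions of the co-path for the pattern `{0,2,6}` -/
def Ext_s1 (i : ℕ) : ℕ := [2, 5, 0, 3, 6, 1, 4, 7].getD i 0

/-- positions of the co-path for the pattern `{0,4,6}` -/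
def Ext_s2 (i : ℕ) : ℕ := [7, 2, 5, 0, 3, 6, 1, 4].getD i 0

/-- adjacency table of the path `p 0, …, p 6` and `w = 7` with pattern `{0, a, 6}` -/
def Ext_tab (a i j : ℕ) : Bool :=
  if i = 7 then (j != 7 && (j == 0 || j == a || j == 6))
  else if j = 7 then (i == 0 || i == a || i == 6)
  else (j == i + 1 || i == j + 1)

/-- the extended sequence -/
def Ext_q (p : ℕ → V) (w : V) (i : ℕ) : V := if i < 7 then p i else w

theorem Ext_q_adj (B : BG V) (p : ℕ → V) (hp : B.IsPath 7 p) (w : V) (a : ℕ)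
    (h : ∀ i < 7, (B.adj w (p i) ↔ (i = 0 ∨ i = a ∨ i = 6))) (i j : ℕ) (hi : i < 8) (hj : j < 8) :
    B.adj (Ext_q p w i) (Ext_q p w j) ↔ Ext_tab a i j = true := by
  have hirr : ¬ B.adj w w := fun hx => B.cross hx rfl
  unfold Ext_q Ext_tab
  by_cases hi7 : i < 7
  · have hi' : ¬ i = 7 := by omega
    by_cases hj7 : j < 7
    · have hj' : ¬ j = 7 := by omega
      rw [if_pos hi7, if_pos hj7, if_neg hi', if_neg hj', hp i hi7 j hj7]
      simp
    · have hj' : j = 7 := by omega
      have e : B.adj (p i) w ↔ B.adj w (p i) := ⟨B.symm, B.symm⟩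
      rw [if_pos hi7, if_neg hj7, if_neg hi', if_pos hj', e, h i hi7]
      simp [or_assoc]
  · have hi' : i = 7 := by omega
    by_cases hj7 : j < 7
    · have hj' : ¬ j = 7 := by omega
      rw [if_neg hi7, if_pos hj7, if_pos hi', h j hj7]
      simp [hj', or_assoc]
    · have hj' : j = 7 := by omega
      rw [if_neg hi7, if_neg hj7, if_pos hi']
      simp [hj', hirr]

theorem Ext_q_side (B : BG V) (p : ℕ → V) (hp : B.IsPath 7 p) (w : V) (hw0 : B.adj w (p 0))
    (i j : ℕ) (hi : i < 8) (hj : j < 8) :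
    B.side (Ext_q p w i) = B.side (Ext_q p w j) ↔ i % 2 = j % 2 := by
  have hs := BG.IsPath.side hp
  have h01 : B.side (p 0) ≠ B.side (p 1) := fun e => by
    have := (hs 0 (by omega) 1 (by omega)).1 e
    omega
  have hw1 : B.side w = B.side (p 1) := by
    have h0 := B.cross hw0
    revert h01 h0
    cases B.side w <;> cases B.side (p 0) <;> cases B.side (p 1) <;> simp
  unfold Ext_q
  by_cases hi7 : i < 7
  · by_cases hj7 : j < 7
    · rw [if_pos hi7, if_pos hj7]
      exact hs i hi7 j hj7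
    · have hj' : j = 7 := by omega
      rw [if_pos hi7, if_neg hj7, hw1, hs i hi7 1 (by omega), hj']
  · have hi' : i = 7 := by omega
    by_cases hj7 : j < 7
    · rw [if_neg hi7, if_pos hj7, hw1, hs 1 (by omega) j hj7, hi']
    · have hj' : j = 7 := by omega
      rw [if_neg hi7, if_neg hj7, hi', hj']
      simp

theorem Ext_q_co (B : BG V) (p : ℕ → V) (hp : B.IsPath 7 p) (w : V) (a : ℕ)
    (h : ∀ i < 7, (B.adj w (p i) ↔ (i = 0 ∨ i = a ∨ i = 6))) (i j : ℕ) (hi : i < 8) (hj : j < 8) :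
    B.co.adj (Ext_q p w i) (Ext_q p w j) ↔ (i % 2 ≠ j % 2 ∧ Ext_tab a i j = false) := by
  have hw0 : B.adj w (p 0) := (h 0 (by omega)).2 (Or.inl rfl)
  have h1 := Ext_q_side B p hp w hw0 i j hi hj
  have h2 := Ext_q_adj B p hp w a h i j hi hj
  constructor
  · rintro ⟨h3, h4⟩
    refine ⟨fun e => h3 (h1.2 e), ?_⟩
    cases h5 : Ext_tab a i j
    · rfl
    · exact absurd (h2.2 h5) h4
  · rintro ⟨h3, h4⟩
    refine ⟨fun e => h3 (h1.1 e), fun e => ?_⟩
    rw [h2.1 e] at h4
    exact absurd h4 (by simp)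

theorem Ext_dec1 : ∀ i < 8, ∀ j < 8,
    ((Ext_s1 i % 2 ≠ Ext_s1 j % 2 ∧ Ext_tab 2 (Ext_s1 i) (Ext_s1 j) = false) ↔
      (j = i + 1 ∨ i = j + 1)) ∧ Ext_s1 i < 8 := by
  decide

theorem Ext_dec2 : ∀ i < 8, ∀ j < 8,
    ((Ext_s2 i % 2 ≠ Ext_s2 j % 2 ∧ Ext_tab 4 (Ext_s2 i) (Ext_s2 j) = false) ↔
      (j = i + 1 ∨ i = j + 1)) ∧ Ext_s2 i < 8 := by
  decide

theorem Ext_q_mem (U : Set V) (p : ℕ → V) (hp : ∀ i < 7, p i ∈ U) (w : V) (hw : w ∈ U) (i : ℕ) :
    Ext_q p w i ∈ U := by
  unfold Ext_q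
  by_cases hi7 : i < 7
  · rw [if_pos hi7]; exact hp i hi7
  · rw [if_neg hi7]; exact hw

theorem ext_max (B : BG V) (hS : B.SFree) (U : Set V) (n : ℕ) (hn : 7 ≤ n) (hmax : B.NoLonger U n)
    (p : ℕ → V) (hp : B.PathIn U n p) (w : V) (hw : w ∈ U) :
    (∀ i < n, ¬ B.adj w (p i)) ∨ (∀ i < n, B.side (p i) ≠ B.side w → B.adj w (p i)) ∨
    (∃ j < n, B.TwinAt n p j w) ∨ B.Closing n p w := by
  have k1 : ¬ (∀ i < n, (B.adj w (p i) ↔ i = 0)) := by
    intro h
    refine hmax.1 _ ⟨Ext_cons B n p hp.1 w h, ?_⟩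
    intro i hi
    by_cases hi0 : i = 0
    · simp only [if_pos hi0]; exact hw
    · simp only [if_neg hi0]; exact hp.2 (i - 1) (by omega)
  have k2 : ¬ (∀ i < n, (B.adj w (p i) ↔ i + 1 = n)) := by
    intro h
    refine hmax.1 _ ⟨Ext_snoc B n p hp.1 w h, ?_⟩
    intro i hi
    by_cases hi0 : i < n
    · simp only [if_pos hi0]; exact hp.2 i hi0
    · simp only [if_neg hi0]; exact hw
  rcases Nat.lt_or_ge n 8 with h8 | h8
  · obtain rfl : n = 7 := by omega
    rcases ext7 B hS p hp.1 w with h | h | h | h | h | h | h | h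
    · exact Or.inl h
    · exact Or.inr (Or.inl h)
    · exact Or.inr (Or.inr (Or.inl h))
    · exact absurd h k1
    · exact absurd h k2
    · exact Or.inr (Or.inr (Or.inr h))
    · exfalso
      refine hmax.2 (fun i => Ext_q p w (Ext_s1 i)) ⟨?_, ?_⟩
      · intro i hi j hj
        have e1 := Ext_dec1 i hi j hj
        have e2 := Ext_dec1 j hj i hi
        exact (Ext_q_co B p hp.1 w 2 h _ _ e1.2 e2.2).trans e1.1
      · intro i _
        exact Ext_q_mem U p hp.2 w hw _
    · exfalso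
      refine hmax.2 (fun i => Ext_q p w (Ext_s2 i)) ⟨?_, ?_⟩
      · intro i hi j hj
        have e1 := Ext_dec2 i hi j hj
        have e2 := Ext_dec2 j hj i hi
        exact (Ext_q_co B p hp.1 w 4 h _ _ e1.2 e2.2).trans e1.1
      · intro i _
        exact Ext_q_mem U p hp.2 w hw _
  · rcases ext8 B hS n h8 p hp.1 w with h | h | h | h | h | h
    · exact Or.inl h
    · exact Or.inr (Or.inl h)
    · exact Or.inr (Or.inr (Or.inl h))
    · exact absurd h k1
    · exact absurd h k2
    · exact Or.inr (Or.inr (Or.inr h))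

end Pool.Agent.CWB
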