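import Pool.Agent.CWB.BGBasic

/-!
# EXT: one vertex against a longest induced path (indices start at 0)

All certificates were computed.  `T = {i < n : w ~ p i}`; all elements of `T` have the same parity.

Notation for a class of positions: the possible patterns `T` are
  ∅ ; full (all positions of the parity class) ; `N(p_j) = {j-1, j+1} ∩ [0,n)` ;
  `{0}` ; `{n-1}` ; `{0, n-1}` ;   and for `n = 7` only: `{0,2,6}`, `{0,4,6}`.

`ext7` (n = 7).  Even positions: the six other patterns give `S_{1,2,3}` (centre; leaf; path; path):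
  {2}: p2; w; p1 p0; p3 p4 p5      {4}: p4; w; p5 p6; p3 p2 p1      {0,4}: p4; w; p5 p6; p3 p2 p1
  {2,6}: p2; w; p1 p0; p3 p4 p5    {0,2,4}: p4; p3; p5 p6; w p0 p1  {2,4,6}: p2; p3; p1 p0; w p6 p5
  Odd positions: {3}: p3; w; p4 p5; p2 p1 p0      {1,5}: p1; p0; p2 p3; w p5 p6.
`ext8` (n ≥ 8), by induction on `n`, from the windows `p 0 … p (n-2)` and `p 1 … p (n-1)` (for `n = 8` from
  `ext7`, for `n ≥ 9` from the induction hypothesis).  The two restrictions of `T` are in the lists for `n-1`
  (the second one shifted by one); the only combinations that are not in the list for `n` are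
  {0, n-2} (n even): centre p(n-2); leaf p(n-1); path w p0; path p(n-3) p(n-4) p(n-5)
  {1, n-1} (n even): centre p1; leaf p0; path w p(n-1); path p2 p3 p4
  and for n = 8 also  {0,4,6}: w; p4; p6 p7; p0 p1 p2     {1,3,7}: w; p7 … = centre w; leaf p7; path p1 p0; path p3 p4 p5.
  (centre w; leaf p4; path p6 p7; path p0 p1 p2 for {0,4,6}.)
`ext_max`: with `NoLonger` the patterns `{0}`, `{n-1}` (they give an induced path with `n+1` vertices),
  `{0,2,6}`, `{0,4,6}` for `n = 7` (they give an induced path with 8 vertices of `B.co`: the path of `B.co` is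
  `p2 p5 p0 p3 p6 p1 p4`, and `w` has in `B.co` on `{p0,p2,p4,p6}` exactly the neighbour `p4` resp. `p2`, an end)
  are excluded.
-/

namespace Pool.Agent.CWB

variable {V : Type*}

theorem ext7 (B : BG V) (hS : B.SFree) (p : ℕ → V) (hp : B.IsPath 7 p) (w : V) :
    (∀ i < 7, ¬ B.adj w (p i)) ∨ (∀ i < 7, B.side (p i) ≠ B.side w → B.adj w (p i)) ∨
    (∃ j < 7, B.TwinAt 7 p j w) ∨
    (∀ i < 7, (B.adj w (p i) ↔ i = 0)) ∨ (∀ i < 7, (B.adj w (p i) ↔ i + 1 = 7)) ∨
    B.Closing 7 p w ∨
    (∀ i < 7, (B.adj w (p i) ↔ (i = 0 ∨ i = 2 ∨ i = 6))) ∨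
    (∀ i < 7, (B.adj w (p i) ↔ (i = 0 ∨ i = 4 ∨ i = 6))) := by
  have ad : ∀ i j, i < 7 → j < 7 → (j = i + 1 ∨ i = j + 1) → B.adj (p i) (p j) :=
    fun i j hi hj h => (hp i hi j hj).2 h
  have nd : ∀ i j, i < 7 → j < 7 → ¬ (j = i + 1 ∨ i = j + 1) → ¬ B.adj (p i) (p j) :=
    fun i j hi hj h h' => h ((hp i hi j hj).1 h')
  have par : ∀ i < 7, ∀ j < 7, B.side (p i) ≠ B.side w → B.side (p j) ≠ B.side w →
      i % 2 = j % 2 := by
    intro i hi j hj h1 h2
    apply (hp.side i hi j hj).1
    cases h : B.side (p i) <;> cases h' : B.side (p j) <;> cases h'' : B.side w <;> simp_all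
  have sw : ∀ i, B.adj w (p i) → B.side (p i) ≠ B.side w := fun i h => (B.cross h).symm
  have par2 : ∀ i < 7, ∀ j < 7, B.adj w (p i) → i % 2 ≠ j % 2 → ¬ B.adj w (p j) :=
    fun i hi j hj h hne h' => hne (par i hi j hj (sw i h) (sw j h'))
  have e2 : B.adj w (p 2) → ¬ B.adj w (p 0) → ¬ B.adj w (p 4) → False := by
    intro h2 h0 h4
    exact hS (p 2) w (p 1) (p 0) (p 3) (p 4) (p 5) (B.symm h2)
      (ad _ _ (by norm_num) (by norm_num) (by norm_num))
      (ad _ _ (by norm_num) (by norm_num) (by norm_num))
      (ad _ _ (by norm_num) (by norm_num) (by norm_num))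
      (ad _ _ (by norm_num) (by norm_num) (by norm_num))
      (ad _ _ (by norm_num) (by norm_num) (by norm_num))
      (fun h => h0 (B.symm h))
      (nd _ _ (by norm_num) (by norm_num) (by norm_num))
      (nd _ _ (by norm_num) (by norm_num) (by norm_num))
      (fun h => h4 (B.symm h))
      (nd _ _ (by norm_num) (by norm_num) (by norm_num))
      (nd _ _ (by norm_num) (by norm_num) (by norm_num))
  have e4 : B.adj w (p 4) → ¬ B.adj w (p 6) → ¬ B.adj w (p 2) → False := by
    intro h4 h6 h2
    exact hS (p 4) w (p 5) (p 6) (p 3) (p 2) (p 1) (B.symm h4)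
      (ad _ _ (by norm_num) (by norm_num) (by norm_num))
      (ad _ _ (by norm_num) (by norm_num) (by norm_num))
      (ad _ _ (by norm_num) (by norm_num) (by norm_num))
      (ad _ _ (by norm_num) (by norm_num) (by norm_num))
      (ad _ _ (by norm_num) (by norm_num) (by norm_num))
      (fun h => h6 (B.symm h))
      (nd _ _ (by norm_num) (by norm_num) (by norm_num))
      (nd _ _ (by norm_num) (by norm_num) (by norm_num))
      (fun h => h2 (B.symm h))
      (nd _ _ (by norm_num) (by norm_num) (by norm_num))
      (nd _ _ (by norm_num) (by norm_num) (by norm_num))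
  have e04 : B.adj w (p 0) → B.adj w (p 4) → ¬ B.adj w (p 6) → False := by
    intro h0 h4 h6
    exact hS (p 4) (p 3) (p 5) (p 6) w (p 0) (p 1)
      (ad _ _ (by norm_num) (by norm_num) (by norm_num))
      (ad _ _ (by norm_num) (by norm_num) (by norm_num))
      (ad _ _ (by norm_num) (by norm_num) (by norm_num))
      (B.symm h4) h0
      (ad _ _ (by norm_num) (by norm_num) (by norm_num))
      (nd _ _ (by norm_num) (by norm_num) (by norm_num))
      (fun h => h6 (B.symm h))
      (nd _ _ (by norm_num) (by norm_num) (by norm_num))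
      (nd _ _ (by norm_num) (by norm_num) (by norm_num))
      (nd _ _ (by norm_num) (by norm_num) (by norm_num))
      (nd _ _ (by norm_num) (by norm_num) (by norm_num))
  have e26 : B.adj w (p 2) → B.adj w (p 6) → ¬ B.adj w (p 0) → False := by
    intro h2 h6 h0
    exact hS (p 2) (p 3) (p 1) (p 0) w (p 6) (p 5)
      (ad _ _ (by norm_num) (by norm_num) (by norm_num))
      (ad _ _ (by norm_num) (by norm_num) (by norm_num))
      (ad _ _ (by norm_num) (by norm_num) (by norm_num))
      (B.symm h2) h6
      (ad _ _ (by norm_num) (by norm_num) (by norm_num))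
      (nd _ _ (by norm_num) (by norm_num) (by norm_num))
      (fun h => h0 (B.symm h))
      (nd _ _ (by norm_num) (by norm_num) (by norm_num))
      (nd _ _ (by norm_num) (by norm_num) (by norm_num))
      (nd _ _ (by norm_num) (by norm_num) (by norm_num))
      (nd _ _ (by norm_num) (by norm_num) (by norm_num))
  have e3 : B.adj w (p 3) → ¬ B.adj w (p 5) → ¬ B.adj w (p 1) → False := by
    intro h3 h5 h1
    exact hS (p 3) w (p 4) (p 5) (p 2) (p 1) (p 0) (B.symm h3)
      (ad _ _ (by norm_num) (by norm_num) (by norm_num))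
      (ad _ _ (by norm_num) (by norm_num) (by norm_num))
      (ad _ _ (by norm_num) (by norm_num) (by norm_num))
      (ad _ _ (by norm_num) (by norm_num) (by norm_num))
      (ad _ _ (by norm_num) (by norm_num) (by norm_num))
      (fun h => h5 (B.symm h))
      (nd _ _ (by norm_num) (by norm_num) (by norm_num))
      (nd _ _ (by norm_num) (by norm_num) (by norm_num))
      (fun h => h1 (B.symm h))
      (nd _ _ (by norm_num) (by norm_num) (by norm_num))
      (nd _ _ (by norm_num) (by norm_num) (by norm_num))
  have e15 : B.adj w (p 1) → B.adj w (p 5) → ¬ B.adj w (p 3) → False := by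
    intro h1 h5 h3
    exact hS (p 1) (p 0) (p 2) (p 3) w (p 5) (p 6)
      (ad _ _ (by norm_num) (by norm_num) (by norm_num))
      (ad _ _ (by norm_num) (by norm_num) (by norm_num))
      (ad _ _ (by norm_num) (by norm_num) (by norm_num))
      (B.symm h1) h5
      (ad _ _ (by norm_num) (by norm_num) (by norm_num))
      (nd _ _ (by norm_num) (by norm_num) (by norm_num))
      (fun h => h3 (B.symm h))
      (nd _ _ (by norm_num) (by norm_num) (by norm_num))
      (nd _ _ (by norm_num) (by norm_num) (by norm_num))
      (nd _ _ (by norm_num) (by norm_num) (by norm_num))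
      (nd _ _ (by norm_num) (by norm_num) (by norm_num))
  by_cases hev : B.adj w (p 0) ∨ B.adj w (p 2) ∨ B.adj w (p 4) ∨ B.adj w (p 6)
  · have hodd : ∀ j < 7, j % 2 = 1 → ¬ B.adj w (p j) := by
      intro j hj hj2
      rcases hev with h | h | h | h
      · exact par2 0 (by norm_num) j hj h (by omega)
      · exact par2 2 (by norm_num) j hj h (by omega)
      · exact par2 4 (by norm_num) j hj h (by omega)
      · exact par2 6 (by norm_num) j hj h (by omega)
    have h1 := hodd 1 (by norm_num) (by norm_num)
    have h3 := hodd 3 (by norm_num) (by norm_num)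
    have h5 := hodd 5 (by norm_num) (by norm_num)
    by_cases h0 : B.adj w (p 0) <;> by_cases h2 : B.adj w (p 2) <;>
      by_cases h4 : B.adj w (p 4) <;> by_cases h6 : B.adj w (p 6)
    · -- 0246
      right; left
      intro i hi hs
      have hpar := par 0 (by norm_num) i hi (sw 0 h0) hs
      interval_cases i <;> first | assumption | omega
    · exact (e04 h0 h4 h6).elim
    · -- 026
      right; right; right; right; right; right; left
      intro i hi; interval_cases i <;> simp [h0, h1, h2, h3, h4, h5, h6]
    · -- 02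
      right; right; left
      refine ⟨1, by norm_num, ?_⟩
      intro i hi; interval_cases i <;> simp [h0, h1, h2, h3, h4, h5, h6]
    · -- 046
      right; right; right; right; right; right; right
      intro i hi; interval_cases i <;> simp [h0, h1, h2, h3, h4, h5, h6]
    · exact (e4 h4 h6 h2).elim
    · -- 06
      right; right; right; right; right; left
      intro i hi; interval_cases i <;> simp [h0, h1, h2, h3, h4, h5, h6]
    · -- 0
      right; right; right; left
      intro i hi; interval_cases i <;> simp [h0, h1, h2, h3, h4, h5, h6]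
    · exact (e26 h2 h6 h0).elim
    · -- 24
      right; right; left
      refine ⟨3, by norm_num, ?_⟩
      intro i hi; interval_cases i <;> simp [h0, h1, h2, h3, h4, h5, h6]
    · exact (e26 h2 h6 h0).elim
    · exact (e2 h2 h0 h4).elim
    · -- 46
      right; right; left
      refine ⟨5, by norm_num, ?_⟩
      intro i hi; interval_cases i <;> simp [h0, h1, h2, h3, h4, h5, h6]
    · exact (e4 h4 h6 h2).elim
    · -- 6
      right; right; right; right; left
      intro i hi; interval_cases i <;> simp [h0, h1, h2, h3, h4, h5, h6]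
    · exact absurd hev (by simp [h0, h2, h4, h6])
  · have h0 : ¬ B.adj w (p 0) := fun h => hev (Or.inl h)
    have h2 : ¬ B.adj w (p 2) := fun h => hev (Or.inr (Or.inl h))
    have h4 : ¬ B.adj w (p 4) := fun h => hev (Or.inr (Or.inr (Or.inl h)))
    have h6 : ¬ B.adj w (p 6) := fun h => hev (Or.inr (Or.inr (Or.inr h)))
    by_cases h1 : B.adj w (p 1) <;> by_cases h3 : B.adj w (p 3) <;>
      by_cases h5 : B.adj w (p 5)
    · -- 135
      right; left
      intro i hi hs
      have hpar := par 1 (by norm_num) i hi (sw 1 h1) hs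
      interval_cases i <;> first | assumption | omega
    · -- 13
      right; right; left
      refine ⟨2, by norm_num, ?_⟩
      intro i hi; interval_cases i <;> simp [h0, h1, h2, h3, h4, h5, h6]
    · exact (e15 h1 h5 h3).elim
    · -- 1
      right; right; left
      refine ⟨0, by norm_num, ?_⟩
      intro i hi; interval_cases i <;> simp [h0, h1, h2, h3, h4, h5, h6]
    · -- 35
      right; right; left
      refine ⟨4, by norm_num, ?_⟩
      intro i hi; interval_cases i <;> simp [h0, h1, h2, h3, h4, h5, h6]
    · exact (e3 h3 h5 h1).elim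
    · -- 5
      right; right; left
      refine ⟨6, by norm_num, ?_⟩
      intro i hi; interval_cases i <;> simp [h0, h1, h2, h3, h4, h5, h6]
    · left
      intro i hi; interval_cases i <;> simp [h0, h1, h2, h3, h4, h5, h6]

end Pool.Agent.CWB
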