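import Pool.Agent.CWB.Ext7

/-! EXT8: see the text in Ext7.lean -/

namespace Pool.Agent.CWB

variable {V : Type*}

/-- one step: from the prefix with `N` vertices to the path with `N + 1` vertices -/
private theorem ext8_step (B : BG V) (hS : B.SFree) (N : ℕ) (hN : 7 ≤ N) (p : ℕ → V)
    (hp : B.IsPath (N + 1) p) (w : V)
    (h : (∀ i < N, ¬ B.adj w (p i)) ∨ (∀ i < N, B.side (p i) ≠ B.side w → B.adj w (p i)) ∨
      (∃ j < N, B.TwinAt N p j w) ∨
      (∀ i < N, (B.adj w (p i) ↔ i = 0)) ∨ (∀ i < N, (B.adj w (p i) ↔ i + 1 = N)) ∨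
      B.Closing N p w ∨
      (N = 7 ∧ ∀ i < 7, (B.adj w (p i) ↔ (i = 0 ∨ i = 2 ∨ i = 6))) ∨
      (N = 7 ∧ ∀ i < 7, (B.adj w (p i) ↔ (i = 0 ∨ i = 4 ∨ i = 6)))) :
    (∀ i < N + 1, ¬ B.adj w (p i)) ∨
    (∀ i < N + 1, B.side (p i) ≠ B.side w → B.adj w (p i)) ∨
    (∃ j < N + 1, B.TwinAt (N + 1) p j w) ∨
    (∀ i < N + 1, (B.adj w (p i) ↔ i = 0)) ∨
    (∀ i < N + 1, (B.adj w (p i) ↔ i + 1 = N + 1)) ∨
    B.Closing (N + 1) p w := by
  have A : ∀ i j, i < N + 1 → j < N + 1 → (j = i + 1 ∨ i = j + 1) → B.adj (p i) (p j) :=
    fun i j hi hj h => (hp i hi j hj).2 h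
  have NA : ∀ i j, i < N + 1 → j < N + 1 → j ≠ i + 1 → i ≠ j + 1 → ¬ B.adj (p i) (p j) := by
    intro i j hi hj h1 h2 h3
    rcases (hp i hi j hj).1 h3 with h4 | h4
    · exact h1 h4
    · exact h2 h4
  have par : ∀ i j, i < N + 1 → j < N + 1 → B.adj w (p i) → B.adj w (p j) → i % 2 = j % 2 := by
    intro i j hi hj h1 h2
    refine (BG.IsPath.side hp i hi j hj).1 ?_
    have h3 := B.cross h1
    have h4 := B.cross h2
    cases hw : B.side w <;> cases hi' : B.side (p i) <;> cases hj' : B.side (p j) <;>
      simp_all
  rcases h with h | h | ⟨j, hj, h⟩ | h | h | h | ⟨rfl, h⟩ | ⟨rfl, h⟩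
  · -- empty on the prefix
    by_cases hw : B.adj w (p N)
    · refine Or.inr (Or.inr (Or.inr (Or.inr (Or.inl fun i hi => ?_))))
      rcases Nat.lt_succ_iff_lt_or_eq.1 hi with hi' | rfl
      · exact ⟨fun h1 => absurd h1 (h i hi'), fun h1 => absurd h1 (by omega)⟩
      · exact ⟨fun _ => rfl, fun _ => hw⟩
    · refine Or.inl fun i hi => ?_
      rcases Nat.lt_succ_iff_lt_or_eq.1 hi with hi' | rfl
      · exact h i hi'
      · exact hw
  · -- full on the prefix
    by_cases hw : B.side (p N) ≠ B.side w ∧ ¬ B.adj w (p N)
    · exfalso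
      have hs : ∀ i < N + 1, i % 2 = N % 2 → B.side (p i) ≠ B.side w := by
        intro i hi h1
        rw [(BG.IsPath.side hp i hi N (by omega)).2 h1]
        exact hw.1
      have h1 : B.adj w (p (N - 2)) := h (N - 2) (by omega) (hs _ (by omega) (by omega))
      have h2 : B.adj w (p (N - 6)) := h (N - 6) (by omega) (hs _ (by omega) (by omega))
      exact hS (p (N - 2)) (p (N - 3)) (p (N - 1)) (p N) w (p (N - 6)) (p (N - 5))
        (A _ _ (by omega) (by omega) (by omega)) (A _ _ (by omega) (by omega) (by omega))
        (A _ _ (by omega) (by omega) (by omega)) (B.symm h1) h2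
        (A _ _ (by omega) (by omega) (by omega))
        (NA _ _ (by omega) (by omega) (by omega) (by omega)) (fun h3 => hw.2 (B.symm h3))
        (NA _ _ (by omega) (by omega) (by omega) (by omega))
        (NA _ _ (by omega) (by omega) (by omega) (by omega))
        (NA _ _ (by omega) (by omega) (by omega) (by omega))
        (NA _ _ (by omega) (by omega) (by omega) (by omega))
    · refine Or.inr (Or.inl fun i hi hsi => ?_)
      rcases Nat.lt_succ_iff_lt_or_eq.1 hi with hi' | rfl
      · exact h i hi' hsi
      · by_contra h1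
        exact hw ⟨hsi, h1⟩
  · -- twin of `p j` on the prefix
    have hj' : ∀ i < N, (B.adj w (p i) ↔ (i = j + 1 ∨ j = i + 1)) := h
    by_cases hw : B.adj w (p N)
    · by_cases hjN : j + 1 = N
      · refine Or.inr (Or.inr (Or.inl ⟨j, by omega, fun i hi => ?_⟩))
        rcases Nat.lt_succ_iff_lt_or_eq.1 hi with hi' | rfl
        · exact hj' i hi'
        · exact ⟨fun _ => Or.inl hjN.symm, fun _ => hw⟩
      · exfalso
        have h1 : B.adj w (p (j + 1)) := (hj' (j + 1) (by omega)).2 (Or.inl rfl)
        have h2 : (j + 1) % 2 = N % 2 := par _ _ (by omega) (by omega) h1 hw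
        have hno : ∀ i < N, i ≠ j + 1 → j ≠ i + 1 → ¬ B.adj w (p i) := by
          intro i hi h3 h4 h5
          rcases (hj' i hi).1 h5 with h6 | h6
          · exact h3 h6
          · exact h4 h6
        rcases Nat.lt_or_ge j 2 with hj2 | hj2
        · rcases Nat.lt_or_ge j 1 with hj1 | hj1
          · -- T = {1, N}
            obtain rfl : j = 0 := by omega
            exact hS (p 1) (p 0) w (p N) (p 2) (p 3) (p 4)
              (A _ _ (by omega) (by omega) (by omega)) (B.symm h1) hw
              (A _ _ (by omega) (by omega) (by omega)) (A _ _ (by omega) (by omega) (by omega))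
              (A _ _ (by omega) (by omega) (by omega))
              (NA _ _ (by omega) (by omega) (by omega) (by omega))
              (NA _ _ (by omega) (by omega) (by omega) (by omega))
              (NA _ _ (by omega) (by omega) (by omega) (by omega))
              (NA _ _ (by omega) (by omega) (by omega) (by omega))
              (fun h3 => hno 3 (by omega) (by omega) (by omega) (B.symm h3))
              (NA _ _ (by omega) (by omega) (by omega) (by omega))
          · -- T = {0, 2, N}
            obtain rfl : j = 1 := by omega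
            have h0 : B.adj w (p 0) := (hj' 0 (by omega)).2 (Or.inr rfl)
            exact hS w (p 0) (p N) (p (N - 1)) (p 2) (p 3) (p 4)
              h0 hw (A _ _ (by omega) (by omega) (by omega)) h1
              (A _ _ (by omega) (by omega) (by omega)) (A _ _ (by omega) (by omega) (by omega))
              (NA _ _ (by omega) (by omega) (by omega) (by omega))
              (NA _ _ (by omega) (by omega) (by omega) (by omega))
              (NA _ _ (by omega) (by omega) (by omega) (by omega))
              (NA _ _ (by omega) (by omega) (by omega) (by omega))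
              (NA _ _ (by omega) (by omega) (by omega) (by omega))
              (hno 4 (by omega) (by omega) (by omega))
        · have h0 : B.adj w (p (j - 1)) := (hj' (j - 1) (by omega)).2 (Or.inr (by omega))
          by_cases hj3 : j + 3 = N
          · -- T = {N - 4, N - 2, N}
            exact hS (p (j - 1)) (p j) (p (j - 2)) (p (j - 3)) w (p N) (p (N - 1))
              (A _ _ (by omega) (by omega) (by omega)) (A _ _ (by omega) (by omega) (by omega))
              (A _ _ (by omega) (by omega) (by omega)) (B.symm h0) hw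
              (A _ _ (by omega) (by omega) (by omega))
              (NA _ _ (by omega) (by omega) (by omega) (by omega))
              (fun h3 => hno (j - 3) (by omega) (by omega) (by omega) (B.symm h3))
              (NA _ _ (by omega) (by omega) (by omega) (by omega))
              (NA _ _ (by omega) (by omega) (by omega) (by omega))
              (NA _ _ (by omega) (by omega) (by omega) (by omega))
              (NA _ _ (by omega) (by omega) (by omega) (by omega))
          · exact hS w (p N) (p (j - 1)) (p (j - 2)) (p (j + 1)) (p (j + 2)) (p (j + 3))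
              hw h0 (A _ _ (by omega) (by omega) (by omega)) h1
              (A _ _ (by omega) (by omega) (by omega)) (A _ _ (by omega) (by omega) (by omega))
              (NA _ _ (by omega) (by omega) (by omega) (by omega))
              (NA _ _ (by omega) (by omega) (by omega) (by omega))
              (NA _ _ (by omega) (by omega) (by omega) (by omega))
              (NA _ _ (by omega) (by omega) (by omega) (by omega))
              (NA _ _ (by omega) (by omega) (by omega) (by omega))
              (hno (j + 3) (by omega) (by omega) (by omega))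
    · by_cases hjN : j + 1 = N
      · exfalso
        have h1 : B.adj w (p (N - 2)) := (hj' (N - 2) (by omega)).2 (Or.inr (by omega))
        have h2 : ¬ B.adj w (p (N - 4)) := by
          intro h3
          rcases (hj' (N - 4) (by omega)).1 h3 with h4 | h4 <;> omega
        exact hS (p (N - 2)) w (p (N - 1)) (p N) (p (N - 3)) (p (N - 4)) (p (N - 5))
          (B.symm h1) (A _ _ (by omega) (by omega) (by omega))
          (A _ _ (by omega) (by omega) (by omega)) (A _ _ (by omega) (by omega) (by omega))
          (A _ _ (by omega) (by omega) (by omega)) (A _ _ (by omega) (by omega) (by omega))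
          (fun h3 => hw (B.symm h3))
          (NA _ _ (by omega) (by omega) (by omega) (by omega))
          (NA _ _ (by omega) (by omega) (by omega) (by omega))
          (fun h3 => h2 (B.symm h3))
          (NA _ _ (by omega) (by omega) (by omega) (by omega))
          (NA _ _ (by omega) (by omega) (by omega) (by omega))
      · refine Or.inr (Or.inr (Or.inl ⟨j, by omega, fun i hi => ?_⟩))
        rcases Nat.lt_succ_iff_lt_or_eq.1 hi with hi' | rfl
        · exact hj' i hi'
        · exact ⟨fun h1 => absurd h1 hw, fun h1 => absurd h1 (by omega)⟩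
  · -- {0} on the prefix
    by_cases hw : B.adj w (p N)
    · refine Or.inr (Or.inr (Or.inr (Or.inr (Or.inr fun i hi => ?_))))
      rcases Nat.lt_succ_iff_lt_or_eq.1 hi with hi' | rfl
      · rw [h i hi']
        exact ⟨fun h1 => Or.inl h1, fun h1 => by omega⟩
      · exact ⟨fun _ => Or.inr rfl, fun _ => hw⟩
    · refine Or.inr (Or.inr (Or.inr (Or.inl fun i hi => ?_)))
      rcases Nat.lt_succ_iff_lt_or_eq.1 hi with hi' | rfl
      · exact h i hi'
      · exact ⟨fun h1 => absurd h1 hw, fun h1 => by omega⟩
  · -- {N - 1} on the prefix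
    have h1 : B.adj w (p (N - 1)) := (h (N - 1) (by omega)).2 (by omega)
    have hw : ¬ B.adj w (p N) := by
      intro h2
      have h3 := par _ _ (by omega) (by omega) h1 h2
      omega
    refine Or.inr (Or.inr (Or.inl ⟨N, by omega, fun i hi => ?_⟩))
    rcases Nat.lt_succ_iff_lt_or_eq.1 hi with hi' | rfl
    · rw [h i hi']
      exact ⟨fun h1 => Or.inr h1.symm, fun h1 => by omega⟩
    · exact ⟨fun h1 => absurd h1 hw, fun h1 => absurd h1 (by omega)⟩
  · -- {0, N - 1} on the prefix
    exfalso
    have h' : ∀ i < N, (B.adj w (p i) ↔ (i = 0 ∨ i + 1 = N)) := h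
    have h0 : B.adj w (p 0) := (h' 0 (by omega)).2 (Or.inl rfl)
    have h1 : B.adj w (p (N - 1)) := (h' (N - 1) (by omega)).2 (by omega)
    have h2 : ¬ B.adj w (p (N - 3)) := by
      intro h3
      rcases (h' (N - 3) (by omega)).1 h3 with h4 | h4 <;> omega
    exact hS (p (N - 1)) (p N) w (p 0) (p (N - 2)) (p (N - 3)) (p (N - 4))
      (A _ _ (by omega) (by omega) (by omega)) (B.symm h1) h0
      (A _ _ (by omega) (by omega) (by omega)) (A _ _ (by omega) (by omega) (by omega))
      (A _ _ (by omega) (by omega) (by omega))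
      (NA _ _ (by omega) (by omega) (by omega) (by omega))
      (NA _ _ (by omega) (by omega) (by omega) (by omega))
      (NA _ _ (by omega) (by omega) (by omega) (by omega))
      (NA _ _ (by omega) (by omega) (by omega) (by omega))
      (fun h3 => h2 (B.symm h3))
      (NA _ _ (by omega) (by omega) (by omega) (by omega))
  · -- N = 7, {0, 2, 6}
    exfalso
    have h2 : B.adj w (p 2) := (h 2 (by omega)).2 (by omega)
    have h6 : B.adj w (p 6) := (h 6 (by omega)).2 (by omega)
    have h4 : ¬ B.adj w (p 4) := by
      intro h3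
      have := (h 4 (by omega)).1 h3
      omega
    exact hS (p 2) (p 1) (p 3) (p 4) w (p 6) (p 7)
      (A _ _ (by omega) (by omega) (by omega)) (A _ _ (by omega) (by omega) (by omega))
      (A _ _ (by omega) (by omega) (by omega)) (B.symm h2) h6
      (A _ _ (by omega) (by omega) (by omega))
      (NA _ _ (by omega) (by omega) (by omega) (by omega))
      (fun h3 => h4 (B.symm h3))
      (NA _ _ (by omega) (by omega) (by omega) (by omega))
      (NA _ _ (by omega) (by omega) (by omega) (by omega))
      (NA _ _ (by omega) (by omega) (by omega) (by omega))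
      (NA _ _ (by omega) (by omega) (by omega) (by omega))
  · -- N = 7, {0, 4, 6}
    exfalso
    have h0 : B.adj w (p 0) := (h 0 (by omega)).2 (by omega)
    have h4 : B.adj w (p 4) := (h 4 (by omega)).2 (by omega)
    have h6 : B.adj w (p 6) := (h 6 (by omega)).2 (by omega)
    have h2 : ¬ B.adj w (p 2) := by
      intro h3
      have := (h 2 (by omega)).1 h3
      omega
    exact hS w (p 4) (p 6) (p 7) (p 0) (p 1) (p 2)
      h4 h6 (A _ _ (by omega) (by omega) (by omega)) h0
      (A _ _ (by omega) (by omega) (by omega)) (A _ _ (by omega) (by omega) (by omega))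
      (NA _ _ (by omega) (by omega) (by omega) (by omega))
      (NA _ _ (by omega) (by omega) (by omega) (by omega))
      (NA _ _ (by omega) (by omega) (by omega) (by omega))
      (NA _ _ (by omega) (by omega) (by omega) (by omega))
      (NA _ _ (by omega) (by omega) (by omega) (by omega))
      h2

theorem ext8 (B : BG V) (hS : B.SFree) (n : ℕ) (hn : 8 ≤ n) (p : ℕ → V) (hp : B.IsPath n p) (w : V) :
    (∀ i < n, ¬ B.adj w (p i)) ∨ (∀ i < n, B.side (p i) ≠ B.side w → B.adj w (p i)) ∨
    (∃ j < n, B.TwinAt n p j w) ∨
    (∀ i < n, (B.adj w (p i) ↔ i = 0)) ∨ (∀ i < n, (B.adj w (p i) ↔ i + 1 = n)) ∨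
    B.Closing n p w := by
  induction n, hn using Nat.le_induction with
  | base =>
    have hp7 : B.IsPath 7 p := fun i hi j hj => hp i (by omega) j (by omega)
    refine ext8_step B hS 7 (by omega) p hp w ?_
    rcases ext7 B hS p hp7 w with h | h | h | h | h | h | h | h
    · exact Or.inl h
    · exact Or.inr (Or.inl h)
    · exact Or.inr (Or.inr (Or.inl h))
    · exact Or.inr (Or.inr (Or.inr (Or.inl h)))
    · exact Or.inr (Or.inr (Or.inr (Or.inr (Or.inl h))))
    · exact Or.inr (Or.inr (Or.inr (Or.inr (Or.inr (Or.inl h)))))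
    · exact Or.inr (Or.inr (Or.inr (Or.inr (Or.inr (Or.inr (Or.inl ⟨rfl, h⟩))))))
    · exact Or.inr (Or.inr (Or.inr (Or.inr (Or.inr (Or.inr (Or.inr ⟨rfl, h⟩))))))
  | succ n hn ih =>
    have hpn : B.IsPath n p := fun i hi j hj => hp i (by omega) j (by omega)
    refine ext8_step B hS n (by omega) p hp w ?_
    rcases ih hpn with h | h | h | h | h | h
    · exact Or.inl h
    · exact Or.inr (Or.inl h)
    · exact Or.inr (Or.inr (Or.inl h))
    · exact Or.inr (Or.inr (Or.inr (Or.inl h)))
    · exact Or.inr (Or.inr (Or.inr (Or.inr (Or.inl h))))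
    · exact Or.inr (Or.inr (Or.inr (Or.inr (Or.inr (Or.inl h)))))

end Pool.Agent.CWB
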