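import Pool.Agent.CWB.Defs

/-!
# F2a: the parallel case

Let `U` have no split, let `v ∈ U`, and let `U \ {v}` be the disjoint union of the nonempty sets
`S1`, `S2` without edges between them.  If `U` contains no `P₇` and `B` is `S_{1,2,3}`-free then there
is a leaf at `v`.

Proof.  Suppose there is no leaf at `v`.  Write `X` for the side of `v`, `Y` for the other side,
`Xi = Si ∩ X`, `Yi = Si ∩ Y`.
(0) From (no split): every nonempty proper subset of `U` has an edge to its complement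
    (otherwise a parallel split), and a cross NON-edge to its complement (otherwise a series split).
    So there are no isolated vertices, no vertex is adjacent to the whole other side.
(1) `v` has a non-neighbour `y* ∈ Y`.  Some `x ≠ v`, `x ∈ X`, is MIXED: it has a neighbour `y ~ v` and a
    neighbour `y' ≁ v`.  (Otherwise `{y' ∈ Y : y' ≁ v} ∪ {x ≠ v : x has a neighbour y' ≁ v}` has no edge to its
    complement.)  By symmetry `x ∈ S1`; then `y, y' ∈ S1`.
(2) `X2, Y2` are nonempty (a vertex of `X2` has a neighbour, in `Y2`; a vertex of `Y2` without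
    neighbour in `X2` is a leaf at `v`).  `v` is complete to `Y2`: otherwise (same closure argument inside
    `S2`) there is a mixed `x2 ∈ X2` with `y2 ~ v`, `y2' ≁ v`, and `y' x y v y2 x2 y2'` is a `P₇`.
(3) Every `x2 ∈ X2` is complete to `Y2`: otherwise `x2 ~ y2`, `x2 ≁ y2*` and
    `S_{1,2,3}` = centre `v`; leaf `y2*`; path `y2 x2`; path `y x y'`.
    Fix `x2 ~ y2` from now on.
(4) A mixed `x ∈ X1` is complete to `M := N(v) ∩ Y1`: if `ỹ ∈ M`, `x ≁ ỹ`, take its `y ~ v`, `y' ≁ v`: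
    centre `v`; leaf `ỹ`; path `y2 x2`; path `y x y'`.
(5) There is no `z ∈ X1` with a neighbour `y ∈ M` and no neighbour in `M' := Y1 \ M`: with a mixed `x`
    (`x ~ y` by (4), `x ~ y' ∈ M'`): centre `y`; leaf `z`; path `x y'`; path `v y2 x2`.
(6) There is no `x'' ∈ X1` without neighbour in `M`: the set
    `D = {x ∈ X1 : x has no neighbour in M} ∪ {y' ∈ M' : y' has a neighbour in X1 without neighbour in M}`
    has an edge to its complement; this edge goes from some `y' ∈ D ∩ M'` to a mixed `x̃`; with `x'' ~ y'`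
    from `D` and `y ∈ M`, `y ~ x̃`: `x2 y2 v y x̃ y' x''` is a `P₇`.
    So all vertices of `X1` are mixed.
(7) `X1` is complete to `M'`: if `x* ≁ y'`, `y' ∈ M'`, take a neighbour `x ∈ X1` of `y'` (exists, not isolated),
    `y ∈ M` (adjacent to `x` and `x*` by (4)): centre `y`; leaf `x*`; path `x y'`; path `v y2 x2`.
(8) So `X1` is complete to `Y1` and `Y2` is complete to `{v} ∪ X2`: the pair
    `X1 ∪ Y2`, `{v} ∪ X2 ∪ Y1` is a (series) split of `U`.  Contradiction.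
-/

namespace Pool.Agent.CWB

variable {V : Type*}

private theorem f2a_bool {a b c : Bool} (h1 : a ≠ b) (h2 : b ≠ c) : a = c := by
  cases a <;> cases b <;> cases c <;> simp_all

/-- every proper nonempty part has an edge to its complement -/
private theorem f2a_cut (B : BG V) {U : Set V} (hns : ¬ Split B.adj B.side U) {D : Set V}
    (hD : D ⊆ U) (hne : D.Nonempty) (hne' : (U \ D).Nonempty) :
    ∃ a ∈ D, ∃ b ∈ U, b ∉ D ∧ B.adj a b := by
  by_contra hcon
  have hcon' : ∀ a ∈ D, ∀ b ∈ U, b ∉ D → ¬ B.adj a b :=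
    fun a ha b hb hbD h => hcon ⟨a, ha, b, hb, hbD, h⟩
  apply hns
  refine ⟨D, U \ D, Set.union_sdiff_cancel hD, Set.disjoint_sdiff_right, hne, hne', ?_, ?_⟩
  · intro u hu u' hu' _ w hw
    exact ⟨fun h => (hcon' u hu w hw.1 hw.2 h).elim, fun h => (hcon' u' hu' w hw.1 hw.2 h).elim⟩
  · intro w hw w' hw' _ u hu
    exact ⟨fun h => (hcon' u hu w hw.1 hw.2 (B.symm h)).elim,
      fun h => (hcon' u hu w' hw'.1 hw'.2 (B.symm h)).elim⟩

/-- every proper nonempty part has a cross non-edge to its complement -/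
private theorem f2a_cocut (B : BG V) {U : Set V} (hns : ¬ Split B.adj B.side U) {D : Set V}
    (hD : D ⊆ U) (hne : D.Nonempty) (hne' : (U \ D).Nonempty) :
    ∃ a ∈ D, ∃ b ∈ U, b ∉ D ∧ B.side a ≠ B.side b ∧ ¬ B.adj a b := by
  by_contra hcon
  have hcon' : ∀ a ∈ D, ∀ b ∈ U, b ∉ D → (B.adj a b ↔ B.side a ≠ B.side b) :=
    fun a ha b hb hbD => ⟨fun h => B.cross h,
      fun h => by
        by_contra h'
        exact hcon ⟨a, ha, b, hb, hbD, h, h'⟩⟩
  apply hns
  refine ⟨D, U \ D, Set.union_sdiff_cancel hD, Set.disjoint_sdiff_right, hne, hne', ?_, ?_⟩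
  · intro u hu u' hu' hc w hw
    rw [hcon' u hu w hw.1 hw.2, hcon' u' hu' w hw.1 hw.2, hc]
  · intro w hw w' hw' hc u hu
    have e1 : B.adj w u ↔ B.adj u w := ⟨fun h => B.symm h, fun h => B.symm h⟩
    have e2 : B.adj w' u ↔ B.adj u w' := ⟨fun h => B.symm h, fun h => B.symm h⟩
    rw [e1, e2, hcon' u hu w hw.1 hw.2, hcon' u hu w' hw'.1 hw'.2, hc]

/-- the main part of the proof, with a mixed vertex `x ∈ S1` -/
private theorem f2a_main (B : BG V) (hS : B.SFree) (U : Set V) (hP : B.P7Free U)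
    (hns : ¬ Split B.adj B.side U) (v : V) (hv : v ∈ U) (S1 S2 : Set V)
    (hU : S1 ∪ S2 = U \ {v}) (hdis : Disjoint S1 S2) (h2 : S2.Nonempty)
    (hno : ∀ a ∈ S1, ∀ b ∈ S2, ¬ B.adj a b) (hnl : ∀ y, ¬ B.Leaf U v y)
    (x y y' : V) (hx : x ∈ S1) (hxv : B.side x = B.side v) (hyU : y ∈ U) (hyU' : y' ∈ U)
    (hxy : B.adj x y) (hyv : B.adj y v) (hxy' : B.adj x y') (hyv' : ¬ B.adj y' v) : False := by
  have mem1 : ∀ a ∈ S1, a ∈ U ∧ a ≠ v := by
    intro a ha
    have : a ∈ U \ {v} := hU ▸ Or.inl ha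
    exact ⟨this.1, fun h => this.2 (by simp [h])⟩
  have mem2 : ∀ a ∈ S2, a ∈ U ∧ a ≠ v := by
    intro a ha
    have : a ∈ U \ {v} := hU ▸ Or.inr ha
    exact ⟨this.1, fun h => this.2 (by simp [h])⟩
  have memU : ∀ a ∈ U, a ≠ v → a ∈ S1 ∨ a ∈ S2 := by
    intro a ha hav
    have : a ∈ S1 ∪ S2 := by rw [hU]; exact ⟨ha, by simpa using hav⟩
    exact this
  have hno' : ∀ a ∈ S2, ∀ b ∈ S1, ¬ B.adj a b := fun a ha b hb h => hno b hb a ha (B.symm h)
  have nb1 : ∀ a ∈ S1, ∀ b ∈ U, b ≠ v → B.adj a b → b ∈ S1 := by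
    intro a ha b hb hbv h
    rcases memU b hb hbv with h' | h'
    · exact h'
    · exact (hno a ha b h' h).elim
  have nb2 : ∀ a ∈ S2, ∀ b ∈ U, b ≠ v → B.adj a b → b ∈ S2 := by
    intro a ha b hb hbv h
    rcases memU b hb hbv with h' | h'
    · exact (hno' a ha b h' h).elim
    · exact h'
  -- no isolated vertices
  have iso : ∀ a ∈ U, a ≠ v → ∃ b ∈ U, B.adj a b := by
    intro a ha hav
    obtain ⟨a', ha', b, hb, _, hab⟩ := f2a_cut B hns (D := {a}) (by simpa using ha)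
      (Set.singleton_nonempty a) ⟨v, hv, fun h => hav (by simpa using h.symm)⟩
    have : a' = a := by simpa using ha'
    subst this
    exact ⟨b, hb, hab⟩
  -- every vertex different from `v` has a neighbour different from `v`
  have nbn : ∀ a ∈ U, a ≠ v → ∃ b ∈ U, b ≠ v ∧ B.adj a b := by
    intro a ha hav
    obtain ⟨b, hb, hab⟩ := iso a ha hav
    by_cases hbv : b = v
    · subst hbv
      by_contra hcon
      apply hnl a
      refine ⟨ha, hab, ?_⟩
      intro w hw haw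
      by_contra hwb
      exact hcon ⟨w, hw, hwb, haw⟩
    · exact ⟨b, hb, hbv, hab⟩
  have xn2 : ∀ a ∈ S2, B.side a = B.side v → ∃ b ∈ S2, B.side b ≠ B.side v ∧ B.adj a b := by
    intro a ha hs
    obtain ⟨b, hb, hbv, hab⟩ := nbn a (mem2 a ha).1 (mem2 a ha).2
    exact ⟨b, nb2 a ha b hb hbv hab, fun h => B.cross hab (by rw [hs, h]), hab⟩
  have yn2 : ∀ a ∈ S2, B.side a ≠ B.side v → ∃ b ∈ S2, B.side b = B.side v ∧ B.adj a b := by
    intro a ha hs
    obtain ⟨b, hb, hbv, hab⟩ := nbn a (mem2 a ha).1 (mem2 a ha).2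
    exact ⟨b, nb2 a ha b hb hbv hab, f2a_bool (B.cross hab).symm hs, hab⟩
  have xn1 : ∀ a ∈ S1, B.side a = B.side v → ∃ b ∈ S1, B.side b ≠ B.side v ∧ B.adj a b := by
    intro a ha hs
    obtain ⟨b, hb, hbv, hab⟩ := nbn a (mem1 a ha).1 (mem1 a ha).2
    exact ⟨b, nb1 a ha b hb hbv hab, fun h => B.cross hab (by rw [hs, h]), hab⟩
  have yn1 : ∀ a ∈ S1, B.side a ≠ B.side v → ∃ b ∈ S1, B.side b = B.side v ∧ B.adj a b := by
    intro a ha hs
    obtain ⟨b, hb, hbv, hab⟩ := nbn a (mem1 a ha).1 (mem1 a ha).2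
    exact ⟨b, nb1 a ha b hb hbv hab, f2a_bool (B.cross hab).symm hs, hab⟩
  have sne : ∀ a b, B.adj a b → B.side a = B.side v → B.side b ≠ B.side v :=
    fun a b h hs hs' => B.cross h (by rw [hs, hs'])
  have hys : B.side y ≠ B.side v := sne x y hxy hxv
  have hys' : B.side y' ≠ B.side v := sne x y' hxy' hxv
  have ney : ∀ a, B.side a ≠ B.side v → a ≠ v := fun a h h' => h (by rw [h'])
  have hy1 : y ∈ S1 := nb1 x hx y hyU (ney y hys) hxy
  have hy1' : y' ∈ S1 := nb1 x hx y' hyU' (ney y' hys') hxy'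
  -- (2)
  obtain ⟨x2, hx2, hx2s⟩ : ∃ x2 ∈ S2, B.side x2 = B.side v := by
    obtain ⟨s, hs⟩ := h2
    by_cases hss : B.side s = B.side v
    · exact ⟨s, hs, hss⟩
    · obtain ⟨b, hb, hbs, _⟩ := yn2 s hs hss
      exact ⟨b, hb, hbs⟩
  have vY2 : ∀ a ∈ S2, B.side a ≠ B.side v → B.adj v a := by
    intro ys hys2 hyss
    by_contra hnadj
    obtain ⟨a, ha, b, hb, hbD, hab⟩ := f2a_cut B hns
      (D := {z | (z ∈ S2 ∧ B.side z ≠ B.side v ∧ ¬ B.adj z v) ∨
        (z ∈ S2 ∧ B.side z = B.side v ∧ ∃ w ∈ S2, B.adj z w ∧ ¬ B.adj w v)})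
      (by
        rintro z (hz | hz)
        · exact (mem2 z hz.1).1
        · exact (mem2 z hz.1).1)
      ⟨ys, Or.inl ⟨hys2, hyss, fun h => hnadj (B.symm h)⟩⟩
      ⟨v, hv, by
        rintro (hz | hz)
        · exact (mem2 v hz.1).2 rfl
        · exact (mem2 v hz.1).2 rfl⟩
    rcases ha with ⟨ha2, has, hav⟩ | ⟨ha2, has, w, hw, haw, hwv⟩
    · have hbv : b ≠ v := by
        rintro rfl
        exact hav hab
      have hb2 : b ∈ S2 := nb2 a ha2 b hb hbv hab
      apply hbD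
      right
      exact ⟨hb2, f2a_bool (B.cross hab).symm has, a, ha2, B.symm hab, hav⟩
    · have hbs : B.side b ≠ B.side v := sne a b hab has
      have hb2 : b ∈ S2 := nb2 a ha2 b hb (ney b hbs) hab
      have hbv : B.adj b v := by
        by_contra h
        exact hbD (Or.inl ⟨hb2, hbs, h⟩)
      exact hP y' hyU' x (mem1 x hx).1 y hyU v hv b hb a (mem2 a ha2).1 w (mem2 w hw).1
        ⟨B.symm hxy', hxy, hyv, B.symm hbv, B.symm hab, haw, hyv', hno _ hy1' _ ha2,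
          hno _ hx _ hb2, hno _ hx _ hw, hno _ hy1 _ ha2, fun h => hwv (B.symm h)⟩
  -- (3)
  have c3 : ∀ a ∈ S2, B.side a = B.side v → ∀ b ∈ S2, B.side b ≠ B.side v → B.adj a b := by
    intro a ha has b hb hbs
    by_contra hnab
    obtain ⟨c, hc, hcs, hac⟩ := xn2 a ha has
    exact hS v b c a y x y' (vY2 b hb hbs) (vY2 c hc hcs) (B.symm hac) (B.symm hyv)
      (B.symm hxy) hxy' hnab (hno' _ ha _ hy1) (hno' _ ha _ hy1') (hno _ hx _ hb)
      (hno _ hx _ hc) (fun h => hyv' (B.symm h))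
  obtain ⟨y2, hy2, hy2s, hxy2⟩ := xn2 x2 hx2 hx2s
  have hvy2 : B.adj v y2 := vY2 y2 hy2 hy2s
  -- (4)
  have c4 : ∀ a ∈ S1, B.side a = B.side v → ∀ b ∈ S1, B.adj a b → B.adj b v → ∀ b' ∈ S1,
      B.adj a b' → ¬ B.adj b' v → ∀ c ∈ S1, B.adj c v → B.adj a c := by
    intro a ha has b hb hab hbv b' hb' hab' hbv' c hc hcv
    by_contra hnac
    exact hS v c y2 x2 b a b' (B.symm hcv) hvy2 (B.symm hxy2) (B.symm hbv) (B.symm hab) hab'
      (hno' _ hx2 _ hc) (hno' _ hx2 _ hb) (hno' _ hx2 _ hb') hnac (hno _ ha _ hy2)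
      (fun h => hbv' (B.symm h))
  -- (5)
  have c5 : ∀ z ∈ S1, B.side z = B.side v → ∀ b ∈ S1, B.adj z b → B.adj b v →
      ∃ b' ∈ S1, B.adj z b' ∧ ¬ B.adj b' v := by
    intro z hz hzs b hb hzb hbv
    by_contra hcon
    have hxb : B.adj x b := c4 x hx hxv y hy1 hxy hyv y' hy1' hxy' hyv' b hb hbv
    have hzy' : ¬ B.adj y' z := fun h => hcon ⟨y', hy1', B.symm h, hyv'⟩
    exact hS b z x y' v y2 x2 (B.symm hzb) (B.symm hxb) hxy' hbv hvy2 (B.symm hxy2)
      hzy' hyv' (hno _ hy1' _ hx2) (hno' _ hy2 _ hz) (hno' _ hy2 _ hx) (hno _ hb _ hx2)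
  -- (6)
  have c6 : ∀ z ∈ S1, B.side z = B.side v → ∃ b ∈ S1, B.adj z b ∧ B.adj b v := by
    intro z hz hzs
    by_contra hcon
    obtain ⟨a, ha, b, hb, hbD, hab⟩ := f2a_cut B hns
      (D := {t | (t ∈ S1 ∧ B.side t = B.side v ∧ ¬ ∃ b ∈ S1, B.adj t b ∧ B.adj b v) ∨
        (t ∈ S1 ∧ B.side t ≠ B.side v ∧ ¬ B.adj t v ∧ ∃ s ∈ S1, B.adj t s ∧
          B.side s = B.side v ∧ ¬ ∃ b ∈ S1, B.adj s b ∧ B.adj b v)})
      (by
        rintro t (ht | ht)
        · exact (mem1 t ht.1).1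
        · exact (mem1 t ht.1).1)
      ⟨z, Or.inl ⟨hz, hzs, hcon⟩⟩
      ⟨v, hv, by
        rintro (ht | ht)
        · exact (mem1 v ht.1).2 rfl
        · exact (mem1 v ht.1).2 rfl⟩
    rcases ha with ⟨ha1, has, hano⟩ | ⟨ha1, has, hav, s, hs, has2, hss, hsno⟩
    · have hbs : B.side b ≠ B.side v := sne a b hab has
      have hb1 : b ∈ S1 := nb1 a ha1 b hb (ney b hbs) hab
      apply hbD
      right
      exact ⟨hb1, hbs, fun h => hano ⟨b, hb1, hab, h⟩, a, ha1, B.symm hab, has, hano⟩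
    · have hbv : b ≠ v := by
        rintro rfl
        exact hav hab
      have hb1 : b ∈ S1 := nb1 a ha1 b hb hbv hab
      have hbs : B.side b = B.side v := f2a_bool (B.cross hab).symm has
      have hbm : ∃ c ∈ S1, B.adj b c ∧ B.adj c v := by
        by_contra h
        exact hbD (Or.inl ⟨hb1, hbs, h⟩)
      obtain ⟨c, hc, hbc, hcv⟩ := hbm
      have hcs : ¬ B.adj c s := fun h => hsno ⟨c, hc, B.symm h, hcv⟩
      exact hP x2 (mem2 x2 hx2).1 y2 (mem2 y2 hy2).1 v hv c (mem1 c hc).1 b hb a (mem1 a ha1).1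
        s (mem1 s hs).1
        ⟨hxy2, B.symm hvy2, B.symm hcv, B.symm hbc, B.symm hab, has2, hno' _ hx2 _ hc,
          hno' _ hx2 _ ha1, hno' _ hy2 _ hb1, hno' _ hy2 _ hs, fun h => hav (B.symm h), hcs⟩
  -- mixed vertices are complete to `M`
  have c4' : ∀ a ∈ S1, B.side a = B.side v → ∀ c ∈ S1, B.adj c v → B.adj a c := by
    intro a ha has c hc hcv
    obtain ⟨b, hb, hab, hbv⟩ := c6 a ha has
    obtain ⟨b', hb', hab', hbv'⟩ := c5 a ha has b hb hab hbv
    exact c4 a ha has b hb hab hbv b' hb' hab' hbv' c hc hcv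
  -- (7)
  have c7 : ∀ a ∈ S1, B.side a = B.side v → ∀ c ∈ S1, B.side c ≠ B.side v → B.adj a c := by
    intro a ha has c hc hcs
    by_cases hcv : B.adj c v
    · exact c4' a ha has c hc hcv
    · by_contra hnac
      obtain ⟨b, hb, hbs, hcb⟩ := yn1 c hc hcs
      exact hS y a b c v y2 x2 (B.symm (c4' a ha has y hy1 hyv)) (B.symm (c4' b hb hbs y hy1 hyv))
        (B.symm hcb) hyv hvy2 (B.symm hxy2) (fun h => hnac (B.symm h)) hcv (hno _ hc _ hx2)
        (hno' _ hy2 _ ha) (hno' _ hy2 _ hb) (hno _ hy1 _ hx2)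
  -- (8)
  obtain ⟨a, ha, b, hb, hbD, hab, hnab⟩ := f2a_cocut B hns
    (D := {t | (t ∈ S1 ∧ B.side t = B.side v) ∨ (t ∈ S2 ∧ B.side t ≠ B.side v)})
    (by
      rintro t (ht | ht)
      · exact (mem1 t ht.1).1
      · exact (mem2 t ht.1).1)
    ⟨x, Or.inl ⟨hx, hxv⟩⟩
    ⟨v, hv, by
      rintro (ht | ht)
      · exact (mem1 v ht.1).2 rfl
      · exact (mem2 v ht.1).2 rfl⟩
  rcases ha with ⟨ha1, has⟩ | ⟨ha2, has⟩
  · have hbs : B.side b ≠ B.side v := fun h => hab (by rw [has, h])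
    rcases memU b hb (ney b hbs) with hb1 | hb2
    · exact hnab (c7 a ha1 has b hb1 hbs)
    · exact hbD (Or.inr ⟨hb2, hbs⟩)
  · have hbs : B.side b = B.side v := f2a_bool hab.symm has
    by_cases hbv : b = v
    · subst hbv
      exact hnab (B.symm (vY2 a ha2 has))
    · rcases memU b hb hbv with hb1 | hb2
      · exact hbD (Or.inl ⟨hb1, hbs⟩)
      · exact hnab (B.symm (c3 b hb2 hbs a ha2 has))

theorem f2_parallel (B : BG V) (hS : B.SFree) (U : Set V) (hP : B.P7Free U)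
    (hns : ¬ Split B.adj B.side U) (v : V) (hv : v ∈ U) (S1 S2 : Set V)
    (hU : S1 ∪ S2 = U \ {v}) (hdis : Disjoint S1 S2) (h1 : S1.Nonempty) (h2 : S2.Nonempty)
    (hno : ∀ a ∈ S1, ∀ b ∈ S2, ¬ B.adj a b) : ∃ y, B.Leaf U v y := by
  by_contra hnl
  have hnl' : ∀ y, ¬ B.Leaf U v y := fun y hy => hnl ⟨y, hy⟩
  obtain ⟨s1, hs1⟩ := id h1
  have hs1U : s1 ∈ U \ {v} := hU ▸ Or.inl hs1
  -- a non-neighbour of `v`
  obtain ⟨v', hv', ys, hysU, _, hyss, hysn⟩ := f2a_cocut B hns (D := {v}) (by simpa using hv)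
    (Set.singleton_nonempty v) ⟨s1, hs1U⟩
  have hvv : v' = v := by simpa using hv'
  subst hvv
  -- a mixed vertex
  obtain ⟨a, ha, b, hb, hbD, hab⟩ := f2a_cut B hns
    (D := {z | (z ∈ U ∧ B.side z ≠ B.side v' ∧ ¬ B.adj z v') ∨
      (z ∈ U ∧ z ≠ v' ∧ B.side z = B.side v' ∧ ∃ w ∈ U, B.adj z w ∧ ¬ B.adj w v')})
    (by
      rintro z (hz | hz)
      · exact hz.1
      · exact hz.1)
    ⟨ys, Or.inl ⟨hysU, fun h => hyss h.symm, fun h => hysn (B.symm h)⟩⟩
    ⟨v', hv, by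
      rintro (hz | hz)
      · exact hz.2.1 rfl
      · exact hz.2.1 rfl⟩
  rcases ha with ⟨haU, has, hav⟩ | ⟨haU, hane, has, w, hw, haw, hwv⟩
  · have hbv : b ≠ v' := by
      rintro rfl
      exact hav hab
    exact hbD (Or.inr ⟨hb, hbv, f2a_bool (B.cross hab).symm has, a, haU, B.symm hab, hav⟩)
  · have hbv : B.adj b v' := by
      by_contra h
      exact hbD (Or.inl ⟨hb, fun h' => B.cross hab (by rw [has, h']), h⟩)
    have hmem : a ∈ S1 ∪ S2 := by
      rw [hU]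
      exact ⟨haU, by simpa using hane⟩
    rcases hmem with h | h
    · exact f2a_main B hS U hP hns v' hv S1 S2 hU hdis h2 hno hnl' a b w h has hb hw hab hbv
        haw hwv
    · exact f2a_main B hS U hP hns v' hv S2 S1 (by rw [Set.union_comm, hU]) hdis.symm h1
        (fun p hp q hq h' => hno q hq p hp (B.symm h')) hnl' a b w h has hb hw hab hbv haw hwv

end Pool.Agent.CWB
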