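import Pool.Agent.CWB.F2a
import Pool.Agent.CWB.BGBasic

/-!
# F2b: incomparability graphs and supports

(i) `cutConn_inc`: if `U` has no split then `inc` is connected on each side `X = sd U s`.
  Proof: choose `x0 ∈ X` with the fewest neighbours in `U`, `D :=` the `inc`-component of `x0` in `X`.
  Suppose `D ≠ X`.  For `x ∈ X \ D`: `x` and `x0` are comparable and `|N(x0)| ≤ |N(x)|`, so `N(x0) ⊆ N(x)`.
  If `N(d) ⊆ N(x)` and `inc d d'` then `d', x` are comparable and `N(x) ⊆ N(d')` would give `N(d) ⊆ N(d')`; so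
  `N(d') ⊆ N(x)`.  Hence `N(d) ⊆ N(x)` for all `d ∈ D`, `x ∈ X \ D`, and
  `D ∪ N(D)`, `(X \ D) ∪ (Y \ N(D))` is a split.  So the only component is `X`, which gives `CutConn`.
(ii) `exists_noncut`: general (use `SimpleGraph.Connected.exists_connected_induce_compl_singleton_of_finite_nontrivial`
  or a farthest vertex).
(iii) `leaf_or_coleaf`: let `v ∈ X := sd U s`, `inc` connected on `X \ {v}`, `U` without split, `U \ {v}` with a
  split `(S1, S2)`, no `P₇`, `S_{1,2,3}`-free.  Then there is a leaf or a co-leaf at `v`.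
  Proof: `Xi, Yi` as before.  If `X1 = ∅` then any `y ∈ S1 ⊆ Y` is complete or anticomplete to `X \ {v}`, so it is a
  co-leaf or a leaf at `v` (it is not isolated and not complete to `X`, else a split).  The same if `X2 = ∅`.
  If `X1, X2 ≠ ∅` and `Y2 = ∅` then a vertex of `X2` is complete or anticomplete to `Y`: contradiction; same for `Y1`.
  So all four are nonempty, the relation `X1–Y2` is constant `r`, the relation `X2–Y1` is constant `r'`.
  If `r ≠ r'`, all pairs of `X1 × X2` are comparable, against the connectedness of `inc` on `X \ {v}`.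
  If `r = r' = no edges`: `f2_parallel` gives a leaf.  If `r = r' = all edges`: `f2_parallel` for `B.co` gives a
  leaf of `B.co` at `v` = a co-leaf of `B` at `v`.
-/

namespace Pool.Agent.CWB

variable {V : Type*}

private theorem F2b_mk (B : BG V) (U S T : Set V) (h1 : S ∪ T = U) (h2 : Disjoint S T)
    (h3 : S.Nonempty) (h4 : T.Nonempty) (r : Bool → Prop)
    (h : ∀ u ∈ S, ∀ w ∈ T, B.side u ≠ B.side w → (B.adj u w ↔ r (B.side u))) :
    Split B.adj B.side U := by
  refine ⟨S, T, h1, h2, h3, h4, ?_, ?_⟩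
  · intro u hu u' hu' huu w hw
    by_cases hs : B.side u = B.side w
    · constructor
      · intro h'; exact absurd hs (B.cross h')
      · intro h'; exact absurd (huu.symm.trans hs) (B.cross h')
    · rw [h u hu w hw hs, h u' hu' w hw (by rwa [← huu]), huu]
  · intro w hw w' hw' hww u hu
    by_cases hs : B.side u = B.side w
    · constructor
      · intro h'; exact absurd hs.symm (B.cross h')
      · intro h'; exact absurd (hww.symm.trans hs.symm) (B.cross h')
    · have e1 := h u hu w hw hs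
      have e2 := h u hu w' hw' (by rwa [← hww])
      constructor
      · intro h'; exact B.symm (e2.2 (e1.1 (B.symm h')))
      · intro h'; exact B.symm (e1.2 (e2.1 (B.symm h')))

theorem cutConn_inc (B : BG V) (U : Set V) (hfin : U.Finite) (hns : ¬ Split B.adj B.side U)
    (s : Bool) : CutConn (B.inc U) (B.sd U s) := by
  classical
  intro D hDX hDne hRne
  by_contra hcon
  push Not at hcon
  set X := B.sd U s with hX
  have hXfin : X.Finite := hfin.subset (fun x hx => hx.1)
  obtain ⟨d0, hd0⟩ := hDne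
  obtain ⟨r0, hr0⟩ := hRne
  -- a closed set containing the minimal vertex
  let Nb : V → Set V := fun x => {w | w ∈ U ∧ B.adj x w}
  have hNfin : ∀ x, (Nb x).Finite := fun x => hfin.subset (fun w hw => hw.1)
  obtain ⟨x0, hx0, hmin⟩ := Set.exists_min_image X (fun x => (Nb x).ncard) hXfin ⟨d0, hDX hd0⟩
  let R : V → V → Prop := fun a b => B.inc U a b ∧ b ∈ X
  let D0 : Set V := {x | Relation.ReflTransGen R x0 x}
  have hD0X : D0 ⊆ X := by
    intro x hx
    induction hx with
    | refl => exact hx0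
    | tail _ h _ => exact h.2
  have hincsymm : ∀ a b, B.inc U a b → B.inc U b a := fun a b h => ⟨h.2, h.1⟩
  have hD0R : ∃ x ∈ X, x ∉ D0 := by
    by_cases hxD : x0 ∈ D
    · refine ⟨r0, hr0.1, ?_⟩
      have : D0 ⊆ D := by
        intro x hx
        induction hx with
        | refl => exact hxD
        | @tail b c _ h ih =>
          by_contra hc
          exact hcon b ih c ⟨h.2, hc⟩ h.1
      exact fun h => hr0.2 (this h)
    · refine ⟨d0, hDX hd0, ?_⟩
      have : D0 ⊆ X \ D := by
        intro x hx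
        induction hx with
        | refl => exact ⟨hx0, hxD⟩
        | @tail b c _ h ih =>
          refine ⟨h.2, fun hc => ?_⟩
          exact hcon c hc b ih (hincsymm _ _ h.1)
      exact fun h => (this h).2 hd0
  have key : ∀ x ∈ X, x ∉ D0 → ∀ d ∈ D0, Nb d ⊆ Nb x := by
    intro x hxX hxD d hd
    induction hd with
    | refl =>
      have hninc : ¬ B.inc U x0 x := fun h => hxD (Relation.ReflTransGen.single ⟨h, hxX⟩)
      by_contra hsub
      have h1 : ∃ w ∈ U, B.adj x0 w ∧ ¬ B.adj x w := by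
        rw [Set.not_subset] at hsub
        obtain ⟨w, hw, hw'⟩ := hsub
        exact ⟨w, hw.1, hw.2, fun h => hw' ⟨hw.1, h⟩⟩
      have h2 : Nb x ⊆ Nb x0 := by
        intro w hw
        by_contra hw'
        exact hninc ⟨h1, w, hw.1, hw.2, fun h => hw' ⟨hw.1, h⟩⟩
      have h3 := Set.eq_of_subset_of_ncard_le h2 (hmin x hxX) (hNfin x0)
      exact hsub (h3 ▸ subset_rfl)
    | @tail b c hb h ih =>
      have hc : c ∈ D0 := Relation.ReflTransGen.tail hb h
      have hninc : ¬ B.inc U c x := fun h' => hxD (Relation.ReflTransGen.tail hc ⟨h', hxX⟩)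
      by_contra hsub
      rw [Set.not_subset] at hsub
      obtain ⟨w, hw, hw'⟩ := hsub
      have h2 : Nb x ⊆ Nb c := by
        intro z hz
        by_contra hz'
        exact hninc ⟨⟨w, hw.1, hw.2, fun h => hw' ⟨hw.1, h⟩⟩, z, hz.1, hz.2,
          fun h => hz' ⟨hz.1, h⟩⟩
      obtain ⟨⟨z, hz, hz1, hz2⟩, _⟩ := h.1
      exact hz2 (h2 (ih ⟨hz, hz1⟩)).2
  obtain ⟨r, hrX, hrD⟩ := hD0R
  let S : Set V := {w | w ∈ D0 ∨ (w ∈ U ∧ B.side w ≠ s ∧ ∃ d ∈ D0, B.adj d w)}
  have hSU : S ⊆ U := by
    rintro w (hw | hw)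
    · exact (hD0X hw).1
    · exact hw.1
  have hrS : r ∉ S := by
    rintro (h | h)
    · exact hrD h
    · exact h.2.1 hrX.2
  apply hns
  refine F2b_mk B U S (U \ S) (Set.union_sdiff_cancel hSU) Set.disjoint_sdiff_right
    ⟨x0, Or.inl Relation.ReflTransGen.refl⟩ ⟨r, hrX.1, hrS⟩ (fun b => b ≠ s) ?_
  intro u hu w hw hs
  rcases hu with hu | hu
  · have hus : B.side u = s := (hD0X hu).2
    constructor
    · intro h
      exfalso
      exact hw.2 (Or.inr ⟨hw.1, fun h' => hs (hus.trans h'.symm), u, hu, h⟩)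
    · intro h; exact absurd hus h
  · obtain ⟨huU, hus, d, hd, hdu⟩ := hu
    constructor
    · intro _; exact hus
    · intro _
      have hws : B.side w = s := by
        revert hs hus
        cases B.side u <;> cases B.side w <;> cases s <;> simp
      have hwX : w ∈ X := ⟨hw.1, hws⟩
      have hwD : w ∉ D0 := fun h => hw.2 (Or.inl h)
      exact B.symm (key w hwX hwD d hd ⟨huU, hdu⟩).2

theorem exists_noncut (R : V → V → Prop) (hR : ∀ a b, R a b → R b a) (X : Set V) (hfin : X.Finite)
    (hX : X.Nontrivial) (hc : CutConn R X) : ∃ v ∈ X, CutConn R (X \ {v}) := by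
  classical
  have : Finite X := hfin
  have : Nontrivial X := (Set.nontrivial_coe_sort).2 hX
  let G : SimpleGraph X := SimpleGraph.fromRel (fun a b : X => R a b)
  have hG : G.Connected := by
    have hne : Nonempty X := inferInstance
    refine @SimpleGraph.Connected.mk _ _ ?_ hne
    intro a b
    by_contra hab
    let D : Set V := {x | ∃ h : x ∈ X, G.Reachable a ⟨x, h⟩}
    obtain ⟨p, hp, q, hq, hpq⟩ := hc D (fun x hx => hx.1) ⟨a.1, a.2, SimpleGraph.Reachable.refl _⟩
      ⟨b.1, b.2, fun h => hab h.2⟩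
    obtain ⟨hpX, hpr⟩ := hp
    apply hq.2
    refine ⟨hq.1, hpr.trans ?_⟩
    by_cases hne : p = q
    · subst hne; exact SimpleGraph.Reachable.refl _
    · apply SimpleGraph.Adj.reachable
      show G.Adj ⟨p, hpX⟩ ⟨q, hq.1⟩
      rw [SimpleGraph.fromRel_adj]
      exact ⟨fun h => hne (by simpa using h), Or.inl hpq⟩
  obtain ⟨v, hv⟩ := hG.exists_connected_induce_compl_singleton_of_finite_nontrivial
  refine ⟨v.1, v.2, ?_⟩
  intro D hD hDne hRne
  obtain ⟨a, ha⟩ := hDne
  obtain ⟨b, hb⟩ := hRne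
  have haX := hD ha
  have hav : (⟨a, haX.1⟩ : X) ∈ ({v}ᶜ : Set X) := by
    simp only [Set.mem_compl_iff, Set.mem_singleton_iff]
    intro h; exact haX.2 (by rw [← h]; rfl)
  have hbv : (⟨b, hb.1.1⟩ : X) ∈ ({v}ᶜ : Set X) := by
    simp only [Set.mem_compl_iff, Set.mem_singleton_iff]
    intro h; exact hb.1.2 (by rw [← h]; rfl)
  obtain ⟨p⟩ := hv.preconnected ⟨⟨a, haX.1⟩, hav⟩ ⟨⟨b, hb.1.1⟩, hbv⟩
  obtain ⟨d, _, hd1, hd2⟩ := p.exists_boundary_dart {x | x.1.1 ∈ D} ha hb.2
  have hadj := d.adj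
  rw [SimpleGraph.comap_adj, SimpleGraph.fromRel_adj] at hadj
  refine ⟨d.fst.1.1, hd1, d.snd.1.1, ⟨⟨d.snd.1.2, ?_⟩, hd2⟩, ?_⟩
  · intro h
    have := d.snd.2
    simp only [Set.mem_compl_iff, Set.mem_singleton_iff] at this
    exact this (Subtype.ext h)
  · rcases hadj.2 with h | h
    · exact h
    · exact hR _ _ h

theorem leaf_or_coleaf (B : BG V) (hS : B.SFree) (U : Set V) (hP : B.P7Free U)
    (hns : ¬ Split B.adj B.side U) (v : V) (hv : v ∈ U)
    (hconn : CutConn (B.inc U) (B.sd U (B.side v) \ {v}))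
    (hsp : Split B.adj B.side (U \ {v})) :
    (∃ y, B.Leaf U v y) ∨ (∃ y, B.CoLeaf U v y) := by
  classical
  -- basic consequences of the absence of a split
  have hiso : ∀ y ∈ U, ∃ w ∈ U, B.adj y w := by
    intro y hy
    by_contra hcon
    push Not at hcon
    apply hns
    have hvy : (U \ {y}).Nonempty := by
      obtain ⟨S, T, hST, _, hSn, hTn, _, _⟩ := hsp
      by_cases h : v = y
      · obtain ⟨a, ha⟩ := hSn
        exact ⟨a, by rw [← h, ← hST]; exact Or.inl ha⟩
      · exact ⟨v, hv, h⟩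
    refine F2b_mk B U {y} (U \ {y}) (Set.union_sdiff_cancel (by simpa using hy))
      Set.disjoint_sdiff_right (Set.singleton_nonempty y) hvy (fun _ => False) ?_
    intro u hu w hw _
    rw [Set.mem_singleton_iff] at hu
    subst hu
    exact ⟨fun h => hcon w hw.1 h, fun h => h.elim⟩
  have hdom : ∀ y ∈ U, ∃ w ∈ U, B.side w ≠ B.side y ∧ ¬ B.adj y w := by
    intro y hy
    by_contra hcon
    push Not at hcon
    apply hns
    have hvy : (U \ {y}).Nonempty := by
      obtain ⟨S, T, hST, _, hSn, hTn, _, _⟩ := hsp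
      by_cases h : v = y
      · obtain ⟨a, ha⟩ := hSn
        exact ⟨a, by rw [← h, ← hST]; exact Or.inl ha⟩
      · exact ⟨v, hv, h⟩
    refine F2b_mk B U {y} (U \ {y}) (Set.union_sdiff_cancel (by simpa using hy))
      Set.disjoint_sdiff_right (Set.singleton_nonempty y) hvy (fun _ => True) ?_
    intro u hu w hw hs
    rw [Set.mem_singleton_iff] at hu
    subst hu
    exact ⟨fun _ => trivial, fun _ => hcon w hw.1 (fun h => hs h.symm)⟩
  -- one side condition
  have hbool : ∀ a b c : Bool, a ≠ c → b ≠ c → a = b := by decide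
  have side_case : ∀ S T : Set V, S ∪ T = U \ {v} → Disjoint S T → S.Nonempty →
      (∀ u ∈ S, ∀ u' ∈ S, B.side u = B.side u' → ∀ w ∈ T, (B.adj u w ↔ B.adj u' w)) →
      (∀ w ∈ T, ∀ w' ∈ T, B.side w = B.side w' → ∀ u ∈ S, (B.adj w u ↔ B.adj w' u)) →
      (∀ x ∈ S, B.side x ≠ B.side v) → (∃ y, B.Leaf U v y) ∨ (∃ y, B.CoLeaf U v y) := by
    intro S T hST hdis hSn h1 h2 hX
    obtain ⟨y, hy⟩ := hSn
    have hyU : y ∈ U \ {v} := by rw [← hST]; exact Or.inl hy
    have hys : B.side y ≠ B.side v := hX y hy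
    have hmemT : ∀ w ∈ U, B.side w = B.side v → w ≠ v → w ∈ T := by
      intro w hw hws hwv
      have : w ∈ S ∪ T := by rw [hST]; exact ⟨hw, hwv⟩
      rcases this with h | h
      · exact absurd hws (hX w h)
      · exact h
    by_cases hcomp : ∃ w ∈ U, B.side w = B.side v ∧ w ≠ v ∧ B.adj y w
    · right
      obtain ⟨w, hw, hws, hwv, hyw⟩ := hcomp
      have hall : ∀ w' ∈ U, B.side w' = B.side v → w' ≠ v → B.adj y w' := by
        intro w' hw' hws' hwv'
        have := (h2 w (hmemT w hw hws hwv) w' (hmemT w' hw' hws' hwv') (hws.trans hws'.symm) y hy).1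
          (B.symm hyw)
        exact B.symm this
      refine ⟨y, hyU.1, hys, ?_, hall⟩
      intro hyv
      obtain ⟨z, hz, hzs, hyz⟩ := hdom y hyU.1
      have hzs' : B.side z = B.side v := hbool _ _ _ hzs (Ne.symm hys)
      by_cases hzv : z = v
      · exact hyz (hzv ▸ hyv)
      · exact hyz (hall z hz hzs' hzv)
    · left
      push Not at hcomp
      refine ⟨y, hyU.1, ?_, ?_⟩
      · obtain ⟨w, hw, hyw⟩ := hiso y hyU.1
        have hws : B.side w = B.side v := hbool _ _ _ (Ne.symm (B.cross hyw)) (Ne.symm hys)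
        by_cases hwv : w = v
        · exact hwv ▸ hyw
        · exact absurd hyw (hcomp w hw hws hwv)
      · intro w hw hyw
        have hws : B.side w = B.side v := hbool _ _ _ (Ne.symm (B.cross hyw)) (Ne.symm hys)
        by_contra hwv
        exact hcomp w hw hws hwv hyw
  obtain ⟨S, T, hST, hdis, hSn, hTn, h1, h2⟩ := hsp
  by_cases hXS : ∀ x ∈ S, B.side x ≠ B.side v
  · exact side_case S T hST hdis hSn h1 h2 hXS
  by_cases hXT : ∀ x ∈ T, B.side x ≠ B.side v
  · exact side_case T S (by rw [Set.union_comm]; exact hST) hdis.symm hTn h2 h1 hXT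
  push Not at hXS hXT
  obtain ⟨a, haS, has⟩ := hXS
  obtain ⟨b, hbT, hbs⟩ := hXT
  have hSU : ∀ x ∈ S, x ∈ U ∧ x ≠ v := fun x hx => by
    have : x ∈ U \ {v} := by rw [← hST]; exact Or.inl hx
    exact ⟨this.1, this.2⟩
  have hTU : ∀ x ∈ T, x ∈ U ∧ x ≠ v := fun x hx => by
    have : x ∈ U \ {v} := by rw [← hST]; exact Or.inr hx
    exact ⟨this.1, this.2⟩
  -- the other side is nonempty in both parts
  have hYT : ∃ y ∈ T, B.side y ≠ B.side v := by
    by_contra hcon
    push Not at hcon
    have hY : ∀ w ∈ U, B.side w ≠ B.side v → w ∈ S := by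
      intro w hw hws
      have : w ∈ S ∪ T := by rw [hST]; exact ⟨hw, fun h => hws (by rw [h])⟩
      rcases this with h | h
      · exact h
      · exact absurd (hcon w h) hws
    obtain ⟨w, hw, hbw⟩ := hiso b (hTU b hbT).1
    obtain ⟨z, hz, hzs, hbz⟩ := hdom b (hTU b hbT).1
    have hws : B.side w ≠ B.side v := fun h => B.cross hbw (hbs.trans h.symm)
    have hzs' : B.side z ≠ B.side v := fun h => hzs (h.trans hbs.symm)
    have := (h1 w (hY w hw hws) z (hY z hz hzs') (hbool _ _ _ hws hzs') b hbT).1 (B.symm hbw)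
    exact hbz (B.symm this)
  have hYS : ∃ y ∈ S, B.side y ≠ B.side v := by
    by_contra hcon
    push Not at hcon
    have hY : ∀ w ∈ U, B.side w ≠ B.side v → w ∈ T := by
      intro w hw hws
      have : w ∈ S ∪ T := by rw [hST]; exact ⟨hw, fun h => hws (by rw [h])⟩
      rcases this with h | h
      · exact absurd (hcon w h) hws
      · exact h
    obtain ⟨w, hw, haw⟩ := hiso a (hSU a haS).1
    obtain ⟨z, hz, hzs, haz⟩ := hdom a (hSU a haS).1
    have hws : B.side w ≠ B.side v := fun h => B.cross haw (has.trans h.symm)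
    have hzs' : B.side z ≠ B.side v := fun h => hzs (h.trans has.symm)
    have := (h2 w (hY w hw hws) z (hY z hz hzs') (hbool _ _ _ hws hzs') a haS).1 (B.symm haw)
    exact haz (B.symm this)
  obtain ⟨yT, hyT, hyTs⟩ := hYT
  obtain ⟨yS, hyS, hySs⟩ := hYS
  -- constant relations
  have rel1 : ∀ x ∈ S, B.side x = B.side v → ∀ y ∈ T, B.side y ≠ B.side v →
      (B.adj x y ↔ B.adj a yT) := by
    intro x hx hxs y hy hys
    rw [h1 x hx a haS (hxs.trans has.symm) y hy]
    have := h2 y hy yT hyT (hbool _ _ _ hys hyTs) a haS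
    exact ⟨fun h => B.symm (this.1 (B.symm h)), fun h => B.symm (this.2 (B.symm h))⟩
  have rel2 : ∀ x ∈ T, B.side x = B.side v → ∀ y ∈ S, B.side y ≠ B.side v →
      (B.adj x y ↔ B.adj b yS) := by
    intro x hx hxs y hy hys
    rw [h2 x hx b hbT (hxs.trans hbs.symm) y hy]
    have := h1 y hy yS hyS (hbool _ _ _ hys hySs) b hbT
    exact ⟨fun h => B.symm (this.1 (B.symm h)), fun h => B.symm (this.2 (B.symm h))⟩
  have hsub : {x | x ∈ S ∧ B.side x = B.side v} ⊆ B.sd U (B.side v) \ {v} := by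
    intro x hx
    exact ⟨⟨(hSU x hx.1).1, hx.2⟩, (hSU x hx.1).2⟩
  have hbnot : b ∈ (B.sd U (B.side v) \ {v}) \ {x | x ∈ S ∧ B.side x = B.side v} :=
    ⟨⟨⟨(hTU b hbT).1, hbs⟩, (hTU b hbT).2⟩, fun h => Set.disjoint_left.1 hdis h.1 hbT⟩
  obtain ⟨x, hx, x', hx', hinc⟩ := hconn _ hsub ⟨a, haS, has⟩ ⟨b, hbnot⟩
  have hx'T : x' ∈ T := by
    have : x' ∈ S ∪ T := by rw [hST]; exact ⟨hx'.1.1.1, hx'.1.2⟩
    rcases this with h | h
    · exact absurd ⟨h, hx'.1.1.2⟩ hx'.2
    · exact h
  have hx's : B.side x' = B.side v := hx'.1.1.2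
  by_cases r1 : B.adj a yT
  · by_cases r2 : B.adj b yS
    · -- all edges: pass to the complement
      right
      have hco : ¬ Split B.co.adj B.co.side U := fun h => hns ((BG.co_split_iff B U).1 h)
      have hno : ∀ p ∈ S, ∀ q ∈ T, ¬ B.co.adj p q := by
        intro p hp q hq hpq
        have hpq1 : B.side p ≠ B.side q := hpq.1
        apply hpq.2
        by_cases hps : B.side p = B.side v
        · exact (rel1 p hp hps q hq (fun h => hpq1 (hps.trans h.symm))).2 r1
        · have hqs : B.side q = B.side v := hbool _ _ _ (Ne.symm hpq1) (Ne.symm hps)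
          exact B.symm ((rel2 q hq hqs p hp hps).2 r2)
      obtain ⟨y, hyU, hyv, hyl⟩ := f2_parallel B.co (BG.co_sfree hS) U (BG.co_p7free hP) hco v hv S T
        hST hdis hSn hTn hno
      refine ⟨y, hyU, hyv.1, hyv.2, ?_⟩
      intro w hw hws hwv
      by_contra hyw
      exact hwv (hyl w hw ⟨fun h => hyv.1 (h.trans hws), hyw⟩)
    · -- comparable
      exfalso
      obtain ⟨_, ⟨w, hw, hw1, hw2⟩⟩ := hinc
      -- x' ~ w, x ≁ w
      have hws : B.side w ≠ B.side v := fun h => B.cross hw1 (hx's.trans h.symm)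
      have : w ∈ S ∪ T := by rw [hST]; exact ⟨hw, fun h => hws (by rw [h])⟩
      rcases this with h | h
      · exact r2 ((rel2 x' hx'T hx's w h hws).1 hw1)
      · exact hw2 ((rel1 x hx.1 hx.2 w h hws).2 r1)
  · by_cases r2 : B.adj b yS
    · exfalso
      obtain ⟨⟨w, hw, hw1, hw2⟩, _⟩ := hinc
      have hws : B.side w ≠ B.side v := fun h => B.cross hw1 (hx.2.trans h.symm)
      have : w ∈ S ∪ T := by rw [hST]; exact ⟨hw, fun h => hws (by rw [h])⟩
      rcases this with h | h
      · exact hw2 ((rel2 x' hx'T hx's w h hws).2 r2)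
      · exact r1 ((rel1 x hx.1 hx.2 w h hws).1 hw1)
    · left
      refine f2_parallel B hS U hP hns v hv S T hST hdis hSn hTn ?_
      intro p hp q hq hpq
      have hpq1 : B.side p ≠ B.side q := B.cross hpq
      by_cases hps : B.side p = B.side v
      · exact r1 ((rel1 p hp hps q hq (fun h => hpq1 (hps.trans h.symm))).1 hpq)
      · have hqs : B.side q = B.side v := hbool _ _ _ (Ne.symm hpq1) (Ne.symm hps)
        exact r2 ((rel2 q hq hqs p hp hps).1 (B.symm hpq))

end Pool.Agent.CWB
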