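import Pool.Agent.CWB.F2b

/-!
# F2: (P₇, S₁,₂,₃)-free bipartite graphs always have a split

Strong induction on `|U|`.  Let `U` be a counterexample, so (induction) `U \ {v}` has a split for all `v ∈ U`
(if `|U| = 2` then `{a}, {b}` is a split, so `|U| ≥ 3`).
(1) Both sides have at least two vertices: if a side is empty any partition is a split; if `X = {x}` then
    `{y}, U \ {y}` is a split for `y ∈ Y`.
(2) Choose (`cutConn_inc`, `exists_noncut`) `v ∈ X` with `inc` connected on `X \ {v}`.  By `leaf_or_coleaf` there is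
    a leaf or a co-leaf `y` at `v`.  Replacing `B` by `B.co` (`inc` does not change) we assume: `y` is a leaf.
(3) `inc` is NOT connected on `Y \ {y}`.  Otherwise `leaf_or_coleaf` at `y` gives `x`:
    * `x` a leaf at `y`: then `x = v`, `{v, y}` has no edge to the rest, which is a (parallel) split as `|U| ≥ 3`;
    * `x` a co-leaf at `y`: `N(x) = Y \ {y}`, `x ≠ v`.  For `x' ∈ X`, `x' ≠ v`: `N(x') ⊆ Y \ {y} = N(x)`, so `x'` is
      comparable to `x`.  As `inc` is connected on `X \ {v}`, `X \ {v} = {x}`.  Every `y* ∈ Y`, `y* ≠ y` is adjacent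
      to `x` and so not to `v` (else it is complete to `X`: a split).  So `N(v) = {y}` and `{v,y}`, rest is a split.
(4) So there are `D ∪ R = Y \ {y}`, disjoint, nonempty, without `inc`-edges between them.
    `v` has a neighbour `q ≠ y` (else `{v,y}` is a component); say `q ∈ D`.  As `inc` is connected on `Y`, some
    `q1 ∈ R` and some `q0 ∈ D` are `inc`-adjacent to `y`; a vertex that is `inc`-adjacent to `y` is not adjacent
    to `v` (because `N(y) = {v}`).  `D1 := {d ∈ D : d ~ v} ∋ q`; its `inc`-edges to `Y \ D1` must go to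
    `D \ D1` (not to `R`, not to `y`): there are `a ∈ D`, `a ~ v`, `b ∈ D`, `b ≁ v`, `inc a b`.
    `q1` is comparable to `a` and to `b`, `q1 ≁ v`, `a ~ v`: so `N(q1) ⊆ N(a)`; and `N(b) ⊆ N(q1)` would give `N(b) ⊆ N(a)`,
    so `N(q1) ⊆ N(b)`.  Take `x ∈ N(q1)` (not isolated) and `x' ∈ N(b) \ N(a)`.
    `S_{1,2,3}`: centre `x`; leaf `q1`; path `b x'`; path `a v y`.
-/

namespace Pool.Agent.CWB

variable {V : Type*}

theorem F2c_split_mk (B : BG V) (U S T : Set V) (h1 : S ∪ T = U) (h2 : Disjoint S T)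
    (h3 : S.Nonempty) (h4 : T.Nonempty) (r : Bool → Prop)
    (h : ∀ u ∈ S, ∀ w ∈ T, B.side u ≠ B.side w → (B.adj u w ↔ r (B.side u))) :
    Split B.adj B.side U := by
  refine ⟨S, T, h1, h2, h3, h4, ?_, ?_⟩
  · intro u hu u' hu' huu w hw
    by_cases hs : B.side u = B.side w
    · constructor
      · intro h'; exact absurd hs (B.cross h')
      · intro h'; exact absurd (huu.symm.trans hs) (B.cross h')
    · rw [h u hu w hw hs, h u' hu' w hw (by rwa [← huu]), huu]
  · intro w hw w' hw' hww u hu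
    by_cases hs : B.side u = B.side w
    · constructor
      · intro h'; exact absurd hs.symm (B.cross h')
      · intro h'; exact absurd (hww.symm.trans hs.symm) (B.cross h')
    · have e1 := h u hu w hw hs
      have e2 := h u hu w' hw' (by rwa [← hww])
      constructor
      · intro h'; exact B.symm (e2.2 (e1.1 (B.symm h')))
      · intro h'; exact B.symm (e1.2 (e2.1 (B.symm h')))

/-- no parallel split: every nonempty proper part has an edge to the rest -/
theorem F2c_par (B : BG V) (U : Set V) (hns : ¬ Split B.adj B.side U) (D : Set V) (hDU : D ⊆ U)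
    (hD : D.Nonempty) (hD' : (U \ D).Nonempty) : ∃ a ∈ D, ∃ b ∈ U \ D, B.adj a b := by
  by_contra hcon
  push Not at hcon
  apply hns
  refine F2c_split_mk B U D (U \ D) (Set.union_sdiff_cancel hDU) Set.disjoint_sdiff_right hD hD'
    (fun _ => False) ?_
  intro u hu w hw _
  exact ⟨fun h => hcon u hu w hw h, fun h => h.elim⟩

/-- no split: both sides have at least two vertices -/
theorem F2c_sd_nontrivial (B : BG V) (U : Set V) (hU : U.Nontrivial)
    (hns : ¬ Split B.adj B.side U) (s : Bool) : (B.sd U s).Nontrivial := by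
  by_contra hcon
  rw [Set.not_nontrivial_iff] at hcon
  obtain ⟨a, ha, b, hb, hab⟩ := hU
  have hy : ∃ y ∈ U, B.side y ≠ s := by
    by_contra h'
    push Not at h'
    exact hab (hcon ⟨ha, h' a ha⟩ ⟨hb, h' b hb⟩)
  obtain ⟨y, hy, hys⟩ := hy
  apply hns
  refine F2c_split_mk B U {y} (U \ {y}) (Set.union_sdiff_cancel (by simpa using hy))
    Set.disjoint_sdiff_right (Set.singleton_nonempty y) ?_
    (fun _ => ∃ w ∈ U, B.side w = s ∧ B.adj y w) ?_
  · by_cases h : y = a
    · exact ⟨b, hb, by simpa using fun h' : b = y => hab (h.symm.trans h'.symm)⟩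
    · exact ⟨a, ha, by simpa using fun h' : a = y => h h'.symm⟩
  · intro u hu w hw hs
    rw [Set.mem_singleton_iff] at hu
    subst hu
    have hws : B.side w = s := by
      revert hs hys
      cases B.side u <;> cases B.side w <;> cases s <;> simp
    constructor
    · intro h; exact ⟨w, hw.1, hws, h⟩
    · rintro ⟨w', hw', hws', h⟩
      have : w' = w := hcon ⟨hw', hws'⟩ ⟨hw.1, hws⟩
      rwa [this] at h

/-- no component of the form `{v, y}` -/
theorem F2c_no_pair (B : BG V) (U : Set V) (hns : ¬ Split B.adj B.side U) (v y z : V)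
    (hv : v ∈ U) (hy : y ∈ U) (hz : z ∈ U) (hzv : z ≠ v) (hzy : z ≠ y)
    (h1 : ∀ w ∈ U, B.adj v w → w = y) (h2 : ∀ w ∈ U, B.adj y w → w = v) : False := by
  obtain ⟨a, ha, b, hb, hab⟩ := F2c_par B U hns {v, y} (by
    intro t ht
    rcases ht with rfl | ht
    · exact hv
    · rw [Set.mem_singleton_iff] at ht; rw [ht]; exact hy) ⟨v, by simp⟩
    ⟨z, hz, by simp [hzv, hzy]⟩
  rcases ha with rfl | ha
  · exact hb.2 (by simp [h1 b hb.1 hab])
  · rw [Set.mem_singleton_iff] at ha
    subst ha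
    exact hb.2 (by simp [h2 b hb.1 hab])

theorem F2c_inc_symm (B : BG V) (U : Set V) {a b : V} (h : B.inc U a b) : B.inc U b a :=
  ⟨h.2, h.1⟩

/-- step (4) -/
theorem F2c_four (B : BG V) (hS : B.SFree) (U : Set V) (hns : ¬ Split B.adj B.side U) (v y : V)
    (hv : v ∈ U) (hleaf : B.Leaf U v y)
    (hY : CutConn (B.inc U) (B.sd U (B.side y))) (D R : Set V)
    (hD : D ⊆ B.sd U (B.side y) \ {y}) (hR : R ⊆ B.sd U (B.side y) \ {y})
    (hDR : ∀ x ∈ B.sd U (B.side y), x ≠ y → x ∈ D ∨ x ∈ R) (hRne : R.Nonempty)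
    (hno : ∀ a ∈ D, ∀ b ∈ R, ¬ B.inc U a b) (q : V) (hq : q ∈ D) (hqv : B.adj v q) : False := by
  obtain ⟨hyU, hyv, hyl⟩ := hleaf
  -- a vertex which is `inc`-adjacent to `y` is not adjacent to `v`
  have key : ∀ t, B.inc U t y → ¬ B.adj t v := by
    intro t ht
    obtain ⟨_, w, hw, hyw, htw⟩ := ht
    have := hyl w hw hyw
    rwa [this] at htw
  -- `q1`
  obtain ⟨q1, hq1, b1, hb1, hinc1⟩ := hY R (fun t ht => (hR ht).1) hRne
    ⟨y, ⟨hyU, rfl⟩, fun h => (hR h).2 rfl⟩
  have hq1v : ¬ B.adj q1 v := by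
    have : b1 = y := by
      by_contra hne
      rcases hDR b1 hb1.1 hne with h | h
      · exact hno b1 h q1 hq1 (F2c_inc_symm B U hinc1)
      · exact hb1.2 h
    rw [this] at hinc1
    exact key q1 hinc1
  -- `a`, `b`
  obtain ⟨a, ha, b, hb, hinc⟩ := hY {d | d ∈ D ∧ B.adj d v} (fun t ht => (hD ht.1).1)
    ⟨q, hq, B.symm hqv⟩ ⟨y, ⟨hyU, rfl⟩, fun h => (hD h.1).2 rfl⟩
  have hav : B.adj a v := ha.2
  have hby : b ≠ y := by
    intro h
    rw [h] at hinc
    exact key a hinc hav
  have hbD : b ∈ D := by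
    rcases hDR b hb.1 hby with h | h
    · exact h
    · exact absurd hinc (hno a ha.1 b h)
  have hbv : ¬ B.adj b v := fun h => hb.2 ⟨hbD, h⟩
  have hsub : ∀ w ∈ U, B.adj q1 w → B.adj a w := by
    intro w hw hw1
    by_contra hcon
    exact hno a ha.1 q1 hq1 ⟨⟨v, hv, hav, hq1v⟩, ⟨w, hw, hw1, hcon⟩⟩
  obtain ⟨x', hx', hbx', hax'⟩ := hinc.2
  have hsub2 : ∀ w ∈ U, B.adj q1 w → B.adj b w := by
    intro w hw hw1
    by_contra hcon
    apply hno b hbD q1 hq1
    refine ⟨⟨x', hx', hbx', ?_⟩, ⟨w, hw, hw1, hcon⟩⟩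
    intro h
    exact hax' (hsub x' hx' h)
  -- `x`
  obtain ⟨c, hc, x, hx, hcx⟩ := F2c_par B U hns {q1} (by simpa using (hR hq1).1.1) ⟨q1, rfl⟩
    ⟨y, hyU, by
      intro h
      rw [Set.mem_singleton_iff] at h
      exact (hR hq1).2 h.symm⟩
  rw [Set.mem_singleton_iff] at hc
  subst hc
  refine hS x c b x' a v y (B.symm hcx) (B.symm (hsub2 x hx.1 hcx)) hbx'
    (B.symm (hsub x hx.1 hcx)) hav (B.symm hyv) ?_ ?_ ?_ ?_ ?_ ?_
  · intro h; exact hax' (hsub x' hx' (B.symm h))
  · intro h; exact hax' (B.symm h)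
  · intro h
    have := hyl x' hx' (B.symm h)
    rw [this] at hbx'
    exact hbv hbx'
  · intro h; exact hq1v (B.symm h)
  · intro h; exact hbv (B.symm h)
  · intro h
    have := hyl x hx.1 (B.symm h)
    rw [this] at hcx
    exact hq1v hcx

/-- the case of a leaf -/
theorem F2c_core (B : BG V) (hS : B.SFree) (U : Set V) (hfin : U.Finite) (hU : U.Nontrivial)
    (hP : B.P7Free U) (hns : ¬ Split B.adj B.side U)
    (hIH : ∀ v ∈ U, Split B.adj B.side (U \ {v})) (v y : V) (hv : v ∈ U)
    (hconn : CutConn (B.inc U) (B.sd U (B.side v) \ {v})) (hleaf : B.Leaf U v y) : False := by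
  have hleaf' := hleaf
  obtain ⟨hyU, hyv, hyl⟩ := hleaf
  have hvy : v ≠ y := by
    intro h
    rw [h] at hyv
    exact B.cross hyv rfl
  -- a third vertex
  obtain ⟨z, hz, hzv⟩ := (F2c_sd_nontrivial B U hU hns (B.side v)).exists_ne v
  have hzy : z ≠ y := by
    intro h
    rw [h] at hz
    exact B.cross hyv hz.2
  have hY := cutConn_inc B U hfin hns (B.side y)
  -- (3)
  have h3 : ¬ CutConn (B.inc U) (B.sd U (B.side y) \ {y}) := by
    intro hcy
    rcases leaf_or_coleaf B hS U hP hns y hyU hcy (hIH y hyU) with ⟨x, hx⟩ | ⟨x, hx⟩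
    · obtain ⟨hxU, hxy, hxl⟩ := hx
      have hxv : x = v := hyl x hxU (B.symm hxy)
      rw [hxv] at hxl
      exact F2c_no_pair B U hns v y z hv hyU hz.1 hzv hzy hxl hyl
    · obtain ⟨hxU, hxs, hxy, hxl⟩ := hx
      have hxv : x ≠ v := by
        intro h
        rw [h] at hxy
        exact hxy (B.symm hyv)
      have hxsv : B.side x = B.side v := by
        have := B.cross hyv
        revert this hxs
        cases B.side x <;> cases B.side y <;> cases B.side v <;> simp
      -- `X \ {v} = {x}`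
      have honly : ∀ t ∈ B.sd U (B.side v), t ≠ v → t = x := by
        intro t ht htv
        by_contra htx
        obtain ⟨a, ha, b, hb, hinc⟩ := hconn {x} (by
          intro w hw
          rw [Set.mem_singleton_iff] at hw
          rw [hw]
          exact ⟨⟨hxU, hxsv⟩, hxv⟩) ⟨x, rfl⟩ ⟨t, ⟨ht, htv⟩, htx⟩
        rw [Set.mem_singleton_iff] at ha
        rw [ha] at hinc
        obtain ⟨_, w, hw, hbw, hxw⟩ := hinc
        have hbs := hb.1.1.2
        have hwy : w ≠ y := by
          intro h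
          rw [h] at hbw
          exact hb.1.2 (hyl b hb.1.1.1 (B.symm hbw))
        apply hxw
        refine hxl w hw ?_ hwy
        have h1 := B.cross hbw
        have h2 := B.cross hyv
        rw [hbs] at h1
        revert h1 h2
        cases B.side w <;> cases B.side y <;> cases B.side v <;> simp
      -- `N(v) = {y}`
      refine F2c_no_pair B U hns v y z hv hyU hz.1 hzv hzy ?_ hyl
      intro w hw hvw
      by_contra hwy
      have hwsy : B.side w = B.side y := by
        have h1 := B.cross hvw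
        have h2 := B.cross hyv
        revert h1 h2
        cases B.side w <;> cases B.side y <;> cases B.side v <;> simp
      apply hns
      refine F2c_split_mk B U {w} (U \ {w}) (Set.union_sdiff_cancel (by simpa using hw))
        Set.disjoint_sdiff_right (Set.singleton_nonempty w)
        ⟨y, hyU, fun h => hwy (Set.mem_singleton_iff.1 h).symm⟩ (fun _ => True) ?_
      intro u hu t ht hut
      rw [Set.mem_singleton_iff] at hu
      rw [hu] at hut ⊢
      refine ⟨fun _ => trivial, fun _ => ?_⟩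
      by_cases htv : t = v
      · rw [htv]; exact B.symm hvw
      · have hts : B.side t = B.side v := by
          have h2 := B.cross hyv
          revert h2 hut hwsy
          cases B.side w <;> cases B.side y <;> cases B.side v <;> cases B.side t <;> simp
        rw [honly t ⟨ht.1, hts⟩ htv]
        exact B.symm (hxl w hw hwsy hwy)
  -- (4)
  unfold CutConn at h3
  push Not at h3
  obtain ⟨D, hD, hDne, hRne, hno⟩ := h3
  -- a neighbour `q ≠ y` of `v`
  have hq : ∃ q ∈ U, B.adj v q ∧ q ≠ y := by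
    by_contra hcon
    push Not at hcon
    exact F2c_no_pair B U hns v y z hv hyU hz.1 hzv hzy hcon hyl
  obtain ⟨q, hqU, hvq, hqy⟩ := hq
  have hqs : q ∈ B.sd U (B.side y) := by
    refine ⟨hqU, ?_⟩
    have h1 := B.cross hvq
    have h2 := B.cross hyv
    revert h1 h2
    cases B.side q <;> cases B.side y <;> cases B.side v <;> simp
  by_cases hqD : q ∈ D
  · exact F2c_four B hS U hns v y hv hleaf' hY D ((B.sd U (B.side y) \ {y}) \ D) hD
      Set.sdiff_subset (fun x hx hxy => by
        by_cases h : x ∈ D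
        · exact Or.inl h
        · exact Or.inr ⟨⟨hx, hxy⟩, h⟩) hRne hno q hqD hvq
  · exact F2c_four B hS U hns v y hv hleaf' hY ((B.sd U (B.side y) \ {y}) \ D) D
      Set.sdiff_subset hD (fun x hx hxy => by
        by_cases h : x ∈ D
        · exact Or.inr h
        · exact Or.inl ⟨⟨hx, hxy⟩, h⟩) hDne
      (fun a ha b hb h => hno b hb a ha (F2c_inc_symm B U h)) q ⟨⟨hqs, hqy⟩, hqD⟩ hvq

theorem F2c_co_inc (B : BG V) (U : Set V) {a b : V} (hs : B.side a = B.side b)
    (h : B.inc U a b) : B.co.inc U a b := by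
  obtain ⟨⟨w, hw, haw, hbw⟩, ⟨w', hw', hbw', haw'⟩⟩ := h
  refine ⟨⟨w', hw', ⟨?_, haw'⟩, ?_⟩, ⟨w, hw, ⟨?_, hbw⟩, ?_⟩⟩
  · rw [hs]; exact B.cross hbw'
  · intro h; exact h.2 hbw'
  · rw [← hs]; exact B.cross haw
  · intro h; exact h.2 haw

theorem F2c_main (B : BG V) (hS : B.SFree) (U : Set V) (hfin : U.Finite)
    (hU : U.Nontrivial) (hP : B.P7Free U) (hns : ¬ Split B.adj B.side U)
    (hIH : ∀ v ∈ U, Split B.adj B.side (U \ {v})) : False := by
  have hX := F2c_sd_nontrivial B U hU hns true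
  obtain ⟨v, hv, hconn⟩ := exists_noncut (B.inc U) (fun a b h => F2c_inc_symm B U h)
    (B.sd U true) (hfin.subset fun t ht => ht.1) hX (cutConn_inc B U hfin hns true)
  have hvs : B.side v = true := hv.2
  rw [← hvs] at hconn
  rcases leaf_or_coleaf B hS U hP hns v hv.1 hconn (hIH v hv.1) with ⟨y, hy⟩ | ⟨y, hy⟩
  · exact F2c_core B hS U hfin hU hP hns hIH v y hv.1 hconn hy
  · refine F2c_core B.co (BG.co_sfree hS) U hfin hU (BG.co_p7free hP)
      (fun h => hns ((BG.co_split_iff B U).1 h))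
      (fun w hw => (BG.co_split_iff B (U \ {w})).2 (hIH w hw)) v y hv.1 ?_ ?_
    · intro D hD hDne hDne'
      obtain ⟨a, ha, b, hb, hab⟩ := hconn D hD hDne hDne'
      refine ⟨a, ha, b, hb, F2c_co_inc B U ?_ hab⟩
      exact (hD ha).1.2.trans hb.1.1.2.symm
    · obtain ⟨hyU, hys, hyv, hyl⟩ := hy
      refine ⟨hyU, ⟨hys, hyv⟩, ?_⟩
      intro w hw hyw
      by_contra hne
      refine hyw.2 (hyl w hw ?_ hne)
      have h1 := hyw.1
      revert h1 hys
      cases B.side w <;> cases B.side y <;> cases B.side v <;> simp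

theorem split_of_p7free (B : BG V) (hS : B.SFree) (U : Set V) (hfin : U.Finite)
    (hU : U.Nontrivial) (hP : B.P7Free U) : Split B.adj B.side U := by
  obtain ⟨n, hn⟩ : ∃ n, U.ncard ≤ n := ⟨_, le_rfl⟩
  induction n generalizing U with
  | zero =>
    exfalso
    have := hU.nonempty
    rw [← Set.ncard_pos hfin] at this
    omega
  | succ n ih =>
    by_contra hns
    refine F2c_main B hS U hfin hU hP hns ?_
    intro v hv
    have hnt : (U \ {v}).Nontrivial := by
      by_contra hcon
      rw [Set.not_nontrivial_iff] at hcon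
      obtain ⟨w, hw, hwv⟩ := hU.exists_ne v
      apply hns
      refine F2c_split_mk B U {v} (U \ {v}) (Set.union_sdiff_cancel (by simpa using hv))
        Set.disjoint_sdiff_right (Set.singleton_nonempty v) ⟨w, hw, hwv⟩
        (fun _ => B.adj v w) ?_
      intro u hu t ht _
      rw [Set.mem_singleton_iff] at hu
      rw [hu, hcon ht ⟨hw, hwv⟩]
    refine ih (U \ {v}) (hfin.subset Set.sdiff_subset) hnt
      (fun p0 h0 p1 h1 p2 h2 p3 h3 p4 h4 p5 h5 p6 h6 =>
        hP p0 h0.1 p1 h1.1 p2 h2.1 p3 h3.1 p4 h4.1 p5 h5.1 p6 h6.1) ?_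
    have := Set.ncard_sdiff_singleton_lt_of_mem hv hfin
    omega

end Pool.Agent.CWB
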