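import Pool.Agent.CWB.BGBasic

/-!
# LM1: local facts about a bimodule `P` and the KS closure

All vertices named `x0 y0 x z w y y'` are `V0`, all vertices named `x1 y1 a b d` are `V1`.
`q, pa, pb ∈ P` denote vertices of `P` (given by `nontriv`).  Certificates are written
centre; leaf; path of length 2; path of length 3.

`fF2`: if `x1 ≁ y'`: take `q, pa, pb ∈ P` with `q` on the side of `x0` (`nontriv`), `q ~ pa`, `q ≁ pb`:
   centre `x1`; leaf `pb`; path `pa q`; path `y x0 y'`.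
`fF3`: if `x1 ≁ y0`: take `q ∈ P` on the side of `y1`, `q ~ pa`, `q ≁ pb`:
   centre `y1`; leaf `pb`; path `x0 y0`; path `pa q x1`.
`fC1`: take `q ∈ P` on the side opposite to `a, b`, `q ~ pa`:
   centre `q`; leaf `pa`; path `b w`; path `a y x`.
`fC2`: `q ∈ P` on the side opposite to `a`: centre `a`; leaf `q`; path `y x`; path `d z w`.
`ks`: suppose `U` has no split, fix a side `s`.  Put
   `S2 := {x : V1, side s, ¬ Ra x} ∪ {y : V0, side ≠ s, ¬ Rb y}`, `S1 := U \ S2 ⊇ P`.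
   Claim: `S2 ∩ (side s)` is complete to `S1 ∩ (side ≠ s)`, and `S2 ∩ (side ≠ s)` is anticomplete to
   `S1 ∩ (side s)`; so this is a split unless `S2 = ∅`.
   * `x` (V1, ¬Ra) against `y ∈ S1`: `y ∈ P` ok; `y` V1 ok (`x` is not Kbig); `y` V0 with `Rb y`:
     (i) `y` Lbig: ok, as `¬Ra x` (2nd clause);  (ii) `y ~ x'`, `x'` Kbig: ok (3rd clause);
     (iii) `y ~ x'`, `x' ≁ y'`, `y'` Lbig (`y' ~ x0`), `y` not Lbig: `x ~ y'` (2nd clause); if `x ≁ y` then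
     `fC1` with `a = x, y = y', b = x', w = y, x = x0`.
   * `y` (V0, ¬Rb) against `x ∈ S1`: `x ∈ P`, `x` V0: ok; `x` V1 with `Ra x`: (i) Kbig: ok; (ii) ok;
     (iii) `x ≁ y''`, `y'' ~ x'`, `x'` Kbig (`x' ≁ y1`, `y1` V1), `x` not Kbig: if `y ~ x` then `y ≁ x'`
     (2nd clause of Rb for `y`), and `fC1` for `B.co` (V0 and V1 are exchanged, `mctx_co`) with
     (a := y, b := y'', y := x', w := x, x := y1) is a contradiction; it needs in terms of `B`: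
     `y ≁ x'`, `y'' ≁ x`, `y ~ x`, `y'' ~ x'`, `y1 ≁ x'`, `y1 ~ x` (as `x` is not Kbig).
-/

namespace Pool.Agent.CWB

variable {V : Type*} {B : BG V} {U P : Set V}

namespace LM1

theorem mctx_co (M : B.MCtx U P) : B.co.MCtx U P := by
  refine ⟨BG.co_sfree M.sfree, M.fin, M.sub, M.ne, ?_, ?_⟩
  · intro w hw hwP a ha b hb hsa hsb
    have h := M.hom w hw hwP a ha b hb hsa hsb
    constructor
    · rintro ⟨_, h2⟩
      exact ⟨fun h' => hsb h'.symm, fun h' => h2 (h.2 h')⟩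
    · rintro ⟨_, h2⟩
      exact ⟨fun h' => hsa h'.symm, fun h' => h2 (h.1 h')⟩
  · intro s
    obtain ⟨q, hq, a, ha, b, hb, h1, h2, h3, h4, h5⟩ := M.nontriv s
    refine ⟨q, hq, b, hb, a, ha, h1, h3, h2, ⟨?_, h5⟩, fun h => h.2 h4⟩
    intro h
    exact h3 (h.symm.trans h1)

theorem v0_co (w : V) : B.co.V0 U P w ↔ B.V1 U P w := by
  constructor
  · rintro ⟨h1, h2, h3⟩
    refine ⟨h1, h2, fun a ha hs => ?_⟩
    by_contra hn
    exact h3 a ha ⟨fun h => hs h.symm, hn⟩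
  · rintro ⟨h1, h2, h3⟩
    exact ⟨h1, h2, fun a ha h => h.2 (h3 a ha fun h' => h.1 h'.symm)⟩

theorem v1_co (w : V) : B.co.V1 U P w ↔ B.V0 U P w := by
  constructor
  · rintro ⟨h1, h2, h3⟩
    refine ⟨h1, h2, fun a ha h => ?_⟩
    exact (h3 a ha (fun h' => B.cross h h'.symm)).2 h
  · rintro ⟨h1, h2, h3⟩
    exact ⟨h1, h2, fun a ha hs => ⟨fun h => hs h.symm, h3 a ha⟩⟩

theorem v0_or_v1 (M : B.MCtx U P) (w : V) (hw : w ∈ U) (hwP : w ∉ P) :
    B.V0 U P w ∨ B.V1 U P w := by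
  by_cases h : ∃ a ∈ P, B.adj w a
  · obtain ⟨a, ha, hwa⟩ := h
    right
    refine ⟨hw, hwP, fun b hb hs => ?_⟩
    exact (M.hom w hw hwP a ha b hb (fun h' => B.cross hwa h'.symm) hs).1 hwa
  · left
    exact ⟨hw, hwP, fun a ha hwa => h ⟨a, ha, hwa⟩⟩

private theorem bool_eq {a b c : Bool} (h1 : a ≠ c) (h2 : b ≠ c) : a = b := by
  revert h1 h2
  cases a <;> cases b <;> cases c <;> simp

theorem fF2 (M : B.MCtx U P) {x0 y y' x1 : V} (hx0 : B.V0 U P x0) (hy : B.V0 U P y)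
    (hy' : B.V0 U P y') (hx1 : B.V1 U P x1) (h1 : B.adj x0 y) (h2 : B.adj x0 y')
    (h3 : B.adj x1 y) : B.adj x1 y' := by
  by_contra hn
  obtain ⟨q, hq, pa, hpa, pb, hpb, hs, hsa, hsb, hqa, hqb⟩ := M.nontriv (B.side x0)
  have hs1 : B.side x1 = B.side x0 := bool_eq (B.cross h3) (B.cross h1)
  refine M.sfree x1 pb pa q y x0 y' (hx1.2.2 pb hpb (by rw [hs1]; exact hsb))
    (hx1.2.2 pa hpa (by rw [hs1]; exact hsa)) (B.symm hqa) h3 (B.symm h1) h2 hqb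
    (fun h => hy.2.2 q hq (B.symm h)) (fun h => hy'.2.2 q hq (B.symm h))
    (hx0.2.2 pb hpb) (hx0.2.2 pa hpa) hn

theorem fF3 (M : B.MCtx U P) {x0 y0 y1 x1 : V} (hx0 : B.V0 U P x0) (hy0 : B.V0 U P y0)
    (hy1 : B.V1 U P y1) (hx1 : B.V1 U P x1) (h1 : B.adj x0 y0) (h2 : B.adj x0 y1)
    (hs : B.side x1 ≠ B.side y1) (h3 : ¬ B.adj x1 y1) : B.adj x1 y0 := by
  by_contra hn
  obtain ⟨q, hq, pa, hpa, pb, hpb, hsq, hsa, hsb, hqa, hqb⟩ := M.nontriv (B.side y1)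
  refine M.sfree y1 pb x0 y0 pa q x1 (hy1.2.2 pb hpb hsb) (B.symm h2) h1
    (hy1.2.2 pa hpa hsa) (B.symm hqa)
    (B.symm (hx1.2.2 q hq (fun h => hs (h.symm.trans hsq)))) (hy0.2.2 pb hpb)
    (hy0.2.2 pa hpa) (fun h => hn (B.symm h)) hqb (fun h => hx0.2.2 q hq (B.symm h))
    (fun h => h3 (B.symm h))

theorem fC1 (M : B.MCtx U P) {a b y w x : V} (ha : B.V1 U P a) (hb : B.V1 U P b)
    (hs : B.side a = B.side b) (hy : B.V0 U P y) (hw : B.V0 U P w) (hx : B.V0 U P x)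
    (h1 : B.adj a y) (h2 : B.adj b w) (h3 : ¬ B.adj a w) (h4 : ¬ B.adj b y)
    (h5 : B.adj x y) (h6 : ¬ B.adj x w) : False := by
  obtain ⟨q, hq, pa, hpa, pb, hpb, hsq, hsa, hsb, hqa, hqb⟩ := M.nontriv (!B.side a)
  have hqs : B.side q ≠ B.side a := by
    rw [hsq]
    simp
  refine M.sfree q pa b w a y x hqa (B.symm (hb.2.2 q hq (by rw [← hs]; exact hqs))) h2
    (B.symm (ha.2.2 q hq hqs)) h1 (B.symm h5) (hw.2.2 pa hpa) (fun h => h3 (B.symm h))
    (fun h => h6 (B.symm h)) (hy.2.2 pa hpa) (fun h => h4 (B.symm h))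
    (fun h => hx.2.2 q hq (B.symm h))

theorem fC2 (M : B.MCtx U P) {a d x y z w : V} (ha : B.V1 U P a) (hd : B.V1 U P d)
    (had : B.adj a d) (hx : B.V0 U P x) (hy : B.V0 U P y) (hz : B.V0 U P z) (hw : B.V0 U P w)
    (h1 : B.adj x y) (h2 : B.adj z w) (h3 : ¬ B.adj x w) (h4 : ¬ B.adj z y)
    (h5 : B.adj a y) (h6 : ¬ B.adj a w) (h7 : B.adj d z) (h8 : ¬ B.adj d x) : False := by
  obtain ⟨q, hq, pa, hpa, pb, hpb, hsq, hsa, hsb, hqa, hqb⟩ := M.nontriv (!B.side a)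
  have hqs : B.side q ≠ B.side a := by
    rw [hsq]
    simp
  exact M.sfree a q y x d z w (ha.2.2 q hq hqs) h5 (B.symm h1) had h7 h2 (hx.2.2 q hq)
    (fun h => h8 (B.symm h)) h3 (hz.2.2 q hq) h4 h6

private theorem ks_key (M : B.MCtx U P) (s : Bool) {u w : V}
    (hu : (B.V1 U P u ∧ B.side u = s ∧ ¬ B.Ra U P u) ∨
      (B.V0 U P u ∧ B.side u ≠ s ∧ ¬ B.Rb U P u))
    (hw : w ∈ U)
    (hw' : ¬ ((B.V1 U P w ∧ B.side w = s ∧ ¬ B.Ra U P w) ∨
      (B.V0 U P w ∧ B.side w ≠ s ∧ ¬ B.Rb U P w))) :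
    B.adj u w ↔ (B.side u = s ∧ B.side w ≠ s) := by
  constructor
  · intro huw
    by_cases hus : B.side u = s
    · exact ⟨hus, fun h => B.cross huw (hus.trans h.symm)⟩
    · exfalso
      rcases hu with ⟨_, h, _⟩ | ⟨hu0, _, hRb⟩
      · exact hus h
      have hws : B.side w = s := by
        have h1 : B.side w ≠ B.side u := fun h => B.cross huw h.symm
        exact bool_eq h1 (fun h => hus h.symm)
      by_cases hwP : w ∈ P
      · exact hu0.2.2 w hwP huw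
      rcases v0_or_v1 M w hw hwP with hw0 | hw1
      · exact hRb (Or.inl ⟨hu0, w, hw0, B.symm huw⟩)
      · have hRa : B.Ra U P w := by
          by_contra hn
          exact hw' (Or.inl ⟨hw1, hws, hn⟩)
        by_cases hK : B.Kbig U P w
        · exact hRb (Or.inr (Or.inl ⟨w, hK, huw⟩))
        rcases hRa with h | ⟨y', hy', hsy, hwy⟩ | ⟨y, x', hy0, hsy, hwy, hx', hyx⟩
        · exact hK h
        · refine hRb (Or.inr (Or.inr ⟨w, y', hw1, huw, hy', ?_, hwy⟩))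
          exact bool_eq hsy (B.cross huw)
        · obtain ⟨hx1, y1, hy1, hsy1, hxy1⟩ := hx'
          have hux : ¬ B.adj u x' := fun h => hRb (Or.inr (Or.inl ⟨x', ⟨hx1, y1, hy1, hsy1, hxy1⟩, h⟩))
          have hsuy : B.side u = B.side y := bool_eq (B.cross huw) hsy
          refine fC1 (mctx_co M) (a := u) (b := y) (y := x') (w := w) (x := y1)
            ((v1_co u).2 hu0) ((v1_co y).2 hy0) hsuy ((v0_co x').2 hx1) ((v0_co w).2 hw1)
            ((v0_co y1).2 hy1) ⟨?_, hux⟩ ⟨hsy, fun h => hwy (B.symm h)⟩ (fun h => h.2 huw)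
            (fun h => h.2 hyx) ⟨hsy1, fun h => hxy1 (B.symm h)⟩ ?_
          · rw [hsuy]
            exact B.cross hyx
          · intro h
            exact hK ⟨hw1, y1, hy1, h.1, fun h' => h.2 (B.symm h')⟩
  · rintro ⟨hus, hws⟩
    have hwu : B.side w ≠ B.side u := by
      rw [hus]
      exact hws
    rcases hu with ⟨hu1, _, hRa⟩ | ⟨_, h, _⟩
    swap
    · exact absurd hus h
    by_cases hwP : w ∈ P
    · exact hu1.2.2 w hwP hwu
    by_contra hn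
    rcases v0_or_v1 M w hw hwP with hw0 | hw1
    · have hRb : B.Rb U P w := by
        by_contra h
        exact hw' (Or.inr ⟨hw0, hws, h⟩)
      by_cases hL : B.Lbig U P w
      · exact hRa (Or.inr (Or.inl ⟨w, hL, hwu, hn⟩))
      rcases hRb with h | ⟨x', hx', hwx⟩ | ⟨x', y', hx1, hwx, hy', hsy, hxy⟩
      · exact hL h
      · exact hRa (Or.inr (Or.inr ⟨w, x', hw0, hwu, hn, hx', hwx⟩))
      · have huy : B.adj u y' := by
          by_contra h
          exact hRa (Or.inr (Or.inl ⟨y', hy', by rw [hsy]; exact hwu, h⟩))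
        obtain ⟨hy0, x0, hx0, hxy0⟩ := hy'
        refine fC1 M (a := u) (b := x') (y := y') (w := w) (x := x0) hu1 hx1 ?_ hy0 hw0 hx0
          huy (B.symm hwx) hn hxy hxy0 (fun h => hL ⟨hw0, x0, hx0, h⟩)
        exact bool_eq (fun h => hwu h.symm) (fun h => B.cross hwx h.symm)
    · exact hRa (Or.inl ⟨hu1, w, hw1, hwu, hn⟩)

private theorem ks_split (M : B.MCtx U P) (s : Bool) {v : V}
    (hv : (B.V1 U P v ∧ B.side v = s ∧ ¬ B.Ra U P v) ∨
      (B.V0 U P v ∧ B.side v ≠ s ∧ ¬ B.Rb U P v)) : Split B.adj B.side U := by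
  have hU : ∀ u, ((B.V1 U P u ∧ B.side u = s ∧ ¬ B.Ra U P u) ∨
      (B.V0 U P u ∧ B.side u ≠ s ∧ ¬ B.Rb U P u)) → u ∈ U := by
    rintro u (⟨h, _⟩ | ⟨h, _⟩)
    · exact h.1
    · exact h.1
  refine ⟨{u | (B.V1 U P u ∧ B.side u = s ∧ ¬ B.Ra U P u) ∨
      (B.V0 U P u ∧ B.side u ≠ s ∧ ¬ B.Rb U P u)},
    {w | w ∈ U ∧ ¬ ((B.V1 U P w ∧ B.side w = s ∧ ¬ B.Ra U P w) ∨
      (B.V0 U P w ∧ B.side w ≠ s ∧ ¬ B.Rb U P w))}, ?_, ?_, ⟨v, hv⟩, ?_, ?_, ?_⟩
  · ext u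
    constructor
    · rintro (h | h)
      · exact hU u h
      · exact h.1
    · intro h
      by_cases hc : (B.V1 U P u ∧ B.side u = s ∧ ¬ B.Ra U P u) ∨
        (B.V0 U P u ∧ B.side u ≠ s ∧ ¬ B.Rb U P u)
      · exact Or.inl hc
      · exact Or.inr ⟨h, hc⟩
  · rw [Set.disjoint_left]
    intro u h1 h2
    exact h2.2 h1
  · obtain ⟨q, hq, _⟩ := M.nontriv s
    refine ⟨q, M.sub hq, ?_⟩
    rintro (⟨h, _⟩ | ⟨h, _⟩)
    · exact h.2.1 hq
    · exact h.2.1 hq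
  · intro u hu u' hu' hc w hw
    rw [ks_key M s hu hw.1 hw.2, ks_key M s hu' hw.1 hw.2, hc]
  · intro w hw w' hw' hc u hu
    have h1 := ks_key M s hu hw.1 hw.2
    have h2 := ks_key M s hu hw'.1 hw'.2
    constructor
    · intro h
      exact B.symm (h2.2 (by rw [← hc]; exact h1.1 (B.symm h)))
    · intro h
      exact B.symm (h1.2 (by rw [hc]; exact h2.1 (B.symm h)))

theorem ks (M : B.MCtx U P) (hns : ¬ Split B.adj B.side U) :
    (∀ x, B.V1 U P x → B.Ra U P x) ∧ (∀ y, B.V0 U P y → B.Rb U P y) := by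
  constructor
  · intro x hx
    by_contra hn
    exact hns (ks_split M (B.side x) (Or.inl ⟨hx, rfl, hn⟩))
  · intro y hy
    by_contra hn
    exact hns (ks_split M (!B.side y) (v := y) (Or.inr ⟨hy, by simp, hn⟩))

end LM1

end Pool.Agent.CWB
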