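import Pool.Agent.CWB.LM1

/-!
# LM2: Lemma M: a proper bimodule `P` as in `MCtx` forces a split

Suppose `U` has no split.  An L-edge is a pair `(x,y)` of adjacent V0 vertices; a K-nonedge is a pair
`(k,l)` of non-adjacent V1 vertices on different sides.
For an L-edge `ℓ = (x,y)`: `N(ℓ) := {u V1 : u ~ x or u ~ y}`
(a V1 vertex is on the side of `x` or of `y`, so exactly one of the two adjacencies is possible).
For a K-nonedge `κ = (k,l)`: `M(κ) := {w V0 : w ~ k or w ~ l}`.

(NEST) If `ℓ1 = (x,y)` is an L-edge with `|N(ℓ1)|` minimal, then `N(ℓ1) ⊆ N(ℓ)` for all L-edges `ℓ`.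
  (orient `ℓ = (z,w)` so that `side z = side x`).  Otherwise there are `u ∈ N(ℓ1) \ N(ℓ)`, `u' ∈ N(ℓ) \ N(ℓ1)`.
  If `x ~ w` then by `fF2` (common neighbour `x` of `y,w`; common neighbour `w` of `x,z`) `N(ℓ1) = N(ℓ)`; so `x ≁ w`,
  and `z ≁ y` in the same way.
  * `u,u'` on the side of `x` (`u ~ y`, `u ≁ w`, `u' ~ w`, `u' ≁ y`): `fC1` (a = u, b = u').
  * `u,u'` on the side of `y`: `fC1` with the roles of `x,y` (and `z,w`) exchanged.
  * `u` on the side of `x`, `u'` on the side of `y`: (`u ~ y`, `u ≁ w`, `u' ~ z`, `u' ≁ x`): if `u ~ u'`: `fC2` (a = u, d = u');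
    if `u ≁ u'`: `fF3` (x0 := y, y0 := x, y1 := u, x1 := u') gives `u' ~ x`, contradiction.
  * `u` on the side of `y`, `u'` on the side of `x`: (`u ~ x`, `u ≁ z`, `u' ~ w`, `u' ≁ y`): if `u' ~ u`: `fC2` with
    (a,d,x,y,z,w) := (u',u,z,w,x,y); if `u' ≁ u`: `fF3` (x0 := x, y0 := y, y1 := u, x1 := u') gives `u' ~ y`.
(PAR) `N(ℓ) ≠ ∅` for every L-edge `ℓ = (x,y)`: otherwise let
  `S := {w V0 : w has no V1-neighbour, and no V0-neighbour of w has a V1-neighbour}`.  `x ∈ S` (a V0-neighbour `u` of `x`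
  has, by `fF2` with the common neighbour `x` of `u` and `y`, the same V1-neighbours as `y`, i.e. none).
  `S` has no edge to `U \ S` (if `w ∈ S`, `u` a neighbour, then `u` is V0; a V0-neighbour `w'` of `u` has the same
  V1-neighbours as `w` by `fF2`), so `S, U \ S` is a parallel split.
(KEY) if `ℓ1` is minimal as in NEST then there is a K-nonedge `(k,l)` with (k on the side of x) `k ~ y`
  (and then `l ~ x` by `fF3`), i.e. `y ∈ M(κ)` and `x ∈ M(κ)`.
  Take `A ∈ N(ℓ1)`.  Say `A` is on the side of `x`, so `A ~ y` (the other case is symmetric).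
  - `A` Kbig (`A ≁ l`): done.
  - otherwise by `ks`: `Ra A`, clause 2 or 3.  Clause 2: `A ≁ y'`, `y'` Lbig: an L-edge `(x',y')` with
    `A ∉ N` but `A ∈ N(ℓ1) ⊆ N`: contradiction.  Clause 3: `A ≁ t`, `t` V0, `t ~ k`, `k` Kbig (`k ≁ l`).  If `y ~ k`: done.
    Otherwise `x ≁ t` (if `x ~ t`, `(x,t)` is an L-edge and `A ∈ N((x,t))`, i.e. `A ~ t`), and
    `fC1` (a := A, b := k, y := y, w := t, x := x) is a contradiction.
(MAX) Let there be an L-edge; `ℓ1` minimal, and `κ1 = (k1,l1)` a K-nonedge with `|M(κ1)|` maximal.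
  NEST for `B.co` gives `M(κ) ⊆ M(κ1)` for all K-nonedges `κ`
  (the L-edges of `B.co` are the K-nonedges of `B`, `N_{co}(κ) =` complement of `M(κ)` in V0).
  By KEY there is `κ` with `x, y ∈ M(κ) ⊆ M(κ1)`.  So `k1, l1 ∈ N(ℓ1) ⊆ N(ℓ)` for every L-edge `ℓ`:
  (*) every L-edge is complete to `κ1` in the sense that both `k1` and `l1` are adjacent to its vertex on
  the other side.
(SER) PAR for `B.co`: there is a V0 vertex `b ∉ M(κ1)`.  Say `b` is on the side of `l1`, `b ≁ k1`.
  By `ks`: `Rb b`.  Clause 1 (`b` Lbig): contradicts (*).  Clause 2: `b ~ k`, `k` Kbig with `k ≁ l`: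
  `b ∈ M((k,l)) ⊆ M(κ1)`, contradiction.  Clause 3: `b ~ a`, `a` V1, `a ≁ y'`, `y'` Lbig (`y' ~ x'`), `b` not Lbig:
  `k1 ~ y'` by (*), and `fC1` with (a := k1, y := y', b := a, w := b, x := x') is a contradiction.
So: an L-edge implies a split.  By `B.co`: a K-nonedge implies a split.  If there is neither, then
nothing is Lbig or Kbig, so `Ra`, `Rb` are false, so by `ks` there is no V0 and no V1 vertex and `P = U`,
contradiction.
-/

namespace Pool.Agent.CWB

variable {V : Type*} {B : BG V} {U P : Set V}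

namespace LM2

/-- `N(ℓ)` for the L-edge `ℓ = (x,y)` -/
def N (B : BG V) (U P : Set V) (x y : V) : Set V := {u | B.V1 U P u ∧ (B.adj u x ∨ B.adj u y)}

/-- L-edge -/
def LE (B : BG V) (U P : Set V) (x y : V) : Prop := B.V0 U P x ∧ B.V0 U P y ∧ B.adj x y

/-- minimal L-edge -/
def LMin (B : BG V) (U P : Set V) (x y : V) : Prop :=
  LE B U P x y ∧ ∀ z w, LE B U P z w → (N B U P x y).ncard ≤ (N B U P z w).ncard

private theorem lm2a_side {a b c : Bool} (h1 : a ≠ b) (h2 : b ≠ c) : a = c := by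
  cases a <;> cases b <;> cases c <;> simp_all

private theorem lm2a_LE_symm {x y : V} (h : LE B U P x y) : LE B U P y x :=
  ⟨h.2.1, h.1, B.symm h.2.2⟩

private theorem lm2a_N_comm (x y : V) : N B U P x y = N B U P y x := by
  ext u
  simp only [N, Set.mem_ofPred_eq]
  exact and_congr_right fun _ => or_comm

private theorem lm2a_LMin_symm {x y : V} (h : LMin B U P x y) : LMin B U P y x := by
  refine ⟨lm2a_LE_symm h.1, fun z w h' => ?_⟩
  rw [lm2a_N_comm y x]
  exact h.2 z w h'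

private theorem lm2a_N_fin (M : B.MCtx U P) (x y : V) : (N B U P x y).Finite :=
  M.fin.subset fun _ hu => hu.1.1

private theorem lm2a_nest_core (M : B.MCtx U P) {x y z w u u' : V} (h : LE B U P x y)
    (h' : LE B U P z w) (hs : B.side z = B.side x) (hu : u ∈ N B U P x y)
    (hu2 : u ∉ N B U P z w) (hv : u' ∈ N B U P z w) (hv2 : u' ∉ N B U P x y) : False := by
  obtain ⟨hx, hy, hxy⟩ := h
  obtain ⟨hz, hw, hzw⟩ := h'
  obtain ⟨huV, hu⟩ := hu
  obtain ⟨hvV, hv⟩ := hv
  have hu2' : ¬ (B.adj u z ∨ B.adj u w) := fun hh => hu2 ⟨huV, hh⟩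
  have hv2' : ¬ (B.adj u' x ∨ B.adj u' y) := fun hh => hv2 ⟨hvV, hh⟩
  have huz : ¬ B.adj u z := fun hh => hu2' (Or.inl hh)
  have huw : ¬ B.adj u w := fun hh => hu2' (Or.inr hh)
  have hvx : ¬ B.adj u' x := fun hh => hv2' (Or.inl hh)
  have hvy : ¬ B.adj u' y := fun hh => hv2' (Or.inr hh)
  have hxw : ¬ B.adj x w := by
    intro hxw
    rcases hu with hux | huy
    · exact huz (LM1.fF2 M hw hx hz huV (B.symm hxw) (B.symm hzw) hux)
    · exact huw (LM1.fF2 M hx hy hw huV hxy hxw huy)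
  have hzy : ¬ B.adj z y := by
    intro hzy
    rcases hu with hux | huy
    · exact huz (LM1.fF2 M hy hx hz huV (B.symm hxy) (B.symm hzy) hux)
    · exact huw (LM1.fF2 M hz hy hw huV hzy hzw huy)
  have sxy := B.cross hxy
  have szw := B.cross hzw
  rcases hu with hux | huy
  · have s1 := B.cross hux
    rcases hv with hvz | hvw
    · have s2 := B.cross hvz
      have s3 : B.side u = B.side u' := by
        refine lm2a_side s1 ?_
        rw [← hs]
        exact s2.symm
      exact LM1.fC1 M huV hvV s3 hx hz hy hux hvz huz hvx (B.symm hxy)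
        (fun hh => hzy (B.symm hh))
    · have s2 := B.cross hvw
      have s3 : B.side u' ≠ B.side u := by
        intro hh
        rw [← hh] at s1
        have : B.side u' = B.side z := lm2a_side s2 szw.symm
        exact s1 (this.trans hs)
      by_cases hvu : B.adj u' u
      · exact LM1.fC2 M hvV huV hvu hz hw hx hy hzw hxy hzy hxw hvw hvy hux huz
      · exact hvy (LM1.fF3 M hx hy huV hvV hxy (B.symm hux) s3 hvu)
  · have s1 := B.cross huy
    rcases hv with hvz | hvw
    · have s2 := B.cross hvz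
      have s3 : B.side u' ≠ B.side u := by
        intro hh
        have : B.side u = B.side x := lm2a_side s1 sxy.symm
        rw [hh, hs] at s2
        exact s2 this
      by_cases huv : B.adj u u'
      · exact LM1.fC2 M huV hvV huv hx hy hz hw hxy hzw hxw hzy huy huw hvz hvx
      · exact hvx (LM1.fF3 M hy hx huV hvV (B.symm hxy) (B.symm huy) s3
          (fun hh => huv (B.symm hh)))
    · have s2 := B.cross hvw
      have s3 : B.side u = B.side u' := by
        have e1 : B.side u = B.side x := lm2a_side s1 sxy.symm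
        have e2 : B.side u' = B.side z := lm2a_side s2 szw.symm
        rw [e1, e2, hs]
      exact LM1.fC1 M huV hvV s3 hy hw hx huy hvw huw hvy hxy hxw

/-- (NEST) -/
theorem nest (M : B.MCtx U P) {x y z w : V} (h : LMin B U P x y) (h' : LE B U P z w) :
    N B U P x y ⊆ N B U P z w := by
  intro u hu
  by_contra hu2
  have hex : ∃ u', u' ∈ N B U P z w ∧ u' ∉ N B U P x y := by
    by_contra hcon
    push Not at hcon
    have hss : N B U P z w ⊂ N B U P x y :=
      ⟨fun v hv => hcon v hv, fun hh => hu2 (hh hu)⟩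
    have := Set.ncard_lt_ncard hss (lm2a_N_fin M x y)
    have := h.2 z w h'
    omega
  obtain ⟨u', hv, hv2⟩ := hex
  by_cases hs : B.side z = B.side x
  · exact lm2a_nest_core M h.1 h' hs hu hu2 hv hv2
  · have hs' : B.side w = B.side x := lm2a_side (B.cross h'.2.2).symm hs
    rw [lm2a_N_comm z w] at hu2 hv
    exact lm2a_nest_core M h.1 (lm2a_LE_symm h') hs' hu hu2 hv hv2

/-- (PAR) -/
theorem par (M : B.MCtx U P) (hns : ¬ Split B.adj B.side U) {x y : V} (h : LE B U P x y) :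
    (N B U P x y).Nonempty := by
  by_contra hne
  rw [Set.not_nonempty_iff_eq_empty] at hne
  obtain ⟨hx, hy, hxy⟩ := h
  have hxN : ∀ u, B.V1 U P u → ¬ B.adj u x := by
    intro u hu hux
    have : u ∈ N B U P x y := ⟨hu, Or.inl hux⟩
    rw [hne] at this
    exact this
  have hyN : ∀ u, B.V1 U P u → ¬ B.adj u y := by
    intro u hu huy
    have : u ∈ N B U P x y := ⟨hu, Or.inr huy⟩
    rw [hne] at this
    exact this
  set S : Set V := {w | B.V0 U P w ∧ (∀ u, B.V1 U P u → ¬ B.adj u w) ∧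
    ∀ v, B.V0 U P v → B.adj w v → ∀ u, B.V1 U P u → ¬ B.adj u v} with hS
  have hxS : x ∈ S := by
    refine ⟨hx, hxN, fun v hv hxv u hu huv => ?_⟩
    exact hyN u hu (LM1.fF2 M hx hv hy hu hxv hxy huv)
  have hSU : S ⊆ U := fun w hw => hw.1.1
  have hno : ∀ w ∈ S, ∀ t ∈ U \ S, ¬ B.adj w t := by
    rintro w ⟨hw0, hw1, hw2⟩ t ⟨htU, htS⟩ hwt
    by_cases htP : t ∈ P
    · exact hw0.2.2 t htP hwt
    rcases LM1.v0_or_v1 M t htU htP with ht | ht
    · refine htS ⟨ht, fun u hu hut => hw2 t ht hwt u hu hut, fun v hv htv u hu huv => ?_⟩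
      exact hw1 u hu (LM1.fF2 M ht hv hw0 hu htv (B.symm hwt) huv)
    · exact hw1 t ht (B.symm hwt)
  obtain ⟨q, hqP, -⟩ := M.nontriv true
  refine hns ⟨S, U \ S, Set.union_sdiff_cancel hSU, Set.disjoint_sdiff_right, ⟨x, hxS⟩,
    ⟨q, M.sub hqP, fun hq => hq.1.2.1 hqP⟩, ?_, ?_⟩
  · intro u hu u' hu' _ w hw
    exact ⟨fun hh => absurd hh (hno u hu w hw), fun hh => absurd hh (hno u' hu' w hw)⟩
  · intro w hw w' hw' _ u hu
    exact ⟨fun hh => absurd (B.symm hh) (hno u hu w hw),
      fun hh => absurd (B.symm hh) (hno u hu w' hw')⟩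

private theorem lm2a_key_core (M : B.MCtx U P) (hns : ¬ Split B.adj B.side U) {x y A : V}
    (h : LMin B U P x y) (hA : B.V1 U P A) (hAy : B.adj A y) :
    ∃ k l, B.V1 U P k ∧ B.V1 U P l ∧ B.side k = B.side x ∧ B.side l = B.side y ∧ ¬ B.adj k l ∧
      B.adj k y ∧ B.adj l x := by
  obtain ⟨⟨hx, hy, hxy⟩, hmin⟩ := id h
  have sxy := B.cross hxy
  have sAy := B.cross hAy
  have sAx : B.side A = B.side x := lm2a_side sAy sxy.symm
  have hAN : A ∈ N B U P x y := ⟨hA, Or.inr hAy⟩
  -- the conclusion from `k ~ y`, `k` Kbig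
  have hdone : ∀ k, B.Kbig U P k → B.adj k y →
      ∃ k l, B.V1 U P k ∧ B.V1 U P l ∧ B.side k = B.side x ∧ B.side l = B.side y ∧ ¬ B.adj k l ∧
        B.adj k y ∧ B.adj l x := by
    rintro k ⟨hk, l, hl, slk, hkl⟩ hky
    have sky := B.cross hky
    refine ⟨k, l, hk, hl, lm2a_side sky sxy.symm, lm2a_side slk sky, hkl, hky, ?_⟩
    exact LM1.fF3 M hy hx hk hl (B.symm hxy) (B.symm hky) slk (fun hh => hkl (B.symm hh))
  rcases (LM1.ks M hns).1 A hA with hK | ⟨y', ⟨hy', x', hx', hxy'⟩, sy', hAy'⟩ |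
    ⟨t, k, ht, st, hAt, hk, htk⟩
  · exact hdone A hK hAy
  · exfalso
    have hsub := nest M h (z := x') (w := y') ⟨hx', hy', hxy'⟩ hAN
    rcases hsub.2 with hh | hh
    · exact B.cross hh (lm2a_side (B.cross hxy') sy').symm
    · exact hAy' hh
  · by_cases hky : B.adj k y
    · exact hdone k hk hky
    · exfalso
      have hxt : ¬ B.adj x t := by
        intro hxt
        have hsub := nest M h (z := x) (w := t) ⟨hx, ht, hxt⟩ hAN
        rcases hsub.2 with hh | hh
        · exact B.cross hh sAx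
        · exact hAt hh
      have sAk : B.side A = B.side k := lm2a_side st.symm (B.cross htk)
      exact LM1.fC1 M hA hk.1 sAk hy ht hx hAy (B.symm htk) hAt hky hxy hxt

/-- (KEY): `k` is on the side of `x`, `l` on the side of `y` -/
theorem key (M : B.MCtx U P) (hns : ¬ Split B.adj B.side U) {x y : V} (h : LMin B U P x y) :
    ∃ k l, B.V1 U P k ∧ B.V1 U P l ∧ B.side k = B.side x ∧ B.side l = B.side y ∧ ¬ B.adj k l ∧
      B.adj k y ∧ B.adj l x := by
  obtain ⟨A, hA, hAx | hAy⟩ := par M hns h.1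
  · obtain ⟨k, l, hk, hl, sk, sl, hkl, hkx, hly⟩ := lm2a_key_core M hns (lm2a_LMin_symm h) hA hAx
    exact ⟨l, k, hl, hk, sl, sk, fun hh => hkl (B.symm hh), hly, hkx⟩
  · exact lm2a_key_core M hns h hA hAy

end LM2

end Pool.Agent.CWB
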