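import Pool.Agent.CWB.Types

/-!
# LOCAL: computer-generated local lemmas

Every lemma says that a small typed configuration around the 5-cycle contains a triangle or an
induced `S_{1,2,3}`.  `t_x` is the type of `x`, `k_x_y` the (non-)adjacency of `x` and `y`.
-/

set_option linter.unusedVariables false

namespace Pool.Agent.CWB.Local

open Pool.Agent.CWB

variable {V : Type*} {G : SimpleGraph V} {v : ZMod 5 → V}

theorem bb (M : Ctx G v) {b c d : V}
    (t_b : IsB G v 0 b) (t_c : IsB G v 1 c) (t_d : IsB G v 1 d)
    (k_b_c : G.Adj b c) (k_b_d : ¬ G.Adj b d) : False := by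
  exact M.sf (v 1) d c b (v 2) (v 3) (v 4)
        ((t_d 1).2 (by decide)).symm
        ((t_c 1).2 (by decide)).symm
        k_b_c.symm
        ((M.c5 1 2).2 (by decide))
        ((M.c5 2 3).2 (by decide))
        ((M.c5 3 4).2 (by decide))
        (M.sameB t_d t_c)
        (fun h => k_b_d h.symm)
        (fun h => absurd ((t_d 2).1 h) (by decide))
        (fun h => absurd ((t_d 3).1 h) (by decide))
        (fun h => absurd ((t_d 4).1 h) (by decide))
        (fun h => absurd ((t_b 1).1 h.symm) (by decide))
        (fun h => absurd ((M.c5 1 3).1 h) (by decide))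
        (fun h => absurd ((M.c5 1 4).1 h) (by decide))
        (fun h => absurd ((t_c 2).1 h) (by decide))
        (fun h => absurd ((t_c 3).1 h) (by decide))
        (fun h => absurd ((t_c 4).1 h) (by decide))
        (fun h => absurd ((t_b 2).1 h) (by decide))
        (fun h => absurd ((t_b 3).1 h) (by decide))
        (fun h => absurd ((t_b 4).1 h) (by decide))
        (fun h => absurd ((M.c5 2 4).1 h) (by decide))

theorem bb4 (M : Ctx G v) {b c d : V}
    (t_b : IsB G v 0 b) (t_c : IsB G v 4 c) (t_d : IsB G v 4 d)
    (k_b_c : G.Adj b c) (k_b_d : ¬ G.Adj b d) : False := by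
  exact M.sf (v 4) d c b (v 3) (v 2) (v 1)
        ((t_d 4).2 (by decide)).symm
        ((t_c 4).2 (by decide)).symm
        k_b_c.symm
        ((M.c5 4 3).2 (by decide))
        ((M.c5 3 2).2 (by decide))
        ((M.c5 2 1).2 (by decide))
        (M.sameB t_d t_c)
        (fun h => k_b_d h.symm)
        (fun h => absurd ((t_d 3).1 h) (by decide))
        (fun h => absurd ((t_d 2).1 h) (by decide))
        (fun h => absurd ((t_d 1).1 h) (by decide))
        (fun h => absurd ((t_b 4).1 h.symm) (by decide))
        (fun h => absurd ((M.c5 4 2).1 h) (by decide))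
        (fun h => absurd ((M.c5 4 1).1 h) (by decide))
        (fun h => absurd ((t_c 3).1 h) (by decide))
        (fun h => absurd ((t_c 2).1 h) (by decide))
        (fun h => absurd ((t_c 1).1 h) (by decide))
        (fun h => absurd ((t_b 3).1 h) (by decide))
        (fun h => absurd ((t_b 2).1 h) (by decide))
        (fun h => absurd ((t_b 1).1 h) (by decide))
        (fun h => absurd ((M.c5 3 1).1 h) (by decide))

theorem zb (M : Ctx G v) {z c d : V}
    (t_z : IsZ G v z) (t_c : IsB G v 0 c) (t_d : IsB G v 0 d)
    (k_z_c : G.Adj z c) (k_z_d : ¬ G.Adj z d) : False := by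
  exact M.sf (v 0) d c z (v 1) (v 2) (v 3)
        ((t_d 0).2 (by decide)).symm
        ((t_c 0).2 (by decide)).symm
        k_z_c.symm
        ((M.c5 0 1).2 (by decide))
        ((M.c5 1 2).2 (by decide))
        ((M.c5 2 3).2 (by decide))
        (M.sameB t_d t_c)
        (fun h => k_z_d h.symm)
        (fun h => absurd ((t_d 1).1 h) (by decide))
        (fun h => absurd ((t_d 2).1 h) (by decide))
        (fun h => absurd ((t_d 3).1 h) (by decide))
        (fun h => t_z 0 h.symm)
        (fun h => absurd ((M.c5 0 2).1 h) (by decide))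
        (fun h => absurd ((M.c5 0 3).1 h) (by decide))
        (fun h => absurd ((t_c 1).1 h) (by decide))
        (fun h => absurd ((t_c 2).1 h) (by decide))
        (fun h => absurd ((t_c 3).1 h) (by decide))
        (t_z 1)
        (t_z 2)
        (t_z 3)
        (fun h => absurd ((M.c5 1 3).1 h) (by decide))

theorem sA_A1A4 (M : Ctx G v) {x a b c d e f g h : V}
    (t_x : IsA G v 0 x) (t_a : IsA G v 1 a) (t_b : IsA G v 1 b) (t_c : IsA G v 4 c) (t_d : IsA G v 4 d) (t_e : IsA G v 0 e) (t_f : IsA G v 0 f) (t_g : IsA G v 0 g) (t_h : IsA G v 0 h)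
    (k_x_a : G.Adj x a) (k_x_b : ¬ G.Adj x b) (k_x_c : G.Adj x c) (k_x_d : ¬ G.Adj x d) (k_e_a : ¬ G.Adj e a) (k_f_b : G.Adj f b) (k_g_c : ¬ G.Adj g c) (k_h_d : G.Adj h d) : False := by
  have s1 : ¬ G.Adj a c := by
    intro h1
    exact M.kf a c (v 0) h1 ((t_c 0).2 (by decide)) ((t_a 0).2 (by decide))
  have s2 : ¬ G.Adj b c := by
    intro h2
    exact M.kf b c (v 0) h2 ((t_c 0).2 (by decide)) ((t_b 0).2 (by decide))
  have s3 : ¬ G.Adj b d := by
    intro h3
    exact M.kf b d (v 0) h3 ((t_d 0).2 (by decide)) ((t_b 0).2 (by decide))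
  by_cases c4 : G.Adj b g
  · have s5 : G.Adj d g := by
      by_contra h5
      exact M.sf (v 3) d c x (v 2) b g
          ((t_d 3).2 (by decide)).symm
          ((t_c 3).2 (by decide)).symm
          k_x_c.symm
          ((M.c5 3 2).2 (by decide))
          ((t_b 2).2 (by decide)).symm
          c4
          (M.sameA t_d t_c)
          (fun h => k_x_d h.symm)
          (fun h => absurd ((t_d 2).1 h) (by decide))
          (fun h => s3 h.symm)
          h5
          (fun h => absurd ((t_x 3).1 h.symm) (by decide))
          (fun h => absurd ((t_b 3).1 h.symm) (by decide))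
          (fun h => absurd ((t_g 3).1 h.symm) (by decide))
          (fun h => absurd ((t_c 2).1 h) (by decide))
          (fun h => s2 h.symm)
          (fun h => k_g_c h.symm)
          (fun h => absurd ((t_x 2).1 h) (by decide))
          k_x_b
          (M.sameA t_x t_g)
          (fun h => absurd ((t_g 2).1 h.symm) (by decide))
    exact M.sf g d b (v 2) (v 4) x c
          s5.symm
          c4.symm
          ((t_b 2).2 (by decide))
          ((t_g 4).2 (by decide))
          ((t_x 4).2 (by decide)).symm
          k_x_c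
          (fun h => s3 h.symm)
          (fun h => absurd ((t_d 2).1 h) (by decide))
          (fun h => absurd ((t_d 4).1 h) (by decide))
          (fun h => k_x_d h.symm)
          (M.sameA t_d t_c)
          (fun h => absurd ((t_g 2).1 h) (by decide))
          (M.sameA t_g t_x)
          k_g_c
          (fun h => absurd ((t_b 4).1 h) (by decide))
          (fun h => k_x_b h.symm)
          s2
          (fun h => absurd ((M.c5 2 4).1 h) (by decide))
          (fun h => absurd ((t_x 2).1 h.symm) (by decide))
          (fun h => absurd ((t_c 2).1 h.symm) (by decide))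
          (fun h => absurd ((t_c 4).1 h.symm) (by decide))
  · have s6 : G.Adj a g := by
      by_contra h6
      exact M.sf x c (v 4) g a (v 2) b
          k_x_c
          ((t_x 4).2 (by decide))
          ((t_g 4).2 (by decide)).symm
          k_x_a
          ((t_a 2).2 (by decide))
          ((t_b 2).2 (by decide)).symm
          (fun h => absurd ((t_c 4).1 h) (by decide))
          (fun h => k_g_c h.symm)
          (fun h => s1 h.symm)
          (fun h => absurd ((t_c 2).1 h) (by decide))
          (fun h => s2 h.symm)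
          (M.sameA t_x t_g)
          (fun h => absurd ((t_x 2).1 h) (by decide))
          k_x_b
          (fun h => absurd ((t_a 4).1 h.symm) (by decide))
          (fun h => absurd ((M.c5 4 2).1 h) (by decide))
          (fun h => absurd ((t_b 4).1 h.symm) (by decide))
          (fun h => h6 h.symm)
          (fun h => absurd ((t_g 2).1 h) (by decide))
          (fun h => c4 h.symm)
          (M.sameA t_a t_b)
    by_cases c7 : G.Adj b e
    · have s8 : G.Adj c e := by
        by_contra h8
        exact M.sf (v 1) g e b x c (v 3)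
            ((t_g 1).2 (by decide)).symm
            ((t_e 1).2 (by decide)).symm
            c7.symm
            ((t_x 1).2 (by decide)).symm
            k_x_c
            ((t_c 3).2 (by decide))
            (M.sameA t_g t_e)
            (fun h => c4 h.symm)
            (M.sameA t_g t_x)
            k_g_c
            (fun h => absurd ((t_g 3).1 h) (by decide))
            (fun h => absurd ((t_b 1).1 h.symm) (by decide))
            (fun h => absurd ((t_c 1).1 h.symm) (by decide))
            (fun h => absurd ((M.c5 1 3).1 h) (by decide))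
            (M.sameA t_e t_x)
            (fun h => h8 h.symm)
            (fun h => absurd ((t_e 3).1 h) (by decide))
            (fun h => k_x_b h.symm)
            s2
            (fun h => absurd ((t_b 3).1 h) (by decide))
            (fun h => absurd ((t_x 3).1 h) (by decide))
      exact M.sf c (v 3) e b x a g
            ((t_c 3).2 (by decide))
            s8
            c7.symm
            k_x_c.symm
            k_x_a
            s6
            (fun h => absurd ((t_e 3).1 h.symm) (by decide))
            (fun h => absurd ((t_b 3).1 h.symm) (by decide))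
            (fun h => absurd ((t_x 3).1 h.symm) (by decide))
            (fun h => absurd ((t_a 3).1 h.symm) (by decide))
            (fun h => absurd ((t_g 3).1 h.symm) (by decide))
            (fun h => s2 h.symm)
            (fun h => s1 h.symm)
            (fun h => k_g_c h.symm)
            (M.sameA t_e t_x)
            k_e_a
            (M.sameA t_e t_g)
            (fun h => k_x_b h.symm)
            (M.sameA t_b t_a)
            c4
            (M.sameA t_x t_g)
    · have s9 : G.Adj c e := by
        by_contra h9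
        exact M.sf x c (v 4) e a (v 2) b
            k_x_c
            ((t_x 4).2 (by decide))
            ((t_e 4).2 (by decide)).symm
            k_x_a
            ((t_a 2).2 (by decide))
            ((t_b 2).2 (by decide)).symm
            (fun h => absurd ((t_c 4).1 h) (by decide))
            h9
            (fun h => s1 h.symm)
            (fun h => absurd ((t_c 2).1 h) (by decide))
            (fun h => s2 h.symm)
            (M.sameA t_x t_e)
            (fun h => absurd ((t_x 2).1 h) (by decide))
            k_x_b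
            (fun h => absurd ((t_a 4).1 h.symm) (by decide))
            (fun h => absurd ((M.c5 4 2).1 h) (by decide))
            (fun h => absurd ((t_b 4).1 h.symm) (by decide))
            k_e_a
            (fun h => absurd ((t_e 2).1 h) (by decide))
            (fun h => c7 h.symm)
            (M.sameA t_a t_b)
      exact M.sf (v 2) b a g (v 3) c e
            ((t_b 2).2 (by decide)).symm
            ((t_a 2).2 (by decide)).symm
            s6
            ((M.c5 2 3).2 (by decide))
            ((t_c 3).2 (by decide)).symm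
            s9
            (M.sameA t_b t_a)
            c4
            (fun h => absurd ((t_b 3).1 h) (by decide))
            s2
            c7
            (fun h => absurd ((t_g 2).1 h.symm) (by decide))
            (fun h => absurd ((t_c 2).1 h.symm) (by decide))
            (fun h => absurd ((t_e 2).1 h.symm) (by decide))
            (fun h => absurd ((t_a 3).1 h) (by decide))
            s1
            (fun h => k_e_a h.symm)
            (fun h => absurd ((t_g 3).1 h) (by decide))
            k_g_c
            (M.sameA t_g t_e)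
            (fun h => absurd ((t_e 3).1 h.symm) (by decide))

theorem sA_A1B0 (M : Ctx G v) {x a b c d : V}
    (t_x : IsA G v 0 x) (t_a : IsA G v 1 a) (t_b : IsA G v 1 b) (t_c : IsB G v 0 c) (t_d : IsB G v 0 d)
    (k_x_a : G.Adj x a) (k_x_b : ¬ G.Adj x b) (k_x_c : G.Adj x c) (k_x_d : ¬ G.Adj x d) : False := by
  have s1 : ¬ G.Adj b c := by
    intro h1
    exact M.kf b c (v 0) h1 ((t_c 0).2 (by decide)) ((t_b 0).2 (by decide))
  have s2 : G.Adj b d := by
    by_contra h2
    exact M.sf (v 0) d c x b (v 2) (v 3)
        ((t_d 0).2 (by decide)).symm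
        ((t_c 0).2 (by decide)).symm
        k_x_c.symm
        ((t_b 0).2 (by decide)).symm
        ((t_b 2).2 (by decide))
        ((M.c5 2 3).2 (by decide))
        (M.sameB t_d t_c)
        (fun h => k_x_d h.symm)
        (fun h => h2 h.symm)
        (fun h => absurd ((t_d 2).1 h) (by decide))
        (fun h => absurd ((t_d 3).1 h) (by decide))
        (fun h => absurd ((t_x 0).1 h.symm) (by decide))
        (fun h => absurd ((M.c5 0 2).1 h) (by decide))
        (fun h => absurd ((M.c5 0 3).1 h) (by decide))
        (fun h => s1 h.symm)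
        (fun h => absurd ((t_c 2).1 h) (by decide))
        (fun h => absurd ((t_c 3).1 h) (by decide))
        k_x_b
        (fun h => absurd ((t_x 2).1 h) (by decide))
        (fun h => absurd ((t_x 3).1 h) (by decide))
        (fun h => absurd ((t_b 3).1 h) (by decide))
  exact M.kf b d (v 0) s2 ((t_d 0).2 (by decide)) ((t_b 0).2 (by decide))

theorem sA_A4B0 (M : Ctx G v) {x a b c d : V}
    (t_x : IsA G v 0 x) (t_a : IsA G v 4 a) (t_b : IsA G v 4 b) (t_c : IsB G v 0 c) (t_d : IsB G v 0 d)
    (k_x_a : G.Adj x a) (k_x_b : ¬ G.Adj x b) (k_x_c : G.Adj x c) (k_x_d : ¬ G.Adj x d) : False := by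
  have s1 : ¬ G.Adj b c := by
    intro h1
    exact M.kf b c (v 0) h1 ((t_c 0).2 (by decide)) ((t_b 0).2 (by decide))
  have s2 : G.Adj b d := by
    by_contra h2
    exact M.sf (v 0) d c x b (v 3) (v 2)
        ((t_d 0).2 (by decide)).symm
        ((t_c 0).2 (by decide)).symm
        k_x_c.symm
        ((t_b 0).2 (by decide)).symm
        ((t_b 3).2 (by decide))
        ((M.c5 3 2).2 (by decide))
        (M.sameB t_d t_c)
        (fun h => k_x_d h.symm)
        (fun h => h2 h.symm)
        (fun h => absurd ((t_d 3).1 h) (by decide))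
        (fun h => absurd ((t_d 2).1 h) (by decide))
        (fun h => absurd ((t_x 0).1 h.symm) (by decide))
        (fun h => absurd ((M.c5 0 3).1 h) (by decide))
        (fun h => absurd ((M.c5 0 2).1 h) (by decide))
        (fun h => s1 h.symm)
        (fun h => absurd ((t_c 3).1 h) (by decide))
        (fun h => absurd ((t_c 2).1 h) (by decide))
        k_x_b
        (fun h => absurd ((t_x 3).1 h) (by decide))
        (fun h => absurd ((t_x 2).1 h) (by decide))
        (fun h => absurd ((t_b 2).1 h) (by decide))
  exact M.kf b d (v 0) s2 ((t_d 0).2 (by decide)) ((t_b 0).2 (by decide))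

theorem sA_B2B3 (M : Ctx G v) {x a b c d : V}
    (t_x : IsA G v 0 x) (t_a : IsB G v 2 a) (t_b : IsB G v 2 b) (t_c : IsB G v 3 c) (t_d : IsB G v 3 d)
    (k_x_a : G.Adj x a) (k_x_b : ¬ G.Adj x b) (k_x_c : G.Adj x c) (k_x_d : ¬ G.Adj x d) : False := by
  have s1 : ¬ G.Adj a c := by
    intro h1
    exact M.kf a c x h1 k_x_c.symm k_x_a.symm
  have s2 : G.Adj a d := by
    by_contra h2
    exact M.sf x a (v 1) (v 0) c (v 3) d
        k_x_a
        ((t_x 1).2 (by decide))
        ((M.c5 1 0).2 (by decide))
        k_x_c
        ((t_c 3).2 (by decide))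
        ((t_d 3).2 (by decide)).symm
        (fun h => absurd ((t_a 1).1 h) (by decide))
        (fun h => absurd ((t_a 0).1 h) (by decide))
        s1
        (fun h => absurd ((t_a 3).1 h) (by decide))
        h2
        (fun h => absurd ((t_x 0).1 h) (by decide))
        (fun h => absurd ((t_x 3).1 h) (by decide))
        k_x_d
        (fun h => absurd ((t_c 1).1 h.symm) (by decide))
        (fun h => absurd ((M.c5 1 3).1 h) (by decide))
        (fun h => absurd ((t_d 1).1 h.symm) (by decide))
        (fun h => absurd ((t_c 0).1 h.symm) (by decide))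
        (fun h => absurd ((M.c5 0 3).1 h) (by decide))
        (fun h => absurd ((t_d 0).1 h.symm) (by decide))
        (M.sameB t_c t_d)
  exact M.sf (v 3) c d a (v 4) (v 0) (v 1)
        ((t_c 3).2 (by decide)).symm
        ((t_d 3).2 (by decide)).symm
        s2.symm
        ((M.c5 3 4).2 (by decide))
        ((M.c5 4 0).2 (by decide))
        ((M.c5 0 1).2 (by decide))
        (M.sameB t_c t_d)
        (fun h => s1 h.symm)
        (fun h => absurd ((t_c 4).1 h) (by decide))
        (fun h => absurd ((t_c 0).1 h) (by decide))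
        (fun h => absurd ((t_c 1).1 h) (by decide))
        (fun h => absurd ((t_a 3).1 h.symm) (by decide))
        (fun h => absurd ((M.c5 3 0).1 h) (by decide))
        (fun h => absurd ((M.c5 3 1).1 h) (by decide))
        (fun h => absurd ((t_d 4).1 h) (by decide))
        (fun h => absurd ((t_d 0).1 h) (by decide))
        (fun h => absurd ((t_d 1).1 h) (by decide))
        (fun h => absurd ((t_a 4).1 h) (by decide))
        (fun h => absurd ((t_a 0).1 h) (by decide))
        (fun h => absurd ((t_a 1).1 h) (by decide))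
        (fun h => absurd ((M.c5 4 1).1 h) (by decide))

theorem sA_B2B0 (M : Ctx G v) {x a b c d : V}
    (t_x : IsA G v 0 x) (t_a : IsB G v 2 a) (t_b : IsB G v 2 b) (t_c : IsB G v 0 c) (t_d : IsB G v 0 d)
    (k_x_a : G.Adj x a) (k_x_b : ¬ G.Adj x b) (k_x_c : G.Adj x c) (k_x_d : ¬ G.Adj x d) : False := by
  have s1 : G.Adj b d := by
    by_contra h1
    exact M.sf (v 4) x (v 0) d (v 3) (v 2) b
        ((t_x 4).2 (by decide)).symm
        ((M.c5 4 0).2 (by decide))
        ((t_d 0).2 (by decide)).symm
        ((M.c5 4 3).2 (by decide))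
        ((M.c5 3 2).2 (by decide))
        ((t_b 2).2 (by decide)).symm
        (fun h => absurd ((t_x 0).1 h) (by decide))
        k_x_d
        (fun h => absurd ((t_x 3).1 h) (by decide))
        (fun h => absurd ((t_x 2).1 h) (by decide))
        k_x_b
        (fun h => absurd ((t_d 4).1 h.symm) (by decide))
        (fun h => absurd ((M.c5 4 2).1 h) (by decide))
        (fun h => absurd ((t_b 4).1 h.symm) (by decide))
        (fun h => absurd ((M.c5 0 3).1 h) (by decide))
        (fun h => absurd ((M.c5 0 2).1 h) (by decide))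
        (fun h => absurd ((t_b 0).1 h.symm) (by decide))
        (fun h => absurd ((t_d 3).1 h) (by decide))
        (fun h => absurd ((t_d 2).1 h) (by decide))
        (fun h => h1 h.symm)
        (fun h => absurd ((t_b 3).1 h.symm) (by decide))
  have s2 : G.Adj a d := by
    by_contra h2
    exact M.sf (v 2) (v 3) a x b d (v 0)
        ((M.c5 2 3).2 (by decide))
        ((t_a 2).2 (by decide)).symm
        k_x_a.symm
        ((t_b 2).2 (by decide)).symm
        s1
        ((t_d 0).2 (by decide))
        (fun h => absurd ((t_a 3).1 h.symm) (by decide))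
        (fun h => absurd ((t_x 3).1 h.symm) (by decide))
        (fun h => absurd ((t_b 3).1 h.symm) (by decide))
        (fun h => absurd ((t_d 3).1 h.symm) (by decide))
        (fun h => absurd ((M.c5 3 0).1 h) (by decide))
        (fun h => absurd ((t_x 2).1 h.symm) (by decide))
        (fun h => absurd ((t_d 2).1 h.symm) (by decide))
        (fun h => absurd ((M.c5 2 0).1 h) (by decide))
        (M.sameB t_a t_b)
        h2
        (fun h => absurd ((t_a 0).1 h) (by decide))
        k_x_b
        k_x_d
        (fun h => absurd ((t_x 0).1 h) (by decide))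
        (fun h => absurd ((t_b 0).1 h) (by decide))
  exact M.sf x (v 1) (v 4) (v 3) a d b
        ((t_x 1).2 (by decide))
        ((t_x 4).2 (by decide))
        ((M.c5 4 3).2 (by decide))
        k_x_a
        s2
        s1.symm
        (fun h => absurd ((M.c5 1 4).1 h) (by decide))
        (fun h => absurd ((M.c5 1 3).1 h) (by decide))
        (fun h => absurd ((t_a 1).1 h.symm) (by decide))
        (fun h => absurd ((t_d 1).1 h.symm) (by decide))
        (fun h => absurd ((t_b 1).1 h.symm) (by decide))
        (fun h => absurd ((t_x 3).1 h) (by decide))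
        k_x_d
        k_x_b
        (fun h => absurd ((t_a 4).1 h.symm) (by decide))
        (fun h => absurd ((t_d 4).1 h.symm) (by decide))
        (fun h => absurd ((t_b 4).1 h.symm) (by decide))
        (fun h => absurd ((t_a 3).1 h.symm) (by decide))
        (fun h => absurd ((t_d 3).1 h.symm) (by decide))
        (fun h => absurd ((t_b 3).1 h.symm) (by decide))
        (M.sameB t_a t_b)

theorem sA_B3B0 (M : Ctx G v) {x a b c d : V}
    (t_x : IsA G v 0 x) (t_a : IsB G v 3 a) (t_b : IsB G v 3 b) (t_c : IsB G v 0 c) (t_d : IsB G v 0 d)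
    (k_x_a : G.Adj x a) (k_x_b : ¬ G.Adj x b) (k_x_c : G.Adj x c) (k_x_d : ¬ G.Adj x d) : False := by
  have s1 : G.Adj b d := by
    by_contra h1
    exact M.sf (v 1) x (v 0) d (v 2) (v 3) b
        ((t_x 1).2 (by decide)).symm
        ((M.c5 1 0).2 (by decide))
        ((t_d 0).2 (by decide)).symm
        ((M.c5 1 2).2 (by decide))
        ((M.c5 2 3).2 (by decide))
        ((t_b 3).2 (by decide)).symm
        (fun h => absurd ((t_x 0).1 h) (by decide))
        k_x_d
        (fun h => absurd ((t_x 2).1 h) (by decide))
        (fun h => absurd ((t_x 3).1 h) (by decide))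
        k_x_b
        (fun h => absurd ((t_d 1).1 h.symm) (by decide))
        (fun h => absurd ((M.c5 1 3).1 h) (by decide))
        (fun h => absurd ((t_b 1).1 h.symm) (by decide))
        (fun h => absurd ((M.c5 0 2).1 h) (by decide))
        (fun h => absurd ((M.c5 0 3).1 h) (by decide))
        (fun h => absurd ((t_b 0).1 h.symm) (by decide))
        (fun h => absurd ((t_d 2).1 h) (by decide))
        (fun h => absurd ((t_d 3).1 h) (by decide))
        (fun h => h1 h.symm)
        (fun h => absurd ((t_b 2).1 h.symm) (by decide))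
  have s2 : G.Adj a d := by
    by_contra h2
    exact M.sf (v 1) (v 2) x a (v 0) d b
        ((M.c5 1 2).2 (by decide))
        ((t_x 1).2 (by decide)).symm
        k_x_a
        ((M.c5 1 0).2 (by decide))
        ((t_d 0).2 (by decide)).symm
        s1.symm
        (fun h => absurd ((t_x 2).1 h.symm) (by decide))
        (fun h => absurd ((t_a 2).1 h.symm) (by decide))
        (fun h => absurd ((M.c5 2 0).1 h) (by decide))
        (fun h => absurd ((t_d 2).1 h.symm) (by decide))
        (fun h => absurd ((t_b 2).1 h.symm) (by decide))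
        (fun h => absurd ((t_a 1).1 h.symm) (by decide))
        (fun h => absurd ((t_d 1).1 h.symm) (by decide))
        (fun h => absurd ((t_b 1).1 h.symm) (by decide))
        (fun h => absurd ((t_x 0).1 h) (by decide))
        k_x_d
        k_x_b
        (fun h => absurd ((t_a 0).1 h) (by decide))
        h2
        (M.sameB t_a t_b)
        (fun h => absurd ((t_b 0).1 h.symm) (by decide))
  exact M.sf x (v 4) (v 1) (v 2) a d b
        ((t_x 4).2 (by decide))
        ((t_x 1).2 (by decide))
        ((M.c5 1 2).2 (by decide))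
        k_x_a
        s2
        s1.symm
        (fun h => absurd ((M.c5 4 1).1 h) (by decide))
        (fun h => absurd ((M.c5 4 2).1 h) (by decide))
        (fun h => absurd ((t_a 4).1 h.symm) (by decide))
        (fun h => absurd ((t_d 4).1 h.symm) (by decide))
        (fun h => absurd ((t_b 4).1 h.symm) (by decide))
        (fun h => absurd ((t_x 2).1 h) (by decide))
        k_x_d
        k_x_b
        (fun h => absurd ((t_a 1).1 h.symm) (by decide))
        (fun h => absurd ((t_d 1).1 h.symm) (by decide))
        (fun h => absurd ((t_b 1).1 h.symm) (by decide))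
        (fun h => absurd ((t_a 2).1 h.symm) (by decide))
        (fun h => absurd ((t_d 2).1 h.symm) (by decide))
        (fun h => absurd ((t_b 2).1 h.symm) (by decide))
        (M.sameB t_a t_b)

theorem sA_B2Z (M : Ctx G v) {x a b c d : V}
    (t_x : IsA G v 0 x) (t_a : IsB G v 2 a) (t_b : IsB G v 2 b) (t_c : IsZ G v c) (t_d : IsZ G v d)
    (k_x_a : G.Adj x a) (k_x_b : ¬ G.Adj x b) (k_x_c : G.Adj x c) (k_x_d : ¬ G.Adj x d) : False := by
  have s1 : ¬ G.Adj a c := by
    intro h1
    exact M.kf a c x h1 k_x_c.symm k_x_a.symm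
  have s2 : G.Adj b c := by
    by_contra h2
    exact M.sf (v 4) (v 0) x c (v 3) (v 2) b
        ((M.c5 4 0).2 (by decide))
        ((t_x 4).2 (by decide)).symm
        k_x_c
        ((M.c5 4 3).2 (by decide))
        ((M.c5 3 2).2 (by decide))
        ((t_b 2).2 (by decide)).symm
        (fun h => absurd ((t_x 0).1 h.symm) (by decide))
        (fun h => t_c 0 h.symm)
        (fun h => absurd ((M.c5 0 3).1 h) (by decide))
        (fun h => absurd ((M.c5 0 2).1 h) (by decide))
        (fun h => absurd ((t_b 0).1 h.symm) (by decide))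
        (fun h => t_c 4 h.symm)
        (fun h => absurd ((M.c5 4 2).1 h) (by decide))
        (fun h => absurd ((t_b 4).1 h.symm) (by decide))
        (fun h => absurd ((t_x 3).1 h) (by decide))
        (fun h => absurd ((t_x 2).1 h) (by decide))
        k_x_b
        (t_c 3)
        (t_c 2)
        (fun h => h2 h.symm)
        (fun h => absurd ((t_b 3).1 h.symm) (by decide))
  exact M.sf (v 2) a b c (v 1) (v 0) (v 4)
        ((t_a 2).2 (by decide)).symm
        ((t_b 2).2 (by decide)).symm
        s2
        ((M.c5 2 1).2 (by decide))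
        ((M.c5 1 0).2 (by decide))
        ((M.c5 0 4).2 (by decide))
        (M.sameB t_a t_b)
        s1
        (fun h => absurd ((t_a 1).1 h) (by decide))
        (fun h => absurd ((t_a 0).1 h) (by decide))
        (fun h => absurd ((t_a 4).1 h) (by decide))
        (fun h => t_c 2 h.symm)
        (fun h => absurd ((M.c5 2 0).1 h) (by decide))
        (fun h => absurd ((M.c5 2 4).1 h) (by decide))
        (fun h => absurd ((t_b 1).1 h) (by decide))
        (fun h => absurd ((t_b 0).1 h) (by decide))
        (fun h => absurd ((t_b 4).1 h) (by decide))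
        (t_c 1)
        (t_c 0)
        (t_c 4)
        (fun h => absurd ((M.c5 1 4).1 h) (by decide))

theorem sA_B3Z (M : Ctx G v) {x a b c d : V}
    (t_x : IsA G v 0 x) (t_a : IsB G v 3 a) (t_b : IsB G v 3 b) (t_c : IsZ G v c) (t_d : IsZ G v d)
    (k_x_a : G.Adj x a) (k_x_b : ¬ G.Adj x b) (k_x_c : G.Adj x c) (k_x_d : ¬ G.Adj x d) : False := by
  have s1 : ¬ G.Adj a c := by
    intro h1
    exact M.kf a c x h1 k_x_c.symm k_x_a.symm
  have s2 : G.Adj b c := by
    by_contra h2
    exact M.sf (v 1) (v 0) x c (v 2) (v 3) b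
        ((M.c5 1 0).2 (by decide))
        ((t_x 1).2 (by decide)).symm
        k_x_c
        ((M.c5 1 2).2 (by decide))
        ((M.c5 2 3).2 (by decide))
        ((t_b 3).2 (by decide)).symm
        (fun h => absurd ((t_x 0).1 h.symm) (by decide))
        (fun h => t_c 0 h.symm)
        (fun h => absurd ((M.c5 0 2).1 h) (by decide))
        (fun h => absurd ((M.c5 0 3).1 h) (by decide))
        (fun h => absurd ((t_b 0).1 h.symm) (by decide))
        (fun h => t_c 1 h.symm)
        (fun h => absurd ((M.c5 1 3).1 h) (by decide))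
        (fun h => absurd ((t_b 1).1 h.symm) (by decide))
        (fun h => absurd ((t_x 2).1 h) (by decide))
        (fun h => absurd ((t_x 3).1 h) (by decide))
        k_x_b
        (t_c 2)
        (t_c 3)
        (fun h => h2 h.symm)
        (fun h => absurd ((t_b 2).1 h.symm) (by decide))
  exact M.sf (v 3) a b c (v 2) (v 1) (v 0)
        ((t_a 3).2 (by decide)).symm
        ((t_b 3).2 (by decide)).symm
        s2
        ((M.c5 3 2).2 (by decide))
        ((M.c5 2 1).2 (by decide))
        ((M.c5 1 0).2 (by decide))
        (M.sameB t_a t_b)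
        s1
        (fun h => absurd ((t_a 2).1 h) (by decide))
        (fun h => absurd ((t_a 1).1 h) (by decide))
        (fun h => absurd ((t_a 0).1 h) (by decide))
        (fun h => t_c 3 h.symm)
        (fun h => absurd ((M.c5 3 1).1 h) (by decide))
        (fun h => absurd ((M.c5 3 0).1 h) (by decide))
        (fun h => absurd ((t_b 2).1 h) (by decide))
        (fun h => absurd ((t_b 1).1 h) (by decide))
        (fun h => absurd ((t_b 0).1 h) (by decide))
        (t_c 2)
        (t_c 1)
        (t_c 0)
        (fun h => absurd ((M.c5 2 0).1 h) (by decide))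

theorem sB_A0A2 (M : Ctx G v) {x a b c d e f g h : V}
    (t_x : IsB G v 0 x) (t_a : IsA G v 0 a) (t_b : IsA G v 0 b) (t_c : IsA G v 2 c) (t_d : IsA G v 2 d) (t_e : IsB G v 0 e) (t_f : IsB G v 0 f) (t_g : IsB G v 0 g) (t_h : IsB G v 0 h)
    (k_x_a : G.Adj x a) (k_x_b : ¬ G.Adj x b) (k_x_c : G.Adj x c) (k_x_d : ¬ G.Adj x d) (k_e_a : ¬ G.Adj e a) (k_f_b : G.Adj f b) (k_g_c : ¬ G.Adj g c) (k_h_d : G.Adj h d) : False := by
  have s1 : ¬ G.Adj a c := by
    intro h1
    exact M.kf a c (v 1) h1 ((t_c 1).2 (by decide)) ((t_a 1).2 (by decide))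
  have s2 : G.Adj a g := by
    by_contra h2
    exact M.sf x a (v 0) g c (v 3) (v 2)
        k_x_a
        ((t_x 0).2 (by decide))
        ((t_g 0).2 (by decide)).symm
        k_x_c
        ((t_c 3).2 (by decide))
        ((M.c5 3 2).2 (by decide))
        (fun h => absurd ((t_a 0).1 h) (by decide))
        h2
        s1
        (fun h => absurd ((t_a 3).1 h) (by decide))
        (fun h => absurd ((t_a 2).1 h) (by decide))
        (M.sameB t_x t_g)
        (fun h => absurd ((t_x 3).1 h) (by decide))
        (fun h => absurd ((t_x 2).1 h) (by decide))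
        (fun h => absurd ((t_c 0).1 h.symm) (by decide))
        (fun h => absurd ((M.c5 0 3).1 h) (by decide))
        (fun h => absurd ((M.c5 0 2).1 h) (by decide))
        k_g_c
        (fun h => absurd ((t_g 3).1 h) (by decide))
        (fun h => absurd ((t_g 2).1 h) (by decide))
        (fun h => absurd ((t_c 2).1 h) (by decide))
  have s3 : G.Adj c e := by
    by_contra h3
    exact M.sf x a (v 0) e c (v 3) (v 2)
        k_x_a
        ((t_x 0).2 (by decide))
        ((t_e 0).2 (by decide)).symm
        k_x_c
        ((t_c 3).2 (by decide))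
        ((M.c5 3 2).2 (by decide))
        (fun h => absurd ((t_a 0).1 h) (by decide))
        (fun h => k_e_a h.symm)
        s1
        (fun h => absurd ((t_a 3).1 h) (by decide))
        (fun h => absurd ((t_a 2).1 h) (by decide))
        (M.sameB t_x t_e)
        (fun h => absurd ((t_x 3).1 h) (by decide))
        (fun h => absurd ((t_x 2).1 h) (by decide))
        (fun h => absurd ((t_c 0).1 h.symm) (by decide))
        (fun h => absurd ((M.c5 0 3).1 h) (by decide))
        (fun h => absurd ((M.c5 0 2).1 h) (by decide))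
        (fun h => h3 h.symm)
        (fun h => absurd ((t_e 3).1 h) (by decide))
        (fun h => absurd ((t_e 2).1 h) (by decide))
        (fun h => absurd ((t_c 2).1 h) (by decide))
  exact M.sf (v 3) (v 2) c e (v 4) a g
        ((M.c5 3 2).2 (by decide))
        ((t_c 3).2 (by decide)).symm
        s3
        ((M.c5 3 4).2 (by decide))
        ((t_a 4).2 (by decide)).symm
        s2
        (fun h => absurd ((t_c 2).1 h.symm) (by decide))
        (fun h => absurd ((t_e 2).1 h.symm) (by decide))
        (fun h => absurd ((M.c5 2 4).1 h) (by decide))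
        (fun h => absurd ((t_a 2).1 h.symm) (by decide))
        (fun h => absurd ((t_g 2).1 h.symm) (by decide))
        (fun h => absurd ((t_e 3).1 h.symm) (by decide))
        (fun h => absurd ((t_a 3).1 h.symm) (by decide))
        (fun h => absurd ((t_g 3).1 h.symm) (by decide))
        (fun h => absurd ((t_c 4).1 h) (by decide))
        (fun h => s1 h.symm)
        (fun h => k_g_c h.symm)
        (fun h => absurd ((t_e 4).1 h) (by decide))
        k_e_a
        (M.sameB t_e t_g)
        (fun h => absurd ((t_g 4).1 h.symm) (by decide))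

theorem sB_A0A3 (M : Ctx G v) {x a b c d e f g h : V}
    (t_x : IsB G v 0 x) (t_a : IsA G v 0 a) (t_b : IsA G v 0 b) (t_c : IsA G v 3 c) (t_d : IsA G v 3 d) (t_e : IsB G v 0 e) (t_f : IsB G v 0 f) (t_g : IsB G v 0 g) (t_h : IsB G v 0 h)
    (k_x_a : G.Adj x a) (k_x_b : ¬ G.Adj x b) (k_x_c : G.Adj x c) (k_x_d : ¬ G.Adj x d) (k_e_a : ¬ G.Adj e a) (k_f_b : G.Adj f b) (k_g_c : ¬ G.Adj g c) (k_h_d : G.Adj h d) : False := by
  have s1 : ¬ G.Adj a c := by
    intro h1
    exact M.kf a c (v 4) h1 ((t_c 4).2 (by decide)) ((t_a 4).2 (by decide))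
  have s2 : G.Adj a g := by
    by_contra h2
    exact M.sf x a (v 0) g c (v 2) (v 3)
        k_x_a
        ((t_x 0).2 (by decide))
        ((t_g 0).2 (by decide)).symm
        k_x_c
        ((t_c 2).2 (by decide))
        ((M.c5 2 3).2 (by decide))
        (fun h => absurd ((t_a 0).1 h) (by decide))
        h2
        s1
        (fun h => absurd ((t_a 2).1 h) (by decide))
        (fun h => absurd ((t_a 3).1 h) (by decide))
        (M.sameB t_x t_g)
        (fun h => absurd ((t_x 2).1 h) (by decide))
        (fun h => absurd ((t_x 3).1 h) (by decide))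
        (fun h => absurd ((t_c 0).1 h.symm) (by decide))
        (fun h => absurd ((M.c5 0 2).1 h) (by decide))
        (fun h => absurd ((M.c5 0 3).1 h) (by decide))
        k_g_c
        (fun h => absurd ((t_g 2).1 h) (by decide))
        (fun h => absurd ((t_g 3).1 h) (by decide))
        (fun h => absurd ((t_c 3).1 h) (by decide))
  have s3 : G.Adj c e := by
    by_contra h3
    exact M.sf x a (v 0) e c (v 2) (v 3)
        k_x_a
        ((t_x 0).2 (by decide))
        ((t_e 0).2 (by decide)).symm
        k_x_c
        ((t_c 2).2 (by decide))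
        ((M.c5 2 3).2 (by decide))
        (fun h => absurd ((t_a 0).1 h) (by decide))
        (fun h => k_e_a h.symm)
        s1
        (fun h => absurd ((t_a 2).1 h) (by decide))
        (fun h => absurd ((t_a 3).1 h) (by decide))
        (M.sameB t_x t_e)
        (fun h => absurd ((t_x 2).1 h) (by decide))
        (fun h => absurd ((t_x 3).1 h) (by decide))
        (fun h => absurd ((t_c 0).1 h.symm) (by decide))
        (fun h => absurd ((M.c5 0 2).1 h) (by decide))
        (fun h => absurd ((M.c5 0 3).1 h) (by decide))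
        (fun h => h3 h.symm)
        (fun h => absurd ((t_e 2).1 h) (by decide))
        (fun h => absurd ((t_e 3).1 h) (by decide))
        (fun h => absurd ((t_c 3).1 h) (by decide))
  exact M.sf (v 2) (v 3) c e (v 1) a g
        ((M.c5 2 3).2 (by decide))
        ((t_c 2).2 (by decide)).symm
        s3
        ((M.c5 2 1).2 (by decide))
        ((t_a 1).2 (by decide)).symm
        s2
        (fun h => absurd ((t_c 3).1 h.symm) (by decide))
        (fun h => absurd ((t_e 3).1 h.symm) (by decide))
        (fun h => absurd ((M.c5 3 1).1 h) (by decide))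
        (fun h => absurd ((t_a 3).1 h.symm) (by decide))
        (fun h => absurd ((t_g 3).1 h.symm) (by decide))
        (fun h => absurd ((t_e 2).1 h.symm) (by decide))
        (fun h => absurd ((t_a 2).1 h.symm) (by decide))
        (fun h => absurd ((t_g 2).1 h.symm) (by decide))
        (fun h => absurd ((t_c 1).1 h) (by decide))
        (fun h => s1 h.symm)
        (fun h => k_g_c h.symm)
        (fun h => absurd ((t_e 1).1 h) (by decide))
        k_e_a
        (M.sameB t_e t_g)
        (fun h => absurd ((t_g 1).1 h.symm) (by decide))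

theorem sB_A0B2 (M : Ctx G v) {x a b c d e f g h : V}
    (t_x : IsB G v 0 x) (t_a : IsA G v 0 a) (t_b : IsA G v 0 b) (t_c : IsB G v 2 c) (t_d : IsB G v 2 d) (t_e : IsB G v 0 e) (t_f : IsB G v 0 f) (t_g : IsB G v 0 g) (t_h : IsB G v 0 h)
    (k_x_a : G.Adj x a) (k_x_b : ¬ G.Adj x b) (k_x_c : G.Adj x c) (k_x_d : ¬ G.Adj x d) (k_e_a : ¬ G.Adj e a) (k_f_b : G.Adj f b) (k_g_c : ¬ G.Adj g c) (k_h_d : G.Adj h d) : False := by
  have s1 : G.Adj b d := by
    by_contra h1
    exact M.sf (v 4) b (v 0) x (v 3) (v 2) d
        ((t_b 4).2 (by decide)).symm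
        ((M.c5 4 0).2 (by decide))
        ((t_x 0).2 (by decide)).symm
        ((M.c5 4 3).2 (by decide))
        ((M.c5 3 2).2 (by decide))
        ((t_d 2).2 (by decide)).symm
        (fun h => absurd ((t_b 0).1 h) (by decide))
        (fun h => k_x_b h.symm)
        (fun h => absurd ((t_b 3).1 h) (by decide))
        (fun h => absurd ((t_b 2).1 h) (by decide))
        h1
        (fun h => absurd ((t_x 4).1 h.symm) (by decide))
        (fun h => absurd ((M.c5 4 2).1 h) (by decide))
        (fun h => absurd ((t_d 4).1 h.symm) (by decide))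
        (fun h => absurd ((M.c5 0 3).1 h) (by decide))
        (fun h => absurd ((M.c5 0 2).1 h) (by decide))
        (fun h => absurd ((t_d 0).1 h.symm) (by decide))
        (fun h => absurd ((t_x 3).1 h) (by decide))
        (fun h => absurd ((t_x 2).1 h) (by decide))
        k_x_d
        (fun h => absurd ((t_d 3).1 h.symm) (by decide))
  have s2 : G.Adj b h := by
    by_contra h2
    exact M.sf d b (v 2) (v 3) h (v 0) x
        s1.symm
        ((t_d 2).2 (by decide))
        ((M.c5 2 3).2 (by decide))
        k_h_d.symm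
        ((t_h 0).2 (by decide))
        ((t_x 0).2 (by decide)).symm
        (fun h => absurd ((t_b 2).1 h) (by decide))
        (fun h => absurd ((t_b 3).1 h) (by decide))
        h2
        (fun h => absurd ((t_b 0).1 h) (by decide))
        (fun h => k_x_b h.symm)
        (fun h => absurd ((t_d 3).1 h) (by decide))
        (fun h => absurd ((t_d 0).1 h) (by decide))
        (fun h => k_x_d h.symm)
        (fun h => absurd ((t_h 2).1 h.symm) (by decide))
        (fun h => absurd ((M.c5 2 0).1 h) (by decide))
        (fun h => absurd ((t_x 2).1 h.symm) (by decide))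
        (fun h => absurd ((t_h 3).1 h.symm) (by decide))
        (fun h => absurd ((M.c5 3 0).1 h) (by decide))
        (fun h => absurd ((t_x 3).1 h.symm) (by decide))
        (M.sameB t_h t_x)
  exact M.kf b h d s2 k_h_d s1

theorem sB_A0B3 (M : Ctx G v) {x a b c d e f g h : V}
    (t_x : IsB G v 0 x) (t_a : IsA G v 0 a) (t_b : IsA G v 0 b) (t_c : IsB G v 3 c) (t_d : IsB G v 3 d) (t_e : IsB G v 0 e) (t_f : IsB G v 0 f) (t_g : IsB G v 0 g) (t_h : IsB G v 0 h)
    (k_x_a : G.Adj x a) (k_x_b : ¬ G.Adj x b) (k_x_c : G.Adj x c) (k_x_d : ¬ G.Adj x d) (k_e_a : ¬ G.Adj e a) (k_f_b : G.Adj f b) (k_g_c : ¬ G.Adj g c) (k_h_d : G.Adj h d) : False := by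
  have s1 : G.Adj b d := by
    by_contra h1
    exact M.sf (v 1) b (v 0) x (v 2) (v 3) d
        ((t_b 1).2 (by decide)).symm
        ((M.c5 1 0).2 (by decide))
        ((t_x 0).2 (by decide)).symm
        ((M.c5 1 2).2 (by decide))
        ((M.c5 2 3).2 (by decide))
        ((t_d 3).2 (by decide)).symm
        (fun h => absurd ((t_b 0).1 h) (by decide))
        (fun h => k_x_b h.symm)
        (fun h => absurd ((t_b 2).1 h) (by decide))
        (fun h => absurd ((t_b 3).1 h) (by decide))
        h1
        (fun h => absurd ((t_x 1).1 h.symm) (by decide))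
        (fun h => absurd ((M.c5 1 3).1 h) (by decide))
        (fun h => absurd ((t_d 1).1 h.symm) (by decide))
        (fun h => absurd ((M.c5 0 2).1 h) (by decide))
        (fun h => absurd ((M.c5 0 3).1 h) (by decide))
        (fun h => absurd ((t_d 0).1 h.symm) (by decide))
        (fun h => absurd ((t_x 2).1 h) (by decide))
        (fun h => absurd ((t_x 3).1 h) (by decide))
        k_x_d
        (fun h => absurd ((t_d 2).1 h.symm) (by decide))
  have s2 : G.Adj b h := by
    by_contra h2
    exact M.sf d b (v 3) (v 2) h (v 0) x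
        s1.symm
        ((t_d 3).2 (by decide))
        ((M.c5 3 2).2 (by decide))
        k_h_d.symm
        ((t_h 0).2 (by decide))
        ((t_x 0).2 (by decide)).symm
        (fun h => absurd ((t_b 3).1 h) (by decide))
        (fun h => absurd ((t_b 2).1 h) (by decide))
        h2
        (fun h => absurd ((t_b 0).1 h) (by decide))
        (fun h => k_x_b h.symm)
        (fun h => absurd ((t_d 2).1 h) (by decide))
        (fun h => absurd ((t_d 0).1 h) (by decide))
        (fun h => k_x_d h.symm)
        (fun h => absurd ((t_h 3).1 h.symm) (by decide))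
        (fun h => absurd ((M.c5 3 0).1 h) (by decide))
        (fun h => absurd ((t_x 3).1 h.symm) (by decide))
        (fun h => absurd ((t_h 2).1 h.symm) (by decide))
        (fun h => absurd ((M.c5 2 0).1 h) (by decide))
        (fun h => absurd ((t_x 2).1 h.symm) (by decide))
        (M.sameB t_h t_x)
  exact M.kf b h d s2 k_h_d s1

theorem sB_A2B2 (M : Ctx G v) {x a b c d e f g h : V}
    (t_x : IsB G v 0 x) (t_a : IsA G v 2 a) (t_b : IsA G v 2 b) (t_c : IsB G v 2 c) (t_d : IsB G v 2 d) (t_e : IsB G v 0 e) (t_f : IsB G v 0 f) (t_g : IsB G v 0 g) (t_h : IsB G v 0 h)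
    (k_x_a : G.Adj x a) (k_x_b : ¬ G.Adj x b) (k_x_c : G.Adj x c) (k_x_d : ¬ G.Adj x d) (k_e_a : ¬ G.Adj e a) (k_f_b : G.Adj f b) (k_g_c : ¬ G.Adj g c) (k_h_d : G.Adj h d) : False := by
  have s1 : ¬ G.Adj a c := by
    intro h1
    exact M.kf a c x h1 k_x_c.symm k_x_a.symm
  have s2 : G.Adj a g := by
    by_contra h2
    exact M.sf (v 3) a (v 2) c (v 4) (v 0) g
        ((t_a 3).2 (by decide)).symm
        ((M.c5 3 2).2 (by decide))
        ((t_c 2).2 (by decide)).symm
        ((M.c5 3 4).2 (by decide))
        ((M.c5 4 0).2 (by decide))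
        ((t_g 0).2 (by decide)).symm
        (fun h => absurd ((t_a 2).1 h) (by decide))
        s1
        (fun h => absurd ((t_a 4).1 h) (by decide))
        (fun h => absurd ((t_a 0).1 h) (by decide))
        h2
        (fun h => absurd ((t_c 3).1 h.symm) (by decide))
        (fun h => absurd ((M.c5 3 0).1 h) (by decide))
        (fun h => absurd ((t_g 3).1 h.symm) (by decide))
        (fun h => absurd ((M.c5 2 4).1 h) (by decide))
        (fun h => absurd ((M.c5 2 0).1 h) (by decide))
        (fun h => absurd ((t_g 2).1 h.symm) (by decide))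
        (fun h => absurd ((t_c 4).1 h) (by decide))
        (fun h => absurd ((t_c 0).1 h) (by decide))
        (fun h => k_g_c h.symm)
        (fun h => absurd ((t_g 4).1 h.symm) (by decide))
  have s3 : G.Adj c e := by
    by_contra h3
    exact M.sf (v 3) a (v 2) c (v 4) (v 0) e
        ((t_a 3).2 (by decide)).symm
        ((M.c5 3 2).2 (by decide))
        ((t_c 2).2 (by decide)).symm
        ((M.c5 3 4).2 (by decide))
        ((M.c5 4 0).2 (by decide))
        ((t_e 0).2 (by decide)).symm
        (fun h => absurd ((t_a 2).1 h) (by decide))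
        s1
        (fun h => absurd ((t_a 4).1 h) (by decide))
        (fun h => absurd ((t_a 0).1 h) (by decide))
        (fun h => k_e_a h.symm)
        (fun h => absurd ((t_c 3).1 h.symm) (by decide))
        (fun h => absurd ((M.c5 3 0).1 h) (by decide))
        (fun h => absurd ((t_e 3).1 h.symm) (by decide))
        (fun h => absurd ((M.c5 2 4).1 h) (by decide))
        (fun h => absurd ((M.c5 2 0).1 h) (by decide))
        (fun h => absurd ((t_e 2).1 h.symm) (by decide))
        (fun h => absurd ((t_c 4).1 h) (by decide))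
        (fun h => absurd ((t_c 0).1 h) (by decide))
        h3
        (fun h => absurd ((t_e 4).1 h.symm) (by decide))
  exact M.sf (v 0) (v 4) g a e c (v 2)
        ((M.c5 0 4).2 (by decide))
        ((t_g 0).2 (by decide)).symm
        s2.symm
        ((t_e 0).2 (by decide)).symm
        s3.symm
        ((t_c 2).2 (by decide))
        (fun h => absurd ((t_g 4).1 h.symm) (by decide))
        (fun h => absurd ((t_a 4).1 h.symm) (by decide))
        (fun h => absurd ((t_e 4).1 h.symm) (by decide))
        (fun h => absurd ((t_c 4).1 h.symm) (by decide))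
        (fun h => absurd ((M.c5 4 2).1 h) (by decide))
        (fun h => absurd ((t_a 0).1 h.symm) (by decide))
        (fun h => absurd ((t_c 0).1 h.symm) (by decide))
        (fun h => absurd ((M.c5 0 2).1 h) (by decide))
        (M.sameB t_g t_e)
        k_g_c
        (fun h => absurd ((t_g 2).1 h) (by decide))
        (fun h => k_e_a h.symm)
        s1
        (fun h => absurd ((t_a 2).1 h) (by decide))
        (fun h => absurd ((t_e 2).1 h) (by decide))

theorem sB_A3B3 (M : Ctx G v) {x a b c d e f g h : V}
    (t_x : IsB G v 0 x) (t_a : IsA G v 3 a) (t_b : IsA G v 3 b) (t_c : IsB G v 3 c) (t_d : IsB G v 3 d) (t_e : IsB G v 0 e) (t_f : IsB G v 0 f) (t_g : IsB G v 0 g) (t_h : IsB G v 0 h)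
    (k_x_a : G.Adj x a) (k_x_b : ¬ G.Adj x b) (k_x_c : G.Adj x c) (k_x_d : ¬ G.Adj x d) (k_e_a : ¬ G.Adj e a) (k_f_b : G.Adj f b) (k_g_c : ¬ G.Adj g c) (k_h_d : G.Adj h d) : False := by
  have s1 : ¬ G.Adj a c := by
    intro h1
    exact M.kf a c x h1 k_x_c.symm k_x_a.symm
  have s2 : G.Adj a g := by
    by_contra h2
    exact M.sf (v 2) a (v 3) c (v 1) (v 0) g
        ((t_a 2).2 (by decide)).symm
        ((M.c5 2 3).2 (by decide))
        ((t_c 3).2 (by decide)).symm
        ((M.c5 2 1).2 (by decide))
        ((M.c5 1 0).2 (by decide))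
        ((t_g 0).2 (by decide)).symm
        (fun h => absurd ((t_a 3).1 h) (by decide))
        s1
        (fun h => absurd ((t_a 1).1 h) (by decide))
        (fun h => absurd ((t_a 0).1 h) (by decide))
        h2
        (fun h => absurd ((t_c 2).1 h.symm) (by decide))
        (fun h => absurd ((M.c5 2 0).1 h) (by decide))
        (fun h => absurd ((t_g 2).1 h.symm) (by decide))
        (fun h => absurd ((M.c5 3 1).1 h) (by decide))
        (fun h => absurd ((M.c5 3 0).1 h) (by decide))
        (fun h => absurd ((t_g 3).1 h.symm) (by decide))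
        (fun h => absurd ((t_c 1).1 h) (by decide))
        (fun h => absurd ((t_c 0).1 h) (by decide))
        (fun h => k_g_c h.symm)
        (fun h => absurd ((t_g 1).1 h.symm) (by decide))
  have s3 : G.Adj c e := by
    by_contra h3
    exact M.sf (v 2) a (v 3) c (v 1) (v 0) e
        ((t_a 2).2 (by decide)).symm
        ((M.c5 2 3).2 (by decide))
        ((t_c 3).2 (by decide)).symm
        ((M.c5 2 1).2 (by decide))
        ((M.c5 1 0).2 (by decide))
        ((t_e 0).2 (by decide)).symm
        (fun h => absurd ((t_a 3).1 h) (by decide))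
        s1
        (fun h => absurd ((t_a 1).1 h) (by decide))
        (fun h => absurd ((t_a 0).1 h) (by decide))
        (fun h => k_e_a h.symm)
        (fun h => absurd ((t_c 2).1 h.symm) (by decide))
        (fun h => absurd ((M.c5 2 0).1 h) (by decide))
        (fun h => absurd ((t_e 2).1 h.symm) (by decide))
        (fun h => absurd ((M.c5 3 1).1 h) (by decide))
        (fun h => absurd ((M.c5 3 0).1 h) (by decide))
        (fun h => absurd ((t_e 3).1 h.symm) (by decide))
        (fun h => absurd ((t_c 1).1 h) (by decide))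
        (fun h => absurd ((t_c 0).1 h) (by decide))
        h3
        (fun h => absurd ((t_e 1).1 h.symm) (by decide))
  exact M.sf (v 0) (v 1) g a e c (v 3)
        ((M.c5 0 1).2 (by decide))
        ((t_g 0).2 (by decide)).symm
        s2.symm
        ((t_e 0).2 (by decide)).symm
        s3.symm
        ((t_c 3).2 (by decide))
        (fun h => absurd ((t_g 1).1 h.symm) (by decide))
        (fun h => absurd ((t_a 1).1 h.symm) (by decide))
        (fun h => absurd ((t_e 1).1 h.symm) (by decide))
        (fun h => absurd ((t_c 1).1 h.symm) (by decide))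
        (fun h => absurd ((M.c5 1 3).1 h) (by decide))
        (fun h => absurd ((t_a 0).1 h.symm) (by decide))
        (fun h => absurd ((t_c 0).1 h.symm) (by decide))
        (fun h => absurd ((M.c5 0 3).1 h) (by decide))
        (M.sameB t_g t_e)
        k_g_c
        (fun h => absurd ((t_g 3).1 h) (by decide))
        (fun h => k_e_a h.symm)
        s1
        (fun h => absurd ((t_a 3).1 h) (by decide))
        (fun h => absurd ((t_e 3).1 h) (by decide))

theorem sB_B2B3 (M : Ctx G v) {x a b c d : V}
    (t_x : IsB G v 0 x) (t_a : IsB G v 2 a) (t_b : IsB G v 2 b) (t_c : IsB G v 3 c) (t_d : IsB G v 3 d)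
    (k_x_a : G.Adj x a) (k_x_b : ¬ G.Adj x b) (k_x_c : G.Adj x c) (k_x_d : ¬ G.Adj x d) : False := by
  have s1 : ¬ G.Adj a c := by
    intro h1
    exact M.kf a c x h1 k_x_c.symm k_x_a.symm
  have s2 : G.Adj a d := by
    by_contra h2
    exact M.sf (v 0) (v 1) x a (v 4) (v 3) d
        ((M.c5 0 1).2 (by decide))
        ((t_x 0).2 (by decide)).symm
        k_x_a
        ((M.c5 0 4).2 (by decide))
        ((M.c5 4 3).2 (by decide))
        ((t_d 3).2 (by decide)).symm
        (fun h => absurd ((t_x 1).1 h.symm) (by decide))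
        (fun h => absurd ((t_a 1).1 h.symm) (by decide))
        (fun h => absurd ((M.c5 1 4).1 h) (by decide))
        (fun h => absurd ((M.c5 1 3).1 h) (by decide))
        (fun h => absurd ((t_d 1).1 h.symm) (by decide))
        (fun h => absurd ((t_a 0).1 h.symm) (by decide))
        (fun h => absurd ((M.c5 0 3).1 h) (by decide))
        (fun h => absurd ((t_d 0).1 h.symm) (by decide))
        (fun h => absurd ((t_x 4).1 h) (by decide))
        (fun h => absurd ((t_x 3).1 h) (by decide))
        k_x_d
        (fun h => absurd ((t_a 4).1 h) (by decide))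
        (fun h => absurd ((t_a 3).1 h) (by decide))
        h2
        (fun h => absurd ((t_d 4).1 h.symm) (by decide))
  exact M.sf (v 3) c d a (v 4) (v 0) (v 1)
        ((t_c 3).2 (by decide)).symm
        ((t_d 3).2 (by decide)).symm
        s2.symm
        ((M.c5 3 4).2 (by decide))
        ((M.c5 4 0).2 (by decide))
        ((M.c5 0 1).2 (by decide))
        (M.sameB t_c t_d)
        (fun h => s1 h.symm)
        (fun h => absurd ((t_c 4).1 h) (by decide))
        (fun h => absurd ((t_c 0).1 h) (by decide))
        (fun h => absurd ((t_c 1).1 h) (by decide))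
        (fun h => absurd ((t_a 3).1 h.symm) (by decide))
        (fun h => absurd ((M.c5 3 0).1 h) (by decide))
        (fun h => absurd ((M.c5 3 1).1 h) (by decide))
        (fun h => absurd ((t_d 4).1 h) (by decide))
        (fun h => absurd ((t_d 0).1 h) (by decide))
        (fun h => absurd ((t_d 1).1 h) (by decide))
        (fun h => absurd ((t_a 4).1 h) (by decide))
        (fun h => absurd ((t_a 0).1 h) (by decide))
        (fun h => absurd ((t_a 1).1 h) (by decide))
        (fun h => absurd ((M.c5 4 1).1 h) (by decide))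

theorem sZ_A0A2 (M : Ctx G v) {x a b c d e f g h : V}
    (t_x : IsZ G v x) (t_a : IsA G v 0 a) (t_b : IsA G v 0 b) (t_c : IsA G v 2 c) (t_d : IsA G v 2 d) (t_e : IsZ G v e) (t_f : IsZ G v f) (t_g : IsZ G v g) (t_h : IsZ G v h)
    (k_x_a : G.Adj x a) (k_x_b : ¬ G.Adj x b) (k_x_c : G.Adj x c) (k_x_d : ¬ G.Adj x d) (k_e_a : ¬ G.Adj e a) (k_f_b : G.Adj f b) (k_g_c : ¬ G.Adj g c) (k_h_d : G.Adj h d) : False := by
  have s1 : ¬ G.Adj a d := by
    intro h1
    exact M.kf a d (v 1) h1 ((t_d 1).2 (by decide)) ((t_a 1).2 (by decide))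
  have s2 : G.Adj a h := by
    by_contra h2
    exact M.sf (v 3) (v 2) d h (v 4) a x
        ((M.c5 3 2).2 (by decide))
        ((t_d 3).2 (by decide)).symm
        k_h_d.symm
        ((M.c5 3 4).2 (by decide))
        ((t_a 4).2 (by decide)).symm
        k_x_a.symm
        (fun h => absurd ((t_d 2).1 h.symm) (by decide))
        (fun h => t_h 2 h.symm)
        (fun h => absurd ((M.c5 2 4).1 h) (by decide))
        (fun h => absurd ((t_a 2).1 h.symm) (by decide))
        (fun h => t_x 2 h.symm)
        (fun h => t_h 3 h.symm)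
        (fun h => absurd ((t_a 3).1 h.symm) (by decide))
        (fun h => t_x 3 h.symm)
        (fun h => absurd ((t_d 4).1 h) (by decide))
        (fun h => s1 h.symm)
        (fun h => k_x_d h.symm)
        (t_h 4)
        (fun h => h2 h.symm)
        (M.sameZ t_h t_x)
        (fun h => t_x 4 h.symm)
  have s3 : ¬ G.Adj b c := by
    intro h3
    exact M.kf b c (v 1) h3 ((t_c 1).2 (by decide)) ((t_b 1).2 (by decide))
  have s4 : ¬ G.Adj b d := by
    intro h4
    exact M.kf b d (v 1) h4 ((t_d 1).2 (by decide)) ((t_b 1).2 (by decide))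
  have s5 : ¬ G.Adj b h := by
    intro h5
    exact M.sf h b a x d (v 3) (v 2)
        h5.symm
        s2.symm
        k_x_a.symm
        k_h_d
        ((t_d 3).2 (by decide))
        ((M.c5 3 2).2 (by decide))
        (M.sameA t_b t_a)
        (fun h => k_x_b h.symm)
        s4
        (fun h => absurd ((t_b 3).1 h) (by decide))
        (fun h => absurd ((t_b 2).1 h) (by decide))
        (M.sameZ t_h t_x)
        (t_h 3)
        (t_h 2)
        s1
        (fun h => absurd ((t_a 3).1 h) (by decide))
        (fun h => absurd ((t_a 2).1 h) (by decide))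
        k_x_d
        (t_x 3)
        (t_x 2)
        (fun h => absurd ((t_d 2).1 h) (by decide))
  have s6 : G.Adj c f := by
    by_contra h6
    exact M.sf (v 3) (v 2) c x (v 4) b f
        ((M.c5 3 2).2 (by decide))
        ((t_c 3).2 (by decide)).symm
        k_x_c.symm
        ((M.c5 3 4).2 (by decide))
        ((t_b 4).2 (by decide)).symm
        k_f_b.symm
        (fun h => absurd ((t_c 2).1 h.symm) (by decide))
        (fun h => t_x 2 h.symm)
        (fun h => absurd ((M.c5 2 4).1 h) (by decide))
        (fun h => absurd ((t_b 2).1 h.symm) (by decide))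
        (fun h => t_f 2 h.symm)
        (fun h => t_x 3 h.symm)
        (fun h => absurd ((t_b 3).1 h.symm) (by decide))
        (fun h => t_f 3 h.symm)
        (fun h => absurd ((t_c 4).1 h) (by decide))
        (fun h => s3 h.symm)
        h6
        (t_x 4)
        k_x_b
        (M.sameZ t_x t_f)
        (fun h => t_f 4 h.symm)
  have s7 : G.Adj d f := by
    by_contra h7
    exact M.sf (v 3) (v 2) d h (v 4) b f
        ((M.c5 3 2).2 (by decide))
        ((t_d 3).2 (by decide)).symm
        k_h_d.symm
        ((M.c5 3 4).2 (by decide))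
        ((t_b 4).2 (by decide)).symm
        k_f_b.symm
        (fun h => absurd ((t_d 2).1 h.symm) (by decide))
        (fun h => t_h 2 h.symm)
        (fun h => absurd ((M.c5 2 4).1 h) (by decide))
        (fun h => absurd ((t_b 2).1 h.symm) (by decide))
        (fun h => t_f 2 h.symm)
        (fun h => t_h 3 h.symm)
        (fun h => absurd ((t_b 3).1 h.symm) (by decide))
        (fun h => t_f 3 h.symm)
        (fun h => absurd ((t_d 4).1 h) (by decide))
        (fun h => s4 h.symm)
        h7
        (t_h 4)
        (fun h => s5 h.symm)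
        (M.sameZ t_h t_f)
        (fun h => t_f 4 h.symm)
  exact M.sf f d c x b (v 4) (v 0)
        s7.symm
        s6.symm
        k_x_c.symm
        k_f_b
        ((t_b 4).2 (by decide))
        ((M.c5 4 0).2 (by decide))
        (M.sameA t_d t_c)
        (fun h => k_x_d h.symm)
        (fun h => s4 h.symm)
        (fun h => absurd ((t_d 4).1 h) (by decide))
        (fun h => absurd ((t_d 0).1 h) (by decide))
        (M.sameZ t_f t_x)
        (t_f 4)
        (t_f 0)
        (fun h => s3 h.symm)
        (fun h => absurd ((t_c 4).1 h) (by decide))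
        (fun h => absurd ((t_c 0).1 h) (by decide))
        k_x_b
        (t_x 4)
        (t_x 0)
        (fun h => absurd ((t_b 0).1 h) (by decide))

theorem pr_A0A1B3 (M : Ctx G v) {x y w z u e f : V}
    (t_x : IsA G v 0 x) (t_y : IsA G v 1 y) (t_w : IsA G v 1 w) (t_z : IsB G v 3 z) (t_u : IsB G v 3 u) (t_e : IsA G v 0 e) (t_f : IsA G v 0 f)
    (k_x_y : G.Adj x y) (k_x_w : ¬ G.Adj x w) (k_x_z : G.Adj x z) (k_x_u : ¬ G.Adj x u) (k_y_z : ¬ G.Adj y z) (k_y_u : ¬ G.Adj y u) (k_w_z : ¬ G.Adj w z) (k_w_u : ¬ G.Adj w u) (k_e_y : ¬ G.Adj e y) (k_f_w : G.Adj f w) : False := by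
  exact M.sf (v 3) u z x (v 2) w (v 0)
        ((t_u 3).2 (by decide)).symm
        ((t_z 3).2 (by decide)).symm
        k_x_z.symm
        ((M.c5 3 2).2 (by decide))
        ((t_w 2).2 (by decide)).symm
        ((t_w 0).2 (by decide))
        (M.sameB t_u t_z)
        (fun h => k_x_u h.symm)
        (fun h => absurd ((t_u 2).1 h) (by decide))
        (fun h => k_w_u h.symm)
        (fun h => absurd ((t_u 0).1 h) (by decide))
        (fun h => absurd ((t_x 3).1 h.symm) (by decide))
        (fun h => absurd ((t_w 3).1 h.symm) (by decide))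
        (fun h => absurd ((M.c5 3 0).1 h) (by decide))
        (fun h => absurd ((t_z 2).1 h) (by decide))
        (fun h => k_w_z h.symm)
        (fun h => absurd ((t_z 0).1 h) (by decide))
        (fun h => absurd ((t_x 2).1 h) (by decide))
        k_x_w
        (fun h => absurd ((t_x 0).1 h) (by decide))
        (fun h => absurd ((M.c5 2 0).1 h) (by decide))

theorem pr_A0B3A1 (M : Ctx G v) {x y w z u e f : V}
    (t_x : IsA G v 0 x) (t_y : IsB G v 3 y) (t_w : IsB G v 3 w) (t_z : IsA G v 1 z) (t_u : IsA G v 1 u) (t_e : IsA G v 0 e) (t_f : IsA G v 0 f)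
    (k_x_y : G.Adj x y) (k_x_w : ¬ G.Adj x w) (k_x_z : G.Adj x z) (k_x_u : ¬ G.Adj x u) (k_y_z : ¬ G.Adj y z) (k_y_u : ¬ G.Adj y u) (k_w_z : ¬ G.Adj w z) (k_w_u : ¬ G.Adj w u) (k_e_y : ¬ G.Adj e y) (k_f_w : G.Adj f w) : False := by
  exact M.sf (v 3) w y x (v 2) u (v 0)
        ((t_w 3).2 (by decide)).symm
        ((t_y 3).2 (by decide)).symm
        k_x_y.symm
        ((M.c5 3 2).2 (by decide))
        ((t_u 2).2 (by decide)).symm
        ((t_u 0).2 (by decide))
        (M.sameB t_w t_y)
        (fun h => k_x_w h.symm)
        (fun h => absurd ((t_w 2).1 h) (by decide))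
        k_w_u
        (fun h => absurd ((t_w 0).1 h) (by decide))
        (fun h => absurd ((t_x 3).1 h.symm) (by decide))
        (fun h => absurd ((t_u 3).1 h.symm) (by decide))
        (fun h => absurd ((M.c5 3 0).1 h) (by decide))
        (fun h => absurd ((t_y 2).1 h) (by decide))
        k_y_u
        (fun h => absurd ((t_y 0).1 h) (by decide))
        (fun h => absurd ((t_x 2).1 h) (by decide))
        k_x_u
        (fun h => absurd ((t_x 0).1 h) (by decide))
        (fun h => absurd ((M.c5 2 0).1 h) (by decide))

theorem pr_A1A0B3 (M : Ctx G v) {x y w z u e f : V}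
    (t_x : IsA G v 1 x) (t_y : IsA G v 0 y) (t_w : IsA G v 0 w) (t_z : IsB G v 3 z) (t_u : IsB G v 3 u) (t_e : IsA G v 1 e) (t_f : IsA G v 1 f)
    (k_x_y : G.Adj x y) (k_x_w : ¬ G.Adj x w) (k_x_z : G.Adj x z) (k_x_u : ¬ G.Adj x u) (k_y_z : ¬ G.Adj y z) (k_y_u : ¬ G.Adj y u) (k_w_z : ¬ G.Adj w z) (k_w_u : ¬ G.Adj w u) (k_e_y : ¬ G.Adj e y) (k_f_w : G.Adj f w) : False := by
  exact M.sf (v 3) u z x (v 4) w (v 1)
        ((t_u 3).2 (by decide)).symm
        ((t_z 3).2 (by decide)).symm
        k_x_z.symm
        ((M.c5 3 4).2 (by decide))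
        ((t_w 4).2 (by decide)).symm
        ((t_w 1).2 (by decide))
        (M.sameB t_u t_z)
        (fun h => k_x_u h.symm)
        (fun h => absurd ((t_u 4).1 h) (by decide))
        (fun h => k_w_u h.symm)
        (fun h => absurd ((t_u 1).1 h) (by decide))
        (fun h => absurd ((t_x 3).1 h.symm) (by decide))
        (fun h => absurd ((t_w 3).1 h.symm) (by decide))
        (fun h => absurd ((M.c5 3 1).1 h) (by decide))
        (fun h => absurd ((t_z 4).1 h) (by decide))
        (fun h => k_w_z h.symm)
        (fun h => absurd ((t_z 1).1 h) (by decide))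
        (fun h => absurd ((t_x 4).1 h) (by decide))
        k_x_w
        (fun h => absurd ((t_x 1).1 h) (by decide))
        (fun h => absurd ((M.c5 4 1).1 h) (by decide))

theorem pr_A1B3A0 (M : Ctx G v) {x y w z u e f : V}
    (t_x : IsA G v 1 x) (t_y : IsB G v 3 y) (t_w : IsB G v 3 w) (t_z : IsA G v 0 z) (t_u : IsA G v 0 u) (t_e : IsA G v 1 e) (t_f : IsA G v 1 f)
    (k_x_y : G.Adj x y) (k_x_w : ¬ G.Adj x w) (k_x_z : G.Adj x z) (k_x_u : ¬ G.Adj x u) (k_y_z : ¬ G.Adj y z) (k_y_u : ¬ G.Adj y u) (k_w_z : ¬ G.Adj w z) (k_w_u : ¬ G.Adj w u) (k_e_y : ¬ G.Adj e y) (k_f_w : G.Adj f w) : False := by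
  exact M.sf (v 3) w y x (v 4) u (v 1)
        ((t_w 3).2 (by decide)).symm
        ((t_y 3).2 (by decide)).symm
        k_x_y.symm
        ((M.c5 3 4).2 (by decide))
        ((t_u 4).2 (by decide)).symm
        ((t_u 1).2 (by decide))
        (M.sameB t_w t_y)
        (fun h => k_x_w h.symm)
        (fun h => absurd ((t_w 4).1 h) (by decide))
        k_w_u
        (fun h => absurd ((t_w 1).1 h) (by decide))
        (fun h => absurd ((t_x 3).1 h.symm) (by decide))
        (fun h => absurd ((t_u 3).1 h.symm) (by decide))
        (fun h => absurd ((M.c5 3 1).1 h) (by decide))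
        (fun h => absurd ((t_y 4).1 h) (by decide))
        k_y_u
        (fun h => absurd ((t_y 1).1 h) (by decide))
        (fun h => absurd ((t_x 4).1 h) (by decide))
        k_x_u
        (fun h => absurd ((t_x 1).1 h) (by decide))
        (fun h => absurd ((M.c5 4 1).1 h) (by decide))

theorem pr_B3A0A1 (M : Ctx G v) {x y w z u e f : V}
    (t_x : IsB G v 3 x) (t_y : IsA G v 0 y) (t_w : IsA G v 0 w) (t_z : IsA G v 1 z) (t_u : IsA G v 1 u) (t_e : IsB G v 3 e) (t_f : IsB G v 3 f)
    (k_x_y : G.Adj x y) (k_x_w : ¬ G.Adj x w) (k_x_z : G.Adj x z) (k_x_u : ¬ G.Adj x u) (k_y_z : ¬ G.Adj y z) (k_y_u : ¬ G.Adj y u) (k_w_z : ¬ G.Adj w z) (k_w_u : ¬ G.Adj w u) (k_e_y : ¬ G.Adj e y) (k_f_w : G.Adj f w) : False := by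
  exact M.sf (v 0) u (v 1) w z x (v 3)
        ((t_u 0).2 (by decide)).symm
        ((M.c5 0 1).2 (by decide))
        ((t_w 1).2 (by decide)).symm
        ((t_z 0).2 (by decide)).symm
        k_x_z.symm
        ((t_x 3).2 (by decide))
        (fun h => absurd ((t_u 1).1 h) (by decide))
        (fun h => k_w_u h.symm)
        (M.sameA t_u t_z)
        (fun h => k_x_u h.symm)
        (fun h => absurd ((t_u 3).1 h) (by decide))
        (fun h => absurd ((t_w 0).1 h.symm) (by decide))
        (fun h => absurd ((t_x 0).1 h.symm) (by decide))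
        (fun h => absurd ((M.c5 0 3).1 h) (by decide))
        (fun h => absurd ((t_z 1).1 h.symm) (by decide))
        (fun h => absurd ((t_x 1).1 h.symm) (by decide))
        (fun h => absurd ((M.c5 1 3).1 h) (by decide))
        k_w_z
        (fun h => k_x_w h.symm)
        (fun h => absurd ((t_w 3).1 h) (by decide))
        (fun h => absurd ((t_z 3).1 h) (by decide))

theorem pr_B3A1A0 (M : Ctx G v) {x y w z u e f : V}
    (t_x : IsB G v 3 x) (t_y : IsA G v 1 y) (t_w : IsA G v 1 w) (t_z : IsA G v 0 z) (t_u : IsA G v 0 u) (t_e : IsB G v 3 e) (t_f : IsB G v 3 f)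
    (k_x_y : G.Adj x y) (k_x_w : ¬ G.Adj x w) (k_x_z : G.Adj x z) (k_x_u : ¬ G.Adj x u) (k_y_z : ¬ G.Adj y z) (k_y_u : ¬ G.Adj y u) (k_w_z : ¬ G.Adj w z) (k_w_u : ¬ G.Adj w u) (k_e_y : ¬ G.Adj e y) (k_f_w : G.Adj f w) : False := by
  exact M.sf (v 0) w (v 1) u y x (v 3)
        ((t_w 0).2 (by decide)).symm
        ((M.c5 0 1).2 (by decide))
        ((t_u 1).2 (by decide)).symm
        ((t_y 0).2 (by decide)).symm
        k_x_y.symm
        ((t_x 3).2 (by decide))
        (fun h => absurd ((t_w 1).1 h) (by decide))
        k_w_u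
        (M.sameA t_w t_y)
        (fun h => k_x_w h.symm)
        (fun h => absurd ((t_w 3).1 h) (by decide))
        (fun h => absurd ((t_u 0).1 h.symm) (by decide))
        (fun h => absurd ((t_x 0).1 h.symm) (by decide))
        (fun h => absurd ((M.c5 0 3).1 h) (by decide))
        (fun h => absurd ((t_y 1).1 h.symm) (by decide))
        (fun h => absurd ((t_x 1).1 h.symm) (by decide))
        (fun h => absurd ((M.c5 1 3).1 h) (by decide))
        (fun h => k_y_u h.symm)
        (fun h => k_x_u h.symm)
        (fun h => absurd ((t_u 3).1 h) (by decide))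
        (fun h => absurd ((t_y 3).1 h) (by decide))

theorem pr_A0A1Z (M : Ctx G v) {x y w z u e f : V}
    (t_x : IsA G v 0 x) (t_y : IsA G v 1 y) (t_w : IsA G v 1 w) (t_z : IsZ G v z) (t_u : IsZ G v u) (t_e : IsA G v 0 e) (t_f : IsA G v 0 f)
    (k_x_y : G.Adj x y) (k_x_w : ¬ G.Adj x w) (k_x_z : G.Adj x z) (k_x_u : ¬ G.Adj x u) (k_y_z : ¬ G.Adj y z) (k_y_u : ¬ G.Adj y u) (k_w_z : ¬ G.Adj w z) (k_w_u : ¬ G.Adj w u) (k_e_y : ¬ G.Adj e y) (k_f_w : G.Adj f w) : False := by
  have s1 : ¬ G.Adj z e := by
    intro h1
    exact M.sf y (v 0) (v 2) (v 3) x z e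
        ((t_y 0).2 (by decide))
        ((t_y 2).2 (by decide))
        ((M.c5 2 3).2 (by decide))
        k_x_y.symm
        k_x_z
        h1
        (fun h => absurd ((M.c5 0 2).1 h) (by decide))
        (fun h => absurd ((M.c5 0 3).1 h) (by decide))
        (fun h => absurd ((t_x 0).1 h.symm) (by decide))
        (fun h => t_z 0 h.symm)
        (fun h => absurd ((t_e 0).1 h.symm) (by decide))
        (fun h => absurd ((t_y 3).1 h) (by decide))
        k_y_z
        (fun h => k_e_y h.symm)
        (fun h => absurd ((t_x 2).1 h.symm) (by decide))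
        (fun h => t_z 2 h.symm)
        (fun h => absurd ((t_e 2).1 h.symm) (by decide))
        (fun h => absurd ((t_x 3).1 h.symm) (by decide))
        (fun h => t_z 3 h.symm)
        (fun h => absurd ((t_e 3).1 h.symm) (by decide))
        (M.sameA t_x t_e)
  have s2 : G.Adj w e := by
    by_contra h2
    exact M.sf (v 4) e x z (v 0) w (v 2)
        ((t_e 4).2 (by decide)).symm
        ((t_x 4).2 (by decide)).symm
        k_x_z
        ((M.c5 4 0).2 (by decide))
        ((t_w 0).2 (by decide)).symm
        ((t_w 2).2 (by decide))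
        (M.sameA t_e t_x)
        (fun h => s1 h.symm)
        (fun h => absurd ((t_e 0).1 h) (by decide))
        (fun h => h2 h.symm)
        (fun h => absurd ((t_e 2).1 h) (by decide))
        (fun h => t_z 4 h.symm)
        (fun h => absurd ((t_w 4).1 h.symm) (by decide))
        (fun h => absurd ((M.c5 4 2).1 h) (by decide))
        (fun h => absurd ((t_x 0).1 h) (by decide))
        k_x_w
        (fun h => absurd ((t_x 2).1 h) (by decide))
        (t_z 0)
        (fun h => k_w_z h.symm)
        (t_z 2)
        (fun h => absurd ((M.c5 0 2).1 h) (by decide))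
  exact M.sf (v 2) (v 3) w e y x z
        ((M.c5 2 3).2 (by decide))
        ((t_w 2).2 (by decide)).symm
        s2
        ((t_y 2).2 (by decide)).symm
        k_x_y.symm
        k_x_z
        (fun h => absurd ((t_w 3).1 h.symm) (by decide))
        (fun h => absurd ((t_e 3).1 h.symm) (by decide))
        (fun h => absurd ((t_y 3).1 h.symm) (by decide))
        (fun h => absurd ((t_x 3).1 h.symm) (by decide))
        (fun h => t_z 3 h.symm)
        (fun h => absurd ((t_e 2).1 h.symm) (by decide))
        (fun h => absurd ((t_x 2).1 h.symm) (by decide))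
        (fun h => t_z 2 h.symm)
        (M.sameA t_w t_y)
        (fun h => k_x_w h.symm)
        k_w_z
        k_e_y
        (M.sameA t_e t_x)
        (fun h => s1 h.symm)
        k_y_z

theorem pr_A0ZA1 (M : Ctx G v) {x y w z u e f : V}
    (t_x : IsA G v 0 x) (t_y : IsZ G v y) (t_w : IsZ G v w) (t_z : IsA G v 1 z) (t_u : IsA G v 1 u) (t_e : IsA G v 0 e) (t_f : IsA G v 0 f)
    (k_x_y : G.Adj x y) (k_x_w : ¬ G.Adj x w) (k_x_z : G.Adj x z) (k_x_u : ¬ G.Adj x u) (k_y_z : ¬ G.Adj y z) (k_y_u : ¬ G.Adj y u) (k_w_z : ¬ G.Adj w z) (k_w_u : ¬ G.Adj w u) (k_e_y : ¬ G.Adj e y) (k_f_w : G.Adj f w) : False := by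
  have s1 : G.Adj u f := by
    by_contra h1
    exact M.sf (v 4) x f w (v 0) u (v 2)
        ((t_x 4).2 (by decide)).symm
        ((t_f 4).2 (by decide)).symm
        k_f_w
        ((M.c5 4 0).2 (by decide))
        ((t_u 0).2 (by decide)).symm
        ((t_u 2).2 (by decide))
        (M.sameA t_x t_f)
        k_x_w
        (fun h => absurd ((t_x 0).1 h) (by decide))
        k_x_u
        (fun h => absurd ((t_x 2).1 h) (by decide))
        (fun h => t_w 4 h.symm)
        (fun h => absurd ((t_u 4).1 h.symm) (by decide))
        (fun h => absurd ((M.c5 4 2).1 h) (by decide))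
        (fun h => absurd ((t_f 0).1 h) (by decide))
        (fun h => h1 h.symm)
        (fun h => absurd ((t_f 2).1 h) (by decide))
        (t_w 0)
        k_w_u
        (t_w 2)
        (fun h => absurd ((M.c5 0 2).1 h) (by decide))
  have s2 : G.Adj y f := by
    by_contra h2
    exact M.sf f w u (v 2) (v 4) x y
        k_f_w
        s1.symm
        ((t_u 2).2 (by decide))
        ((t_f 4).2 (by decide))
        ((t_x 4).2 (by decide)).symm
        k_x_y
        k_w_u
        (t_w 2)
        (t_w 4)
        (fun h => k_x_w h.symm)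
        (M.sameZ t_w t_y)
        (fun h => absurd ((t_f 2).1 h) (by decide))
        (M.sameA t_f t_x)
        (fun h => h2 h.symm)
        (fun h => absurd ((t_u 4).1 h) (by decide))
        (fun h => k_x_u h.symm)
        (fun h => k_y_u h.symm)
        (fun h => absurd ((M.c5 2 4).1 h) (by decide))
        (fun h => absurd ((t_x 2).1 h.symm) (by decide))
        (fun h => t_y 2 h.symm)
        (fun h => t_y 4 h.symm)
  exact M.sf u (v 0) (v 2) (v 3) f y x
        ((t_u 0).2 (by decide))
        ((t_u 2).2 (by decide))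
        ((M.c5 2 3).2 (by decide))
        s1
        s2.symm
        k_x_y.symm
        (fun h => absurd ((M.c5 0 2).1 h) (by decide))
        (fun h => absurd ((M.c5 0 3).1 h) (by decide))
        (fun h => absurd ((t_f 0).1 h.symm) (by decide))
        (fun h => t_y 0 h.symm)
        (fun h => absurd ((t_x 0).1 h.symm) (by decide))
        (fun h => absurd ((t_u 3).1 h) (by decide))
        (fun h => k_y_u h.symm)
        (fun h => k_x_u h.symm)
        (fun h => absurd ((t_f 2).1 h.symm) (by decide))
        (fun h => t_y 2 h.symm)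
        (fun h => absurd ((t_x 2).1 h.symm) (by decide))
        (fun h => absurd ((t_f 3).1 h.symm) (by decide))
        (fun h => t_y 3 h.symm)
        (fun h => absurd ((t_x 3).1 h.symm) (by decide))
        (M.sameA t_f t_x)

theorem pr_A1A0Z (M : Ctx G v) {x y w z u e f : V}
    (t_x : IsA G v 1 x) (t_y : IsA G v 0 y) (t_w : IsA G v 0 w) (t_z : IsZ G v z) (t_u : IsZ G v u) (t_e : IsA G v 1 e) (t_f : IsA G v 1 f)
    (k_x_y : G.Adj x y) (k_x_w : ¬ G.Adj x w) (k_x_z : G.Adj x z) (k_x_u : ¬ G.Adj x u) (k_y_z : ¬ G.Adj y z) (k_y_u : ¬ G.Adj y u) (k_w_z : ¬ G.Adj w z) (k_w_u : ¬ G.Adj w u) (k_e_y : ¬ G.Adj e y) (k_f_w : G.Adj f w) : False := by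
  have s1 : ¬ G.Adj z e := by
    intro h1
    exact M.sf y (v 1) (v 4) (v 3) x z e
        ((t_y 1).2 (by decide))
        ((t_y 4).2 (by decide))
        ((M.c5 4 3).2 (by decide))
        k_x_y.symm
        k_x_z
        h1
        (fun h => absurd ((M.c5 1 4).1 h) (by decide))
        (fun h => absurd ((M.c5 1 3).1 h) (by decide))
        (fun h => absurd ((t_x 1).1 h.symm) (by decide))
        (fun h => t_z 1 h.symm)
        (fun h => absurd ((t_e 1).1 h.symm) (by decide))
        (fun h => absurd ((t_y 3).1 h) (by decide))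
        k_y_z
        (fun h => k_e_y h.symm)
        (fun h => absurd ((t_x 4).1 h.symm) (by decide))
        (fun h => t_z 4 h.symm)
        (fun h => absurd ((t_e 4).1 h.symm) (by decide))
        (fun h => absurd ((t_x 3).1 h.symm) (by decide))
        (fun h => t_z 3 h.symm)
        (fun h => absurd ((t_e 3).1 h.symm) (by decide))
        (M.sameA t_x t_e)
  have s2 : G.Adj w e := by
    by_contra h2
    exact M.sf (v 2) e x z (v 1) w (v 4)
        ((t_e 2).2 (by decide)).symm
        ((t_x 2).2 (by decide)).symm
        k_x_z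
        ((M.c5 2 1).2 (by decide))
        ((t_w 1).2 (by decide)).symm
        ((t_w 4).2 (by decide))
        (M.sameA t_e t_x)
        (fun h => s1 h.symm)
        (fun h => absurd ((t_e 1).1 h) (by decide))
        (fun h => h2 h.symm)
        (fun h => absurd ((t_e 4).1 h) (by decide))
        (fun h => t_z 2 h.symm)
        (fun h => absurd ((t_w 2).1 h.symm) (by decide))
        (fun h => absurd ((M.c5 2 4).1 h) (by decide))
        (fun h => absurd ((t_x 1).1 h) (by decide))
        k_x_w
        (fun h => absurd ((t_x 4).1 h) (by decide))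
        (t_z 1)
        (fun h => k_w_z h.symm)
        (t_z 4)
        (fun h => absurd ((M.c5 1 4).1 h) (by decide))
  exact M.sf (v 4) (v 3) w e y x z
        ((M.c5 4 3).2 (by decide))
        ((t_w 4).2 (by decide)).symm
        s2
        ((t_y 4).2 (by decide)).symm
        k_x_y.symm
        k_x_z
        (fun h => absurd ((t_w 3).1 h.symm) (by decide))
        (fun h => absurd ((t_e 3).1 h.symm) (by decide))
        (fun h => absurd ((t_y 3).1 h.symm) (by decide))
        (fun h => absurd ((t_x 3).1 h.symm) (by decide))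
        (fun h => t_z 3 h.symm)
        (fun h => absurd ((t_e 4).1 h.symm) (by decide))
        (fun h => absurd ((t_x 4).1 h.symm) (by decide))
        (fun h => t_z 4 h.symm)
        (M.sameA t_w t_y)
        (fun h => k_x_w h.symm)
        k_w_z
        k_e_y
        (M.sameA t_e t_x)
        (fun h => s1 h.symm)
        k_y_z

theorem pr_A1ZA0 (M : Ctx G v) {x y w z u e f : V}
    (t_x : IsA G v 1 x) (t_y : IsZ G v y) (t_w : IsZ G v w) (t_z : IsA G v 0 z) (t_u : IsA G v 0 u) (t_e : IsA G v 1 e) (t_f : IsA G v 1 f)
    (k_x_y : G.Adj x y) (k_x_w : ¬ G.Adj x w) (k_x_z : G.Adj x z) (k_x_u : ¬ G.Adj x u) (k_y_z : ¬ G.Adj y z) (k_y_u : ¬ G.Adj y u) (k_w_z : ¬ G.Adj w z) (k_w_u : ¬ G.Adj w u) (k_e_y : ¬ G.Adj e y) (k_f_w : G.Adj f w) : False := by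
  have s1 : G.Adj u f := by
    by_contra h1
    exact M.sf (v 2) x f w (v 1) u (v 4)
        ((t_x 2).2 (by decide)).symm
        ((t_f 2).2 (by decide)).symm
        k_f_w
        ((M.c5 2 1).2 (by decide))
        ((t_u 1).2 (by decide)).symm
        ((t_u 4).2 (by decide))
        (M.sameA t_x t_f)
        k_x_w
        (fun h => absurd ((t_x 1).1 h) (by decide))
        k_x_u
        (fun h => absurd ((t_x 4).1 h) (by decide))
        (fun h => t_w 2 h.symm)
        (fun h => absurd ((t_u 2).1 h.symm) (by decide))
        (fun h => absurd ((M.c5 2 4).1 h) (by decide))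
        (fun h => absurd ((t_f 1).1 h) (by decide))
        (fun h => h1 h.symm)
        (fun h => absurd ((t_f 4).1 h) (by decide))
        (t_w 1)
        k_w_u
        (t_w 4)
        (fun h => absurd ((M.c5 1 4).1 h) (by decide))
  have s2 : G.Adj y f := by
    by_contra h2
    exact M.sf f w u (v 4) (v 2) x y
        k_f_w
        s1.symm
        ((t_u 4).2 (by decide))
        ((t_f 2).2 (by decide))
        ((t_x 2).2 (by decide)).symm
        k_x_y
        k_w_u
        (t_w 4)
        (t_w 2)
        (fun h => k_x_w h.symm)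
        (M.sameZ t_w t_y)
        (fun h => absurd ((t_f 4).1 h) (by decide))
        (M.sameA t_f t_x)
        (fun h => h2 h.symm)
        (fun h => absurd ((t_u 2).1 h) (by decide))
        (fun h => k_x_u h.symm)
        (fun h => k_y_u h.symm)
        (fun h => absurd ((M.c5 4 2).1 h) (by decide))
        (fun h => absurd ((t_x 4).1 h.symm) (by decide))
        (fun h => t_y 4 h.symm)
        (fun h => t_y 2 h.symm)
  exact M.sf u (v 1) (v 4) (v 3) f y x
        ((t_u 1).2 (by decide))
        ((t_u 4).2 (by decide))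
        ((M.c5 4 3).2 (by decide))
        s1
        s2.symm
        k_x_y.symm
        (fun h => absurd ((M.c5 1 4).1 h) (by decide))
        (fun h => absurd ((M.c5 1 3).1 h) (by decide))
        (fun h => absurd ((t_f 1).1 h.symm) (by decide))
        (fun h => t_y 1 h.symm)
        (fun h => absurd ((t_x 1).1 h.symm) (by decide))
        (fun h => absurd ((t_u 3).1 h) (by decide))
        (fun h => k_y_u h.symm)
        (fun h => k_x_u h.symm)
        (fun h => absurd ((t_f 4).1 h.symm) (by decide))
        (fun h => t_y 4 h.symm)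
        (fun h => absurd ((t_x 4).1 h.symm) (by decide))
        (fun h => absurd ((t_f 3).1 h.symm) (by decide))
        (fun h => t_y 3 h.symm)
        (fun h => absurd ((t_x 3).1 h.symm) (by decide))
        (M.sameA t_f t_x)

theorem pr_ZA0A1 (M : Ctx G v) {x y w z u e f : V}
    (t_x : IsZ G v x) (t_y : IsA G v 0 y) (t_w : IsA G v 0 w) (t_z : IsA G v 1 z) (t_u : IsA G v 1 u) (t_e : IsZ G v e) (t_f : IsZ G v f)
    (k_x_y : G.Adj x y) (k_x_w : ¬ G.Adj x w) (k_x_z : G.Adj x z) (k_x_u : ¬ G.Adj x u) (k_y_z : ¬ G.Adj y z) (k_y_u : ¬ G.Adj y u) (k_w_z : ¬ G.Adj w z) (k_w_u : ¬ G.Adj w u) (k_e_y : ¬ G.Adj e y) (k_f_w : G.Adj f w) : False := by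
  exact M.sf (v 4) w y x (v 0) u (v 2)
        ((t_w 4).2 (by decide)).symm
        ((t_y 4).2 (by decide)).symm
        k_x_y.symm
        ((M.c5 4 0).2 (by decide))
        ((t_u 0).2 (by decide)).symm
        ((t_u 2).2 (by decide))
        (M.sameA t_w t_y)
        (fun h => k_x_w h.symm)
        (fun h => absurd ((t_w 0).1 h) (by decide))
        k_w_u
        (fun h => absurd ((t_w 2).1 h) (by decide))
        (fun h => t_x 4 h.symm)
        (fun h => absurd ((t_u 4).1 h.symm) (by decide))
        (fun h => absurd ((M.c5 4 2).1 h) (by decide))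
        (fun h => absurd ((t_y 0).1 h) (by decide))
        k_y_u
        (fun h => absurd ((t_y 2).1 h) (by decide))
        (t_x 0)
        k_x_u
        (t_x 2)
        (fun h => absurd ((M.c5 0 2).1 h) (by decide))

theorem pr_ZA1A0 (M : Ctx G v) {x y w z u e f : V}
    (t_x : IsZ G v x) (t_y : IsA G v 1 y) (t_w : IsA G v 1 w) (t_z : IsA G v 0 z) (t_u : IsA G v 0 u) (t_e : IsZ G v e) (t_f : IsZ G v f)
    (k_x_y : G.Adj x y) (k_x_w : ¬ G.Adj x w) (k_x_z : G.Adj x z) (k_x_u : ¬ G.Adj x u) (k_y_z : ¬ G.Adj y z) (k_y_u : ¬ G.Adj y u) (k_w_z : ¬ G.Adj w z) (k_w_u : ¬ G.Adj w u) (k_e_y : ¬ G.Adj e y) (k_f_w : G.Adj f w) : False := by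
  exact M.sf (v 4) u z x (v 0) w (v 2)
        ((t_u 4).2 (by decide)).symm
        ((t_z 4).2 (by decide)).symm
        k_x_z.symm
        ((M.c5 4 0).2 (by decide))
        ((t_w 0).2 (by decide)).symm
        ((t_w 2).2 (by decide))
        (M.sameA t_u t_z)
        (fun h => k_x_u h.symm)
        (fun h => absurd ((t_u 0).1 h) (by decide))
        (fun h => k_w_u h.symm)
        (fun h => absurd ((t_u 2).1 h) (by decide))
        (fun h => t_x 4 h.symm)
        (fun h => absurd ((t_w 4).1 h.symm) (by decide))
        (fun h => absurd ((M.c5 4 2).1 h) (by decide))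
        (fun h => absurd ((t_z 0).1 h) (by decide))
        (fun h => k_w_z h.symm)
        (fun h => absurd ((t_z 2).1 h) (by decide))
        (t_x 0)
        k_x_w
        (t_x 2)
        (fun h => absurd ((M.c5 0 2).1 h) (by decide))

theorem ft2a (M : Ctx G v) {p q z a : V}
    (t_p : IsA G v 0 p) (t_q : IsA G v 1 q) (t_z : IsZ G v z) (t_a : IsZ G v a)
    (k_p_z : G.Adj p z) (k_q_z : ¬ G.Adj q z) (k_p_q : ¬ G.Adj p q) (k_q_a : G.Adj q a) : False := by
  have s1 : G.Adj p a := by
    by_contra h1
    exact M.sf (v 2) (v 3) q a (v 1) p z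
        ((M.c5 2 3).2 (by decide))
        ((t_q 2).2 (by decide)).symm
        k_q_a
        ((M.c5 2 1).2 (by decide))
        ((t_p 1).2 (by decide)).symm
        k_p_z
        (fun h => absurd ((t_q 3).1 h.symm) (by decide))
        (fun h => t_a 3 h.symm)
        (fun h => absurd ((M.c5 3 1).1 h) (by decide))
        (fun h => absurd ((t_p 3).1 h.symm) (by decide))
        (fun h => t_z 3 h.symm)
        (fun h => t_a 2 h.symm)
        (fun h => absurd ((t_p 2).1 h.symm) (by decide))
        (fun h => t_z 2 h.symm)
        (fun h => absurd ((t_q 1).1 h) (by decide))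
        (fun h => k_p_q h.symm)
        k_q_z
        (t_a 1)
        (fun h => h1 h.symm)
        (M.sameZ t_a t_z)
        (fun h => t_z 1 h.symm)
  exact M.sf q (v 0) (v 2) (v 3) a p z
        ((t_q 0).2 (by decide))
        ((t_q 2).2 (by decide))
        ((M.c5 2 3).2 (by decide))
        k_q_a
        s1.symm
        k_p_z
        (fun h => absurd ((M.c5 0 2).1 h) (by decide))
        (fun h => absurd ((M.c5 0 3).1 h) (by decide))
        (fun h => t_a 0 h.symm)
        (fun h => absurd ((t_p 0).1 h.symm) (by decide))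
        (fun h => t_z 0 h.symm)
        (fun h => absurd ((t_q 3).1 h) (by decide))
        (fun h => k_p_q h.symm)
        k_q_z
        (fun h => t_a 2 h.symm)
        (fun h => absurd ((t_p 2).1 h.symm) (by decide))
        (fun h => t_z 2 h.symm)
        (fun h => t_a 3 h.symm)
        (fun h => absurd ((t_p 3).1 h.symm) (by decide))
        (fun h => t_z 3 h.symm)
        (M.sameZ t_a t_z)

theorem ft2b (M : Ctx G v) {p q z a : V}
    (t_p : IsA G v 0 p) (t_q : IsA G v 1 q) (t_z : IsZ G v z) (t_a : IsZ G v a)
    (k_q_z : G.Adj q z) (k_p_z : ¬ G.Adj p z) (k_p_q : ¬ G.Adj p q) (k_p_a : G.Adj p a) : False := by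
  have s1 : G.Adj q a := by
    by_contra h1
    exact M.sf (v 2) (v 3) q z (v 1) p a
        ((M.c5 2 3).2 (by decide))
        ((t_q 2).2 (by decide)).symm
        k_q_z
        ((M.c5 2 1).2 (by decide))
        ((t_p 1).2 (by decide)).symm
        k_p_a
        (fun h => absurd ((t_q 3).1 h.symm) (by decide))
        (fun h => t_z 3 h.symm)
        (fun h => absurd ((M.c5 3 1).1 h) (by decide))
        (fun h => absurd ((t_p 3).1 h.symm) (by decide))
        (fun h => t_a 3 h.symm)
        (fun h => t_z 2 h.symm)
        (fun h => absurd ((t_p 2).1 h.symm) (by decide))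
        (fun h => t_a 2 h.symm)
        (fun h => absurd ((t_q 1).1 h) (by decide))
        (fun h => k_p_q h.symm)
        h1
        (t_z 1)
        (fun h => k_p_z h.symm)
        (M.sameZ t_z t_a)
        (fun h => t_a 1 h.symm)
  exact M.sf p (v 1) (v 4) (v 3) a q z
        ((t_p 1).2 (by decide))
        ((t_p 4).2 (by decide))
        ((M.c5 4 3).2 (by decide))
        k_p_a
        s1.symm
        k_q_z
        (fun h => absurd ((M.c5 1 4).1 h) (by decide))
        (fun h => absurd ((M.c5 1 3).1 h) (by decide))
        (fun h => t_a 1 h.symm)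
        (fun h => absurd ((t_q 1).1 h.symm) (by decide))
        (fun h => t_z 1 h.symm)
        (fun h => absurd ((t_p 3).1 h) (by decide))
        k_p_q
        k_p_z
        (fun h => t_a 4 h.symm)
        (fun h => absurd ((t_q 4).1 h.symm) (by decide))
        (fun h => t_z 4 h.symm)
        (fun h => t_a 3 h.symm)
        (fun h => absurd ((t_q 3).1 h.symm) (by decide))
        (fun h => t_z 3 h.symm)
        (M.sameZ t_a t_z)

theorem l2_P5a (M : Ctx G v) {q r R p : V}
    (t_q : IsA G v 1 q) (t_r : IsB G v 3 r) (t_R : IsB G v 3 R) (t_p : IsA G v 0 p)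
    (k_q_r : ¬ G.Adj q r) (k_q_R : ¬ G.Adj q R) (k_p_q : ¬ G.Adj p q) (k_p_r : ¬ G.Adj p r) (k_p_R : G.Adj p R) : False := by
  exact M.sf (v 3) r R p (v 2) q (v 0)
        ((t_r 3).2 (by decide)).symm
        ((t_R 3).2 (by decide)).symm
        k_p_R.symm
        ((M.c5 3 2).2 (by decide))
        ((t_q 2).2 (by decide)).symm
        ((t_q 0).2 (by decide))
        (M.sameB t_r t_R)
        (fun h => k_p_r h.symm)
        (fun h => absurd ((t_r 2).1 h) (by decide))
        (fun h => k_q_r h.symm)
        (fun h => absurd ((t_r 0).1 h) (by decide))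
        (fun h => absurd ((t_p 3).1 h.symm) (by decide))
        (fun h => absurd ((t_q 3).1 h.symm) (by decide))
        (fun h => absurd ((M.c5 3 0).1 h) (by decide))
        (fun h => absurd ((t_R 2).1 h) (by decide))
        (fun h => k_q_R h.symm)
        (fun h => absurd ((t_R 0).1 h) (by decide))
        (fun h => absurd ((t_p 2).1 h) (by decide))
        k_p_q
        (fun h => absurd ((t_p 0).1 h) (by decide))
        (fun h => absurd ((M.c5 2 0).1 h) (by decide))

theorem l2_P5b (M : Ctx G v) {q r R p s : V}
    (t_q : IsA G v 1 q) (t_r : IsB G v 3 r) (t_R : IsB G v 3 R) (t_p : IsA G v 0 p) (t_s : IsA G v 0 s)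
    (k_q_r : ¬ G.Adj q r) (k_q_R : ¬ G.Adj q R) (k_p_q : ¬ G.Adj p q) (k_p_r : ¬ G.Adj p r) (k_p_R : ¬ G.Adj p R) (k_s_r : G.Adj s r) (k_s_R : ¬ G.Adj s R) : False := by
  have s1 : G.Adj q s := by
    by_contra h1
    exact M.sf (v 1) p (v 0) q s r (v 3)
        ((t_p 1).2 (by decide)).symm
        ((M.c5 1 0).2 (by decide))
        ((t_q 0).2 (by decide)).symm
        ((t_s 1).2 (by decide)).symm
        k_s_r
        ((t_r 3).2 (by decide))
        (fun h => absurd ((t_p 0).1 h) (by decide))
        k_p_q
        (M.sameA t_p t_s)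
        k_p_r
        (fun h => absurd ((t_p 3).1 h) (by decide))
        (fun h => absurd ((t_q 1).1 h.symm) (by decide))
        (fun h => absurd ((t_r 1).1 h.symm) (by decide))
        (fun h => absurd ((M.c5 1 3).1 h) (by decide))
        (fun h => absurd ((t_s 0).1 h.symm) (by decide))
        (fun h => absurd ((t_r 0).1 h.symm) (by decide))
        (fun h => absurd ((M.c5 0 3).1 h) (by decide))
        h1
        k_q_r
        (fun h => absurd ((t_q 3).1 h) (by decide))
        (fun h => absurd ((t_s 3).1 h) (by decide))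
  exact M.sf s q (v 1) p r (v 3) R
        s1.symm
        ((t_s 1).2 (by decide))
        ((t_p 1).2 (by decide)).symm
        k_s_r
        ((t_r 3).2 (by decide))
        ((t_R 3).2 (by decide)).symm
        (fun h => absurd ((t_q 1).1 h) (by decide))
        (fun h => k_p_q h.symm)
        k_q_r
        (fun h => absurd ((t_q 3).1 h) (by decide))
        k_q_R
        (M.sameA t_s t_p)
        (fun h => absurd ((t_s 3).1 h) (by decide))
        k_s_R
        (fun h => absurd ((t_r 1).1 h.symm) (by decide))
        (fun h => absurd ((M.c5 1 3).1 h) (by decide))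
        (fun h => absurd ((t_R 1).1 h.symm) (by decide))
        k_p_r
        (fun h => absurd ((t_p 3).1 h) (by decide))
        k_p_R
        (M.sameB t_r t_R)

theorem l2_P6 (M : Ctx G v) {q r R p s : V}
    (t_q : IsA G v 1 q) (t_r : IsB G v 3 r) (t_R : IsB G v 3 R) (t_p : IsA G v 0 p) (t_s : IsA G v 0 s)
    (k_q_r : ¬ G.Adj q r) (k_q_R : G.Adj q R) (k_p_q : ¬ G.Adj p q) (k_p_r : ¬ G.Adj p r) (k_s_q : ¬ G.Adj s q) (k_s_R : ¬ G.Adj s R) : False := by
  have s1 : G.Adj r s := by
    by_contra h1
    exact M.sf (v 3) r R q (v 4) s (v 1)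
        ((t_r 3).2 (by decide)).symm
        ((t_R 3).2 (by decide)).symm
        k_q_R.symm
        ((M.c5 3 4).2 (by decide))
        ((t_s 4).2 (by decide)).symm
        ((t_s 1).2 (by decide))
        (M.sameB t_r t_R)
        (fun h => k_q_r h.symm)
        (fun h => absurd ((t_r 4).1 h) (by decide))
        h1
        (fun h => absurd ((t_r 1).1 h) (by decide))
        (fun h => absurd ((t_q 3).1 h.symm) (by decide))
        (fun h => absurd ((t_s 3).1 h.symm) (by decide))
        (fun h => absurd ((M.c5 3 1).1 h) (by decide))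
        (fun h => absurd ((t_R 4).1 h) (by decide))
        (fun h => k_s_R h.symm)
        (fun h => absurd ((t_R 1).1 h) (by decide))
        (fun h => absurd ((t_q 4).1 h) (by decide))
        (fun h => k_s_q h.symm)
        (fun h => absurd ((t_q 1).1 h) (by decide))
        (fun h => absurd ((M.c5 4 1).1 h) (by decide))
  exact M.sf (v 1) p (v 0) q s r (v 3)
        ((t_p 1).2 (by decide)).symm
        ((M.c5 1 0).2 (by decide))
        ((t_q 0).2 (by decide)).symm
        ((t_s 1).2 (by decide)).symm
        s1.symm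
        ((t_r 3).2 (by decide))
        (fun h => absurd ((t_p 0).1 h) (by decide))
        k_p_q
        (M.sameA t_p t_s)
        k_p_r
        (fun h => absurd ((t_p 3).1 h) (by decide))
        (fun h => absurd ((t_q 1).1 h.symm) (by decide))
        (fun h => absurd ((t_r 1).1 h.symm) (by decide))
        (fun h => absurd ((M.c5 1 3).1 h) (by decide))
        (fun h => absurd ((t_s 0).1 h.symm) (by decide))
        (fun h => absurd ((t_r 0).1 h.symm) (by decide))
        (fun h => absurd ((M.c5 0 3).1 h) (by decide))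
        (fun h => k_s_q h.symm)
        k_q_r
        (fun h => absurd ((t_q 3).1 h) (by decide))
        (fun h => absurd ((t_s 3).1 h) (by decide))

theorem wc1 (M : Ctx G v) {z b a c : V}
    (t_z : IsZ G v z) (t_b : IsB G v 0 b) (t_a : IsA G v 0 a) (t_c : IsA G v 0 c)
    (k_z_b : G.Adj z b) (k_a_z : G.Adj a z) (k_c_z : ¬ G.Adj c z) (k_c_b : ¬ G.Adj c b) : False := by
  exact M.sf (v 1) c (v 2) (v 3) (v 0) b z
        ((t_c 1).2 (by decide)).symm
        ((M.c5 1 2).2 (by decide))
        ((M.c5 2 3).2 (by decide))
        ((M.c5 1 0).2 (by decide))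
        ((t_b 0).2 (by decide)).symm
        k_z_b.symm
        (fun h => absurd ((t_c 2).1 h) (by decide))
        (fun h => absurd ((t_c 3).1 h) (by decide))
        (fun h => absurd ((t_c 0).1 h) (by decide))
        k_c_b
        k_c_z
        (fun h => absurd ((M.c5 1 3).1 h) (by decide))
        (fun h => absurd ((t_b 1).1 h.symm) (by decide))
        (fun h => t_z 1 h.symm)
        (fun h => absurd ((M.c5 2 0).1 h) (by decide))
        (fun h => absurd ((t_b 2).1 h.symm) (by decide))
        (fun h => t_z 2 h.symm)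
        (fun h => absurd ((M.c5 3 0).1 h) (by decide))
        (fun h => absurd ((t_b 3).1 h.symm) (by decide))
        (fun h => t_z 3 h.symm)
        (fun h => t_z 0 h.symm)

theorem wc2 (M : Ctx G v) {z b a c : V}
    (t_z : IsZ G v z) (t_b : IsB G v 0 b) (t_a : IsA G v 0 a) (t_c : IsA G v 0 c)
    (k_z_b : G.Adj z b) (k_a_b : G.Adj a b) (k_c_z : ¬ G.Adj c z) (k_c_b : ¬ G.Adj c b) : False := by
  exact M.sf (v 1) c (v 2) (v 3) (v 0) b z
        ((t_c 1).2 (by decide)).symm
        ((M.c5 1 2).2 (by decide))
        ((M.c5 2 3).2 (by decide))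
        ((M.c5 1 0).2 (by decide))
        ((t_b 0).2 (by decide)).symm
        k_z_b.symm
        (fun h => absurd ((t_c 2).1 h) (by decide))
        (fun h => absurd ((t_c 3).1 h) (by decide))
        (fun h => absurd ((t_c 0).1 h) (by decide))
        k_c_b
        k_c_z
        (fun h => absurd ((M.c5 1 3).1 h) (by decide))
        (fun h => absurd ((t_b 1).1 h.symm) (by decide))
        (fun h => t_z 1 h.symm)
        (fun h => absurd ((M.c5 2 0).1 h) (by decide))
        (fun h => absurd ((t_b 2).1 h.symm) (by decide))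
        (fun h => t_z 2 h.symm)
        (fun h => absurd ((M.c5 3 0).1 h) (by decide))
        (fun h => absurd ((t_b 3).1 h.symm) (by decide))
        (fun h => t_z 3 h.symm)
        (fun h => t_z 0 h.symm)

theorem wsf_zb (M : Ctx G v) {c B D a b d e : V}
    (t_c : IsA G v 0 c) (t_B : IsA G v 0 B) (t_D : IsA G v 0 D) (t_a : IsZ G v a) (t_b : IsZ G v b) (t_d : IsZ G v d) (t_e : IsB G v 0 e)
    (k_c_a : G.Adj c a) (k_c_b : G.Adj c b) (k_b_B : G.Adj b B) (k_c_d : G.Adj c d) (k_d_D : G.Adj d D) (k_D_e : G.Adj D e) (k_B_a : ¬ G.Adj B a) (k_B_d : ¬ G.Adj B d) (k_B_e : ¬ G.Adj B e) (k_D_a : ¬ G.Adj D a) (k_D_b : ¬ G.Adj D b) (k_c_e : ¬ G.Adj c e) (k_b_e : G.Adj b e) : False := by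
  have s1 : G.Adj a e := by
    by_contra h1
    exact M.sf c a b e (v 1) (v 2) (v 3)
        k_c_a
        k_c_b
        k_b_e
        ((t_c 1).2 (by decide))
        ((M.c5 1 2).2 (by decide))
        ((M.c5 2 3).2 (by decide))
        (M.sameZ t_a t_b)
        h1
        (t_a 1)
        (t_a 2)
        (t_a 3)
        k_c_e
        (fun h => absurd ((t_c 2).1 h) (by decide))
        (fun h => absurd ((t_c 3).1 h) (by decide))
        (t_b 1)
        (t_b 2)
        (t_b 3)
        (fun h => absurd ((t_e 1).1 h) (by decide))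
        (fun h => absurd ((t_e 2).1 h) (by decide))
        (fun h => absurd ((t_e 3).1 h) (by decide))
        (fun h => absurd ((M.c5 1 3).1 h) (by decide))
  exact M.sf (v 1) B (v 2) (v 3) (v 0) e a
        ((t_B 1).2 (by decide)).symm
        ((M.c5 1 2).2 (by decide))
        ((M.c5 2 3).2 (by decide))
        ((M.c5 1 0).2 (by decide))
        ((t_e 0).2 (by decide)).symm
        s1.symm
        (fun h => absurd ((t_B 2).1 h) (by decide))
        (fun h => absurd ((t_B 3).1 h) (by decide))
        (fun h => absurd ((t_B 0).1 h) (by decide))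
        k_B_e
        k_B_a
        (fun h => absurd ((M.c5 1 3).1 h) (by decide))
        (fun h => absurd ((t_e 1).1 h.symm) (by decide))
        (fun h => t_a 1 h.symm)
        (fun h => absurd ((M.c5 2 0).1 h) (by decide))
        (fun h => absurd ((t_e 2).1 h.symm) (by decide))
        (fun h => t_a 2 h.symm)
        (fun h => absurd ((M.c5 3 0).1 h) (by decide))
        (fun h => absurd ((t_e 3).1 h.symm) (by decide))
        (fun h => t_a 3 h.symm)
        (fun h => t_a 0 h.symm)

theorem wsf_bz (M : Ctx G v) {c B D a b d e : V}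
    (t_c : IsA G v 0 c) (t_B : IsA G v 0 B) (t_D : IsA G v 0 D) (t_a : IsZ G v a) (t_b : IsB G v 0 b) (t_d : IsZ G v d) (t_e : IsZ G v e)
    (k_c_a : G.Adj c a) (k_c_b : G.Adj c b) (k_b_B : G.Adj b B) (k_c_d : G.Adj c d) (k_d_D : G.Adj d D) (k_D_e : G.Adj D e) (k_B_a : ¬ G.Adj B a) (k_B_d : ¬ G.Adj B d) (k_B_e : ¬ G.Adj B e) (k_D_a : ¬ G.Adj D a) (k_D_b : ¬ G.Adj D b) (k_c_e : ¬ G.Adj c e) (k_b_e : G.Adj b e) : False := by
  have s1 : G.Adj a b := by
    by_contra h1
    exact M.sf c a b e (v 1) (v 2) (v 3)
        k_c_a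
        k_c_b
        k_b_e
        ((t_c 1).2 (by decide))
        ((M.c5 1 2).2 (by decide))
        ((M.c5 2 3).2 (by decide))
        h1
        (M.sameZ t_a t_e)
        (t_a 1)
        (t_a 2)
        (t_a 3)
        k_c_e
        (fun h => absurd ((t_c 2).1 h) (by decide))
        (fun h => absurd ((t_c 3).1 h) (by decide))
        (fun h => absurd ((t_b 1).1 h) (by decide))
        (fun h => absurd ((t_b 2).1 h) (by decide))
        (fun h => absurd ((t_b 3).1 h) (by decide))
        (t_e 1)
        (t_e 2)
        (t_e 3)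
        (fun h => absurd ((M.c5 1 3).1 h) (by decide))
  exact M.kf a b c s1 k_c_b.symm k_c_a.symm

end Pool.Agent.CWB.Local
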