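import Pool.Agent.CWB.DecBasic

/-!
# ODD: connected, triangle-free, C₅-free, S₁,₂,₃-free, not bipartite

`blowup`: take a shortest odd cycle `c : ZMod k → V`; it is induced and `k ≥ 7` is odd (no triangle, no
induced `C₅`; a shortest odd closed walk is an induced cycle).  For every vertex `x`: any two
neighbours `c i, c j` of `x` on the cycle are at distance exactly 2 (otherwise there is a shorter odd closed walk:
the odd one of the two arcs between them, of length `≥ ...`, plus two edges; the odd arc has length `≥ k - 2`), so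
(k ≥ 7) `x` has at most two neighbours.
* exactly one neighbour `c i`: centre `c i`; leaf `x`; path `c (i+1) c (i+2)`; path `c (i-1) c (i-2) c (i-3)` (k ≥ 7).
* so every vertex has type `A i` (neighbours `c (i-1), c (i+1)`; includes the cycle) or no neighbour on the cycle.  If the
  latter occur, by connectedness some such `z` is adjacent to some `x` of type `A i`:
  centre `x`; leaf `z`; path `c (i+1) c (i+2)`; path `c (i-1) c (i-2) c (i-3)`.  So they do not occur.
* `x : A i`, `y : A j`: replacing `c i` by `x` one gets another shortest odd cycle, and the type of `y` with respect to it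
  shows: `x ~ y` iff `j = i ± 1`.
`dec_blowup`: `dec_linear` with a rank such that `t` (as a number `0 ≤ t < k`) is weakly increasing
(e.g. `r x = (t x).val * (card V) + index x`).  Classes of a prefix ending inside `t = j`: `t = 0`; `t = j-1`; `t = j`; rest
(has no neighbours outside the prefix).
-/

namespace Pool.Agent.CWB

section OddC

variable {V : Type*} {G : SimpleGraph V} {k : ℕ}

private theorem oc_walk {c : ZMod k → V} (hc : ∀ i, G.Adj (c i) (c (i + 1))) (i : ZMod k) (n : ℕ) :
    ∃ w : G.Walk (c i) (c (i + n)), w.length = n := by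
  induction n with
  | zero =>
    have e : i + ((0 : ℕ) : ZMod k) = i := by simp
    rw [e]
    exact ⟨SimpleGraph.Walk.nil, rfl⟩
  | succ n ih =>
    obtain ⟨w, hw⟩ := ih
    have h := hc (i + n)
    have e : i + ((n + 1 : ℕ) : ZMod k) = i + n + 1 := by push_cast; ring
    rw [e]
    exact ⟨w.concat h, by rw [SimpleGraph.Walk.length_concat, hw]⟩

private theorem oc_two (hk : Odd k)
    (hmin : ∀ (v : V) (w : G.Walk v v), Odd w.length → k ≤ w.length)
    {c : ZMod k → V} (hc : ∀ i, G.Adj (c i) (c (i + 1))) {x : V} {i j : ZMod k}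
    (hi : G.Adj x (c i)) (hj : G.Adj x (c j)) : j = i ∨ j = i + 2 ∨ i = j + 2 := by
  have : NeZero k := ⟨by rintro rfl; simp at hk⟩
  set n := (j - i).val with hn
  have hnk : n < k := ZMod.val_lt _
  have hj' : i + (n : ZMod k) = j := by rw [hn, ZMod.natCast_zmod_val]; ring
  have hi' : j + ((k - n : ℕ) : ZMod k) = i := by
    rw [Nat.cast_sub hnk.le, ZMod.natCast_self, ← hj']; ring
  have h1 : ∃ w : G.Walk (c i) (c j), w.length = n := by
    have := oc_walk hc i n
    rwa [hj'] at this
  have h2 : ∃ w : G.Walk (c j) (c i), w.length = k - n := by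
    have := oc_walk hc j (k - n)
    rwa [hi'] at this
  obtain ⟨w1, hw1⟩ := h1
  obtain ⟨w2, hw2⟩ := h2
  have l1 : ((SimpleGraph.Walk.cons hi w1).concat hj.symm).length = n + 2 := by
    rw [SimpleGraph.Walk.length_concat, SimpleGraph.Walk.length_cons, hw1]
  have l2 : ((SimpleGraph.Walk.cons hj w2).concat hi.symm).length = k - n + 2 := by
    rw [SimpleGraph.Walk.length_concat, SimpleGraph.Walk.length_cons, hw2]
  have m1 := hmin x ((SimpleGraph.Walk.cons hi w1).concat hj.symm)
  have m2 := hmin x ((SimpleGraph.Walk.cons hj w2).concat hi.symm)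
  rw [l1] at m1
  rw [l2] at m2
  rcases Nat.even_or_odd n with he | ho
  · have h3 : Odd (k - n + 2) := by
      rw [Nat.odd_iff] at *
      rw [Nat.even_iff] at he
      omega
    have h4 := m2 h3
    have h5 : n = 0 ∨ n = 2 := by
      rw [Nat.even_iff] at he
      omega
    rcases h5 with h5 | h5
    · left; rw [← hj', h5]; simp
    · right; left; rw [← hj', h5]; simp
  · have h3 : Odd (n + 2) := by
      rw [Nat.odd_iff] at *
      omega
    have h4 := m1 h3
    have h5 : k - n = 2 := by
      rw [Nat.odd_iff] at *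
      omega
    right; right
    rw [← hi', h5]; simp

private theorem oc_zne (hk : 7 ≤ k) (i : ZMod k) {a b : ℤ} (h : a ≠ b) (h1 : a - b ≤ 6)
    (h2 : b - a ≤ 6) : i + (a : ZMod k) ≠ i + (b : ZMod k) := by
  intro e
  have e1 : ((a - b : ℤ) : ZMod k) = 0 := by
    push_cast
    linear_combination e
  rw [ZMod.intCast_zmod_eq_zero_iff_dvd] at e1
  have e2 : a - b = 0 := by
    refine Int.eq_zero_of_abs_lt_dvd e1 ?_
    rw [abs_lt]
    constructor <;> omega
  omega

/-- induced -/
private theorem oc_ind (hk : Odd k) (hk5 : 5 ≤ k)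
    (hmin : ∀ (v : V) (w : G.Walk v v), Odd w.length → k ≤ w.length)
    {c : ZMod k → V} (hc : ∀ i, G.Adj (c i) (c (i + 1))) (i j : ZMod k) :
    G.Adj (c i) (c j) ↔ (j = i + 1 ∨ i = j + 1) := by
  have nz : ∀ n : ℕ, (n : ZMod k) = 0 → k ∣ n := fun n h => (ZMod.natCast_eq_zero_iff n k).1 h
  have h2 : (2 : ZMod k) ≠ 0 := by
    intro h
    have := Nat.le_of_dvd (by norm_num) (nz 2 (by exact_mod_cast h))
    omega
  have h4 : (4 : ZMod k) ≠ 0 := by
    intro h
    have := Nat.le_of_dvd (by norm_num) (nz 4 (by exact_mod_cast h))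
    omega
  have h6 : (6 : ZMod k) ≠ 0 := by
    intro h
    have h' := nz 6 (by exact_mod_cast h)
    have := Nat.le_of_dvd (by norm_num) h'
    rw [Nat.odd_iff] at hk
    have h'' : k = 5 := by omega
    subst h''
    norm_num at h'
  constructor
  · intro h
    have a1 := oc_two hk hmin hc (hc i) h
    have hi1 : G.Adj (c i) (c (i - 1)) := by
      have := hc (i - 1)
      rw [sub_add_cancel] at this
      exact this.symm
    have a2 := oc_two hk hmin hc hi1 h
    rcases a1 with a1 | a1 | a1
    · left; exact a1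
    · exfalso
      rcases a2 with a2 | a2 | a2
      · exact h4 (by linear_combination a2 - a1)
      · exact h2 (by linear_combination a2 - a1)
      · exact h6 (by linear_combination - a2 - a1)
    · right
      linear_combination a1
  · rintro (h | h)
    · rw [h]; exact hc i
    · rw [h]; exact (hc j).symm

private theorem oc_noS (hS : SF G.Adj) (hk : 7 ≤ k) {c : ZMod k → V}
    (hind : ∀ i j, G.Adj (c i) (c j) ↔ (j = i + 1 ∨ i = j + 1)) (i : ZMod k) {o z : V}
    (hoz : G.Adj o z) (ho : ∀ j, G.Adj o (c j) ↔ (j = i + 1 ∨ i = j + 1))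
    (hz : ∀ j, j ≠ i → ¬ G.Adj z (c j)) : False := by
  have hd : ∀ a b : ℤ, a - b ≤ 5 → b - a ≤ 5 →
      (G.Adj (c (i + (a : ZMod k))) (c (i + (b : ZMod k))) ↔ (b = a + 1 ∨ a = b + 1)) := by
    intro a b h1 h2
    rw [hind]
    constructor
    · rintro (h | h)
      · left
        by_contra hne
        refine oc_zne hk i (a := b) (b := a + 1) hne (by omega) (by omega) ?_
        rw [h]; push_cast; ring
      · right
        by_contra hne
        refine oc_zne hk i (a := a) (b := b + 1) hne (by omega) (by omega) ?_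
        rw [h]; push_cast; ring
    · rintro (h | h)
      · left; rw [h]; push_cast; ring
      · right; rw [h]; push_cast; ring
  have hod : ∀ a : ℤ, a ≤ 5 → -5 ≤ a →
      (G.Adj o (c (i + (a : ZMod k))) ↔ (a = 1 ∨ a = -1)) := by
    intro a h1 h2
    rw [ho]
    constructor
    · rintro (h | h)
      · left
        by_contra hne
        refine oc_zne hk i (a := a) (b := 1) hne (by omega) (by omega) ?_
        rw [h]; push_cast; ring
      · right
        by_contra hne
        refine oc_zne hk i (a := a) (b := -1) hne (by omega) (by omega) ?_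
        push_cast
        linear_combination -h
    · rintro (h | h)
      · left; rw [h]; push_cast; ring
      · right; rw [h]; push_cast; ring
  have hzd : ∀ a : ℤ, a ≠ 0 → a ≤ 5 → -5 ≤ a → ¬ G.Adj z (c (i + (a : ZMod k))) := by
    intro a h0 h1 h2
    refine hz _ fun h => oc_zne hk i (a := a) (b := 0) h0 (by omega) (by omega) ?_
    rw [h]; push_cast; ring
  refine hS o z (c (i + ((1 : ℤ) : ZMod k))) (c (i + ((2 : ℤ) : ZMod k)))
    (c (i + ((-1 : ℤ) : ZMod k))) (c (i + ((-2 : ℤ) : ZMod k))) (c (i + ((-3 : ℤ) : ZMod k)))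
    hoz ?_ ?_ ?_ ?_ ?_ ?_ ?_ ?_ ?_ ?_ ?_ ?_ ?_ ?_ ?_ ?_ ?_ ?_ ?_ ?_
  · rw [hod _ (by norm_num) (by norm_num)]; norm_num
  · rw [hd _ _ (by norm_num) (by norm_num)]; norm_num
  · rw [hod _ (by norm_num) (by norm_num)]; norm_num
  · rw [hd _ _ (by norm_num) (by norm_num)]; norm_num
  · rw [hd _ _ (by norm_num) (by norm_num)]; norm_num
  · exact hzd _ (by norm_num) (by norm_num) (by norm_num)
  · exact hzd _ (by norm_num) (by norm_num) (by norm_num)
  · exact hzd _ (by norm_num) (by norm_num) (by norm_num)
  · exact hzd _ (by norm_num) (by norm_num) (by norm_num)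
  · exact hzd _ (by norm_num) (by norm_num) (by norm_num)
  · rw [hod _ (by norm_num) (by norm_num)]; norm_num
  · rw [hod _ (by norm_num) (by norm_num)]; norm_num
  · rw [hod _ (by norm_num) (by norm_num)]; norm_num
  · rw [hd _ _ (by norm_num) (by norm_num)]; norm_num
  · rw [hd _ _ (by norm_num) (by norm_num)]; norm_num
  · rw [hd _ _ (by norm_num) (by norm_num)]; norm_num
  · rw [hd _ _ (by norm_num) (by norm_num)]; norm_num
  · rw [hd _ _ (by norm_num) (by norm_num)]; norm_num
  · rw [hd _ _ (by norm_num) (by norm_num)]; norm_num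
  · rw [hd _ _ (by norm_num) (by norm_num)]; norm_num

private theorem oc_nz (hk : 7 ≤ k) {n : ℕ} (h0 : 0 < n) (h7 : n < 7) : (n : ZMod k) ≠ 0 := by
  intro h
  have := Nat.le_of_dvd h0 ((ZMod.natCast_eq_zero_iff n k).1 h)
  omega

/-- every vertex has a type -/
private theorem oc_type (hS : SF G.Adj) (hconn : G.Connected) (hk : Odd k) (hk7 : 7 ≤ k)
    (hmin : ∀ (v : V) (w : G.Walk v v), Odd w.length → k ≤ w.length)
    {c : ZMod k → V} (hc : ∀ i, G.Adj (c i) (c (i + 1))) (x : V) :
    ∃ i, ∀ j, G.Adj x (c j) ↔ (j = i + 1 ∨ i = j + 1) := by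
  have hind := oc_ind hk (by omega) hmin hc
  have h2 : (2 : ZMod k) ≠ 0 := by exact_mod_cast oc_nz hk7 (n := 2) (by norm_num) (by norm_num)
  have h4 : (4 : ZMod k) ≠ 0 := by exact_mod_cast oc_nz hk7 (n := 4) (by norm_num) (by norm_num)
  have h6 : (6 : ZMod k) ≠ 0 := by exact_mod_cast oc_nz hk7 (n := 6) (by norm_num) (by norm_num)
  -- two neighbours
  have htwo : ∀ (y : V) (a : ZMod k), G.Adj y (c a) → G.Adj y (c (a + 2)) →
      ∀ j, G.Adj y (c j) ↔ (j = a + 1 + 1 ∨ a + 1 = j + 1) := by
    intro y a ha ha2 j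
    constructor
    · intro h
      have a1 := oc_two hk hmin hc ha h
      have a2 := oc_two hk hmin hc ha2 h
      rcases a1 with a1 | a1 | a1
      · right; rw [a1]
      · left; rw [a1]; ring
      · exfalso
        rcases a2 with a2 | a2 | a2
        · exact h4 (by linear_combination - a1 - a2)
        · exact h6 (by linear_combination - a1 - a2)
        · exact h2 (by linear_combination a2 - a1)
    · rintro (h | h)
      · rw [h, add_assoc, one_add_one_eq_two]; exact ha2
      · have : j = a := by linear_combination -h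
        rw [this]; exact ha
  have htype : ∀ y : V, (∃ j, G.Adj y (c j)) → ∃ i, ∀ j, G.Adj y (c j) ↔ (j = i + 1 ∨ i = j + 1) := by
    rintro y ⟨a, ha⟩
    by_cases hex : ∃ b, b ≠ a ∧ G.Adj y (c b)
    · obtain ⟨b, hba, hb⟩ := hex
      rcases oc_two hk hmin hc ha hb with h | h | h
      · exact absurd h hba
      · rw [h] at hb
        exact ⟨a + 1, htwo y a ha hb⟩
      · rw [h] at ha
        exact ⟨b + 1, htwo y b hb ha⟩
    · exfalso
      push Not at hex
      exact oc_noS hS hk7 hind a ha.symm (fun j => hind a j) fun j hj => hex j hj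
  have hall : ∀ y : V, ∃ j, G.Adj y (c j) := by
    by_contra hcon
    push Not at hcon
    obtain ⟨z0, hz0⟩ := hcon
    obtain ⟨p⟩ := hconn.preconnected z0 (c 0)
    obtain ⟨d, -, hd1, hd2⟩ := p.exists_boundary_dart {y | ∀ j, ¬ G.Adj y (c j)} hz0
      (fun h => h (0 + 1) (hc 0))
    have hd2' : ∃ j, G.Adj d.snd (c j) := by
      by_contra h
      push Not at h
      exact hd2 h
    obtain ⟨i, hi⟩ := htype _ hd2'
    exact oc_noS hS hk7 hind i d.adj.symm hi fun j _ => hd1 j
  exact htype x (hall x)

end OddC

theorem blowup {V : Type*} [Finite V] {G : SimpleGraph V} (hK : KF G.Adj) (hS : SF G.Adj)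
    (hconn : G.Connected)
    (h5 : ¬ ∃ v : ZMod 5 → V, ∀ i j, G.Adj (v i) (v j) ↔ (j = i + 1 ∨ i = j + 1))
    (hnb : ¬ G.Colorable 2) :
    ∃ (k : ℕ) (_ : 7 ≤ k) (t : V → ZMod k), ∀ x y, G.Adj x y ↔ (t y = t x + 1 ∨ t x = t y + 1) := by
  classical
  -- the shortest odd closed walk
  have hex : ∃ n : ℕ, ∃ (v : V) (w : G.Walk v v), Odd w.length ∧ w.length = n := by
    rw [SimpleGraph.two_colorable_iff_forall_loop_even] at hnb
    push Not at hnb
    obtain ⟨u, w, hw⟩ := hnb
    exact ⟨w.length, u, w, by rwa [Nat.not_even_iff_odd] at hw, rfl⟩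
  obtain ⟨k, hkdef⟩ : ∃ k, k = Nat.find hex := ⟨_, rfl⟩
  obtain ⟨u, w, hwo, hwk⟩ := Nat.find_spec hex
  rw [← hkdef] at hwk
  have hk : Odd k := by rw [← hwk]; exact hwo
  have hmin : ∀ (v : V) (w : G.Walk v v), Odd w.length → k ≤ w.length := by
    intro v w' hw'
    rw [hkdef]
    exact Nat.find_min' hex ⟨v, w', hw', rfl⟩
  have : NeZero k := ⟨by rintro rfl; simp at hk⟩
  -- the cycle
  obtain ⟨c, hc⟩ : ∃ c : ZMod k → V, ∀ i, G.Adj (c i) (c (i + 1)) := by
    refine ⟨fun i => w.getVert i.val, fun i => ?_⟩
    have hi : i.val < k := ZMod.val_lt i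
    have hadj : G.Adj (w.getVert i.val) (w.getVert (i.val + 1)) :=
      w.adj_getVert_succ (by omega)
    by_cases h : i.val + 1 < k
    · have e : (i + 1).val = i.val + 1 := by
        have h1 : i + 1 = ((i.val + 1 : ℕ) : ZMod k) := by
          rw [Nat.cast_add, ZMod.natCast_zmod_val, Nat.cast_one]
        rw [h1, ZMod.val_natCast, Nat.mod_eq_of_lt h]
      show G.Adj (w.getVert i.val) (w.getVert (i + 1).val)
      rw [e]
      exact hadj
    · have e1 : i.val + 1 = k := by omega
      have e : i + 1 = 0 := by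
        have h1 : ((i.val + 1 : ℕ) : ZMod k) = 0 := by rw [e1, ZMod.natCast_self]
        rwa [Nat.cast_add, ZMod.natCast_zmod_val, Nat.cast_one] at h1
      show G.Adj (w.getVert i.val) (w.getVert (i + 1).val)
      have hl : w.getVert (i.val + 1) = u := by
        have e2 : i.val + 1 = w.length := by omega
        rw [e2]
        exact w.getVert_length
      rw [e, ZMod.val_zero, SimpleGraph.Walk.getVert_zero]
      rw [hl] at hadj
      exact hadj
  -- `k ≥ 7`
  have hk1 : k ≠ 1 := by
    rintro rfl
    have h1 := hc 0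
    have e : (0 + 1 : ZMod 1) = 0 := Subsingleton.elim _ _
    rw [e] at h1
    exact G.loopless.irrefl _ h1
  have hk3 : k ≠ 3 := by
    rintro rfl
    have h1 := hc 0
    have h2 := hc 1
    have h3 := hc 2
    have e1 : (0 + 1 : ZMod 3) = 1 := by decide
    have e2 : (1 + 1 : ZMod 3) = 2 := by decide
    have e3 : (2 + 1 : ZMod 3) = 0 := by decide
    rw [e1] at h1
    rw [e2] at h2
    rw [e3] at h3
    exact hK _ _ _ h1 h2 h3.symm
  have hk5' : 5 ≤ k := by
    rw [Nat.odd_iff] at hk
    omega
  have hind := oc_ind hk hk5' hmin hc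
  have hk5 : k ≠ 5 := by
    intro h
    subst h
    exact h5 ⟨c, hind⟩
  have hk7 : 7 ≤ k := by
    rw [Nat.odd_iff] at hk
    omega
  have h1 : (1 : ZMod k) ≠ 0 := by exact_mod_cast oc_nz hk7 (n := 1) (by norm_num) (by norm_num)
  have h2 : (2 : ZMod k) ≠ 0 := by exact_mod_cast oc_nz hk7 (n := 2) (by norm_num) (by norm_num)
  have h4 : (4 : ZMod k) ≠ 0 := by exact_mod_cast oc_nz hk7 (n := 4) (by norm_num) (by norm_num)
  choose t ht using fun x => oc_type hS hconn hk hk7 hmin hc x
  refine ⟨k, hk7, t, fun x y => ?_⟩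
  -- replace `c (t x)` by `x`
  have hne1 : t x + 1 ≠ t x := fun h => h1 (by linear_combination h)
  have hc' : ∀ i, G.Adj (Function.update c (t x) x i) (Function.update c (t x) x (i + 1)) := by
    intro i
    by_cases ha : i = t x
    · rw [ha, Function.update_self, Function.update_of_ne hne1]
      exact (ht x (t x + 1)).2 (Or.inl rfl)
    · by_cases hb : i + 1 = t x
      · rw [hb, Function.update_self, Function.update_of_ne ha]
        exact ((ht x i).2 (Or.inr hb.symm)).symm
      · rw [Function.update_of_ne ha, Function.update_of_ne hb]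
        exact hc i
  obtain ⟨s, hs⟩ := oc_type hS hconn hk hk7 hmin hc' y
  have hiff : ∀ j, j ≠ t x → ((j = s + 1 ∨ s = j + 1) ↔ (j = t y + 1 ∨ t y = j + 1)) := by
    intro j hj
    rw [← hs j, Function.update_of_ne hj, ht y j]
  have hst : s = t y := by
    by_contra hne
    by_cases ha : s + 1 = t x
    · have hb : s - 1 ≠ t x := fun h => h2 (by linear_combination ha - h)
      have h3 := (hiff (s - 1) hb).1 (Or.inr (by ring))
      have h3' : t y = s - 2 := by
        rcases h3 with h3 | h3
        · linear_combination -h3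
        · exact absurd (by linear_combination -h3) hne
      have hd : s - 3 ≠ t x := fun h => h4 (by linear_combination ha - h)
      have h6 := (hiff (s - 3) hd).2 (Or.inr (by rw [h3']; ring))
      rcases h6 with h6 | h6
      · exact h4 (by linear_combination -h6)
      · exact h2 (by linear_combination h6)
    · have h3 := (hiff (s + 1) ha).1 (Or.inl rfl)
      have h3' : t y = s + 2 := by
        rcases h3 with h3 | h3
        · exact absurd (by linear_combination h3) hne
        · linear_combination h3
      have hd : s + 3 ≠ t x ∨ s + 3 = t x := by tauto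
      rcases hd with hd | hd
      · have h6 := (hiff (s + 3) hd).2 (Or.inl (by rw [h3']; ring))
        rcases h6 with h6 | h6
        · exact h2 (by linear_combination h6)
        · exact h4 (by linear_combination -h6)
      · -- then `s - 1 ≠ t x`
        have hb : s - 1 ≠ t x := fun h => h4 (by linear_combination hd - h)
        have h7 := (hiff (s - 1) hb).1 (Or.inr (by ring))
        rcases h7 with h7 | h7
        · exact h4 (by linear_combination -h7 - h3')
        · exact hne (by linear_combination -h7)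
  have hfin := hs (t x)
  rw [Function.update_self, hst] at hfin
  rw [G.adj_comm, hfin]
  tauto

end Pool.Agent.CWB
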