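import Pool.Agent.CWB.CliqueWidth
import Pool.Agent.CWB.C5Case
import Pool.Agent.CWB.OddCycle
import Pool.Agent.CWB.DecBlowup
import Pool.Agent.CWB.BipMain

/-!
# MAIN: (K₃, S₁,₂,₃)-free graphs have bounded clique-width

`dec_all`: `Dec G.Adj (fun _ => ()) k U U` for all nonempty `U`, by strong induction on `|U|`, `k = max 4 bound5`
(`bound5 ≥ 4`).  If `G.induce U` is not connected: a split (no edges), `dec_of_split`.  Otherwise work in
`G.induce U` (`dec_subtype`): 2-colourable: `bip` (forget colours: `Dec.coarse`); an induced 5-cycle: `ctx_of_connected`,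
`dec_c5`; otherwise `blowup`, `dec_blowup`.
-/

namespace Pool.Agent.CWB

theorem kf_of_cliqueFree {V : Type*} {G : SimpleGraph V} (h : G.CliqueFree 3) : KF G.Adj := by
  classical
  intro x y z hxy hyz hxz
  exact h {x, y, z} (SimpleGraph.is3Clique_triple_iff.2 ⟨hxy, hxz, hyz⟩)

private theorem main_S123_adj (i j : Fin 7) : S123.Adj i j ↔
    (i ≠ j ∧ ((i, j) ∈ ([(0,1),(0,2),(2,3),(0,4),(4,5),(5,6)] : List (Fin 7 × Fin 7)) ∨
      (j, i) ∈ ([(0,1),(0,2),(2,3),(0,4),(4,5),(5,6)] : List (Fin 7 × Fin 7)))) := Iff.rfl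

private instance main_decS123 : DecidableRel S123.Adj := fun i j =>
  decidable_of_iff' _ (main_S123_adj i j)

private theorem main_S123_inj : ∀ i j : Fin 7, (∀ k, S123.Adj i k ↔ S123.Adj j k) → i = j := by
  decide

theorem sf_of_free {V : Type*} {G : SimpleGraph V} (h : ¬ S123.IsIndContained G) : SF G.Adj := by
  intro c a b1 b2 d1 d2 d3 hca hcb1 hb12 hcd1 hd12 hd23 hab1 hab2 had1 had2 had3 hcb2 hcd2 hcd3
    hb1d1 hb1d2 hb1d3 hb2d1 hb2d2 hb2d3 hd13
  apply h
  have key : ∀ i j : Fin 7, G.Adj ((![c, a, b1, b2, d1, d2, d3] : Fin 7 → V) i)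
      ((![c, a, b1, b2, d1, d2, d3] : Fin 7 → V) j) ↔ S123.Adj i j := by
    have hs : ∀ {x y : V}, ¬ G.Adj x y → ¬ G.Adj y x := fun h1 h2 => h1 h2.symm
    intro i j
    fin_cases i <;> fin_cases j <;>
      simp only [Fin.mk_zero, Fin.mk_one, Fin.reduceFinMk, Matrix.cons_val] <;>
      first
        | (refine iff_of_false (fun hh => G.irrefl hh) (by decide))
        | (refine iff_of_true ?_ (by decide); first | assumption | (apply SimpleGraph.Adj.symm; assumption))
        | (refine iff_of_false ?_ (by decide); first | assumption | (apply hs; assumption))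
  refine ⟨⟨⟨(![c, a, b1, b2, d1, d2, d3] : Fin 7 → V), ?_⟩, ?_⟩⟩
  · intro i j hij
    apply main_S123_inj
    intro k
    rw [← key i k, ← key j k]
    rw [show (![c, a, b1, b2, d1, d2, d3] : Fin 7 → V) i = (![c, a, b1, b2, d1, d2, d3] : Fin 7 → V) j from hij]
  · intro i j
    exact key i j

private theorem main_colorable {V : Type*} [Finite V] [Nonempty V] {G : SimpleGraph V} (hS : SF G.Adj)
    (h : G.Colorable 2) : Dec G.Adj (fun _ => ()) 4 Set.univ Set.univ := by
  obtain ⟨C⟩ := h
  let B : BG V :=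
    { side := fun v => decide (C v = 0)
      adj := G.Adj
      symm := fun h => SimpleGraph.Adj.symm h
      cross := by
        intro u v huv h2
        have h3 : C u ≠ C v := C.valid huv
        apply h3
        have h4 : (C u = 0) ↔ (C v = 0) := decide_eq_decide.1 h2
        rcases Fin.exists_fin_two.1 ⟨C u, rfl⟩ with h5 | h5 <;>
          rcases Fin.exists_fin_two.1 ⟨C v, rfl⟩ with h6 | h6
        · rw [h5, h6]
        · exact absurd (h4.1 h5) (by rw [h6]; decide)
        · exact absurd (h4.2 h6) (by rw [h5]; decide)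
        · rw [h5, h6] }
  have h1 : Dec B.adj B.side 4 Set.univ Set.univ :=
    bip B (BG.sfree_of_SF (B := B) hS) Set.univ Set.finite_univ Set.univ_nonempty
  exact Dec.coarse (fun _ => ()) h1

private theorem main_connected {V : Type*} [Finite V] [Nonempty V] {G : SimpleGraph V} (hK : KF G.Adj)
    (hS : SF G.Adj) (hconn : G.Connected) :
    Dec G.Adj (fun _ => ()) (max 4 bound5) Set.univ Set.univ := by
  by_cases h2 : G.Colorable 2
  · exact Dec.mono_k (le_max_left _ _) (main_colorable hS h2)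
  by_cases h5 : ∃ v : ZMod 5 → V, ∀ i j, G.Adj (v i) (v j) ↔ (j = i + 1 ∨ i = j + 1)
  · obtain ⟨v, hv⟩ := h5
    exact Dec.mono_k (le_max_right _ _) (dec_c5 (ctx_of_connected hK hS hv hconn.preconnected))
  · obtain ⟨k, hk, t, ht⟩ := blowup hK hS hconn h5 h2
    exact Dec.mono_k (le_max_left _ _) (dec_blowup k hk t ht)

theorem dec_all {V : Type*} [Finite V] {G : SimpleGraph V} (hK : KF G.Adj) (hS : SF G.Adj)
    (U : Set V) (hU : U.Nonempty) : Dec G.Adj (fun _ => ()) (max 4 bound5) U U := by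
  classical
  induction hn : U.ncard using Nat.strong_induction_on generalizing U with
  | _ n ih =>
  by_cases hconn : (G.induce U).Connected
  · have : Nonempty U := hU.to_subtype
    apply dec_subtype
    exact main_connected (G := G.induce U)
      (fun x y z h1 h2 h3 => hK x.1 y.1 z.1 h1 h2 h3)
      (fun c a b1 b2 d1 d2 d3 => hS c.1 a.1 b1.1 b2.1 d1.1 d2.1 d3.1) hconn
  · -- not connected: split
    have : Nonempty U := hU.to_subtype
    have h1 : ¬ (G.induce U).Preconnected := fun h => hconn ⟨h⟩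
    obtain ⟨a, b, hab⟩ : ∃ a b : U, ¬ (G.induce U).Reachable a b := by
      by_contra hcon
      push Not at hcon
      exact h1 hcon
    let S : Set V := {x | ∃ hx : x ∈ U, (G.induce U).Reachable a ⟨x, hx⟩}
    let T : Set V := U \ S
    have hSU : S ⊆ U := fun x hx => hx.1
    have haS : a.1 ∈ S := ⟨a.2, SimpleGraph.Reachable.refl _⟩
    have hbT : b.1 ∈ T := ⟨b.2, fun h => hab h.2⟩
    have hno : ∀ x ∈ S, ∀ y ∈ T, ¬ G.Adj x y := by
      rintro x ⟨hx, hr⟩ y ⟨hy, hyS⟩ hxy
      apply hyS
      refine ⟨hy, hr.trans ?_⟩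
      exact SimpleGraph.Adj.reachable (G := G.induce U) (u := ⟨x, hx⟩) (v := ⟨y, hy⟩) hxy
    have hfin : U.Finite := Set.toFinite U
    have hSlt : S.ncard < n := by
      rw [← hn]
      exact Set.ncard_lt_ncard ⟨hSU, fun h => hbT.2 (h b.2)⟩ hfin
    have hTlt : T.ncard < n := by
      rw [← hn]
      exact Set.ncard_lt_ncard ⟨Set.sdiff_subset, fun h => (h a.2).2 haS⟩ hfin
    refine dec_of_split (S := S) (T := T) (K := Unit) ?_ ?_ ?_ ?_ ?_ (ih _ hSlt S ⟨a.1, haS⟩ rfl)
      (ih _ hTlt T ⟨b.1, hbT⟩ rfl)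
    · simp
    · exact Set.union_sdiff_cancel hSU
    · exact Set.disjoint_sdiff_right
    · intro u hu u' hu' _ w hw
      exact iff_of_false (hno u hu w hw) (hno u' hu' w hw)
    · intro w hw w' hw' _ u hu
      exact iff_of_false (fun h => hno u hu w hw h.symm) (fun h => hno u hu w' hw' h.symm)

/-- **Main theorem.**  There is a constant `c` such that every finite nonempty triangle-free
graph without induced `S_{1,2,3}` has clique-width at most `c`. -/
theorem main : ∃ c : ℕ, ∀ (V : Type) [Finite V] [Nonempty V] (G : SimpleGraph V),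
    G.CliqueFree 3 → ¬ S123.IsIndContained G → CliqueWidthLE G c :=
  ⟨3 * max 4 bound5, fun V _ _ G hK hS =>
    cw_of_dec G (fun _ => ()) _ (le_max_of_le_left (by norm_num))
      (dec_all (kf_of_cliqueFree hK) (sf_of_free hS) Set.univ Set.univ_nonempty)⟩

end Pool.Agent.CWB
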