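import Pool.Agent.CWB.TyDefs

/-! PROP: see the text in Table.lean -/

namespace Pool.Agent.CWB

variable {V K : Type*} {G : SimpleGraph V} {v : ZMod 5 → V}

private theorem prop_rotA {i j : ZMod 5} {x : V} (h : IsT G v (Ty.A (i + j)) x) :
    IsA G (fun l => v (l + i)) j x := isA_rot.2 (by rw [add_comm]; exact h)

private theorem prop_rotB {i j : ZMod 5} {x : V} (h : IsT G v (Ty.B (i + j)) x) :
    IsB G (fun l => v (l + i)) j x := isB_rot.2 (by rw [add_comm]; exact h)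

private theorem prop_rotZ {i : ZMod 5} {x : V} (h : IsT G v Ty.Z x) :
    IsZ G (fun l => v (l + i)) x := isZ_rot.2 h

private theorem prop_rotA0 {i : ZMod 5} {x : V} (h : IsT G v (Ty.A i) x) :
    IsA G (fun l => v (l + i)) 0 x := isA_rot.2 (by rw [zero_add]; exact h)

private theorem prop_core (M : Ctx G v) (τ : Bool × ZMod 5) {t s r : Ty}
    (h : Ty.isTr τ t s r = true) {x y w z u e f : V}
    (t_x : IsT G v t x) (t_y : IsT G v s y) (t_w : IsT G v s w) (t_z : IsT G v r z)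
    (t_u : IsT G v r u) (t_e : IsT G v t e) (t_f : IsT G v t f)
    (k_x_y : G.Adj x y) (k_x_w : ¬ G.Adj x w) (k_x_z : G.Adj x z) (k_x_u : ¬ G.Adj x u)
    (k_y_z : ¬ G.Adj y z) (k_y_u : ¬ G.Adj y u) (k_w_z : ¬ G.Adj w z) (k_w_u : ¬ G.Adj w u)
    (k_e_y : ¬ G.Adj e y) (k_f_w : G.Adj f w) : False := by
  obtain ⟨b, i⟩ := τ
  have M' := M.rot i
  simp only [Ty.isTr, Ty.inT, Bool.and_eq_true, decide_eq_true_eq] at h
  obtain ⟨⟨⟨⟨⟨h1, h2⟩, h3⟩, h4⟩, h5⟩, h6⟩ := h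
  cases b
  · simp only [Ty.third] at h1 h2 h3
    rcases h1 with rfl | rfl | rfl <;> rcases h2 with rfl | rfl | rfl <;>
      rcases h3 with rfl | rfl | rfl <;>
      (first | exact absurd rfl h4 | exact absurd rfl h5 | exact absurd rfl h6 | skip)
    · exact Local.pr_A0A1B3 M' (prop_rotA0 t_x) (prop_rotA t_y) (prop_rotA t_w) (prop_rotB t_z)
        (prop_rotB t_u) (prop_rotA0 t_e) (prop_rotA0 t_f) k_x_y k_x_w k_x_z k_x_u k_y_z k_y_u
        k_w_z k_w_u k_e_y k_f_w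
    · exact Local.pr_A0B3A1 M' (prop_rotA0 t_x) (prop_rotB t_y) (prop_rotB t_w) (prop_rotA t_z)
        (prop_rotA t_u) (prop_rotA0 t_e) (prop_rotA0 t_f) k_x_y k_x_w k_x_z k_x_u k_y_z k_y_u
        k_w_z k_w_u k_e_y k_f_w
    · exact Local.pr_A1A0B3 M' (prop_rotA t_x) (prop_rotA0 t_y) (prop_rotA0 t_w) (prop_rotB t_z)
        (prop_rotB t_u) (prop_rotA t_e) (prop_rotA t_f) k_x_y k_x_w k_x_z k_x_u k_y_z k_y_u
        k_w_z k_w_u k_e_y k_f_w
    · exact Local.pr_A1B3A0 M' (prop_rotA t_x) (prop_rotB t_y) (prop_rotB t_w) (prop_rotA0 t_z)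
        (prop_rotA0 t_u) (prop_rotA t_e) (prop_rotA t_f) k_x_y k_x_w k_x_z k_x_u k_y_z k_y_u
        k_w_z k_w_u k_e_y k_f_w
    · exact Local.pr_B3A0A1 M' (prop_rotB t_x) (prop_rotA0 t_y) (prop_rotA0 t_w) (prop_rotA t_z)
        (prop_rotA t_u) (prop_rotB t_e) (prop_rotB t_f) k_x_y k_x_w k_x_z k_x_u k_y_z k_y_u
        k_w_z k_w_u k_e_y k_f_w
    · exact Local.pr_B3A1A0 M' (prop_rotB t_x) (prop_rotA t_y) (prop_rotA t_w) (prop_rotA0 t_z)
        (prop_rotA0 t_u) (prop_rotB t_e) (prop_rotB t_f) k_x_y k_x_w k_x_z k_x_u k_y_z k_y_u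
        k_w_z k_w_u k_e_y k_f_w
  · simp only [Ty.third] at h1 h2 h3
    rcases h1 with rfl | rfl | rfl <;> rcases h2 with rfl | rfl | rfl <;>
      rcases h3 with rfl | rfl | rfl <;>
      (first | exact absurd rfl h4 | exact absurd rfl h5 | exact absurd rfl h6 | skip)
    · exact Local.pr_A0A1Z M' (prop_rotA0 t_x) (prop_rotA t_y) (prop_rotA t_w) (prop_rotZ t_z)
        (prop_rotZ t_u) (prop_rotA0 t_e) (prop_rotA0 t_f) k_x_y k_x_w k_x_z k_x_u k_y_z k_y_u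
        k_w_z k_w_u k_e_y k_f_w
    · exact Local.pr_A0ZA1 M' (prop_rotA0 t_x) (prop_rotZ t_y) (prop_rotZ t_w) (prop_rotA t_z)
        (prop_rotA t_u) (prop_rotA0 t_e) (prop_rotA0 t_f) k_x_y k_x_w k_x_z k_x_u k_y_z k_y_u
        k_w_z k_w_u k_e_y k_f_w
    · exact Local.pr_A1A0Z M' (prop_rotA t_x) (prop_rotA0 t_y) (prop_rotA0 t_w) (prop_rotZ t_z)
        (prop_rotZ t_u) (prop_rotA t_e) (prop_rotA t_f) k_x_y k_x_w k_x_z k_x_u k_y_z k_y_u
        k_w_z k_w_u k_e_y k_f_w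
    · exact Local.pr_A1ZA0 M' (prop_rotA t_x) (prop_rotZ t_y) (prop_rotZ t_w) (prop_rotA0 t_z)
        (prop_rotA0 t_u) (prop_rotA t_e) (prop_rotA t_f) k_x_y k_x_w k_x_z k_x_u k_y_z k_y_u
        k_w_z k_w_u k_e_y k_f_w
    · exact Local.pr_ZA0A1 M' (prop_rotZ t_x) (prop_rotA0 t_y) (prop_rotA0 t_w) (prop_rotA t_z)
        (prop_rotA t_u) (prop_rotZ t_e) (prop_rotZ t_f) k_x_y k_x_w k_x_z k_x_u k_y_z k_y_u
        k_w_z k_w_u k_e_y k_f_w
    · exact Local.pr_ZA1A0 M' (prop_rotZ t_x) (prop_rotA t_y) (prop_rotA t_w) (prop_rotA0 t_z)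
        (prop_rotA0 t_u) (prop_rotZ t_e) (prop_rotZ t_f) k_x_y k_x_w k_x_z k_x_u k_y_z k_y_u
        k_w_z k_w_u k_e_y k_f_w

theorem prop (M : Ctx G v) (κ : V → K) (hκ : ∀ x y, κ x = κ y → ty G v x = ty G v y)
    {x y z : V} (τ : Bool × ZMod 5) (hτ : Ty.isTr τ (ty G v x) (ty G v y) (ty G v z) = true)
    (hy : NonHom G.Adj (ref G.Adj (ref G.Adj κ)) x y) (hz : NonHom G.Adj (ref G.Adj κ) x z) :
    NonHom G.Adj (ref G.Adj κ) y z := by
  rcases nonHom_prop (fun _ _ h => SimpleGraph.Adj.symm h) hy hz with h | h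
  · exact h
  · exfalso
    obtain ⟨y1, y2, z1, z2, u, u', hy1, hy2, hz1, hz2, a1, a2, a3, a4, hu, hu', a5, a6, h⟩ := h
    rcases h with ⟨h, -, -, -⟩ | ⟨h1, h2, h3, h4⟩
    · exact M.kf x y1 z1 a1 h a3
    · have e1 := ty_spec M y1
      have e2 := ty_spec M y2
      have e3 := ty_spec M z1
      have e4 := ty_spec M z2
      have e5 := ty_spec M u
      have e6 := ty_spec M u'
      rw [hκ _ _ hy1] at e1
      rw [hκ _ _ hy2] at e2
      rw [hκ _ _ hz1] at e3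
      rw [hκ _ _ hz2] at e4
      rw [hκ _ _ hu] at e5
      rw [hκ _ _ hu'] at e6
      exact prop_core M τ hτ (ty_spec M x) e1 e2 e3 e4 e5 e6 a1 a2 a3 a4 h1 h2 h3 h4 a5 a6

end Pool.Agent.CWB
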