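import Pool.Agent.CWB.Defs

/-!
# REF: one step of status refinement
-/

namespace Pool.Agent.CWB

open Classical in
/-- refine the colouring `κ` by the status of a vertex w.r.t. every colour class: has it a neighbour there,
has it a non-neighbour there -/
noncomputable def ref {V K : Type*} (adj : V → V → Prop) (κ : V → K) (x : V) :
    K × (K → Bool × Bool) :=
  (κ x, fun c => (decide (∃ y, κ y = c ∧ adj x y), decide (∃ y, κ y = c ∧ ¬ adj x y)))

/-- `x` has a neighbour and a non-neighbour in the colour class of `y` -/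
def NonHom {V K : Type*} (adj : V → V → Prop) (κ : V → K) (x y : V) : Prop :=
  (∃ y1, κ y1 = κ y ∧ adj x y1) ∧ (∃ y2, κ y2 = κ y ∧ ¬ adj x y2)

/-- adjacent, and non-homogeneous to each other's class -/
def HRel {V K : Type*} (adj : V → V → Prop) (κ : V → K) (x y : V) : Prop :=
  adj x y ∧ NonHom adj κ x y ∧ NonHom adj κ y x

variable {V K : Type*} {adj : V → V → Prop} {κ : V → K}

theorem ref_fst {x y : V} (h : ref adj κ x = ref adj κ y) : κ x = κ y :=
  congrArg Prod.fst h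

/-- the status w.r.t. every class is the same -/
theorem ref_status {x x' : V} (h : ref adj κ x = ref adj κ x') (c : K) :
    ((∃ y, κ y = c ∧ adj x y) ↔ (∃ y, κ y = c ∧ adj x' y)) ∧
    ((∃ y, κ y = c ∧ ¬ adj x y) ↔ (∃ y, κ y = c ∧ ¬ adj x' y)) := by
  classical
  have h1 : (ref adj κ x).2 c = (ref adj κ x').2 c := by rw [h]
  unfold ref at h1
  simp only [Prod.mk.injEq, decide_eq_decide] at h1
  exact h1

theorem nonHom_ref {x y : V} (h : NonHom adj (ref adj κ) x y) : NonHom adj κ x y := by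
  obtain ⟨⟨y1, h1, h2⟩, ⟨y2, h3, h4⟩⟩ := h
  exact ⟨⟨y1, ref_fst h1, h2⟩, ⟨y2, ref_fst h3, h4⟩⟩

/-- `NonHom` w.r.t. `κ` is invariant under the refined colour of `x` and the colour of `y` -/
theorem nonHom_congr {x x' y y' : V} (hx : ref adj κ x = ref adj κ x') (hy : κ y = κ y')
    (h : NonHom adj κ x y) : NonHom adj κ x' y' := by
  have hs := ref_status hx (κ y)
  unfold NonHom
  rw [← hy]
  exact ⟨hs.1.1 h.1, hs.2.1 h.2⟩

/-- If `x` is non-homogeneous to the `ref`-class of `y` one gets witnesses: two vertices `y1, y2` of that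
class, `x ~ y1`, `x ≁ y2`, and vertices `u, u'` with the `κ`-colour of `x`, `u ≁ y1`, `u' ~ y2`.
(`y1` and `y2` have the same status w.r.t. the `κ`-class of `x`.) -/
theorem nonHom_wit (hsymm : ∀ a b, adj a b → adj b a) {x y : V}
    (h : NonHom adj (ref adj κ) x y) :
    ∃ y1 y2 u u', ref adj κ y1 = ref adj κ y ∧ ref adj κ y2 = ref adj κ y ∧ adj x y1 ∧ ¬ adj x y2 ∧
      κ u = κ x ∧ κ u' = κ x ∧ ¬ adj u y1 ∧ adj u' y2 := by
  obtain ⟨⟨y1, h1, h2⟩, ⟨y2, h3, h4⟩⟩ := h
  have hs := ref_status (h1.trans h3.symm) (κ x)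
  obtain ⟨u', hu1, hu2⟩ := hs.1.1 ⟨x, rfl, hsymm _ _ h2⟩
  obtain ⟨u, hu3, hu4⟩ := hs.2.2 ⟨x, rfl, fun h' => h4 (hsymm _ _ h')⟩
  exact ⟨y1, y2, u, u', h1, h3, h2, h4, hu3, hu1, fun h' => hu4 (hsymm _ _ h'), hsymm _ _ hu2⟩

/-- Let `x` be non-homogeneous to the `ref (ref κ)`-class of `y`, and non-homogeneous to the `ref κ`-class
of `z`.  Then either `y` is non-homogeneous to the `ref κ`-class of `z`, or there are
`y1, y2` in the `ref (ref κ)`-class of `y` and `z1, z2` in the `ref κ`-class of `z` with `x ~ y1`, `x ≁ y2`,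
`x ~ z1`, `x ≁ z2` and such that `y1, y2` are both complete or both anticomplete to `{z1, z2}`;
moreover witnesses `u, u'` for `y1, y2` as in `nonHom_wit`. -/
theorem nonHom_prop (hsymm : ∀ a b, adj a b → adj b a) {x y z : V}
    (hy : NonHom adj (ref adj (ref adj κ)) x y) (hz : NonHom adj (ref adj κ) x z) :
    NonHom adj (ref adj κ) y z ∨
    ∃ y1 y2 z1 z2 u u', κ y1 = κ y ∧ κ y2 = κ y ∧ κ z1 = κ z ∧ κ z2 = κ z ∧
      adj x y1 ∧ ¬ adj x y2 ∧ adj x z1 ∧ ¬ adj x z2 ∧
      κ u = κ x ∧ κ u' = κ x ∧ ¬ adj u y1 ∧ adj u' y2 ∧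
      ((adj y1 z1 ∧ adj y1 z2 ∧ adj y2 z1 ∧ adj y2 z2) ∨
       (¬ adj y1 z1 ∧ ¬ adj y1 z2 ∧ ¬ adj y2 z1 ∧ ¬ adj y2 z2)) := by
  by_cases hyz : NonHom adj (ref adj κ) y z
  · exact Or.inl hyz
  right
  obtain ⟨y1, y2, u, u', h1, h2, h3, h4, h5, h6, h7, h8⟩ := nonHom_wit hsymm hy
  obtain ⟨⟨z1, hz1, hz2⟩, ⟨z2, hz3, hz4⟩⟩ := hz
  refine ⟨y1, y2, z1, z2, u, u', ref_fst (ref_fst h1), ref_fst (ref_fst h2), ref_fst hz1,
    ref_fst hz3, h3, h4, hz2, hz4, ref_fst h5, ref_fst h6, h7, h8, ?_⟩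
  have s1 := ref_status h1 (ref adj κ z)
  have s2 := ref_status h2 (ref adj κ z)
  by_cases hnb : ∃ w, ref adj κ w = ref adj κ z ∧ adj y w
  · -- no non-neighbour
    left
    have hno : ¬ ∃ w, ref adj κ w = ref adj κ z ∧ ¬ adj y w := fun h => hyz ⟨hnb, h⟩
    have k1 : ∀ w, ref adj κ w = ref adj κ z → adj y1 w := fun w hw => by
      by_contra hc
      exact hno (s1.2.1 ⟨w, hw, hc⟩)
    have k2 : ∀ w, ref adj κ w = ref adj κ z → adj y2 w := fun w hw => by
      by_contra hc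
      exact hno (s2.2.1 ⟨w, hw, hc⟩)
    exact ⟨k1 _ hz1, k1 _ hz3, k2 _ hz1, k2 _ hz3⟩
  · right
    have k1 : ∀ w, ref adj κ w = ref adj κ z → ¬ adj y1 w := fun w hw hc =>
      hnb (s1.1.1 ⟨w, hw, hc⟩)
    have k2 : ∀ w, ref adj κ w = ref adj κ z → ¬ adj y2 w := fun w hw hc =>
      hnb (s2.1.1 ⟨w, hw, hc⟩)
    exact ⟨k1 _ hz1, k1 _ hz3, k2 _ hz1, k2 _ hz3⟩

/-- the adjacency of `a` and `w` is determined by the refined colour of `a`, if there is no
`HRel`-edge -/
private theorem refine_aux (hsymm : ∀ a b, adj a b → adj b a) {a a' w : V}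
    (h : ref adj κ a = ref adj κ a') (h1 : ¬ HRel adj κ a w) (h2 : ¬ HRel adj κ a' w)
    (had : adj a w) : adj a' w := by
  have hk := ref_fst h
  have hs := ref_status h (κ w)
  by_cases n1 : NonHom adj κ a w
  · by_cases n2 : NonHom adj κ w a
    · exact absurd ⟨had, n1, n2⟩ h1
    · -- `w` is homogeneous to the class of `a`
      by_contra hc
      apply n2
      exact ⟨⟨a, rfl, hsymm _ _ had⟩, ⟨a', hk.symm, fun h' => hc (hsymm _ _ h')⟩⟩
  · by_contra hc
    apply n1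
    exact ⟨⟨w, rfl, had⟩, hs.2.2 ⟨w, rfl, hc⟩⟩

/-- If `U` has no split w.r.t. `ref κ` then `HRel` is connected on `U`.
(If no `HRel`-edge crosses `(D, U \ D)`, then `D, U \ D` is a split: for `u, u' ∈ D` with the same refined colour and
`w ∈ U \ D`: if `u, w` are non-homogeneous to each other's class, so are `u', w`, and both are
non-adjacent; otherwise `u` (or `w`) is homogeneous to the class of `w` (of `u`) and then the
adjacency is determined by the status, which is the same for `u` and `u'`.) -/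
theorem cutConn_hrel (hsymm : ∀ a b, adj a b → adj b a) (U : Set V)
    (h : ¬ Split adj (ref adj κ) U) : CutConn (HRel adj κ) U := by
  intro D hD hne hne'
  by_contra hcon
  push Not at hcon
  apply h
  have hsym : ∀ a b, HRel adj κ a b → HRel adj κ b a := fun a b hab =>
    ⟨hsymm _ _ hab.1, hab.2.2, hab.2.1⟩
  refine ⟨D, U \ D, Set.union_sdiff_cancel hD, Set.disjoint_sdiff_right, hne, hne', ?_, ?_⟩
  · intro u hu u' hu' huu w hw
    exact ⟨refine_aux hsymm huu (hcon u hu w hw) (hcon u' hu' w hw),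
      refine_aux hsymm huu.symm (hcon u' hu' w hw) (hcon u hu w hw)⟩
  · intro w hw w' hw' hww u hu
    exact ⟨refine_aux hsymm hww (fun h' => hcon u hu w hw (hsym _ _ h'))
        (fun h' => hcon u hu w' hw' (hsym _ _ h')),
      refine_aux hsymm hww.symm (fun h' => hcon u hu w' hw' (hsym _ _ h'))
        (fun h' => hcon u hu w hw (hsym _ _ h'))⟩

end Pool.Agent.CWB
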