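import Mathlib

/-!
# Clique-width and the graph `S_{1,2,3}`: the definitions used in the statement

-/

namespace Pool.Agent.CWB

/-- The graph `S_{1,2,3}` on `Fin 7`: centre `0`, legs `0-1`, `0-2-3`, `0-4-5-6`. -/
def S123 : SimpleGraph (Fin 7) :=
  SimpleGraph.fromRel fun a b : Fin 7 =>
    (a, b) ∈ ([(0,1),(0,2),(2,3),(0,4),(4,5),(5,6)] : List (Fin 7 × Fin 7))

/-- Clique-width expressions with `k` labels. -/
inductive Expr (k : ℕ) : Type
  | vert (i : Fin k) : Expr k
  | union (s t : Expr k) : Expr k
  | join (i j : Fin k) (h : i ≠ j) (s : Expr k) : Expr k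
  | relabel (i j : Fin k) (s : Expr k) : Expr k

namespace Expr

/-- The vertex set of the graph built by an expression. -/
def V {k : ℕ} : Expr k → Type
  | vert _ => Unit
  | union s t => s.V ⊕ t.V
  | join _ _ _ s => s.V
  | relabel _ _ s => s.V

/-- The labels of the vertices of the graph built by an expression. -/
def lab {k : ℕ} : (e : Expr k) → e.V → Fin k
  | vert i => fun _ => i
  | union s t => Sum.elim s.lab t.lab
  | join _ _ _ s => s.lab
  | relabel i j s => fun v => if s.lab v = i then j else s.lab v

/-- The graph built by an expression: a single labelled vertex; disjoint union; adding all edges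
between the vertices labelled `i` and the vertices labelled `j ≠ i`; changing all labels `i` to `j`. -/
def graph {k : ℕ} : (e : Expr k) → SimpleGraph e.V
  | vert _ => ⊥
  | union s t => SimpleGraph.sum s.graph t.graph
  | join i j _ s => s.graph ⊔ SimpleGraph.fromRel fun u v => s.lab u = i ∧ s.lab v = j
  | relabel _ _ s => s.graph

end Expr

/-- `G` has clique-width at most `k`. -/
def CliqueWidthLE {V : Type*} (G : SimpleGraph V) (k : ℕ) : Prop :=
  ∃ e : Expr k, Nonempty (G ≃g e.graph)

end Pool.Agent.CWB
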