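import Pool.Agent.CWB.Table
import Pool.Agent.CWB.Prop
import Pool.Agent.CWB.Dichotomy

/-!
# STRUCT: the types in a set on which the relation `H` is connected

`H := HRel G.Adj (ref (ref κ))`, `N1`, `N2` as in `Table`.  An `H`-edge `a b` gives `N2 a b`, `N2 b a`,
hence `N1 a b`, `N1 b a` (`nonHom_ref`).

Case A: some `x ∈ U` is two-moded for a triple `τ`: `Two τ x := ∃ y z, isTr τ (ty x) (ty y) (ty z) ∧ N1 x y ∧ N1 x z`.
  Then all vertices of `U` are: if `Two τ a` (with `y, z`) and `H a b` then (`table`, `Ty.no_third`) `ty b = ty y` or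
  `ty b = ty z`; say `ty b = ty y`; by `prop` (x := a, y := b, z := z) `N1 b z`; and `N1 b a`; so `Two τ b` (with `a, z`).
  If `τ = (false, i)`: then the second alternative of `hN i` is impossible: it implies that a vertex `r : B (i+3)` is
  homogeneous to the `κ`-class of every `p : A i` (hypothesis `hN`), so `¬ N1 r p`, and also `¬ N1 p r`
  (two vertices of the `ref κ`-class of `r` have the same status w.r.t. the `κ`-class of `p`, and each of them is
  homogeneous to it, so `p` is adjacent to both or to none).  But an `H`-edge in `U` has an end of type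
  `A i` or `B (i+3)`, and this end is two-moded.
  If `τ = (true, i)`: every vertex of type `A i` or `A (i+1)` in `U` has a neighbour of type `Z` (it is two-moded).
Case B: no vertex of `U` is two-moded.  Take an `H`-edge `x0 y0` in `U` and the block `β` with `opp β (ty x0) (ty y0)`
  (`table_nt`, `Ty.nt_block`).  `D := {x ∈ U : ∃ y, N1 x y ∧ opp β (ty x) (ty y)}` is closed under `H`: `a ∈ D` (with `y`), `H a b`:
  `table` for `y, b` and `Ty.compat_cases`: no triple (else `Two τ a`), so `opp β (ty a) (ty b)`, so `b ∈ D` (with `a`).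
  So `D = U`, and every type occurring in `U` is in `inL β` or `inR β`.
-/

namespace Pool.Agent.CWB

variable {V K : Type*} {G : SimpleGraph V} {v : ZMod 5 → V}

private theorem struct_tr12 {τ : Bool × ZMod 5} {t s r : Ty} (h : Ty.isTr τ t s r = true) :
    Ty.isTr τ s t r = true := by
  simp only [Ty.isTr, Bool.and_eq_true, decide_eq_true_eq] at h ⊢
  obtain ⟨⟨⟨⟨⟨h1, h2⟩, h3⟩, h4⟩, h5⟩, h6⟩ := h
  exact ⟨⟨⟨⟨⟨h2, h1⟩, h3⟩, fun e => h4 e.symm⟩, h6⟩, h5⟩

private theorem struct_tr23 {τ : Bool × ZMod 5} {t s r : Ty} (h : Ty.isTr τ t s r = true) :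
    Ty.isTr τ t r s = true := by
  simp only [Ty.isTr, Bool.and_eq_true, decide_eq_true_eq] at h ⊢
  obtain ⟨⟨⟨⟨⟨h1, h2⟩, h3⟩, h4⟩, h5⟩, h6⟩ := h
  exact ⟨⟨⟨⟨⟨h1, h3⟩, h2⟩, h5⟩, h4⟩, fun e => h6 e.symm⟩

private theorem struct_opp_symm {β : Bool × ZMod 5} {s t : Ty} (h : Ty.opp β s t = true) :
    Ty.opp β t s = true := by
  simp only [Ty.opp, Bool.or_eq_true, Bool.and_eq_true] at h ⊢
  tauto

private theorem struct_closed {R : V → V → Prop} {U D : Set V} (hc : CutConn R U) (hD : D ⊆ U)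
    (hne : D.Nonempty) (hcl : ∀ a ∈ D, ∀ b ∈ U, R a b → b ∈ D) : ∀ x ∈ U, x ∈ D := by
  intro x hx
  by_contra hxD
  obtain ⟨a, ha, b, hb, hab⟩ := hc D hD hne ⟨x, hx, hxD⟩
  exact hb.2 (hcl a ha b hb.1 hab)

private theorem struct_edge {R : V → V → Prop} {U : Set V} (hc : CutConn R U)
    (hU : U.Nontrivial) : ∃ a ∈ U, ∃ b ∈ U, R a b := by
  obtain ⟨x, hx, y, hy, hxy⟩ := hU
  obtain ⟨a, ha, b, hb, hab⟩ := hc {x} (by simpa using hx) ⟨x, rfl⟩
    ⟨y, hy, fun h => hxy (by simpa using h.symm)⟩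
  exact ⟨a, by rw [Set.mem_singleton_iff] at ha; exact ha ▸ hx, b, hb.1, hab⟩

/-- the other two types of a triple -/
private theorem struct_other {τ : Bool × ZMod 5} {t s r q : Ty} (h : Ty.isTr τ t s r = true)
    (hq : Ty.inT τ q = true) (hqt : q ≠ t) : q = s ∨ q = r := by
  simp only [Ty.isTr, Ty.inT, Bool.and_eq_true, decide_eq_true_eq] at h hq
  obtain ⟨⟨⟨⟨⟨h1, h2⟩, h3⟩, h4⟩, h5⟩, h6⟩ := h
  rcases hq with rfl | rfl | rfl <;> rcases h1 with h1 | h1 | h1 <;> rcases h2 with h2 | h2 | h2 <;>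
    rcases h3 with h3 | h3 | h3 <;> subst h1 <;> subst h2 <;> subst h3 <;> simp_all

theorem struct (M : Ctx G v) (κ : V → K) (hκ : ∀ x y, κ x = κ y → ty G v x = ty G v y)
    (hN : ∀ i : ZMod 5, NoIndep G v i ∨
      ∀ r p p', IsB G v (i + 3) r → IsA G v i p → κ p = κ p' → (G.Adj r p ↔ G.Adj r p'))
    (U : Set V) (hU : U.Nontrivial)
    (hconn : CutConn (HRel G.Adj (ref G.Adj (ref G.Adj κ))) U) :
    (∃ β : Bool × ZMod 5, ∀ x ∈ U, Ty.inL β (ty G v x) = true ∨ Ty.inR β (ty G v x) = true) ∨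
    (∃ i : ZMod 5, NoIndep G v i ∧ ∀ x ∈ U, Ty.inT (false, i) (ty G v x) = true) ∨
    (∃ i : ZMod 5, ∀ x ∈ U, Ty.inT (true, i) (ty G v x) = true ∧
      (ty G v x ≠ .Z → ∃ z, IsZ G v z ∧ G.Adj x z)) := by
  classical
  set N1 : V → V → Prop := NonHom G.Adj (ref G.Adj κ) with hN1
  set N2 : V → V → Prop := NonHom G.Adj (ref G.Adj (ref G.Adj κ)) with hN2
  have h21 : ∀ x y, N2 x y → N1 x y := fun x y h => nonHom_ref h
  -- types of the vertices of a class
  have hty : ∀ x y, ref G.Adj κ x = ref G.Adj κ y → ty G v x = ty G v y :=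
    fun x y h => hκ x y (ref_fst h)
  set Two : Bool × ZMod 5 → V → Prop := fun τ x =>
    ∃ y z, Ty.isTr τ (ty G v x) (ty G v y) (ty G v z) = true ∧ N1 x y ∧ N1 x z with hTwo
  by_cases hA : ∃ τ, ∃ x ∈ U, Two τ x
  · obtain ⟨τ, x0, hx0, hx0T⟩ := hA
    right
    have hall : ∀ x ∈ U, x ∈ {x | x ∈ U ∧ Two τ x} := by
      refine struct_closed hconn (fun x hx => hx.1) ⟨x0, hx0, hx0T⟩ ?_
      rintro a ⟨haU, y, z, htr, hy, hz⟩ b hbU hab
      refine ⟨hbU, ?_⟩
      obtain ⟨-, hab2, hba2⟩ := hab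
      have hab1 := h21 _ _ hab2
      have hba1 := h21 _ _ hba2
      rcases Ty.no_third τ _ _ _ _ htr (table M κ hκ hab1 hy) (table M κ hκ hab1 hz) with h | h
      · have htr' : Ty.isTr τ (ty G v a) (ty G v b) (ty G v z) = true := by rw [h]; exact htr
        exact ⟨a, z, struct_tr12 htr', hba1, prop M κ hκ τ htr' hab2 hz⟩
      · have htr' : Ty.isTr τ (ty G v a) (ty G v b) (ty G v y) = true := by
          rw [h]; exact struct_tr23 htr
        exact ⟨a, y, struct_tr12 htr', hba1, prop M κ hκ τ htr' hab2 hy⟩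
    have hall2 : ∀ x ∈ U, Two τ x := fun x hx => (hall x hx).2
    have hin : ∀ x ∈ U, Ty.inT τ (ty G v x) = true := by
      intro x hx
      obtain ⟨y, z, htr, -, -⟩ := hall2 x hx
      simp only [Ty.isTr, Bool.and_eq_true] at htr
      exact htr.1.1.1.1.1
    -- a two-moded vertex sees each of the other types of the triple
    have hsee : ∀ x ∈ U, ∀ q : Ty, Ty.inT τ q = true → q ≠ ty G v x → ∃ y, ty G v y = q ∧ N1 x y := by
      intro x hx q hq hqx
      obtain ⟨y, z, htr, hy, hz⟩ := hall2 x hx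
      rcases struct_other htr hq hqx with h | h
      · exact ⟨y, h.symm, hy⟩
      · exact ⟨z, h.symm, hz⟩
    obtain ⟨bb, i⟩ := τ
    cases bb with
    | false =>
      left
      refine ⟨i, ?_, hin⟩
      rcases hN i with h | hom
      · exact h
      exfalso
      have hAi : Ty.inT (false, i) (.A i) = true := by simp [Ty.inT]
      have hBi : Ty.inT (false, i) (.B (i + 3)) = true := by simp [Ty.inT, Ty.third]
      -- an end of type `A i`
      have key1 : ∀ x ∈ U, ty G v x = .A i → False := by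
        intro x hx htx
        obtain ⟨r, hr, hxr⟩ := hsee x hx (.B (i + 3)) hBi (by rw [htx]; simp)
        obtain ⟨⟨r1, hr1, hxr1⟩, ⟨r2, hr2, hxr2⟩⟩ := hxr
        have hst := (ref_status (hr1.trans hr2.symm) (κ x)).1
        obtain ⟨p, hp, hp2⟩ := hst.1 ⟨x, rfl, hxr1.symm⟩
        have hB2 : IsB G v (i + 3) r2 := by
          have := ty_spec M r2
          rw [hty _ _ hr2, hr] at this
          exact this
        have hAx : IsA G v i x := by
          have := ty_spec M x
          rw [htx] at this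
          exact this
        exact hxr2 ((hom r2 x p hB2 hAx hp.symm).2 hp2).symm
      -- an end of type `B (i+3)`
      have key2 : ∀ x ∈ U, ty G v x = .B (i + 3) → False := by
        intro x hx htx
        obtain ⟨p, hp, hxp⟩ := hsee x hx (.A i) hAi (by rw [htx]; simp)
        obtain ⟨⟨p1, hp1, hxp1⟩, ⟨p2, hp2, hxp2⟩⟩ := hxp
        have hBx : IsB G v (i + 3) x := by
          have := ty_spec M x
          rw [htx] at this
          exact this
        have hA1 : IsA G v i p1 := by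
          have := ty_spec M p1
          rw [hty _ _ hp1, hp] at this
          exact this
        exact hxp2 ((hom x p1 p2 hBx hA1 (ref_fst (hp1.trans hp2.symm))).1 hxp1)
      obtain ⟨a, ha, b, hb, -, hab2, hba2⟩ := struct_edge hconn hU
      have hnt := table_nt M κ hκ (h21 _ _ hab2)
      have hne : ty G v a ≠ ty G v b := by
        intro h
        rw [h] at hnt
        have : ∀ t : Ty, Ty.nt t t = false := by decide
        rw [this] at hnt
        exact absurd hnt (by simp)
      have hta : ty G v a = .A i ∨ ty G v a = .A (i + 1) ∨ ty G v a = .B (i + 3) :=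
        of_decide_eq_true (hin a ha)
      have htb : ty G v b = .A i ∨ ty G v b = .A (i + 1) ∨ ty G v b = .B (i + 3) :=
        of_decide_eq_true (hin b hb)
      rcases hta with h | h | h
      · exact key1 a ha h
      · rcases htb with h' | h' | h'
        · exact key1 b hb h'
        · exact hne (h.trans h'.symm)
        · exact key2 b hb h'
      · exact key2 a ha h
    | true =>
      right
      refine ⟨i, fun x hx => ⟨hin x hx, fun hxZ => ?_⟩⟩
      obtain ⟨w, hw, hxw⟩ := hsee x hx .Z (by simp [Ty.inT, Ty.third]) (fun h => hxZ h.symm)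
      obtain ⟨⟨w1, hw1, hxw1⟩, -⟩ := hxw
      refine ⟨w1, ?_, hxw1⟩
      have := ty_spec M w1
      rw [hty _ _ hw1, hw] at this
      exact this
  · left
    obtain ⟨x0, hx0, y0, hy0, -, hxy2, hyx2⟩ := struct_edge hconn hU
    obtain ⟨β, hβ⟩ := Ty.nt_block _ _ (table_nt M κ hκ (h21 _ _ hxy2))
    refine ⟨β, ?_⟩
    have hall : ∀ x ∈ U, x ∈ {x | x ∈ U ∧ ∃ y, N1 x y ∧ Ty.opp β (ty G v x) (ty G v y) = true} := by
      refine struct_closed hconn (fun x hx => hx.1) ⟨x0, hx0, y0, h21 _ _ hxy2, hβ⟩ ?_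
      rintro a ⟨haU, y, hy, hop⟩ b hbU hab
      refine ⟨hbU, a, h21 _ _ hab.2.2, ?_⟩
      have hab1 := h21 _ _ hab.2.1
      rcases Ty.compat_cases _ _ _ (table M κ hκ hy hab1) with ⟨τ, hτ⟩ | h
      · exact absurd ⟨τ, a, haU, y, b, hτ, hy, hab1⟩ hA
      · exact struct_opp_symm (h β hop)
    intro x hx
    obtain ⟨-, y, -, hop⟩ := hall x hx
    simp only [Ty.opp, Bool.or_eq_true, Bool.and_eq_true] at hop
    rcases hop with h | h
    · exact Or.inl h.1
    · exact Or.inr h.1

end Pool.Agent.CWB
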