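import Pool.Agent.CWB.TyDefs

/-!
# TABLE: to which types can a vertex be non-homogeneous?

`κ` is any colouring that refines the types (`hκ`), `N1 x y := NonHom G.Adj (ref G.Adj κ) x y`,
`N2 x y := NonHom G.Adj (ref G.Adj (ref G.Adj κ)) x y`.

`table_nt`: `N1 x y → nt (ty x) (ty y)`.  Types that are never adjacent by triangles: equal types
  (`sameA/B/Z`), `A i`–`A (i±2)`, `A i`–`B (i±1)` (common neighbour on the cycle).  `B i`–`B (i±1)`: `Local.bb, bb4`.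
  `x : Z`, `y : B i`: `Local.zb`.  `x : B i`, `y : Z`: `nonHom_wit` gives `y1, y2 : Z`, `x ~ y1`, `x ≁ y2` and
  `u'` of type `B i`, `u' ~ y2`: `Local.zb` for `y2`.
`table`: `N1 x y → N1 x y' → compat (ty x) (ty y) (ty y')`.
  By `table_nt` and rotation (`Ctx.rot`, `isT_rot`) the type of `x` is `A 0`, `B 0` or `Z`; the incompatible
  pairs are (up to order)
  at A 0: A1|A4 (sA_A1A4), A1|B0, A4|B0, B2|B3, B2|B0, B3|B0, B2|Z, B3|Z;
  at B 0: A0|A2, A0|A3, A0|B2, A0|B3, A2|B2, A3|B3 (sB_*), B2|B3 (sB_B2B3);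
  at Z: A i|A (i+2) (sZ_A0A2, rotate).
  The hypotheses of the local lemmas come from `nonHom_wit` (e := u, f := u' for the first pair,
  g := u, h := u' for the second pair).
-/

namespace Pool.Agent.CWB

variable {V K : Type*} {G : SimpleGraph V} {v : ZMod 5 → V}

/-- the witnesses of non-homogeneity, in terms of types -/
def TabW (G : SimpleGraph V) (v : ZMod 5 → V) (t s : Ty) (x : V) : Prop :=
  ∃ a b e f, IsT G v s a ∧ IsT G v s b ∧ G.Adj x a ∧ ¬ G.Adj x b ∧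
    IsT G v t e ∧ IsT G v t f ∧ ¬ G.Adj e a ∧ G.Adj f b

theorem tab_wit (M : Ctx G v) (κ : V → K) (hκ : ∀ x y, κ x = κ y → ty G v x = ty G v y)
    {x y : V} (h : NonHom G.Adj (ref G.Adj κ) x y) : TabW G v (ty G v x) (ty G v y) x := by
  obtain ⟨a, b, e, f, ha, hb, hxa, hxb, he, hf, hea, hfb⟩ :=
    nonHom_wit (fun _ _ h => SimpleGraph.Adj.symm h) h
  have ea := hκ _ _ (ref_fst ha)
  have eb := hκ _ _ (ref_fst hb)
  have ee := hκ _ _ he
  have ef := hκ _ _ hf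
  exact ⟨a, b, e, f, ea ▸ ty_spec M a, eb ▸ ty_spec M b, hxa, hxb, ee ▸ ty_spec M e,
    ef ▸ ty_spec M f, hea, hfb⟩

theorem tabW_rot {k : ZMod 5} {t s : Ty} {x : V} :
    TabW G (fun j => v (j + k)) t s x ↔ TabW G v (t.rot k) (s.rot k) x := by
  unfold TabW
  simp only [isT_rot]

theorem tab_nt_rot : ∀ (k : ZMod 5) (s t : Ty), Ty.nt (s.rot k) (t.rot k) = Ty.nt s t := by decide

theorem tab_compat_rot : ∀ (k : ZMod 5) (t s r : Ty),
    Ty.compat (t.rot k) (s.rot k) (r.rot k) = Ty.compat t s r := by decide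

theorem tab_rot_neg : ∀ (k : ZMod 5) (s : Ty), (s.rot (-k)).rot k = s := by decide

theorem tab_rot_neg' : ∀ (k : ZMod 5) (s : Ty), (s.rot k).rot (-k) = s := by decide

/-- reduction of a statement on types to the rotated statement -/
theorem tab_red {t s : Ty} {x : V} (k : ZMod 5) (h : TabW G v t s x) :
    TabW G (fun j => v (j + k)) (t.rot (-k)) (s.rot (-k)) x := by
  rw [tabW_rot, tab_rot_neg, tab_rot_neg]
  exact h

theorem tab_redT {t : Ty} {x : V} (k : ZMod 5) (h : IsT G v t x) :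
    IsT G (fun j => v (j + k)) (t.rot (-k)) x := by
  rw [isT_rot, tab_rot_neg]
  exact h

theorem tab_norm : ∀ t : Ty, ∃ k : ZMod 5, t.rot (-k) = Ty.A 0 ∨ t.rot (-k) = Ty.B 0 ∨
    t.rot (-k) = Ty.Z := by decide

/-! ### never adjacent -/

theorem tab_AA2 (M : Ctx G v) {x y : V} (hx : IsA G v 0 x) (hy : IsA G v 2 y) : ¬ G.Adj x y :=
  fun h => M.kf x y (v 1) h ((hy 1).2 (by decide)) ((hx 1).2 (by decide))

theorem tab_AA3 (M : Ctx G v) {x y : V} (hx : IsA G v 0 x) (hy : IsA G v 3 y) : ¬ G.Adj x y :=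
  fun h => M.kf x y (v 4) h ((hy 4).2 (by decide)) ((hx 4).2 (by decide))

theorem tab_AB1 (M : Ctx G v) {x y : V} (hx : IsA G v 0 x) (hy : IsB G v 1 y) : ¬ G.Adj x y :=
  fun h => M.kf x y (v 1) h ((hy 1).2 (by decide)) ((hx 1).2 (by decide))

theorem tab_AB4 (M : Ctx G v) {x y : V} (hx : IsA G v 0 x) (hy : IsB G v 4 y) : ¬ G.Adj x y :=
  fun h => M.kf x y (v 4) h ((hy 4).2 (by decide)) ((hx 4).2 (by decide))

theorem tab_BA1 (M : Ctx G v) {x y : V} (hx : IsB G v 0 x) (hy : IsA G v 1 y) : ¬ G.Adj x y :=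
  fun h => M.kf x y (v 0) h ((hy 0).2 (by decide)) ((hx 0).2 (by decide))

theorem tab_BA4 (M : Ctx G v) {x y : V} (hx : IsB G v 0 x) (hy : IsA G v 4 y) : ¬ G.Adj x y :=
  fun h => M.kf x y (v 0) h ((hy 0).2 (by decide)) ((hx 0).2 (by decide))

/-! ### the possible types -/

theorem tab_ntA : ∀ s : Ty, s = Ty.A 0 ∨ s = Ty.A 2 ∨ s = Ty.A 3 ∨ s = Ty.B 1 ∨ s = Ty.B 4 ∨
    Ty.nt (Ty.A 0) s = true := by decide

theorem tab_ntB : ∀ s : Ty, s = Ty.A 1 ∨ s = Ty.A 4 ∨ s = Ty.B 0 ∨ s = Ty.B 1 ∨ s = Ty.B 4 ∨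
    s = Ty.Z ∨ Ty.nt (Ty.B 0) s = true := by decide

theorem tab_ntZ : ∀ s : Ty, s = Ty.Z ∨ (∃ k : ZMod 5, s.rot (-k) = Ty.B 0) ∨
    Ty.nt Ty.Z s = true := by decide

theorem tab_nt_A (M : Ctx G v) {s : Ty} {x : V} (hx : IsT G v (Ty.A 0) x)
    (h : TabW G v (Ty.A 0) s x) : Ty.nt (Ty.A 0) s = true := by
  obtain ⟨a, b, e, f, ha, hb, hxa, hxb, he, hf, hea, hfb⟩ := h
  rcases tab_ntA s with h | h | h | h | h | h
  · subst h; exact absurd hxa (M.sameA hx ha)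
  · subst h; exact absurd hxa (tab_AA2 M hx ha)
  · subst h; exact absurd hxa (tab_AA3 M hx ha)
  · subst h; exact absurd hxa (tab_AB1 M hx ha)
  · subst h; exact absurd hxa (tab_AB4 M hx ha)
  · exact h

theorem tab_nt_B (M : Ctx G v) {s : Ty} {x : V} (hx : IsT G v (Ty.B 0) x)
    (h : TabW G v (Ty.B 0) s x) : Ty.nt (Ty.B 0) s = true := by
  obtain ⟨a, b, e, f, ha, hb, hxa, hxb, he, hf, hea, hfb⟩ := h
  rcases tab_ntB s with h | h | h | h | h | h | h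
  · subst h; exact absurd hxa (tab_BA1 M hx ha)
  · subst h; exact absurd hxa (tab_BA4 M hx ha)
  · subst h; exact absurd hxa (M.sameB hx ha)
  · subst h; exact (Local.bb M hx ha hb hxa hxb).elim
  · subst h; exact (Local.bb4 M hx ha hb hxa hxb).elim
  · subst h; exact (Local.zb M hb hf hx hfb.symm (fun h => hxb h.symm)).elim
  · exact h

theorem tab_nt_Z (M : Ctx G v) {s : Ty} {x : V} (hx : IsT G v Ty.Z x)
    (h : TabW G v Ty.Z s x) : Ty.nt Ty.Z s = true := by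
  rcases tab_ntZ s with hs | ⟨k, hs⟩ | hs
  · obtain ⟨a, b, e, f, ha, hb, hxa, hxb, he, hf, hea, hfb⟩ := h
    subst hs; exact absurd hxa (M.sameZ hx ha)
  · have h1 := tab_red k h
    have h2 := tab_redT k hx
    rw [hs] at h1
    obtain ⟨a, b, e, f, ha, hb, hxa, hxb, he, hf, hea, hfb⟩ := h1
    exact (Local.zb (M.rot k) h2 ha hb hxa hxb).elim
  · exact hs

theorem tab_nt_gen (M : Ctx G v) {t s : Ty} {x : V} (hx : IsT G v t x)
    (h : TabW G v t s x) : Ty.nt t s = true := by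
  obtain ⟨k, hk⟩ := tab_norm t
  rw [← tab_nt_rot (-k) t s]
  have h1 := tab_red k h
  have h2 := tab_redT k hx
  rcases hk with hk | hk | hk
  · rw [hk] at h1 h2 ⊢; exact tab_nt_A (M.rot k) h2 h1
  · rw [hk] at h1 h2 ⊢; exact tab_nt_B (M.rot k) h2 h1
  · rw [hk] at h1 h2 ⊢; exact tab_nt_Z (M.rot k) h2 h1

theorem table_nt (M : Ctx G v) (κ : V → K) (hκ : ∀ x y, κ x = κ y → ty G v x = ty G v y)
    {x y : V} (h : NonHom G.Adj (ref G.Adj κ) x y) : (ty G v x).nt (ty G v y) = true :=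
  tab_nt_gen M (ty_spec M x) (tab_wit M κ hκ h)

/-! ### compatible pairs -/

/-- the incompatible pairs at `A 0`, one order -/
def tabBadA : List (Ty × Ty) :=
  [(.A 1, .A 4), (.A 1, .B 0), (.A 4, .B 0), (.B 2, .B 3), (.B 2, .B 0), (.B 3, .B 0), (.B 2, .Z),
    (.B 3, .Z)]

/-- the incompatible pairs at `B 0`, one order -/
def tabBadB : List (Ty × Ty) :=
  [(.A 0, .A 2), (.A 0, .A 3), (.A 0, .B 2), (.A 0, .B 3), (.A 2, .B 2), (.A 3, .B 3), (.B 2, .B 3)]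

theorem tab_casesA : ∀ s r : Ty, Ty.nt (Ty.A 0) s = true → Ty.nt (Ty.A 0) r = true →
    Ty.compat (Ty.A 0) s r = true ∨ (s, r) ∈ tabBadA ∨ (r, s) ∈ tabBadA := by decide

theorem tab_casesB : ∀ s r : Ty, Ty.nt (Ty.B 0) s = true → Ty.nt (Ty.B 0) r = true →
    Ty.compat (Ty.B 0) s r = true ∨ (s, r) ∈ tabBadB ∨ (r, s) ∈ tabBadB := by decide

theorem tab_casesZ : ∀ s r : Ty, Ty.nt Ty.Z s = true → Ty.nt Ty.Z r = true →
    Ty.compat Ty.Z s r = true ∨
      ∃ k : ZMod 5, (s.rot (-k) = Ty.A 0 ∧ r.rot (-k) = Ty.A 2) ∨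
        (r.rot (-k) = Ty.A 0 ∧ s.rot (-k) = Ty.A 2) := by decide

theorem tab_badA (M : Ctx G v) {s r : Ty} {x : V} (hx : IsT G v (Ty.A 0) x)
    (h : TabW G v (Ty.A 0) s x) (h' : TabW G v (Ty.A 0) r x) (hb : (s, r) ∈ tabBadA) : False := by
  obtain ⟨a, b, e, f, ta, tb, hxa, hxb, te, tf, hea, hfb⟩ := h
  obtain ⟨c, d, g, h, tc, td, hxc, hxd, tg, th, hgc, hhd⟩ := h'
  simp only [tabBadA, List.mem_cons, List.not_mem_nil, or_false, Prod.mk.injEq] at hb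
  rcases hb with ⟨h1, h2⟩ | ⟨h1, h2⟩ | ⟨h1, h2⟩ | ⟨h1, h2⟩ | ⟨h1, h2⟩ | ⟨h1, h2⟩ | ⟨h1, h2⟩ | ⟨h1, h2⟩
  · subst h1; subst h2
    exact Local.sA_A1A4 M hx ta tb tc td te tf tg th hxa hxb hxc hxd hea hfb hgc hhd
  · subst h1; subst h2
    exact Local.sA_A1B0 M hx ta tb tc td hxa hxb hxc hxd
  · subst h1; subst h2
    exact Local.sA_A4B0 M hx ta tb tc td hxa hxb hxc hxd
  · subst h1; subst h2
    exact Local.sA_B2B3 M hx ta tb tc td hxa hxb hxc hxd
  · subst h1; subst h2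
    exact Local.sA_B2B0 M hx ta tb tc td hxa hxb hxc hxd
  · subst h1; subst h2
    exact Local.sA_B3B0 M hx ta tb tc td hxa hxb hxc hxd
  · subst h1; subst h2
    exact Local.sA_B2Z M hx ta tb tc td hxa hxb hxc hxd
  · subst h1; subst h2
    exact Local.sA_B3Z M hx ta tb tc td hxa hxb hxc hxd

theorem tab_badB (M : Ctx G v) {s r : Ty} {x : V} (hx : IsT G v (Ty.B 0) x)
    (h : TabW G v (Ty.B 0) s x) (h' : TabW G v (Ty.B 0) r x) (hb : (s, r) ∈ tabBadB) : False := by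
  obtain ⟨a, b, e, f, ta, tb, hxa, hxb, te, tf, hea, hfb⟩ := h
  obtain ⟨c, d, g, h, tc, td, hxc, hxd, tg, th, hgc, hhd⟩ := h'
  simp only [tabBadB, List.mem_cons, List.not_mem_nil, or_false, Prod.mk.injEq] at hb
  rcases hb with ⟨h1, h2⟩ | ⟨h1, h2⟩ | ⟨h1, h2⟩ | ⟨h1, h2⟩ | ⟨h1, h2⟩ | ⟨h1, h2⟩ | ⟨h1, h2⟩
  · subst h1; subst h2
    exact Local.sB_A0A2 M hx ta tb tc td te tf tg th hxa hxb hxc hxd hea hfb hgc hhd
  · subst h1; subst h2
    exact Local.sB_A0A3 M hx ta tb tc td te tf tg th hxa hxb hxc hxd hea hfb hgc hhd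
  · subst h1; subst h2
    exact Local.sB_A0B2 M hx ta tb tc td te tf tg th hxa hxb hxc hxd hea hfb hgc hhd
  · subst h1; subst h2
    exact Local.sB_A0B3 M hx ta tb tc td te tf tg th hxa hxb hxc hxd hea hfb hgc hhd
  · subst h1; subst h2
    exact Local.sB_A2B2 M hx ta tb tc td te tf tg th hxa hxb hxc hxd hea hfb hgc hhd
  · subst h1; subst h2
    exact Local.sB_A3B3 M hx ta tb tc td te tf tg th hxa hxb hxc hxd hea hfb hgc hhd
  · subst h1; subst h2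
    exact Local.sB_B2B3 M hx ta tb tc td hxa hxb hxc hxd

theorem tab_badZ (M : Ctx G v) {x : V} (hx : IsT G v Ty.Z x)
    (h : TabW G v Ty.Z (Ty.A 0) x) (h' : TabW G v Ty.Z (Ty.A 2) x) : False := by
  obtain ⟨a, b, e, f, ta, tb, hxa, hxb, te, tf, hea, hfb⟩ := h
  obtain ⟨c, d, g, h, tc, td, hxc, hxd, tg, th, hgc, hhd⟩ := h'
  exact Local.sZ_A0A2 M hx ta tb tc td te tf tg th hxa hxb hxc hxd hea hfb hgc hhd

theorem tab_compat_gen (M : Ctx G v) {t s r : Ty} {x : V} (hx : IsT G v t x)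
    (h : TabW G v t s x) (h' : TabW G v t r x) : Ty.compat t s r = true := by
  obtain ⟨k, hk⟩ := tab_norm t
  rw [← tab_compat_rot (-k) t s r]
  have h1 := tab_red k h
  have h1' := tab_red k h'
  have h2 := tab_redT k hx
  rcases hk with hk | hk | hk
  · rw [hk] at h1 h1' h2 ⊢
    rcases tab_casesA _ _ (tab_nt_A (M.rot k) h2 h1) (tab_nt_A (M.rot k) h2 h1') with h3 | h3 | h3
    · exact h3
    · exact (tab_badA (M.rot k) h2 h1 h1' h3).elim
    · exact (tab_badA (M.rot k) h2 h1' h1 h3).elim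
  · rw [hk] at h1 h1' h2 ⊢
    rcases tab_casesB _ _ (tab_nt_B (M.rot k) h2 h1) (tab_nt_B (M.rot k) h2 h1') with h3 | h3 | h3
    · exact h3
    · exact (tab_badB (M.rot k) h2 h1 h1' h3).elim
    · exact (tab_badB (M.rot k) h2 h1' h1 h3).elim
  · rw [hk] at h1 h1' h2 ⊢
    rcases tab_casesZ _ _ (tab_nt_Z (M.rot k) h2 h1) (tab_nt_Z (M.rot k) h2 h1') with
      h3 | ⟨j, ⟨h3, h4⟩ | ⟨h3, h4⟩⟩
    · exact h3
    · have g1 := tab_red j h1
      have g1' := tab_red j h1'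
      have g2 := tab_redT j h2
      rw [h3] at g1
      rw [h4] at g1'
      exact (tab_badZ ((M.rot k).rot j) g2 g1 g1').elim
    · have g1 := tab_red j h1
      have g1' := tab_red j h1'
      have g2 := tab_redT j h2
      rw [h4] at g1
      rw [h3] at g1'
      exact (tab_badZ ((M.rot k).rot j) g2 g1' g1).elim

theorem table (M : Ctx G v) (κ : V → K) (hκ : ∀ x y, κ x = κ y → ty G v x = ty G v y)
    {x y z : V} (h : NonHom G.Adj (ref G.Adj κ) x y) (h' : NonHom G.Adj (ref G.Adj κ) x z) :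
    (ty G v x).compat (ty G v y) (ty G v z) = true :=
  tab_compat_gen M (ty_spec M x) (tab_wit M κ hκ h) (tab_wit M κ hκ h')

end Pool.Agent.CWB
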