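import Pool.Agent.CWB.Ext

/-!
# TWINS: a twin-free set without split that contains a `P₇` is path-like (or co-path-like)

Let `n ≥ 7` be maximal such that `B` or `B.co` has an induced path with `n` vertices in `U`; WLOG `B` has one, `p`.

`twin_module`: `w, w'` twins of `p j` w.r.t. the path, `u ∈ U`.  Suppose `u ~ w`, `u ≁ w'`.
  Let `p' = Function.update p j w`, `p'' = Function.update p j w'`; both are induced paths of length `n` in `U`.
  By `ext_max` the patterns `T'`, `T''` of `u` w.r.t. `p'`, `p''` are in the list
  {∅, full, N(p_i), {0,n-1}}, and `T' = T'' ∪ {j}`, `j ∉ T''`.  The possibilities are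
  (a)  T'' = ∅, j = 1:              centre p2; leaf w'; path w u; path p3 p4 p5
  (a') T'' = ∅, j = n-2:            centre p(n-3); leaf w'; path w u; path p(n-4) p(n-5) p(n-6)
  (b)  T'' = {1}, j = 3:            centre p4; leaf w'; path p5 p6; path w u p1
  (b') T'' = {n-2}, j = n-4:        centre p(n-5); leaf w'; path p(n-6) p(n-7); path w u p(n-2)
  (c)  n = 7, T'' = {3,5}, j = 1:   centre u; leaf p3; path p5 p6; path w p0 w'
  (c') n = 7, T'' = {1,3}, j = 5:   centre u; leaf p3; path p1 p0; path w p6 w'
`closing_module`: `w, w'` closing vertices.  With `q i = p (i+1)` for `i < n-1` and `q (n-1) = w` one gets an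
  induced path of length `n` in `U`; `w` and `w'` are twins of `q (n-1)`: use `twin_module`.
`closing_hom`: if `c` is a closing vertex and `w` is homogeneous to the path (pattern ∅ or full) and
  `side w ≠ side c`, then `w ~ c` iff the pattern is full.  Use `ext_max` for the path `q` above (with `w := c`):
  the patterns `{n-1}` and (full minus the last position; at least 3 elements) are not in the list.
`pathLike`: in a twin-free `U` the twins of `p j` are only `p j` itself (`twin_module`), and there is at most one
  closing vertex `c`.  Let `P = {p i} ` or `{p i} ∪ {c}`.  All vertices of `U \ P` are homogeneous to `P`.  If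
  `P ≠ U`, `lemmaM` gives a split.
-/

namespace Pool.Agent.CWB

variable {V : Type*}

private theorem twinMod_update (B : BG V) (n : ℕ) (p : ℕ → V) (hp : B.IsPath n p) (j : ℕ) (w : V)
    (htw : B.TwinAt n p j w) : B.IsPath n (Function.update p j w) := by
  intro i hi k hk
  by_cases h1 : i = j
  · by_cases h2 : k = j
    · subst h1
      subst h2
      rw [Function.update_self]
      constructor
      · intro h
        exact absurd rfl (B.cross h)
      · intro h
        omega
    · rw [h1, Function.update_self, Function.update_of_ne h2]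
      rw [htw k hk]
  · by_cases h2 : k = j
    · rw [h2, Function.update_self, Function.update_of_ne h1]
      have h3 := htw i hi
      constructor
      · intro h
        have := h3.mp (B.symm h)
        omega
      · intro h
        exact B.symm (h3.mpr (by omega))
    · rw [Function.update_of_ne h1, Function.update_of_ne h2]
      exact hp i hi k hk

private theorem twinMod_aux (B : BG V) (hS : B.SFree) (U : Set V) (n : ℕ) (hn : 7 ≤ n)
    (hmax : B.NoLonger U n) (p : ℕ → V) (hp : B.PathIn U n p) (j : ℕ) (hj : j < n) (w w' : V)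
    (hw : w ∈ U) (hw' : w' ∈ U) (htw : B.TwinAt n p j w) (htw' : B.TwinAt n p j w')
    (u : V) (hu : u ∈ U) (h1 : B.adj u w) (h2 : ¬ B.adj u w') : False := by
  have pa : ∀ i k, i < n → k < n → (k = i + 1 ∨ i = k + 1) → B.adj (p i) (p k) :=
    fun i k hi hk h => (hp.1 i hi k hk).mpr h
  have pn : ∀ i k, i < n → k < n → ¬ (k = i + 1 ∨ i = k + 1) → ¬ B.adj (p i) (p k) :=
    fun i k hi hk h h' => h ((hp.1 i hi k hk).mp h')
  have wa : ∀ i, i < n → (i = j + 1 ∨ j = i + 1) → B.adj w (p i) := fun i hi h => (htw i hi).mpr h
  have wn : ∀ i, i < n → ¬ (i = j + 1 ∨ j = i + 1) → ¬ B.adj w (p i) :=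
    fun i hi h h' => h ((htw i hi).mp h')
  have wa' : ∀ i, i < n → (i = j + 1 ∨ j = i + 1) → B.adj w' (p i) :=
    fun i hi h => (htw' i hi).mpr h
  have wn' : ∀ i, i < n → ¬ (i = j + 1 ∨ j = i + 1) → ¬ B.adj w' (p i) :=
    fun i hi h h' => h ((htw' i hi).mp h')
  -- sides
  have hsw : B.side w' = B.side w := by
    have key : ∀ i, i < n → (i = j + 1 ∨ j = i + 1) → B.side w' = B.side w := by
      intro i hi h
      have e1 := B.cross (wa i hi h)
      have e2 := B.cross (wa' i hi h)
      revert e1 e2
      cases B.side w <;> cases B.side w' <;> cases B.side (p i) <;> simp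
    rcases Nat.eq_zero_or_pos j with h0 | h0
    · exact key 1 (by omega) (by omega)
    · exact key (j - 1) (by omega) (by omega)
  have hsu : B.side u ≠ B.side w := B.cross h1
  -- the two paths
  have hp' : B.IsPath n (Function.update p j w) := twinMod_update B n p hp.1 j w htw
  have hp'' : B.IsPath n (Function.update p j w') := twinMod_update B n p hp.1 j w' htw'
  have inU : ∀ x ∈ U, ∀ i < n, Function.update p j x i ∈ U := by
    intro x hx i hi
    by_cases h : i = j
    · rw [h, Function.update_self]
      exact hx
    · rw [Function.update_of_ne h]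
      exact hp.2 i hi
  have E1 := ext_max B hS U n hn hmax (Function.update p j w) ⟨hp', inU w hw⟩ u hu
  have E2 := ext_max B hS U n hn hmax (Function.update p j w') ⟨hp'', inU w' hw'⟩ u hu
  -- patterns
  have q1 : ∀ i, i ≠ j → (B.adj u (Function.update p j w i) ↔ B.adj u (p i)) := by
    intro i hi
    rw [Function.update_of_ne hi]
  have q2 : ∀ i, i ≠ j → (B.adj u (Function.update p j w' i) ↔ B.adj u (p i)) := by
    intro i hi
    rw [Function.update_of_ne hi]
  have q1j : B.adj u (Function.update p j w j) := by
    rw [Function.update_self]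
    exact h1
  have q2j : ¬ B.adj u (Function.update p j w' j) := by
    rw [Function.update_self]
    exact h2
  -- full pattern in terms of parity
  have par : (∀ i < n, B.side (Function.update p j w i) ≠ B.side u →
      B.adj u (Function.update p j w i)) → ∀ i, i < n → i % 2 = j % 2 → i ≠ j →
      B.adj u (p i) := by
    intro hf i hi hpar hne
    rw [← q1 i hne]
    apply hf i hi
    have e1 := (hp'.side i hi j hj).mpr hpar
    rw [e1, Function.update_self]
    exact hsu.symm
  rcases E2 with F2 | F2 | ⟨m2, hm2, F2⟩ | F2
  · -- the second pattern is empty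
    have G2 : ∀ i, i < n → i ≠ j → ¬ B.adj u (p i) := by
      intro i hi hne h
      exact F2 i hi ((q2 i hne).mpr h)
    rcases E1 with F1 | F1 | ⟨m1, hm1, F1⟩ | F1
    · exact F1 j hj q1j
    · by_cases h : j + 2 < n
      · exact G2 (j + 2) h (by omega) (par F1 (j + 2) h (by omega) (by omega))
      · exact G2 (j - 2) (by omega) (by omega) (par F1 (j - 2) (by omega) (by omega) (by omega))
    · have e1 := (F1 j hj).mp q1j
      have G1 : ∀ i, i < n → i ≠ j → ¬ (i = m1 + 1 ∨ m1 = i + 1) := by
        intro i hi hne h
        exact G2 i hi hne ((q1 i hne).mp ((F1 i hi).mpr h))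
      have e2 := G1 (m1 + 1)
      have e3 := G1 (m1 - 1)
      have e4 : (m1 = 0 ∧ j = 1) ∨ (m1 = n - 1 ∧ j = n - 2) := by
        by_cases c1 : m1 = 0
        · left
          omega
        · right
          have e5 : m1 - 1 = j := by
            by_contra hc
            exact e3 (by omega) hc (by omega)
          have e6 : ¬ m1 + 1 < n := by
            intro hc
            exact e2 hc (by omega) (by omega)
          omega
      rcases e4 with ⟨-, e4⟩ | ⟨-, e4⟩
      · -- (a)
        exact hS (p 2) w' w u (p 3) (p 4) (p 5) (B.symm (wa' 2 (by omega) (by omega)))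
          (B.symm (wa 2 (by omega) (by omega))) (B.symm h1) (pa 2 3 (by omega) (by omega) (by omega))
          (pa 3 4 (by omega) (by omega) (by omega)) (pa 4 5 (by omega) (by omega) (by omega))
          h2 (G2 3 (by omega) (by omega)) (G2 5 (by omega) (by omega))
          (fun h => wn' 4 (by omega) (by omega) (B.symm h))
          (fun h => wn 4 (by omega) (by omega) (B.symm h)) (pn 2 5 (by omega) (by omega) (by omega))
      · -- (a')
        exact hS (p (n - 3)) w' w u (p (n - 4)) (p (n - 5)) (p (n - 6))
          (B.symm (wa' (n - 3) (by omega) (by omega)))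
          (B.symm (wa (n - 3) (by omega) (by omega))) (B.symm h1)
          (pa (n - 3) (n - 4) (by omega) (by omega) (by omega))
          (pa (n - 4) (n - 5) (by omega) (by omega) (by omega))
          (pa (n - 5) (n - 6) (by omega) (by omega) (by omega))
          h2 (G2 (n - 4) (by omega) (by omega)) (G2 (n - 6) (by omega) (by omega))
          (fun h => wn' (n - 5) (by omega) (by omega) (B.symm h))
          (fun h => wn (n - 5) (by omega) (by omega) (B.symm h))
          (pn (n - 3) (n - 6) (by omega) (by omega) (by omega))
    · have e1 := (F1 0 (by omega)).mpr (by omega)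
      have e2 := (F1 (n - 1) (by omega)).mpr (by omega)
      by_cases h : j = 0
      · exact G2 (n - 1) (by omega) (by omega) ((q1 (n - 1) (by omega)).mp e2)
      · exact G2 0 (by omega) (by omega) ((q1 0 (by omega)).mp e1)
  · -- the second pattern is not full
    apply q2j
    apply F2 j hj
    rw [Function.update_self, hsw]
    exact hsu.symm
  · -- the second pattern is the neighbourhood of a path vertex
    have G2 : ∀ i, i < n → i ≠ j → (B.adj u (p i) ↔ (i = m2 + 1 ∨ m2 = i + 1)) := by
      intro i hi hne
      rw [← q2 i hne]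
      exact F2 i hi
    have g2j : ¬ (j = m2 + 1 ∨ m2 = j + 1) := fun h => q2j ((F2 j hj).mpr h)
    rcases E1 with F1 | F1 | ⟨m1, hm1, F1⟩ | F1
    · exact F1 j hj q1j
    · have G1 : ∀ i, i < n → i % 2 = j % 2 → i ≠ j → (i = m2 + 1 ∨ m2 = i + 1) := by
        intro i hi hpar hne
        exact (G2 i hi hne).mp (par F1 i hi hpar hne)
      have e4 : n = 7 ∧ ((m2 = 4 ∧ j = 1) ∨ (m2 = 2 ∧ j = 5)) := by
        have f0 := G1 0
        have f1 := G1 1
        have f2 := G1 2
        have f3 := G1 3
        have f4 := G1 4
        have f5 := G1 5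
        have f6 := G1 6
        have f7 := G1 7
        clear G1 par q1 q2 pa pn wa wn wa' wn' inU F1 F2 G2
        omega
      obtain ⟨hn7, ⟨hm, hj'⟩ | ⟨hm, hj'⟩⟩ := e4
      · -- (c)
        exact hS u (p 3) (p 5) (p 6) w (p 0) w'
          ((G2 3 (by omega) (by omega)).mpr (by omega)) ((G2 5 (by omega) (by omega)).mpr (by omega))
          (pa 5 6 (by omega) (by omega) (by omega)) h1 (wa 0 (by omega) (by omega))
          (B.symm (wa' 0 (by omega) (by omega)))
          (pn 6 3 (by omega) (by omega) (by omega))
          (fun h => wn 6 (by omega) (by omega) (B.symm h))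
          (fun h => wn' 6 (by omega) (by omega) (B.symm h))
          (pn 0 3 (by omega) (by omega) (by omega)) (pn 0 5 (by omega) (by omega) (by omega)) h2
      · -- (c')
        exact hS u (p 3) (p 1) (p 0) w (p 6) w'
          ((G2 3 (by omega) (by omega)).mpr (by omega)) ((G2 1 (by omega) (by omega)).mpr (by omega))
          (pa 1 0 (by omega) (by omega) (by omega)) h1 (wa 6 (by omega) (by omega))
          (B.symm (wa' 6 (by omega) (by omega)))
          (pn 0 3 (by omega) (by omega) (by omega))
          (fun h => wn 0 (by omega) (by omega) (B.symm h))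
          (fun h => wn' 0 (by omega) (by omega) (B.symm h))
          (pn 6 3 (by omega) (by omega) (by omega)) (pn 6 1 (by omega) (by omega) (by omega)) h2
    · have e1 := (F1 j hj).mp q1j
      have G1 : ∀ i, i < n → i ≠ j →
          ((i = m1 + 1 ∨ m1 = i + 1) ↔ (i = m2 + 1 ∨ m2 = i + 1)) := by
        intro i hi hne
        rw [← G2 i hi hne, ← q1 i hne]
        exact (F1 i hi).symm
      have e4 : (m2 = 0 ∧ j = 3) ∨ (m2 = n - 1 ∧ j = n - 4) := by
        have f1 := G1 (m1 + 1)
        have f2 := G1 (m1 - 1)
        have f3 := G1 (m2 + 1)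
        have f4 := G1 (m2 - 1)
        clear G1 par q1 q2 pa pn wa wn wa' wn' inU F1 F2 G2
        omega
      rcases e4 with ⟨hm, hj'⟩ | ⟨hm, hj'⟩
      · -- (b)
        exact hS (p 4) w' (p 5) (p 6) w u (p 1)
          (B.symm (wa' 4 (by omega) (by omega))) (pa 4 5 (by omega) (by omega) (by omega))
          (pa 5 6 (by omega) (by omega) (by omega)) (B.symm (wa 4 (by omega) (by omega)))
          (B.symm h1) ((G2 1 (by omega) (by omega)).mpr (by omega))
          (fun h => wn' 6 (by omega) (by omega) (B.symm h))
          (fun h => wn 6 (by omega) (by omega) (B.symm h))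
          (pn 6 1 (by omega) (by omega) (by omega)) h2
          (fun h => absurd ((G2 5 (by omega) (by omega)).mp h) (by omega))
          (pn 4 1 (by omega) (by omega) (by omega))
      · -- (b')
        exact hS (p (n - 5)) w' (p (n - 6)) (p (n - 7)) w u (p (n - 2))
          (B.symm (wa' (n - 5) (by omega) (by omega)))
          (pa (n - 5) (n - 6) (by omega) (by omega) (by omega))
          (pa (n - 6) (n - 7) (by omega) (by omega) (by omega))
          (B.symm (wa (n - 5) (by omega) (by omega)))
          (B.symm h1) ((G2 (n - 2) (by omega) (by omega)).mpr (by omega))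
          (fun h => wn' (n - 7) (by omega) (by omega) (B.symm h))
          (fun h => wn (n - 7) (by omega) (by omega) (B.symm h))
          (pn (n - 7) (n - 2) (by omega) (by omega) (by omega)) h2
          (fun h => absurd ((G2 (n - 6) (by omega) (by omega)).mp h) (by omega))
          (pn (n - 5) (n - 2) (by omega) (by omega) (by omega))
    · have e1 := (F1 j hj).mp q1j
      have G1 : ∀ i, i < n → i ≠ j → ((i = 0 ∨ i + 1 = n) ↔ (i = m2 + 1 ∨ m2 = i + 1)) := by
        intro i hi hne
        rw [← G2 i hi hne, ← q1 i hne]
        exact (F1 i hi).symm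
      have f1 := G1 0
      have f2 := G1 (n - 1)
      have f3 := G1 (m2 + 1)
      have f4 := G1 (m2 - 1)
      clear G1 par q1 q2 pa pn wa wn wa' wn' inU F1 F2 G2
      omega
  · -- the second pattern is {0, n-1}
    have G2 : ∀ i, i < n → i ≠ j → (B.adj u (p i) ↔ (i = 0 ∨ i + 1 = n)) := by
      intro i hi hne
      rw [← q2 i hne]
      exact F2 i hi
    have g2j : ¬ (j = 0 ∨ j + 1 = n) := fun h => q2j ((F2 j hj).mpr h)
    rcases E1 with F1 | F1 | ⟨m1, hm1, F1⟩ | F1
    · exact F1 j hj q1j
    · have G1 : ∀ i, i < n → i % 2 = j % 2 → i ≠ j → (i = 0 ∨ i + 1 = n) := by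
        intro i hi hpar hne
        exact (G2 i hi hne).mp (par F1 i hi hpar hne)
      -- parity of j is that of 0
      have a0 : B.adj u (p 0) := (G2 0 (by omega) (by omega)).mpr (by omega)
      have par0 : 0 % 2 = j % 2 := by
        apply (hp'.side 0 (by omega) j hj).mp
        rw [Function.update_self, Function.update_of_ne (by omega)]
        have e2 := B.cross a0
        revert e2 hsu
        cases B.side w <;> cases B.side u <;> cases B.side (p 0) <;> simp
      have f2 := G1 2
      have f4 := G1 4
      clear G1 par q1 q2 pa pn wa wn wa' wn' inU F1 F2 G2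
      omega
    · have e1 := (F1 j hj).mp q1j
      have G1 : ∀ i, i < n → i ≠ j → ((i = m1 + 1 ∨ m1 = i + 1) ↔ (i = 0 ∨ i + 1 = n)) := by
        intro i hi hne
        rw [← G2 i hi hne, ← q1 i hne]
        exact (F1 i hi).symm
      have f1 := G1 0
      have f2 := G1 (n - 1)
      clear G1 par q1 q2 pa pn wa wn wa' wn' inU F1 F2 G2
      omega
    · exact g2j ((F1 j hj).mp q1j)

theorem twin_module (B : BG V) (hS : B.SFree) (U : Set V) (n : ℕ) (hn : 7 ≤ n)
    (hmax : B.NoLonger U n) (p : ℕ → V) (hp : B.PathIn U n p) (j : ℕ) (hj : j < n) (w w' : V)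
    (hw : w ∈ U) (hw' : w' ∈ U) (htw : B.TwinAt n p j w) (htw' : B.TwinAt n p j w')
    (u : V) (hu : u ∈ U) : B.adj u w ↔ B.adj u w' := by
  constructor
  · intro h1
    by_contra h2
    exact twinMod_aux B hS U n hn hmax p hp j hj w w' hw hw' htw htw' u hu h1 h2
  · intro h1
    by_contra h2
    exact twinMod_aux B hS U n hn hmax p hp j hj w' w hw' hw htw' htw u hu h1 h2

end Pool.Agent.CWB
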