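import Pool.Agent.CWB.Local
import Pool.Agent.CWB.Refine

/-!
# TYDEFS: the eleven types, compatibility, blocks and triples (finite combinatorics)
-/

namespace Pool.Agent.CWB

/-- the eleven types -/
inductive Ty : Type
  | A (i : ZMod 5) : Ty
  | B (i : ZMod 5) : Ty
  | Z : Ty
  deriving DecidableEq, Fintype

namespace Ty

/-- potentially nontrivial pairs of types -/
def nt : Ty → Ty → Bool
  | A i, A j => decide (j = i + 1 ∨ i = j + 1)
  | A i, B j => decide (j = i ∨ j = i + 2 ∨ i = j + 2)
  | A _, Z => true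
  | B i, A j => decide (j = i ∨ j = i + 2 ∨ i = j + 2)
  | B i, B j => decide (j = i + 2 ∨ i = j + 2)
  | B _, Z => false
  | Z, A _ => true
  | Z, B _ => false
  | Z, Z => false

/-- the ordered pairs `(s, r)` of different types to which a vertex of type `t` can be
non-homogeneous at the same time (one order only) -/
def okpair : Ty → Ty → Ty → Bool
  | A i, s, r => decide ((s = A (i + 1) ∧ r = B (i + 2)) ∨ (s = A (i + 4) ∧ r = B (i + 3)) ∨
      (s = B i ∧ r = Z) ∨ (s = A (i + 1) ∧ r = B (i + 3)) ∨ (s = A (i + 4) ∧ r = B (i + 2)) ∨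
      (s = A (i + 1) ∧ r = Z) ∨ (s = A (i + 4) ∧ r = Z))
  | B i, s, r => decide ((s = A (i + 3) ∧ r = B (i + 2)) ∨ (s = A (i + 2) ∧ r = B (i + 3)) ∨
      (s = A (i + 2) ∧ r = A (i + 3)))
  | Z, A i, A j => decide (j = i + 1)
  | Z, _, _ => false

/-- compatible -/
def compat (t s r : Ty) : Bool :=
  nt t s && nt t r && (decide (s = r) || okpair t s r || okpair t r s)

/-- the blocks: `(false, i)` is `U i = {A i, B (i-1)} | {A (i+1), B (i+2)}`,
`(true, i)` is `W i = {A i} | {B i, Z}`. -/
def inL : Bool × ZMod 5 → Ty → Bool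
  | (false, i), t => decide (t = A i ∨ t = B (i + 4))
  | (true, i), t => decide (t = A i)

def inR : Bool × ZMod 5 → Ty → Bool
  | (false, i), t => decide (t = A (i + 1) ∨ t = B (i + 2))
  | (true, i), t => decide (t = B i ∨ t = Z)

/-- `s` and `t` are on different sides of the block `β` -/
def opp (β : Bool × ZMod 5) (s t : Ty) : Bool :=
  (inL β s && inR β t) || (inR β s && inL β t)

/-- the triples: `(false, i)` is `A i, A (i+1), B (i+3)`, `(true, i)` is `A i, A (i+1), Z` -/
def third : Bool × ZMod 5 → Ty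
  | (false, i) => B (i + 3)
  | (true, _) => Z

def inT (τ : Bool × ZMod 5) (t : Ty) : Bool :=
  decide (t = A τ.2 ∨ t = A (τ.2 + 1) ∨ t = third τ)

/-- `t, s, r` are the three different types of the triple `τ` -/
def isTr (τ : Bool × ZMod 5) (t s r : Ty) : Bool :=
  inT τ t && inT τ s && inT τ r && decide (t ≠ s) && decide (t ≠ r) && decide (s ≠ r)

/-- rotation -/
def rot (k : ZMod 5) : Ty → Ty
  | A i => A (i + k)
  | B i => B (i + k)
  | Z => Z

theorem nt_symm : ∀ s t : Ty, nt s t = nt t s := by decide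

/-- every nontrivial pair lies in a block -/
theorem nt_block : ∀ s t : Ty, nt s t = true → ∃ β, opp β s t = true := by decide

/-- compatible pairs lie in one block, or form a triple -/
theorem compat_cases : ∀ t s r : Ty, compat t s r = true →
    (∃ τ, isTr τ t s r = true) ∨ ∀ β, opp β t s = true → opp β t r = true := by decide

/-- no three compatible types -/
theorem no_third : ∀ τ, ∀ t s r q : Ty, isTr τ t s r = true → compat t q s = true →
    compat t q r = true → q = s ∨ q = r := by decide

end Ty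

variable {V : Type*}

/-- `x` has type `t` -/
def IsT (G : SimpleGraph V) (v : ZMod 5 → V) : Ty → V → Prop
  | .A i => IsA G v i
  | .B i => IsB G v i
  | .Z => IsZ G v

open Classical in
/-- the type of `x` -/
noncomputable def ty (G : SimpleGraph V) (v : ZMod 5 → V) (x : V) : Ty :=
  if h : ∃ t, IsT G v t x then h.choose else .Z

theorem ty_spec {G : SimpleGraph V} {v : ZMod 5 → V} (M : Ctx G v) (x : V) :
    IsT G v (ty G v x) x := by
  have h : ∃ t, IsT G v t x := by
    rcases M.cover x with ⟨i, hi⟩ | ⟨i, hi⟩ | h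
    · exact ⟨.A i, hi⟩
    · exact ⟨.B i, hi⟩
    · exact ⟨.Z, h⟩
  unfold ty
  rw [dif_pos h]
  exact h.choose_spec

private theorem TyDefs_unique {G : SimpleGraph V} {v : ZMod 5 → V} {t t' : Ty} {x : V}
    (h : IsT G v t x) (h' : IsT G v t' x) : t = t' := by
  rcases t with i | i | _ <;> rcases t' with j | j | _
  · have h1 : ∀ k, (k = i + 1 ∨ i = k + 1) ↔ (k = j + 1 ∨ j = k + 1) := fun k =>
      (h k).symm.trans (h' k)
    have : i = j := by
      clear h h'
      revert i j; decide
    rw [this]
  · have h1 : ∀ k, (k = i + 1 ∨ i = k + 1) ↔ k = j := fun k => (h k).symm.trans (h' k)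
    exfalso
    clear h h'
    revert i j; decide
  · exact absurd ((h (i + 1)).2 (Or.inl rfl)) (h' (i + 1))
  · have h1 : ∀ k, k = i ↔ (k = j + 1 ∨ j = k + 1) := fun k => (h k).symm.trans (h' k)
    exfalso
    clear h h'
    revert i j; decide
  · have h1 : i = i ↔ i = j := (h i).symm.trans (h' i)
    rw [h1.1 rfl]
  · exact absurd ((h i).2 rfl) (h' i)
  · exact absurd ((h' (j + 1)).2 (Or.inl rfl)) (h (j + 1))
  · exact absurd ((h' j).2 rfl) (h j)
  · rfl

theorem ty_eq {G : SimpleGraph V} {v : ZMod 5 → V} (M : Ctx G v) {t : Ty} {x : V} (h : IsT G v t x) :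
    ty G v x = t :=
  TyDefs_unique (ty_spec M x) h

theorem isT_rot {G : SimpleGraph V} {v : ZMod 5 → V} {k : ZMod 5} {t : Ty} {x : V} :
    IsT G (fun j => v (j + k)) t x ↔ IsT G v (t.rot k) x := by
  rcases t with i | i | _
  · exact isA_rot
  · exact isB_rot
  · exact isZ_rot

end Pool.Agent.CWB
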