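import Pool.Agent.CWB.Defs

/-!
# TYPES: the types of the vertices with respect to an induced 5-cycle

`v : ZMod 5 → V` is an induced 5-cycle.  In a triangle-free graph every vertex `x` (the vertices of
the cycle included) has exactly one of the types `A i` (neighbours `v (i-1)`, `v (i+1)` on the cycle),
`B i` (neighbour `v i`), `Z` (no neighbour).
-/

namespace Pool.Agent.CWB

variable {V : Type*}

def IsA (G : SimpleGraph V) (v : ZMod 5 → V) (i : ZMod 5) (x : V) : Prop :=
  ∀ j, G.Adj x (v j) ↔ (j = i + 1 ∨ i = j + 1)

def IsB (G : SimpleGraph V) (v : ZMod 5 → V) (i : ZMod 5) (x : V) : Prop :=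
  ∀ j, G.Adj x (v j) ↔ j = i

def IsZ (G : SimpleGraph V) (v : ZMod 5 → V) (x : V) : Prop := ∀ j, ¬ G.Adj x (v j)

/-- The hypotheses of the `C₅` case. -/
structure Ctx (G : SimpleGraph V) (v : ZMod 5 → V) : Prop where
  kf : KF G.Adj
  sf : SF G.Adj
  c5 : ∀ i j, G.Adj (v i) (v j) ↔ (j = i + 1 ∨ i = j + 1)
  zind : ∀ x y, IsZ G v x → IsZ G v y → ¬ G.Adj x y

variable {G : SimpleGraph V} {v : ZMod 5 → V}

theorem Ctx.sameA (M : Ctx G v) {i : ZMod 5} {x y : V} (hx : IsA G v i x) (hy : IsA G v i y) :
    ¬ G.Adj x y := fun h =>
  M.kf x y (v (i + 1)) h ((hy _).2 (Or.inl rfl)) ((hx _).2 (Or.inl rfl))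

theorem Ctx.sameB (M : Ctx G v) {i : ZMod 5} {x y : V} (hx : IsB G v i x) (hy : IsB G v i y) :
    ¬ G.Adj x y := fun h => M.kf x y (v i) h ((hy _).2 rfl) ((hx _).2 rfl)

theorem Ctx.sameZ (M : Ctx G v) {x y : V} (hx : IsZ G v x) (hy : IsZ G v y) :
    ¬ G.Adj x y := M.zind x y hx hy

/-- rotation -/
theorem Ctx.rot (M : Ctx G v) (r : ZMod 5) : Ctx G (fun j => v (j + r)) where
  kf := M.kf
  sf := M.sf
  c5 i j := by
    rw [M.c5]
    constructor
    · rintro (h | h)
      · left; linear_combination h
      · right; linear_combination h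
    · rintro (h | h)
      · left; rw [h]; ring
      · right; rw [h]; ring
  zind x y hx hy := M.zind x y
    (fun j => by have := hx (j - r); simpa using this) (fun j => by have := hy (j - r); simpa using this)

/-- reflection -/
theorem Ctx.refl (M : Ctx G v) : Ctx G (fun j => v (-j)) where
  kf := M.kf
  sf := M.sf
  c5 i j := by
    rw [M.c5]
    constructor
    · rintro (h | h)
      · right; linear_combination h
      · left; linear_combination h
    · rintro (h | h)
      · right; rw [h]; ring
      · left; rw [h]; ring
  zind x y hx hy := M.zind x y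
    (fun j => by have := hx (-j); simpa using this) (fun j => by have := hy (-j); simpa using this)

theorem isA_rot {r i : ZMod 5} {x : V} : IsA G (fun j => v (j + r)) i x ↔ IsA G v (i + r) x := by
  constructor
  · intro h j
    have := h (j - r)
    simp only [sub_add_cancel] at this
    rw [this]
    constructor
    · rintro (h | h)
      · left; linear_combination h
      · right; linear_combination h
    · rintro (h | h)
      · left; rw [h]; ring
      · right; linear_combination h
  · intro h j
    rw [h]
    constructor
    · rintro (h | h)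
      · left; linear_combination h
      · right; linear_combination h
    · rintro (h | h)
      · left; rw [h]; ring
      · right; rw [h]; ring

theorem isB_rot {r i : ZMod 5} {x : V} : IsB G (fun j => v (j + r)) i x ↔ IsB G v (i + r) x := by
  constructor
  · intro h j
    have := h (j - r)
    simp only [sub_add_cancel] at this
    rw [this, sub_eq_iff_eq_add]
  · intro h j
    rw [h]
    exact add_left_inj r

theorem isZ_rot {r : ZMod 5} {x : V} : IsZ G (fun j => v (j + r)) x ↔ IsZ G v x := by
  constructor
  · intro h j
    have := h (j - r)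
    simpa using this
  · intro h j
    exact h _

theorem isA_refl {i : ZMod 5} {x : V} : IsA G (fun j => v (-j)) i x ↔ IsA G v (-i) x := by
  constructor
  · intro h j
    have := h (-j)
    simp only [neg_neg] at this
    rw [this]
    constructor
    · rintro (h | h)
      · right; linear_combination h
      · left; linear_combination h
    · rintro (h | h)
      · right; linear_combination h
      · left; linear_combination h
  · intro h j
    rw [h]
    constructor
    · rintro (h | h)
      · right; linear_combination h
      · left; linear_combination h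
    · rintro (h | h)
      · right; rw [h]; ring
      · left; rw [h]; ring

theorem isB_refl {i : ZMod 5} {x : V} : IsB G (fun j => v (-j)) i x ↔ IsB G v (-i) x := by
  constructor
  · intro h j
    have := h (-j)
    simp only [neg_neg] at this
    rw [this, neg_eq_iff_eq_neg]
  · intro h j
    rw [h]
    exact neg_inj

theorem isZ_refl {x : V} : IsZ G (fun j => v (-j)) x ↔ IsZ G v x := by
  constructor
  · intro h j
    have := h (-j)
    simpa using this
  · intro h j
    exact h _

private theorem Types_cover_aux : ∀ f : ZMod 5 → Bool,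
    (∀ j, f j = true → f (j + 1) = true → False) →
    (∃ i, ∀ j, f j = true ↔ (j = i + 1 ∨ i = j + 1)) ∨ (∃ i, ∀ j, f j = true ↔ j = i) ∨
      ∀ j, ¬ f j = true := by
  intro f hf
  by_cases hz : ∃ j, f j = true
  · obtain ⟨j, hj⟩ := hz
    have h1 : f (j + 1) = false := by
      by_contra h
      exact hf j hj (by simpa using h)
    have h4 : f (j + 4) = false := by
      by_contra h
      refine hf (j + 4) (by simpa using h) ?_
      have e1 : ∀ j : ZMod 5, j + 4 + 1 = j := by decide
      rw [e1]; exact hj
    have e2 : ∀ j k : ZMod 5, k = j ∨ k = j + 1 ∨ k = j + 2 ∨ k = j + 3 ∨ k = j + 4 := by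
      decide
    have hall := e2 j
    clear e2
    by_cases h2 : f (j + 2) = true
    · have h3 : f (j + 3) = false := by
        by_contra h
        refine hf (j + 2) h2 ?_
        have : j + 2 + 1 = j + 3 := by ring
        rw [this]; simpa using h
      left
      refine ⟨j + 1, fun k => ?_⟩
      rcases hall k with rfl | rfl | rfl | rfl | rfl
      · simp [hj]
      · simp only [h1]
        clear h1 h2 h3 h4 hj hall
        revert j; decide
      · simp only [h2]
        clear h1 h2 h3 h4 hj hall
        revert j; decide
      · simp only [h3]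
        clear h1 h2 h3 h4 hj hall
        revert j; decide
      · simp only [h4]
        clear h1 h2 h3 h4 hj hall
        revert j; decide
    · have h2' : f (j + 2) = false := by simpa using h2
      by_cases h3 : f (j + 3) = true
      · left
        refine ⟨j + 4, fun k => ?_⟩
        rcases hall k with rfl | rfl | rfl | rfl | rfl
        · simp only [hj]
          clear h1 h2 h3 h4 hj hall h2'
          revert k; decide
        · simp only [h1]
          clear h1 h2 h3 h4 hj hall h2'
          revert j; decide
        · simp only [h2']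
          clear h1 h2 h3 h4 hj hall h2'
          revert j; decide
        · simp only [h3]
          clear h1 h2 h3 h4 hj hall h2'
          revert j; decide
        · simp only [h4]
          clear h1 h2 h3 h4 hj hall h2'
          revert j; decide
      · have h3' : f (j + 3) = false := by simpa using h3
        right; left
        refine ⟨j, fun k => ?_⟩
        rcases hall k with rfl | rfl | rfl | rfl | rfl
        · simp [hj]
        · simp only [h1]
          clear h1 h2 h3 h4 hj hall h2' h3'
          revert j; decide
        · simp only [h2']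
          clear h1 h2 h3 h4 hj hall h2' h3'
          revert j; decide
        · simp only [h3']
          clear h1 h2 h3 h4 hj hall h2' h3'
          revert j; decide
        · simp only [h4]
          clear h1 h2 h3 h4 hj hall h2' h3'
          revert j; decide
  · right; right
    intro j hj
    exact hz ⟨j, hj⟩

/-- every vertex has a type -/
theorem Ctx.cover (M : Ctx G v) (x : V) :
    (∃ i, IsA G v i x) ∨ (∃ i, IsB G v i x) ∨ IsZ G v x := by
  classical
  have h := Types_cover_aux (fun j => decide (G.Adj x (v j))) (by
    intro j h1 h2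
    simp only [decide_eq_true_eq] at h1 h2
    exact M.kf x (v j) (v (j + 1)) h1 ((M.c5 _ _).2 (Or.inl rfl)) h2)
  simp only [decide_eq_true_eq] at h
  exact h

/-- a 5-cycle in a connected graph gives a context: `Z` is independent.
If `z z'` is an edge in `Z` then (connectedness) there is one with `z ~ x`, `x ∉ Z`
(then `x ≁ z'`).  If `x` has type `A i`: centre `v (i+1)`; leaf `v i`; path `v (i+2) v (i+3)`; path `x z z'`.
If `x` has type `B i`: centre `v i`; leaf `v (i+1)`; path `v (i-1) v (i-2)`; path `x z z'`. -/
theorem ctx_of_connected (hK : KF G.Adj) (hS : SF G.Adj)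
    (hc : ∀ i j, G.Adj (v i) (v j) ↔ (j = i + 1 ∨ i = j + 1)) (hconn : G.Preconnected) :
    Ctx G v := by
  classical
  refine ⟨hK, hS, hc, ?_⟩
  intro z0 z0' hz0 hz0' hadj0
  -- an edge leaving the set of the `Z`-vertices with a `Z`-neighbour
  let S : Set V := {z | IsZ G v z ∧ ∃ z', IsZ G v z' ∧ G.Adj z z'}
  have h0S : z0 ∈ S := ⟨hz0, z0', hz0', hadj0⟩
  have hvS : v 0 ∉ S := fun h => h.1 1 ((hc 0 1).2 (Or.inl (by ring)))
  obtain ⟨w⟩ := hconn z0 (v 0)
  obtain ⟨d, _, hd1, hd2⟩ := w.exists_boundary_dart S h0S hvS
  have hadj : G.Adj d.fst d.snd := d.adj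
  generalize hz : d.fst = z at hd1 hadj
  generalize hx : d.snd = x at hd2 hadj
  clear hz hx
  obtain ⟨hZz, z', hZz', hzz'⟩ := hd1
  have hxZ : ¬ IsZ G v x := fun h => hd2 ⟨h, z, hZz, hadj.symm⟩
  have hxz' : ¬ G.Adj x z' := fun h => hK x z z' hadj.symm hzz' h
  have hcov := Types_cover_aux (fun j => decide (G.Adj x (v j))) (by
    intro j h1 h2
    simp only [decide_eq_true_eq] at h1 h2
    exact hK x (v j) (v (j + 1)) h1 ((hc _ _).2 (Or.inl rfl)) h2)
  simp only [decide_eq_true_eq] at hcov
  have nz : ∀ {y : V} {j : ZMod 5}, IsZ G v y → ¬ G.Adj (v j) y := fun h h' => h _ h'.symm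
  rcases hcov with ⟨i, hi⟩ | ⟨i, hi⟩ | h
  · have hA : ∀ j, G.Adj (v j) x ↔ (j = i + 1 ∨ i = j + 1) := fun j => by
      rw [G.adj_comm]; exact hi j
    refine hS (v (i + 1)) (v i) (v (i + 2)) (v (i + 3)) x z z' ?_ ?_ ?_ ?_ hadj.symm hzz'
      ?_ ?_ ?_ (nz hZz) (nz hZz') ?_ (nz hZz) (nz hZz') ?_ (nz hZz) (nz hZz') ?_ (nz hZz) (nz hZz')
      hxz'
    all_goals first | rw [hc] | rw [hA]
    all_goals (clear hi hA; revert i; decide)
  · have hB : ∀ j, G.Adj (v j) x ↔ j = i := fun j => by
      rw [G.adj_comm]; exact hi j
    refine hS (v i) (v (i + 1)) (v (i + 4)) (v (i + 3)) x z z' ?_ ?_ ?_ ?_ hadj.symm hzz'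
      ?_ ?_ ?_ (nz hZz) (nz hZz') ?_ (nz hZz) (nz hZz') ?_ (nz hZz) (nz hZz') ?_ (nz hZz) (nz hZz')
      hxz'
    all_goals first | rw [hc] | rw [hB]
    all_goals (clear hi hB; revert i; decide)
  · exact hxZ h

end Pool.Agent.CWB
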